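import Pool.Agent.H53R7.Space

/-! # The substitution behind the gradient of the permanent, with its value at the origin -/

set_option autoImplicit false
set_option linter.unusedSectionVars false

open MvPolynomial Finset

namespace Pool.Agent.W944

open Pool.Agent.H546R2.SL
open Pool.Agent.H546R2.SM

lemma phi_one {R : Type*} [CommRing R] {w : ℕ} (k : ℕ) (hk : 0 < k) :
    phi k (1 : MvPolynomial (Fin w) R) = 0 := by
  unfold phi
  apply Finset.sum_eq_zero
  intro S hS
  rw [eps_one, if_neg]
  rintro rfl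
  rw [Finset.mem_powersetCard, Finset.card_empty] at hS
  omega

lemma lin_zero' {R γ : Type*} [CommRing R] [DecidableEq γ] [Fintype γ] :
    lin (fun _ : γ => (0 : R)) = 0 := by
  unfold lin
  simp

lemma eval_bent_zero {K : Type*} [Field K] {q h k C₀ : ℕ} (t : K) (g : ℕ) (b b' : Fin q)
    (r : Fin (2 * k)) (c : Fin C₀) :
    eval (0 : Idx q h k → K) (bent K q h k C₀ t g b b' r c) = 0 := by
  unfold bent zent
  rw [map_mul]
  split_ifs
  · rw [map_sum]
    simp
  · simp

/-- the value at the origin of one functional -/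
lemma eval_phi_zero {K : Type*} [Field K] {q h k C₀ : ℕ} (hk : 0 < k) (t : K) (g : ℕ)
    (b b' : Fin q) :
    eval (0 : Idx q h k → K)
      (phi k (∏ r, (1 + lin (bent K q h k C₀ t g b b' r)))) = 0 := by
  rw [map_phi, map_prod]
  have h1 : ∀ r : Fin (2 * k), MvPolynomial.map (eval (0 : Idx q h k → K))
      (1 + lin (bent K q h k C₀ t g b b' r)) = 1 := by
    intro r
    rw [map_add, map_one, map_lin]
    simp only [eval_bent_zero]
    rw [lin_zero', add_zero]
  simp_rw [h1]
  rw [Finset.prod_const_one, phi_one k hk]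

/-- a parameter with the additional condition `∑ t ^ (k g²) ≠ 0` -/
theorem exists_t' (K : Type*) [Field K] [IsAlgClosed K] [CharZero K] {q h k C₀ : ℕ} (hk : 2 ≤ k)
    (hq : 0 < q) (hh : 0 < h) (hC : C₀ = 2 * k + h) :
    ∃ t : K, t ≠ 0 ∧ (∑ g : Fin h, t ^ ((g : ℕ) ^ 2 * k)) ≠ 0 ∧
      ∀ ξ : Idx q h k → K, (∀ v, eval ξ (Yf K q h k C₀ t v) = 0) → ξ = 0 := by
  set u : Polynomial K := ∑ g : Fin h, Polynomial.X ^ ((g : ℕ) ^ 2 * k) with hu
  have hu0 : u.eval 0 = 1 := by
    rw [hu, Polynomial.eval_finsetSum, Finset.sum_eq_single (⟨0, hh⟩ : Fin h)]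
    · simp
    · intro g _ hg
      have hg' : (g : ℕ) ≠ 0 := fun h => hg (Fin.ext h)
      rw [Polynomial.eval_pow, Polynomial.eval_X, zero_pow]
      exact Nat.mul_ne_zero (pow_ne_zero _ hg') (by omega)
    · intro hx; exact absurd (Finset.mem_univ _) hx
  have hmap : ∀ (s : K) v, MvPolynomial.map (Polynomial.evalRingHom s)
      (C u * Yf (Polynomial K) q h k C₀ Polynomial.X v) = C (u.eval s) * Yf K q h k C₀ s v := by
    intro s v
    rw [map_mul, map_C, map_Yf, Polynomial.coe_evalRingHom, Polynomial.eval_X]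
  obtain ⟨t, ht, h1⟩ := degenerate (K := K)
    (fun v => C u * Yf (Polynomial K) q h k C₀ Polynomial.X v) (k - 1) (by omega)
    (fun t v => by
      rw [hmap]
      exact (Yf_homog t v).C_mul _)
    (fun x hx => by
      apply zero_of_Yf hk hC x
      intro v
      have := hx v
      rwa [hmap, hu0, map_one, one_mul] at this)
  have hut : u.eval t ≠ 0 := by
    intro h0
    have h2 := h1 (fun _ => 1) (fun v => by rw [hmap, h0]; simp)
    exact one_ne_zero (congrFun h2 (⟨0, hq⟩, ⟨0, hq⟩, ⟨0, hh⟩, ⟨0, by omega⟩))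
  refine ⟨t, ht, ?_, fun ξ hξ => h1 ξ fun v => ?_⟩
  · rw [hu, Polynomial.eval_finsetSum] at hut
    simpa using hut
  · rw [hmap, map_mul, hξ v, mul_zero]

/-- the evaluation point -/
def star (K : Type*) [Field K] (q h k : ℕ) : Idx q h k → K :=
  fun x => if (x.2.2.1 : ℕ) = 0 ∧ (x.2.2.2 : ℕ) = 0 then 1 else 0

lemma eval_bent_star {K : Type*} [Field K] {q h k : ℕ} (hh : 0 < h) (hk : 0 < k) (t : K) (g : ℕ)
    (b b' : Fin q) (r : Fin (2 * k)) (c : Fin (2 * k + h)) :
    eval (star K q h k) (bent K q h k (2 * k + h) t g b b' r c) =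
      Pi.single (M := fun _ => K) (Fin.castAdd h r) (t ^ (g ^ 2)) c := by
  classical
  unfold bent zent
  rw [map_mul, eval_C]
  by_cases hc : c = Fin.castAdd h r
  · subst hc
    rw [Pi.single_eq_same, dif_pos (by simp [hh]), map_sum,
      Finset.sum_eq_single (⟨0, hk⟩ : Fin k)]
    · have h1 : ex (Fin.castAdd h r : ℕ) r g = g ^ 2 := by
        unfold ex
        rw [Fin.val_castAdd, sub_self, zero_sub, Int.natAbs_neg, Int.natAbs_natCast]
      rw [h1, map_mul, eval_C, eval_X]
      simp [star]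
    · intro l _ hl
      have hl' : (l : ℕ) ≠ 0 := fun h => hl (Fin.ext h)
      rw [map_mul, eval_X]
      simp [star, hl']
    · intro hx; exact absurd (Finset.mem_univ _) hx
  · rw [Pi.single_eq_of_ne hc]
    split_ifs with h1
    · rw [map_sum, Finset.sum_eq_zero, mul_zero]
      intro l _
      have h2 : (c : ℕ) - r ≠ 0 := by
        intro h3
        apply hc
        apply Fin.ext
        rw [Fin.val_castAdd]
        omega
      rw [map_mul, eval_X]
      simp [star, h2]
    · simp

/-- the value at the special point of one functional -/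
lemma eval_phi_star {K : Type*} [Field K] {q h k : ℕ} (hh : 0 < h) (hk : 0 < k) (t : K) (g : ℕ)
    (b b' : Fin q) :
    eval (star K q h k)
      (phi k (∏ r, (1 + lin (bent K q h k (2 * k + h) t g b b' r)))) =
      ((2 * k).choose k : K) * t ^ (g ^ 2 * k) := by
  classical
  rw [map_phi, map_prod]
  have h1 : ∀ r : Fin (2 * k), MvPolynomial.map (eval (star K q h k))
      (1 + lin (bent K q h k (2 * k + h) t g b b' r)) =
      1 + lin (Pi.single (M := fun _ => K) (Fin.castAddEmb h r) (t ^ (g ^ 2))) := by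
    intro r
    rw [map_add, map_one, map_lin]
    congr 1
    congr 1
    funext c
    exact eval_bent_star hh hk t g b b' r c
  simp_rw [h1]
  unfold phi
  have h2 : ∀ S ∈ (Finset.univ : Finset (Fin (2 * k + h))).powersetCard k,
      eps S (∏ r, (1 + lin (Pi.single (M := fun _ => K) (Fin.castAddEmb h r) (t ^ (g ^ 2))))) =
      if S ⊆ (Finset.univ : Finset (Fin (2 * k))).map (Fin.castAddEmb h) then t ^ (g ^ 2 * k)
        else 0 := by
    intro S hS
    rw [eps_diag (Fin.castAddEmb h) (fun _ => t ^ (g ^ 2)) (fun _ => t ^ (g ^ 2)) (fun _ => rfl),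
      Finset.prod_const, (Finset.mem_powersetCard.mp hS).2, ← pow_mul]
  rw [Finset.sum_congr rfl h2, ← Finset.sum_filter, Finset.sum_const]
  have h3 : ((Finset.univ : Finset (Fin (2 * k + h))).powersetCard k).filter
      (fun S => S ⊆ (Finset.univ : Finset (Fin (2 * k))).map (Fin.castAddEmb h)) =
      ((Finset.univ : Finset (Fin (2 * k))).map (Fin.castAddEmb h)).powersetCard k := by
    ext S
    simp only [Finset.mem_filter, Finset.mem_powersetCard]
    constructor
    · rintro ⟨⟨_, h4⟩, h5⟩; exact ⟨h5, h4⟩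
    · rintro ⟨h4, h5⟩; exact ⟨⟨Finset.subset_univ _, h5⟩, h4⟩
  rw [h3, Finset.card_powersetCard, Finset.card_map, Finset.card_univ, Fintype.card_fin,
    nsmul_eq_mul]

theorem exists_subst' (K : Type*) [Field K] [IsAlgClosed K] [CharZero K] {q h k p : ℕ}
    (hk : 2 ≤ k) (hq : 0 < q) (hh : 0 < h) (N : ℕ)
    (hN : N = q * (4 * k + h) + h * (2 * k + h + 2) + (3 * k + h + 1) + p) :
    ∃ (S : Fin N × Fin N → MvPolynomial (Idx q h k) K)
      (y : Fin q × Fin q × Fin (2 * k) × Fin (2 * k + h) → MvPolynomial (Idx q h k) K),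
      (∀ v, S v ∈ restrictTotalDegree (Idx q h k) K 1) ∧
      (∀ v, (y v).IsHomogeneous (k - 1)) ∧
      (∀ x : Idx q h k → K, (∀ v, eval x (y v) = 0) → x = 0) ∧
      (∀ v, ∃ (c : K) (u : Fin N × Fin N), y v = C c * aeval S (pderiv u (perN K N))) ∧
      eval (0 : Idx q h k → K) (aeval S (perN K N)) = 0 ∧ aeval S (perN K N) ≠ 0 := by
  classical
  obtain ⟨zC, hzC⟩ := exists_zeta K (2 * k + h) (by omega)
  obtain ⟨zU, hzU⟩ := exists_zeta K (k + 1) (by omega)
  obtain ⟨zm, hzm⟩ := exists_zeta K (2 * k) (by omega)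
  obtain ⟨zV, hzV⟩ := exists_zeta K (k + h + 1) (by omega)
  obtain ⟨t, ht, hut, hzero⟩ := exists_t' (q := q) (h := h) (k := k) (C₀ := 2 * k + h) K hk hq hh
    rfl
  set FMA := FM K q h k p t zC zU zm zV (Aent K q h k t) with hFMA
  let er : Fin N ≃ FR q h (2 * k) (2 * k + h) k (k + h) p :=
    Fintype.equivOfCardEq (by rw [card_FR, Fintype.card_fin, hN]; ring)
  let ec : Fin N ≃ FC q h (2 * k) (2 * k + h) k (k + h) p :=
    Fintype.equivOfCardEq (by rw [card_FC, Fintype.card_fin, hN]; ring)
  have hCmem : ∀ x : K, C x ∈ restrictTotalDegree (Idx q h k) K 1 := by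
    intro x
    rw [mem_restrictTotalDegree, totalDegree_C]
    exact Nat.zero_le _
  have hdeg : ∀ i j, FMA i j ∈ restrictTotalDegree (Idx q h k) K 1 := by
    intro i j
    rw [hFMA]
    unfold FM
    apply fin_mem (W := (restrictTotalDegree (Idx q h k) K 1 : Set (MvPolynomial (Idx q h k) K)))
    · exact Submodule.zero_mem _
    · exact hCmem 1
    · exact fun _ => hCmem _
    · exact fun _ => hCmem _
    · exact fun _ => hCmem _
    · exact fun _ => hCmem _
    · intro b b' r c
      have := ((zent_homog (K := K) (h := h) b b' r c).C_mul (t ^ ex c r 0)).totalDegree_le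
      exact (mem_restrictTotalDegree _ _ _).mpr this
    · exact fun _ _ => hCmem _
    · exact fun _ _ => hCmem _
    · exact fun _ => hCmem _
  refine ⟨fun x => FMA (er x.1) (ec x.2), fun v => Yf K q h k (2 * k + h) t v,
    fun v => hdeg _ _, fun v => Yf_homog t v, hzero, ?_, ?_⟩
  · rintro ⟨b₀, b₀', r₀, c₀⟩
    refine ⟨(cst K q h (2 * k) (2 * k + h) k (k + h) p (-1) (-1) (-1) (-1))⁻¹ * t ^ ex c₀ r₀ 0,
      (er.symm (posR b₀' c₀), ec.symm (posC b₀ r₀)), ?_⟩
    have h1 : aeval (fun x : Fin N × Fin N => FMA (er x.1) (ec x.2))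
        (pderiv (er.symm (posR b₀' c₀), ec.symm (posC b₀ r₀)) (perN K N)) = _ :=
      aeval_pderiv FMA er ec (er.symm (posR b₀' c₀)) (ec.symm (posC b₀ r₀))
    rw [Equiv.apply_symm_apply, Equiv.apply_symm_apply] at h1
    have h2 := per_add FMA (FM K q h k p t zC zU zm zV (fun b b' r c => Aent K q h k t b b' r c +
        if b' = b₀' ∧ c = c₀ then (if b = b₀ ∧ r = r₀ then 1 else 0) else 0))
      (posR b₀' c₀) (posC b₀ r₀) (fun i j => fin_add _ _ _ _ _ _ _ _ _ b₀ b₀' r₀ c₀
        (fun _ _ _ _ => rfl) i j)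
    rw [← h2] at h1
    have hne := cst_ne_zero (K := K) q h (2 * k) (2 * k + h) k (k + h) p
    rw [h1, map_mul, mul_assoc, hFMA, FM_diff ht (by omega) zC zU zm zV hzC hzU hzm hzV b₀ b₀' r₀
      c₀, ← mul_assoc, ← map_mul, inv_mul_cancel₀ hne, map_one, one_mul]
  · have h1 : aeval (fun x : Fin N × Fin N => FMA (er x.1) (ec x.2)) (perN K N) = per FMA := by
      have h2 := map_permanent (aeval (R := K)
        (fun p : Fin N × Fin N => FMA (er p.1) (ec p.2))).toRingHom
        (fun i j : Fin N => (X (i, j) : MvPolynomial (Fin N × Fin N) K))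
      unfold per
      rw [← permanent_eq FMA er ec]
      refine h2.trans ?_
      congr 1
      ext i j
      simp only [Matrix.of_apply, AlgHom.toRingHom_eq_coe, RingHom.coe_coe, aeval_X]
    have h2 : per FMA = C (cst K q h (2 * k) (2 * k + h) k (k + h) p (-1) (-1) (-1) (-1)) *
        ∑ b : Fin q, ∑ b' : Fin q, ∑ g : Fin h,
          phi k (∏ r, (1 + lin (bent K q h k (2 * k + h) t g b b' r))) := by
      rw [hFMA]
      unfold FM
      rw [per_fin (k := k) _ _ _ _ (-1) (-1) (-1) (-1) (zeta_C zC hzC) (zeta_C zU hzU)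
        (zeta_C zm hzm) (zeta_C zV hzV) (by omega) (by ring) (by ring), cst_C]
      congr 1
      apply Finset.sum_congr rfl
      intro b _
      apply Finset.sum_congr rfl
      intro b' _
      apply Finset.sum_congr rfl
      intro g _
      apply wX_Phi ht
      intro r c
      have h1 := weight_identity ht g c r
      unfold Aent bent
      rw [← mul_assoc, ← map_mul, h1, map_mul, map_mul]
      ring
    rw [h1, h2]
    constructor
    · simp only [map_mul, map_sum]
      simp only [eval_phi_zero (show 0 < k by omega)]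
      simp
    · intro h0
      have h3 := congrArg (eval (star K q h k)) h0
      simp only [map_mul, map_sum, eval_C, map_zero] at h3
      simp only [eval_phi_star hh (show 0 < k by omega)] at h3
      rw [Finset.sum_const, Finset.sum_const, Finset.card_univ, Fintype.card_fin,
        ← Finset.mul_sum, nsmul_eq_mul, nsmul_eq_mul] at h3
      have hne := cst_ne_zero (K := K) q h (2 * k) (2 * k + h) k (k + h) p
      have hq' : (q : K) ≠ 0 := by exact_mod_cast hq.ne'
      have hch : (((2 * k).choose k : ℕ) : K) ≠ 0 := by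
        exact_mod_cast (Nat.choose_pos (by omega : k ≤ 2 * k)).ne'
      exact (mul_ne_zero hne (mul_ne_zero hq' (mul_ne_zero hq' (mul_ne_zero hch hut)))) h3

end Pool.Agent.W944
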