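import Pool.Agent.W944.SmoothMain

/-! # Smooth forms over an arbitrary field, and limits of determinants -/

set_option autoImplicit false
set_option linter.unusedSectionVars false

open Module MvPolynomial

namespace Pool.Agent.W944

open Pool.Agent.H632R2.Border (O0 φ0 ψ0 φψ rmap rmap_mem rmap_eval mem_O0 totalDegree_map_le
  eval_ne_of_dvd)

lemma inv_mem_O0 (Ω : Type*) [Field Ω] (c : O0 Ω) (hc : φ0 Ω c ≠ 0) :
    ((c : RatFunc Ω)⁻¹) ∈ O0 Ω := by
  have h0 : (c : RatFunc Ω) ≠ 0 := by
    intro h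
    apply hc
    have : c = 0 := Subtype.val_injective h
    rw [this, map_zero]
  rw [mem_O0]
  refine eval_ne_of_dvd Ω (RatFunc.denom_inv_dvd h0) ?_
  intro h
  apply hc
  change RatFunc.eval (RingHom.id Ω) 0 (c : RatFunc Ω) = 0
  rw [RatFunc.eval]
  have : Polynomial.eval₂ (RingHom.id Ω) 0 (c : RatFunc Ω).num = 0 := by
    rw [Polynomial.eval₂_id]; exact h
  rw [this, zero_div]

/-- the determinant of a matrix over `k(ε)` with limit `F` gives an integral polynomial over the
algebraic closure -/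
lemma exists_lift {k : Type*} [Field k] {σ : Type*} {N : ℕ}
    (A : Matrix (Fin N) (Fin N) (MvPolynomial σ (RatFunc k)))
    (hA : ∀ i j, (A i j).totalDegree ≤ 1) (F : MvPolynomial σ k)
    (hdet : ∀ m, (coeff m A.det).denom.eval 0 ≠ 0 ∧
      RatFunc.eval (RingHom.id k) 0 (coeff m A.det) = coeff m F) :
    ∃ (A' : Matrix (Fin N) (Fin N) (MvPolynomial σ (RatFunc (AlgebraicClosure k))))
      (D : MvPolynomial σ (O0 (AlgebraicClosure k))),
      (∀ i j, (A' i j).totalDegree ≤ 1) ∧ map (O0 (AlgebraicClosure k)).subtype D = A'.det ∧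
      map (φ0 (AlgebraicClosure k)) D = map (algebraMap k (AlgebraicClosure k)) F := by
  set Ω := AlgebraicClosure k with hΩ
  set ρ := rmap (algebraMap k Ω) with hρ
  set A' := A.map (map ρ) with hA'
  have hdetA : A'.det = map ρ A.det := by
    rw [hA', ← RingHom.mapMatrix_apply, ← RingHom.map_det]
  have hcoef : ∀ d, coeff d (MvPolynomial.map ρ A.det) ∈ O0 Ω := by
    intro d
    rw [coeff_map]
    exact rmap_mem _ (hdet d).1
  have hrange : MvPolynomial.map ρ A.det ∈ (MvPolynomial.map (σ := σ) (O0 Ω).subtype).range := by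
    rw [RingHom.mem_range]
    change _ ∈ Set.range _
    rw [mem_range_map_iff_coeffs_subset]
    intro x hx
    rw [Finset.mem_coe, mem_coeffs_iff] at hx
    obtain ⟨d, _, rfl⟩ := hx
    exact ⟨⟨_, hcoef d⟩, rfl⟩
  obtain ⟨D, hD⟩ := hrange
  refine ⟨A', D, fun i j => (totalDegree_map_le _ _).trans (hA i j), ?_, ?_⟩
  · rw [hdetA]; exact hD
  · ext d
    rw [coeff_map, coeff_map, ← (hdet d).2, ← rmap_eval (algebraMap k Ω) (hdet d).1]
    congr 1
    apply Subtype.ext
    have h1 := congrArg (coeff d) hD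
    rw [coeff_map] at h1
    exact h1

/-- limits of determinants and smooth forms over any field -/
theorem smooth_final (k : Type*) [Field k] (n d N : ℕ) (hdn : d ^ 16 ≤ 2 ^ n)
    (F : MvPolynomial (Fin n) k) (hF : F.IsHomogeneous d)
    (hsm : ∀ x : Fin n → AlgebraicClosure k, aeval x F = 0 →
      (∀ i, aeval x (pderiv i F) = 0) → x = 0)
    (A : Matrix (Fin N) (Fin N) (MvPolynomial (Fin n) (RatFunc k)))
    (hA : ∀ i j, (A i j).totalDegree ≤ 1)
    (hdet : ∀ m, (coeff m A.det).denom.eval 0 ≠ 0 ∧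
      RatFunc.eval (RingHom.id k) 0 (coeff m A.det) = coeff m F) :
    n * d ≤ 12 * N + 10 * n := by
  rcases Nat.lt_or_ge n 2 with hn | hn
  · have h1 : d < 2 := by
      by_contra hcon
      push Not at hcon
      have h2 : 2 ^ 16 ≤ d ^ 16 := Nat.pow_le_pow_left hcon 16
      have h3 : 2 ^ n ≤ 2 ^ 1 := Nat.pow_le_pow_right (by norm_num) (by omega)
      omega
    have : n * d ≤ n * 1 := Nat.mul_le_mul_left _ (by omega)
    omega
  rcases Nat.eq_zero_or_pos d with hd | hd
  · subst hd; simp
  obtain ⟨A', D, hA', hD, hDF⟩ := exists_lift A hA F hdet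
  have h := smooth_ineq_closed (φψ (AlgebraicClosure k)) (inv_mem_O0 (AlgebraicClosure k))
    (map (algebraMap k (AlgebraicClosure k)) F) d hd (hF.map _) (by
      intro x h0 h1
      apply hsm x
      · rw [aeval_def, ← eval_map]; exact h0
      · intro i
        rw [aeval_def, ← eval_map, ← pderiv_map]; exact h1 i) (by rw [Fintype.card_fin]; exact hn)
    N A' hA' D hD hDF
  rw [Fintype.card_fin] at h
  exact final_smooth n d N hn hd hdn h

/-- the general inequality over any field -/
theorem smooth_general (k : Type*) [Field k] (n d N : ℕ) (hn : 2 ≤ n) (hd : 1 ≤ d)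
    (F : MvPolynomial (Fin n) k) (hF : F.IsHomogeneous d)
    (hsm : ∀ x : Fin n → AlgebraicClosure k, aeval x F = 0 →
      (∀ i, aeval x (pderiv i F) = 0) → x = 0)
    (A : Matrix (Fin N) (Fin N) (MvPolynomial (Fin n) (RatFunc k)))
    (hA : ∀ i j, (A i j).totalDegree ≤ 1)
    (hdet : ∀ m, (coeff m A.det).denom.eval 0 ≠ 0 ∧
      RatFunc.eval (RingHom.id k) 0 (coeff m A.det) = coeff m F) :
    2 * ((d - 1 : ℕ) : ℝ) ^ (n - 2) ≤ (Real.exp 1 * (4 * N / n + 3)) ^ n := by
  obtain ⟨A', D, hA', hD, hDF⟩ := exists_lift A hA F hdet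
  have h := smooth_ineq_closed (φψ (AlgebraicClosure k)) (inv_mem_O0 (AlgebraicClosure k))
    (map (algebraMap k (AlgebraicClosure k)) F) d hd (hF.map _) (by
      intro x h0 h1
      apply hsm x
      · rw [aeval_def, ← eval_map]; exact h0
      · intro i
        rw [aeval_def, ← eval_map, ← pderiv_map]; exact h1 i) (by rw [Fintype.card_fin]; exact hn)
    N A' hA' D hD hDF
  rwa [Fintype.card_fin] at h

/-- a matrix over `k` as a constant family -/
lemma const_family (k : Type*) [Field k] {σ : Type*} (N : ℕ)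
    (A : Matrix (Fin N) (Fin N) (MvPolynomial σ k)) (hA : ∀ i j, (A i j).totalDegree ≤ 1) :
    ∃ A' : Matrix (Fin N) (Fin N) (MvPolynomial σ (RatFunc k)),
      (∀ i j, (A' i j).totalDegree ≤ 1) ∧
      ∀ m, (coeff m A'.det).denom.eval 0 ≠ 0 ∧
        RatFunc.eval (RingHom.id k) 0 (coeff m A'.det) = coeff m A.det := by
  refine ⟨A.map (map RatFunc.C), fun i j => (totalDegree_map_le _ _).trans (hA i j), ?_⟩
  intro m
  have h1 : (A.map (map (RatFunc.C (K := k)))).det = map RatFunc.C A.det := by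
    rw [← RingHom.mapMatrix_apply, ← RingHom.map_det]
  rw [h1, coeff_map]
  constructor
  · rw [RatFunc.denom_C]; simp
  · rw [RatFunc.eval_C]; rfl

/-- the power sum is smooth -/
lemma powerSum_smooth (k : Type*) [Field k] (n d : ℕ) (hd : (d : k) ≠ 0)
    (x : Fin n → AlgebraicClosure k)
    (h : ∀ i, aeval x (pderiv i (∑ i : Fin n, (X i : MvPolynomial (Fin n) k) ^ d)) = 0) :
    x = 0 := by
  classical
  funext i
  have h1 := h i
  rw [map_sum, Finset.sum_eq_single i] at h1
  · rw [Derivation.leibniz_pow, pderiv_X_self] at h1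
    simp only [nsmul_eq_mul, smul_eq_mul, mul_one, map_mul, map_natCast, map_pow, aeval_X] at h1
    have h2 : ((d : ℕ) : AlgebraicClosure k) ≠ 0 := by
      have := (map_ne_zero_iff (algebraMap k (AlgebraicClosure k))
        (algebraMap k (AlgebraicClosure k)).injective).mpr hd
      rwa [map_natCast] at this
    have h3 := (mul_eq_zero.mp h1).resolve_left h2
    exact eq_zero_of_pow_eq_zero h3
  · intro j _ hj
    rw [Derivation.leibniz_pow, pderiv_X_of_ne hj]
    simp
  · intro hh; exact absurd (Finset.mem_univ _) hh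

lemma powerSum_homog (k : Type*) [Field k] (n d : ℕ) :
    (∑ i : Fin n, (X i : MvPolynomial (Fin n) k) ^ d).IsHomogeneous d :=
  IsHomogeneous.sum _ _ _ fun i _ => isHomogeneous_X_pow i d

end Pool.Agent.W944
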