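import Pool.Agent.W944.Family
import Pool.Agent.W944.SmoothFinal
import Pool.Agent.W944.PermSubst

/-! # The determinantal complexity of the permanent -/

set_option autoImplicit false
set_option linter.unusedSectionVars false

open Module MvPolynomial

namespace Pool.Agent.W944

open Pool.Agent.H546R2.SL (perN)
open Pool.Agent.H546R2.SM (Idx)
open Pool.Agent.H632R2.Border (O0 φ0 ψ0 φψ)

/-- the inequality for the permanent with free parameters -/
theorem perm_ineq (k₀ : Type*) [Field k₀] [CharZero k₀] {q h k p : ℕ} (hk : 2 ≤ k) (hq : 0 < q)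
    (hh : 0 < h) (m N : ℕ)
    (hm : m = q * (4 * k + h) + h * (2 * k + h + 2) + (3 * k + h + 1) + p)
    (A : Matrix (Fin N) (Fin N) (MvPolynomial (Fin m × Fin m) (RatFunc k₀)))
    (hA : ∀ i j, (A i j).totalDegree ≤ 1)
    (hdet : ∀ μ, (coeff μ A.det).denom.eval 0 ≠ 0 ∧
      RatFunc.eval (RingHom.id k₀) 0 (coeff μ A.det) = coeff μ (perN k₀ m)) :
    2 * ((k - 1 : ℕ) : ℝ) ^ (q * (q * (h * k)) - 2) ≤
      (Real.exp 1 * (4 * N / (q * (q * (h * k)) : ℕ) + 3)) ^ (q * (q * (h * k))) := by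
  obtain ⟨A', D, hA', hD, hDF⟩ := exists_lift A hA (perN k₀ m) hdet
  rw [Pool.Agent.H546R2.SL.map_perN] at hDF
  obtain ⟨S, y, hS, hy, hz, hyS, hS0, hS1⟩ := exists_subst' (AlgebraicClosure k₀) hk hq hh m hm
  have hcard : Fintype.card (Idx q h k) = q * (q * (h * k)) := by
    simp [Idx, Fintype.card_prod]
  have hcard2 : 2 ≤ Fintype.card (Idx q h k) := by
    rw [hcard]
    calc 2 ≤ 1 * (1 * (1 * k)) := by omega
      _ ≤ _ := Nat.mul_le_mul hq (Nat.mul_le_mul hq (Nat.mul_le_mul hh le_rfl))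
  have hunit : ¬ IsUnit (aeval S (perN (AlgebraicClosure k₀) m)) := by
    intro hu
    have h1 := hu.map (eval (0 : Idx q h k → AlgebraicClosure k₀))
    rw [hS0] at h1
    exact not_isUnit_zero h1
  have h := subst_ineq (φψ (AlgebraicClosure k₀)) (inv_mem_O0 (AlgebraicClosure k₀))
    (perN (AlgebraicClosure k₀) m) S (fun v => (mem_restrictTotalDegree _ _ _).mp (hS v)) hS1 hunit
    y (k - 1) hy hz hyS hcard2 N A' hA' D hD hDF
  rwa [hcard] at h

/-- the explicit bound -/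
theorem perm_bound (k₀ : Type*) [Field k₀] [CharZero k₀] (m N : ℕ)
    (A : Matrix (Fin N) (Fin N) (MvPolynomial (Fin m × Fin m) (RatFunc k₀)))
    (hA : ∀ i j, (A i j).totalDegree ≤ 1)
    (hdet : ∀ μ, (coeff μ A.det).denom.eval 0 ≠ 0 ∧
      RatFunc.eval (RingHom.id k₀) 0 (coeff μ A.det) = coeff μ (perN k₀ m)) :
    m ^ 2 * (Nat.sqrt m - 44) ≤ 2134 * N := by
  rcases Nat.lt_or_ge 44 (Nat.sqrt m) with hs | hs
  swap
  · rw [Nat.sub_eq_zero_of_le hs]; simp
  set s := Nat.sqrt m with hsdef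
  have hs2 : s * s ≤ m := Nat.sqrt_le m
  set k := s / 4 with hk
  have hk1 : 4 * k ≤ s := by omega
  have hk2 : s ≤ 4 * k + 3 := by omega
  have hk11 : 11 ≤ k := by omega
  have hkm : 16 * (k * k) ≤ m := by nlinarith
  -- the number of blocks
  set X := m - (3 * (k * k) + 6 * k + 1) with hX
  set q := X / (5 * k) with hq
  have h11 : 11 * k ≤ k * k := Nat.mul_le_mul_right k hk11
  have hXm : X + (3 * (k * k) + 6 * k + 1) = m := by omega
  have hdiv := Nat.div_add_mod X (5 * k)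
  have hmod := Nat.mod_lt X (show 0 < 5 * k by omega)
  rw [← hq] at hdiv
  have hqk : m ≤ 5 * (q * k) + (3 * (k * k) + 11 * k) := by nlinarith
  have h4 : 3 * m ≤ 20 * (q * k) := by nlinarith
  have hqpos : 0 < q := by
    rcases Nat.eq_zero_or_pos q with h0 | h0
    · rw [h0] at h4; omega
    · exact h0
  have hmain := perm_ineq k₀ (q := q) (h := k) (k := k) (p := X % (5 * k)) (by omega) hqpos
    (by omega) m N (by rw [← hXm]; nlinarith) A hA hdet
  set M := q * (q * (k * k)) with hM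
  have hMq : M = (q * k) * (q * k) := by rw [hM]; ring
  have hqk2 : 2 ≤ q := by nlinarith
  have hMge : 16 * k ≤ M := by nlinarith
  have hk16 : k ^ 16 ≤ 2 ^ M := by
    calc k ^ 16 ≤ (2 ^ k) ^ 16 := Nat.pow_le_pow_left (Nat.lt_two_pow_self).le 16
      _ = 2 ^ (16 * k) := by rw [← pow_mul]; ring_nf
      _ ≤ 2 ^ M := Nat.pow_le_pow_right (by norm_num) hMge
  have hfin := final_smooth M k N (by omega) (by omega) hk16 hmain
  -- `M k ≤ 12 N + 10 M`
  have h5 : M * (k - 10) ≤ 12 * N := by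
    have : M * (k - 10) = M * k - M * 10 := Nat.mul_sub _ _ _
    omega
  have h6 : s - 43 ≤ 4 * (k - 10) := by omega
  have h7 : 9 * m ^ 2 ≤ 400 * M := by
    have h71 := Nat.mul_le_mul h4 h4
    have h72 : 3 * m * (3 * m) = 9 * m ^ 2 := by ring
    have h73 : 20 * (q * k) * (20 * (q * k)) = 400 * M := by rw [hMq]; ring
    rwa [h72, h73] at h71
  have h8 : 9 * m ^ 2 * (s - 43) ≤ 400 * M * (4 * (k - 10)) := Nat.mul_le_mul h7 h6
  have h9 : 400 * M * (4 * (k - 10)) = 1600 * (M * (k - 10)) := by ring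
  have h10 : m ^ 2 * (s - 44) ≤ m ^ 2 * (s - 43) := Nat.mul_le_mul_left _ (by omega)
  have h11' : 9 * m ^ 2 * (s - 43) = 9 * (m ^ 2 * (s - 43)) := by ring
  omega

end Pool.Agent.W944
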