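import Pool.Agent.W944.WtPerm

/-! # Computations with levels of power sums -/

set_option autoImplicit false
set_option linter.unusedSectionVars false
set_option linter.unusedVariables false

open Module MvPolynomial

namespace Pool.Agent.W944.Wt

variable {K σ : Type*} [Field K]

/-- a computation with levels; `hv s = true` for the heavy products -/
structure Sys (δ : ℕ) {n : ℕ} (a b : Fin n → MvPolynomial σ K) (lev : Fin n → ℕ)
    (hv : Fin n → Bool) : Prop where
  left : ∀ s, a s ∈ Avail δ (fun j => a j * b j) {j | j < s ∧ lev j ≤ lev s}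
  right : ∀ s, b s ∈ Avail δ (fun j => a j * b j) {j | j < s ∧ lev j ≤ lev s}
  light : ∀ s, hv s = false → 1 ≤ lev s ∧
    a s ∈ Avail δ (fun j => a j * b j) {j | j < s ∧ lev j < lev s}

/-- number of light products of level `i` -/
def cL {n : ℕ} (lev : Fin n → ℕ) (hv : Fin n → Bool) (i : ℕ) : ℕ :=
  ∑ s, if hv s = false ∧ lev s = i then 1 else 0

/-- number of heavy products -/
def cH {n : ℕ} (hv : Fin n → Bool) : ℕ := ∑ s, if hv s = true then 1 else 0

lemma avail_append {δ n N : ℕ} (a b : Fin n → MvPolynomial σ K) (u v : Fin N → MvPolynomial σ K)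
    (J : Set (Fin n)) (J' : Set (Fin (n + N))) (hJ : ∀ j ∈ J, Fin.castAdd N j ∈ J')
    (x : MvPolynomial σ K) (hx : x ∈ Avail δ (fun j => a j * b j) J) :
    x ∈ Avail δ (fun j => Fin.append a u j * Fin.append b v j) J' := by
  have key : Avail δ (fun j => a j * b j) J ≤
      Avail δ (fun j => Fin.append a u j * Fin.append b v j) J' := by
    unfold Avail
    refine sup_le_sup le_rfl (Submodule.span_mono ?_)
    rintro y ⟨j, hj, rfl⟩
    refine ⟨Fin.castAdd N j, hJ j hj, ?_⟩
    simp only [Fin.append_left]
  exact key hx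

/-- adding a block of `N` products of level `l` -/
lemma Sys.block {δ n N : ℕ} {a b : Fin n → MvPolynomial σ K} {lev : Fin n → ℕ}
    {hv : Fin n → Bool} (h : Sys δ a b lev hv) (l : ℕ) (hb : Bool) (hbl : hb = false → 1 ≤ l)
    (u v : Fin N → MvPolynomial σ K)
    (hu : ∀ i, u i ∈ Avail δ (fun j => a j * b j)
      {j | if hb = true then lev j ≤ l else lev j < l})
    (hv' : ∀ i, v i ∈ Avail δ (fun j => a j * b j) {j | lev j ≤ l}) :
    Sys δ (Fin.append a u) (Fin.append b v) (Fin.append lev fun _ => l)
      (Fin.append hv fun _ => hb) := by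
  constructor
  · intro s
    refine Fin.addCases (fun s => ?_) (fun s => ?_) s
    · simp only [Fin.append_left]
      apply avail_append a b u v _ _ _ _ (h.left s)
      rintro j ⟨h1, h2⟩
      refine ⟨?_, ?_⟩
      · exact h1
      · simp only [Fin.append_left]; exact h2
    · simp only [Fin.append_right]
      apply avail_append a b u v _ _ _ _ (hu s)
      intro j hj
      refine ⟨?_, ?_⟩
      · have : (Fin.castAdd N j : ℕ) < (Fin.natAdd n s : ℕ) := by
          simp only [Fin.val_castAdd, Fin.val_natAdd]
          omega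
        exact this
      · simp only [Fin.append_left, Fin.append_right]
        have h3 : if hb = true then lev j ≤ l else lev j < l := hj
        split_ifs at h3
        · exact h3
        · exact h3.le
  · intro s
    refine Fin.addCases (fun s => ?_) (fun s => ?_) s
    · simp only [Fin.append_left]
      apply avail_append a b u v _ _ _ _ (h.right s)
      rintro j ⟨h1, h2⟩
      refine ⟨?_, ?_⟩
      · exact h1
      · simp only [Fin.append_left]; exact h2
    · simp only [Fin.append_right]
      apply avail_append a b u v _ _ _ _ (hv' s)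
      intro j hj
      refine ⟨?_, ?_⟩
      · have : (Fin.castAdd N j : ℕ) < (Fin.natAdd n s : ℕ) := by
          simp only [Fin.val_castAdd, Fin.val_natAdd]
          omega
        exact this
      · simp only [Fin.append_left, Fin.append_right]
        exact hj
  · intro s
    refine Fin.addCases (fun s => ?_) (fun s => ?_) s
    · simp only [Fin.append_left]
      intro hs
      obtain ⟨h1, h2⟩ := h.light s hs
      refine ⟨h1, ?_⟩
      apply avail_append a b u v _ _ _ _ h2
      rintro j ⟨h3, h4⟩
      refine ⟨?_, ?_⟩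
      · exact h3
      · simp only [Fin.append_left]; exact h4
    · simp only [Fin.append_right]
      intro hs
      refine ⟨hbl hs, ?_⟩
      apply avail_append a b u v _ _ _ _ (hu s)
      intro j hj
      refine ⟨?_, ?_⟩
      · have : (Fin.castAdd N j : ℕ) < (Fin.natAdd n s : ℕ) := by
          simp only [Fin.val_castAdd, Fin.val_natAdd]
          omega
        exact this
      · simp only [Fin.append_left]
        have h3 : if hb = true then lev j ≤ l else lev j < l := hj
        rw [hs] at h3
        simpa using h3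

lemma cL_append {n N : ℕ} (lev : Fin n → ℕ) (hv : Fin n → Bool) (l : ℕ) (hb : Bool) (i : ℕ) :
    cL (Fin.append lev fun _ : Fin N => l) (Fin.append hv fun _ => hb) i =
      cL lev hv i + if hb = false ∧ l = i then N else 0 := by
  unfold cL
  rw [Fin.sum_univ_add]
  simp only [Fin.append_left, Fin.append_right]
  congr 1
  rw [Finset.sum_const, Finset.card_univ, Fintype.card_fin]
  split_ifs <;> simp

lemma cH_append {n N : ℕ} (hv : Fin n → Bool) (hb : Bool) :
    cH (Fin.append hv fun _ : Fin N => hb) = cH hv + if hb = true then N else 0 := by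
  unfold cH
  rw [Fin.sum_univ_add]
  simp only [Fin.append_left, Fin.append_right]
  congr 1
  rw [Finset.sum_const, Finset.card_univ, Fintype.card_fin]
  split_ifs <;> simp

/-- the new products are available -/
lemma new_avail {δ n N : ℕ} (a b : Fin n → MvPolynomial σ K) (u v : Fin N → MvPolynomial σ K)
    (J' : Set (Fin (n + N))) (i : Fin N) (hi : Fin.natAdd n i ∈ J') :
    u i * v i ∈ Avail δ (fun j => Fin.append a u j * Fin.append b v j) J' := by
  unfold Avail
  apply Submodule.mem_sup_right
  apply Submodule.subset_span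
  refine ⟨Fin.natAdd n i, hi, ?_⟩
  simp only [Fin.append_right]

/-- the existence statement -/
def Has (K : Type*) [Field K] (N δ : ℕ) (t : ℕ) (e : ℕ) (cl : ℕ → ℕ) (ch : ℕ) : Prop :=
  ∃ (n : ℕ) (a b : Fin n → MvPolynomial (Fin N) K) (lev : Fin n → ℕ) (hv : Fin n → Bool),
    Sys δ a b lev hv ∧ ((∀ s, lev s ≤ t) ∧ ∀ s, hv s = true → lev s = 0) ∧
      (∀ i, cL lev hv i = cl i) ∧ cH hv = ch ∧
      ∀ i, (X i : MvPolynomial (Fin N) K) ^ e ∈ Avail δ (fun j => a j * b j) {j | lev j ≤ t}

lemma has_zero (N δ : ℕ) : Has K N δ 0 δ (fun _ => 0) 0 := by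
  refine ⟨0, Fin.elim0, Fin.elim0, Fin.elim0, Fin.elim0, ⟨fun s => s.elim0, fun s => s.elim0,
    fun s => s.elim0⟩, ⟨fun s => s.elim0, fun s => s.elim0⟩, fun i => by simp [cL],
    by simp [cH], fun i => ?_⟩
  unfold Avail
  apply Submodule.mem_sup_left
  rw [mem_restrictTotalDegree]
  exact (totalDegree_X_pow i δ).le

lemma has_heavy {N δ e ch : ℕ} {cl : ℕ → ℕ} (h : Has K N δ 0 e cl ch) :
    Has K N δ 0 (2 * e) cl (ch + N) := by
  obtain ⟨n, a, b, lev, hv, h1, h2, h3, h4, h5⟩ := h
  refine ⟨n + N, Fin.append a fun i => X i ^ e, Fin.append b fun i => X i ^ e,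
    Fin.append lev fun _ => 0, Fin.append hv fun _ => true, ?_, ?_, ?_, ?_, ?_⟩
  · apply h1.block 0 true (by simp)
    · intro i
      simpa using h5 i
    · exact h5
  · constructor
    · intro s
      refine Fin.addCases (fun s => ?_) (fun s => ?_) s
      · rw [Fin.append_left]; exact h2.1 s
      · rw [Fin.append_right]
    · intro s
      refine Fin.addCases (fun s => ?_) (fun s => ?_) s
      · rw [Fin.append_left, Fin.append_left]; exact h2.2 s
      · rw [Fin.append_right, Fin.append_right]; simp
  · intro i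
    rw [cL_append, h3 i]
    simp
  · rw [cH_append, h4]
    simp
  · intro i
    have h6 := new_avail (δ := δ) a b (fun i : Fin N => (X i : MvPolynomial (Fin N) K) ^ e)
      (fun i => X i ^ e) {j | Fin.append lev (fun _ => 0) j ≤ 0} i (by
        simp [Fin.append_right])
    have e1 : (X i : MvPolynomial (Fin N) K) ^ (2 * e) = X i ^ e * X i ^ e := by
      rw [← pow_add]; congr 1; ring
    rw [e1]
    exact h6

lemma has_heavy_iter {N δ : ℕ} (s : ℕ) : Has K N δ 0 (δ * 2 ^ s) (fun _ => 0) (N * s) := by
  induction s with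
  | zero => simpa using has_zero (K := K) N δ
  | succ s ih =>
    have := has_heavy ih
    have e1 : 2 * (δ * 2 ^ s) = δ * 2 ^ (s + 1) := by rw [pow_succ]; ring
    have e2 : N * s + N = N * (s + 1) := by ring
    rwa [e1, e2] at this

/-- one level: `c` blocks -/
lemma has_level_aux {N δ t e ch : ℕ} {cl : ℕ → ℕ} (h : Has K N δ t e cl ch) (c : ℕ) :
    ∃ (n : ℕ) (a b : Fin n → MvPolynomial (Fin N) K) (lev : Fin n → ℕ) (hv : Fin n → Bool),
    Sys δ a b lev hv ∧ ((∀ s, lev s ≤ t + 1) ∧ ∀ s, hv s = true → lev s = 0) ∧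
      (∀ i, cL lev hv i = cl i + if i = t + 1 then N * c else 0) ∧ cH hv = ch ∧
      (∀ i, (X i : MvPolynomial (Fin N) K) ^ e ∈
        Avail δ (fun j => a j * b j) {j | lev j < t + 1}) ∧
      ∀ i, (X i : MvPolynomial (Fin N) K) ^ (e * (c + 1)) ∈
        Avail δ (fun j => a j * b j) {j | lev j ≤ t + 1} := by
  induction c with
  | zero =>
    obtain ⟨n, a, b, lev, hv, h1, h2, h3, h4, h5⟩ := h
    have h6 : {j : Fin n | lev j < t + 1} = {j | lev j ≤ t} := by
      ext j
      simp only [Set.mem_ofPred_eq]
      omega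
    refine ⟨n, a, b, lev, hv, h1, ⟨fun s => (h2.1 s).trans (Nat.le_succ t), h2.2⟩, fun i => by
      rw [h3 i]; simp, h4, fun i => by rw [h6]; exact h5 i, fun i => ?_⟩
    rw [zero_add, mul_one]
    refine (?_ : Avail δ (fun j => a j * b j) {j | lev j ≤ t} ≤ _) (h5 i)
    unfold Avail
    refine sup_le_sup le_rfl (Submodule.span_mono (Set.image_mono ?_))
    intro j hj
    have h7 : lev j ≤ t := hj
    exact (h7.trans (Nat.le_succ t) : lev j ≤ t + 1)
  | succ c ih =>
    obtain ⟨n, a, b, lev, hv, h1, h2, h3, h4, h5, h6⟩ := ih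
    refine ⟨n + N, Fin.append a fun i => X i ^ e, Fin.append b fun i => X i ^ (e * (c + 1)),
      Fin.append lev fun _ => t + 1, Fin.append hv fun _ => false, ?_, ?_, ?_, ?_, ?_, ?_⟩
    · apply h1.block (t + 1) false (by simp)
      · intro i
        simpa using h5 i
      · exact h6
    · constructor
      · intro s
        refine Fin.addCases (fun s => ?_) (fun s => ?_) s
        · rw [Fin.append_left]; exact h2.1 s
        · rw [Fin.append_right]
      · intro s
        refine Fin.addCases (fun s => ?_) (fun s => ?_) s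
        · rw [Fin.append_left, Fin.append_left]; exact h2.2 s
        · rw [Fin.append_right, Fin.append_right]; simp
    · intro i
      rw [cL_append, h3 i]
      by_cases hi : i = t + 1
      · subst hi
        simp
        ring
      · rw [if_neg hi, if_neg hi, if_neg (fun h => hi h.2.symm)]
    · rw [cH_append, h4]
      simp
    · intro i
      apply avail_append a b _ _ _ _ _ _ (h5 i)
      intro j hj
      simp only [Set.mem_ofPred_eq, Fin.append_left]
      exact hj
    · intro i
      have h7 := new_avail (δ := δ) a b (fun i : Fin N => (X i : MvPolynomial (Fin N) K) ^ e)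
        (fun i => X i ^ (e * (c + 1))) {j | Fin.append lev (fun _ => t + 1) j ≤ t + 1} i (by
          simp [Fin.append_right])
      have e1 : (X i : MvPolynomial (Fin N) K) ^ (e * (c + 1 + 1)) =
          X i ^ e * X i ^ (e * (c + 1)) := by
        rw [← pow_add]; congr 1; ring
      rw [e1]
      exact h7

lemma has_level {N δ t e ch : ℕ} {cl : ℕ → ℕ} (h : Has K N δ t e cl ch) (c : ℕ) :
    Has K N δ (t + 1) (e * (c + 1)) (fun i => cl i + if i = t + 1 then N * c else 0) ch := by
  obtain ⟨n, a, b, lev, hv, h1, h2, h3, h4, h5, h6⟩ := has_level_aux h c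
  exact ⟨n, a, b, lev, hv, h1, h2, h3, h4, h6⟩

/-- **The upper bound.** -/
lemma has_all (N δ s : ℕ) (c : ℕ → ℕ) (t : ℕ) :
    Has K N δ t (δ * 2 ^ s * ∏ i ∈ Finset.Icc 1 t, (c i + 1))
      (fun i => if i ∈ Finset.Icc 1 t then N * c i else 0) (N * s) := by
  induction t with
  | zero =>
    have := has_heavy_iter (K := K) (N := N) (δ := δ) s
    simpa using this
  | succ t ih =>
    have h1 := has_level ih (c (t + 1))
    have e1 : δ * 2 ^ s * ∏ i ∈ Finset.Icc 1 (t + 1), (c i + 1) =
        δ * 2 ^ s * (∏ i ∈ Finset.Icc 1 t, (c i + 1)) * (c (t + 1) + 1) := by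
      rw [Finset.prod_Icc_succ_top (by omega)]
      ring
    have e2 : (fun i => (if i ∈ Finset.Icc 1 t then N * c i else 0) +
        if i = t + 1 then N * c (t + 1) else 0) =
        fun i => if i ∈ Finset.Icc 1 (t + 1) then N * c i else 0 := by
      funext i
      simp only [Finset.mem_Icc]
      by_cases hi : i = t + 1
      · subst hi
        simp
      · rw [if_neg hi, add_zero]
        by_cases h2 : 1 ≤ i ∧ i ≤ t
        · rw [if_pos h2, if_pos ⟨h2.1, by omega⟩]
        · rw [if_neg h2, if_neg (fun h => h2 ⟨h.1, by omega⟩)]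
    rw [e1, ← e2]
    exact h1

end Pool.Agent.W944.Wt
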