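import Pool.Agent.W944.PkPack
import Pool.Agent.W944.WtUpper

/-! # Computations of power sums with prescribed products -/

set_option autoImplicit false
set_option linter.unusedSectionVars false
set_option linter.unusedVariables false

open MvPolynomial

namespace Pool.Agent.W944.Pk

open Pool.Agent.W944.Wt (Avail avail_append new_avail)

/-- the powers `X v ^ (δ e)`, `e ∈ S v`, are computed with `cl k` products of class `k` -/
def St (K : Type*) [Field K] (N δ : ℕ) (S : Fin N → Set ℕ) (cl : ℕ → ℕ) : Prop :=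
  ∃ (n : ℕ) (a b : Fin n → MvPolynomial (Fin N) K) (p q c : Fin n → ℕ),
    (∀ s, δ ≤ p s) ∧ (∀ s, δ ≤ q s) ∧
    (∀ s, a s ∈ Avail δ (fun j => a j * b j) {j | j < s ∧ p j + q j ≤ p s}) ∧
    (∀ s, b s ∈ Avail δ (fun j => a j * b j) {j | j < s ∧ p j + q j ≤ q s}) ∧
    (∀ s, min (p s) (q s) ≤ δ * 2 ^ c s) ∧
    (∀ k, (Finset.univ.filter fun s => c s = k).card = cl k) ∧
    ∀ v, ∀ e ∈ S v, (X v : MvPolynomial (Fin N) K) ^ (δ * e) ∈
      Avail δ (fun j => a j * b j) {j | p j + q j ≤ δ * e}

lemma St.start (K : Type*) [Field K] (N δ : ℕ) : St K N δ (fun _ => {1}) (fun _ => 0) := by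
  refine ⟨0, Fin.elim0, Fin.elim0, Fin.elim0, Fin.elim0, Fin.elim0, fun s => s.elim0,
    fun s => s.elim0, fun s => s.elim0, fun s => s.elim0, fun s => s.elim0, fun k => ?_,
    fun v e he => ?_⟩
  · rw [Finset.card_eq_zero]
    apply Finset.eq_empty_of_isEmpty
  · have he1 : e = 1 := he
    subst he1
    unfold Avail
    apply Submodule.mem_sup_left
    rw [mem_restrictTotalDegree, mul_one]
    exact (totalDegree_X_pow v δ).le

lemma St.mono {K : Type*} [Field K] {N δ : ℕ} {S S' : Fin N → Set ℕ} {cl cl' : ℕ → ℕ}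
    (h : St K N δ S cl) (hS : ∀ v, S' v ⊆ S v) (hc : ∀ k, cl k = cl' k) : St K N δ S' cl' := by
  obtain ⟨n, a, b, p, q, c, h1, h2, h3, h4, h5, h6, h7⟩ := h
  exact ⟨n, a, b, p, q, c, h1, h2, h3, h4, h5, fun k => (h6 k).trans (hc k),
    fun v e he => h7 v e (hS v he)⟩

/-- one more product -/
lemma St.step {K : Type*} [Field K] {N δ : ℕ} {S : Fin N → Set ℕ} {cl : ℕ → ℕ}
    (h : St K N δ S cl) (v : Fin N) {e₁ e₂ : ℕ} (he₁ : e₁ ∈ S v) (he₂ : e₂ ∈ S v)
    (hp₁ : 1 ≤ e₁) (hp₂ : 1 ≤ e₂) (k : ℕ) (hk : min e₁ e₂ ≤ 2 ^ k) :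
    St K N δ (fun w => S w ∪ {e | w = v ∧ e = e₁ + e₂}) (fun i => cl i + if i = k then 1 else 0) := by
  classical
  obtain ⟨n, a, b, p, q, c, h1, h2, h3, h4, h5, h6, h7⟩ := h
  refine ⟨n + 1, Fin.append a fun _ => X v ^ (δ * e₁), Fin.append b fun _ => X v ^ (δ * e₂),
    Fin.append p fun _ => δ * e₁, Fin.append q fun _ => δ * e₂, Fin.append c fun _ => k,
    ?_, ?_, ?_, ?_, ?_, ?_, ?_⟩
  · intro s
    refine Fin.addCases (fun s => ?_) (fun s => ?_) s
    · rw [Fin.append_left]; exact h1 s
    · rw [Fin.append_right]; exact Nat.le_mul_of_pos_right _ hp₁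
  · intro s
    refine Fin.addCases (fun s => ?_) (fun s => ?_) s
    · rw [Fin.append_left]; exact h2 s
    · rw [Fin.append_right]; exact Nat.le_mul_of_pos_right _ hp₂
  · intro s
    refine Fin.addCases (fun s => ?_) (fun s => ?_) s
    · simp only [Fin.append_left]
      apply avail_append a b _ _ _ _ _ _ (h3 s)
      rintro j ⟨h8, h9⟩
      refine ⟨h8, ?_⟩
      simp only [Fin.append_left]
      exact h9
    · simp only [Fin.append_right]
      apply avail_append a b _ _ _ _ _ _ (h7 v e₁ he₁)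
      intro j hj
      refine ⟨?_, ?_⟩
      · have : (Fin.castAdd 1 j : ℕ) < (Fin.natAdd n s : ℕ) := by
          simp only [Fin.val_castAdd, Fin.val_natAdd]
          omega
        exact this
      · simp only [Fin.append_left]
        exact hj
  · intro s
    refine Fin.addCases (fun s => ?_) (fun s => ?_) s
    · simp only [Fin.append_left]
      apply avail_append a b _ _ _ _ _ _ (h4 s)
      rintro j ⟨h8, h9⟩
      refine ⟨h8, ?_⟩
      simp only [Fin.append_left]
      exact h9
    · simp only [Fin.append_right]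
      apply avail_append a b _ _ _ _ _ _ (h7 v e₂ he₂)
      intro j hj
      refine ⟨?_, ?_⟩
      · have : (Fin.castAdd 1 j : ℕ) < (Fin.natAdd n s : ℕ) := by
          simp only [Fin.val_castAdd, Fin.val_natAdd]
          omega
        exact this
      · simp only [Fin.append_left]
        exact hj
  · intro s
    refine Fin.addCases (fun s => ?_) (fun s => ?_) s
    · simp only [Fin.append_left]; exact h5 s
    · simp only [Fin.append_right]
      rw [Nat.mul_min_mul_left]
      exact Nat.mul_le_mul_left _ hk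
  · intro i
    rw [Finset.card_filter, Fin.sum_univ_add]
    simp only [Fin.append_left, Fin.append_right]
    rw [← Finset.card_filter, h6 i]
    simp [eq_comm]
  · intro w e he
    rcases he with he | ⟨rfl, rfl⟩
    · apply avail_append a b _ _ _ _ _ _ (h7 w e he)
      intro j hj
      have h8 : p j + q j ≤ δ * e := hj
      change Fin.append p _ (Fin.castAdd 1 j) + Fin.append q _ (Fin.castAdd 1 j) ≤ δ * e
      rw [Fin.append_left, Fin.append_left]
      exact h8
    · have h8 := new_avail (δ := δ) a b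
        (fun _ : Fin 1 => (X w : MvPolynomial (Fin N) K) ^ (δ * e₁))
        (fun _ => X w ^ (δ * e₂))
        {j | Fin.append p (fun _ => δ * e₁) j + Fin.append q (fun _ => δ * e₂) j ≤
          δ * (e₁ + e₂)} 0 (by
          simp only [Set.mem_ofPred_eq, Fin.append_right]
          rw [mul_add])
      have e1 : (X w : MvPolynomial (Fin N) K) ^ (δ * (e₁ + e₂)) =
          X w ^ (δ * e₁) * X w ^ (δ * e₂) := by
        rw [← pow_add, mul_add]
      rw [e1]
      exact h8

/-- one bin -/
lemma St.bin {K : Type*} [Field K] {N δ : ℕ} (v : Fin N) (j : ℕ) (t : Multiset ℕ) :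
    ∀ {S : Fin N → Set ℕ} {cl : ℕ → ℕ} (h : St K N δ S cl) (e : ℕ) (he : e ∈ S v)
      (hej : 2 ^ j ≤ e) (hS : ∀ i ≤ j, 2 ^ i ∈ S v),
      St K N δ (fun w => S w ∪ {x | w = v ∧ x = e + (t.map fun k => 2 ^ min k j).sum})
        (fun i => cl i + t.count i) := by
  classical
  induction t using Multiset.induction_on with
  | empty =>
    intro S cl h e he hej hS
    apply h.mono
    · intro w x hx
      rcases hx with hx | ⟨rfl, hx⟩
      · exact hx
      · have hx' : x = e := by simpa using hx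
        rw [hx']
        exact he
    · intro k
      simp
  | cons a t ih =>
    intro S cl h e he hej hS
    have h1 := h.step v he (hS (min a j) (min_le_right _ _)) (le_trans Nat.one_le_two_pow hej)
      Nat.one_le_two_pow a ((min_le_right _ _).trans
        (Nat.pow_le_pow_right (by norm_num) (min_le_left _ _)))
    have h2 := ih h1 (e + 2 ^ min a j) (Or.inr ⟨rfl, rfl⟩) (le_trans hej (Nat.le_add_right _ _))
      (fun i hi => Or.inl (hS i hi))
    apply h2.mono
    · intro w x hx
      rcases hx with hx | ⟨rfl, hx⟩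
      · exact Or.inl (Or.inl hx)
      · right
        refine ⟨rfl, ?_⟩
        rw [hx, Multiset.map_cons, Multiset.sum_cons]
        ring
    · intro k
      rw [Multiset.count_cons]
      split_ifs <;> omega

/-- all bins of one scale, for the variables in `V` -/
lemma St.scale {K : Type*} [Field K] {N δ : ℕ} (j : ℕ) (t : Fin N → Multiset ℕ)
    (ht : ∀ v, ((t v).map fun k => 2 ^ min k j).sum = 2 ^ j) (V : Finset (Fin N)) {cl : ℕ → ℕ}
    (h : St K N δ (fun _ => {x | ∃ i ≤ j, x = 2 ^ i}) cl) :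
    St K N δ (fun v => {x | ∃ i ≤ j, x = 2 ^ i} ∪ {x | v ∈ V ∧ x = 2 ^ (j + 1)})
      (fun i => cl i + ∑ v ∈ V, (t v).count i) := by
  classical
  induction V using Finset.induction_on with
  | empty =>
    apply h.mono
    · intro w x hx
      rcases hx with hx | ⟨hx, -⟩
      · exact hx
      · exact absurd hx (Finset.notMem_empty _)
    · intro k
      simp
  | insert u V hu ih =>
    have h1 := ih.bin u j (t u) (2 ^ j) (Or.inl ⟨j, le_rfl, rfl⟩) le_rfl
      (fun i hi => Or.inl ⟨i, hi, rfl⟩)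
    apply h1.mono
    · intro w x hx
      rcases hx with hx | ⟨hw, hx⟩
      · exact Or.inl (Or.inl hx)
      · rw [Finset.mem_insert] at hw
        rcases hw with hw | hw
        · right
          refine ⟨hw, ?_⟩
          rw [hx, ht u, pow_succ]
          ring
        · exact Or.inl (Or.inr ⟨hw, hx⟩)
    · intro k
      rw [Finset.sum_insert hu]
      ring

lemma St.all {K : Type*} [Field K] {N δ : ℕ} (L : Fin N → ℕ → Multiset ℕ) (D : ℕ)
    (hL : ∀ v, ∀ j < D, ((L v j).map fun k => 2 ^ min k j).sum = 2 ^ j) :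
    St K N δ (fun _ => {x | ∃ i ≤ D, x = 2 ^ i})
      (fun k => ∑ j ∈ Finset.range D, ∑ v, (L v j).count k) := by
  classical
  induction D with
  | zero =>
    apply (St.start K N δ).mono
    · rintro w x ⟨i, hi, rfl⟩
      have : i = 0 := by omega
      subst this
      exact (pow_zero 2 : 2 ^ 0 = 1)
    · intro k
      simp
  | succ D ih =>
    have h1 := ih (fun v j hj => hL v j (by omega))
    have h2 := h1.scale D (fun v => L v D) (fun v => hL v D (by omega)) Finset.univ
    apply h2.mono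
    · rintro w x ⟨i, hi, rfl⟩
      rcases Nat.lt_or_ge i (D + 1) with h3 | h3
      · exact Or.inl ⟨i, by omega, rfl⟩
      · right
        refine ⟨Finset.mem_univ _, ?_⟩
        congr 1
        omega
    · intro k
      rw [Finset.sum_range_succ]

/-- **The power sum.** -/
theorem power_sum (K : Type*) [Field K] (N δ D : ℕ) (m : ℕ → ℕ)
    (h : ∀ j < D, 4 * ((N : ℝ) + D) * (D - j) ≤ ∑ k ∈ Finset.range D, m k * wt k j) :
    ∃ (n : ℕ) (a b : Fin n → MvPolynomial (Fin N) K) (p q c : Fin n → ℕ),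
    (∀ s, δ ≤ p s) ∧ (∀ s, δ ≤ q s) ∧
    (∀ s, a s ∈ Avail δ (fun j => a j * b j) {j | j < s ∧ p j + q j ≤ p s}) ∧
    (∀ s, b s ∈ Avail δ (fun j => a j * b j) {j | j < s ∧ p j + q j ≤ q s}) ∧
    (∀ s, min (p s) (q s) ≤ δ * 2 ^ c s) ∧
    (∀ k, (Finset.univ.filter fun s => c s = k).card ≤ m k) ∧
    (∑ v, X v ^ (δ * 2 ^ D) : MvPolynomial (Fin N) K) ∈
      Avail δ (fun j => a j * b j) Set.univ := by
  classical
  obtain ⟨L, hL1, hL2⟩ := integral D N m h
  obtain ⟨n, a, b, p, q, c, h1, h2, h3, h4, h5, h6, h7⟩ := St.all (K := K) (δ := δ) L D hL1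
  refine ⟨n, a, b, p, q, c, h1, h2, h3, h4, h5, ?_, ?_⟩
  · intro k
    rw [h6 k]
    change ∑ j ∈ Finset.range D, ∑ v, Multiset.count k (L v j) ≤ m k
    rw [Finset.sum_comm]
    exact hL2 k
  · apply Submodule.sum_mem
    intro v _
    have h8 := h7 v (2 ^ D) ⟨D, le_rfl, rfl⟩
    refine (?_ : Avail δ (fun j => a j * b j) {j | p j + q j ≤ δ * 2 ^ D} ≤ _) h8
    unfold Avail
    exact sup_le_sup le_rfl (Submodule.span_mono (Set.image_mono (Set.subset_univ _)))

end Pool.Agent.W944.Pk
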