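import Pool.Agent.W944.FamilyD
import Pool.Agent.W944.SmoothFinal
import Pool.Agent.W944.PermSubst

/-! # The inequality for the permanent and entries of degree at most `δ`, for a given substitution -/

set_option autoImplicit false
set_option linter.unusedSectionVars false

open Module MvPolynomial

namespace Pool.Agent.W944

open Pool.Agent.H546R2.SL (perN)
open Pool.Agent.H632R2.Border (O0 φ0 ψ0 φψ rmap rmap_mem rmap_eval totalDegree_map_le)

/-- the determinant of a matrix over `k(ε)` with limit `F` gives an integral polynomial over the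
algebraic closure -/
lemma exists_liftD {k : Type*} [Field k] {σ : Type*} {N : ℕ} (δ : ℕ)
    (A : Matrix (Fin N) (Fin N) (MvPolynomial σ (RatFunc k)))
    (hA : ∀ i j, (A i j).totalDegree ≤ δ) (F : MvPolynomial σ k)
    (hdet : ∀ m, (coeff m A.det).denom.eval 0 ≠ 0 ∧
      RatFunc.eval (RingHom.id k) 0 (coeff m A.det) = coeff m F) :
    ∃ (A' : Matrix (Fin N) (Fin N) (MvPolynomial σ (RatFunc (AlgebraicClosure k))))
      (D : MvPolynomial σ (O0 (AlgebraicClosure k))),
      (∀ i j, (A' i j).totalDegree ≤ δ) ∧ map (O0 (AlgebraicClosure k)).subtype D = A'.det ∧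
      map (φ0 (AlgebraicClosure k)) D = map (algebraMap k (AlgebraicClosure k)) F := by
  set Ω := AlgebraicClosure k with hΩ
  set ρ := rmap (algebraMap k Ω) with hρ
  set A' := A.map (map ρ) with hA'
  have hdetA : A'.det = map ρ A.det := by
    rw [hA', ← RingHom.mapMatrix_apply, ← RingHom.map_det]
  have hcoef : ∀ d, coeff d (MvPolynomial.map ρ A.det) ∈ O0 Ω := by
    intro d
    rw [coeff_map]
    exact rmap_mem _ (hdet d).1
  have hrange : MvPolynomial.map ρ A.det ∈ (MvPolynomial.map (σ := σ) (O0 Ω).subtype).range := by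
    rw [RingHom.mem_range]
    change _ ∈ Set.range _
    rw [mem_range_map_iff_coeffs_subset]
    intro x hx
    rw [Finset.mem_coe, mem_coeffs_iff] at hx
    obtain ⟨d, _, rfl⟩ := hx
    exact ⟨⟨_, hcoef d⟩, rfl⟩
  obtain ⟨D, hD⟩ := hrange
  refine ⟨A', D, fun i j => (totalDegree_map_le _ _).trans (hA i j), ?_, ?_⟩
  · rw [hdetA]; exact hD
  · ext d
    rw [coeff_map, coeff_map, ← (hdet d).2, ← rmap_eval (algebraMap k Ω) (hdet d).1]
    congr 1
    apply Subtype.ext
    have h1 := congrArg (coeff d) hD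
    rw [coeff_map] at h1
    exact h1

/-- the inequality for the permanent, for an affine substitution `S` for which some scalar multiples
`y v` of transformed partial derivatives are forms without common zeros -/
theorem perm_abstractD (k₀ : Type*) [Field k₀] (m N δ : ℕ) (hδ : 1 ≤ δ)
    {ι : Type*} [Fintype ι] (S : Fin m × Fin m → MvPolynomial ι (AlgebraicClosure k₀))
    (hS : ∀ v, (S v).totalDegree ≤ 1)
    (hS1 : aeval S (perN (AlgebraicClosure k₀) m) ≠ 0)
    (hS0 : eval 0 (aeval S (perN (AlgebraicClosure k₀) m)) = 0)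
    {V : Type*} [Finite V] (y : V → MvPolynomial ι (AlgebraicClosure k₀)) (e : ℕ)
    (hy : ∀ v, (y v).IsHomogeneous e)
    (hz : ∀ x : ι → AlgebraicClosure k₀, (∀ v, eval x (y v) = 0) → x = 0)
    (hyS : ∀ v, ∃ (c : AlgebraicClosure k₀) (u : Fin m × Fin m),
      y v = C c * aeval S (pderiv u (perN (AlgebraicClosure k₀) m)))
    (hι : 2 ≤ Fintype.card ι)
    (A : Matrix (Fin N) (Fin N) (MvPolynomial (Fin m × Fin m) (RatFunc k₀)))
    (hA : ∀ i j, (A i j).totalDegree ≤ δ)
    (hdet : ∀ μ, (coeff μ A.det).denom.eval 0 ≠ 0 ∧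
      RatFunc.eval (RingHom.id k₀) 0 (coeff μ A.det) = coeff μ (perN k₀ m)) :
    2 * (e : ℝ) ^ (Fintype.card ι - 2) ≤
      (Real.exp 1 * (δ * (4 * N / (Fintype.card ι) + 3))) ^ (Fintype.card ι) := by
  obtain ⟨A', D, hA', hD, hDF⟩ := exists_liftD δ A hA (perN k₀ m) hdet
  rw [Pool.Agent.H546R2.SL.map_perN] at hDF
  have hunit : ¬ IsUnit (aeval S (perN (AlgebraicClosure k₀) m)) := by
    intro hu
    have h1 := hu.map (eval (0 : ι → AlgebraicClosure k₀))
    rw [hS0] at h1
    exact not_isUnit_zero h1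
  exact subst_ineqD (φψ (AlgebraicClosure k₀)) (inv_mem_O0 (AlgebraicClosure k₀)) δ hδ
    (perN (AlgebraicClosure k₀) m) S hS hS1 hunit y e hy hz hyS hι N A' hA' D hD hDF

end Pool.Agent.W944
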