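import Pool.Agent.W944.Leading

/-! # Explicit form of the comparison of leading coefficients -/

set_option autoImplicit false

namespace Pool.Agent.W944

/-- explicit form of the inequality: `2 e ^ m ≤ (exp 1 * (4 N / n + 3)) ^ n` -/
theorem explicit_ineq (m k n N e : ℕ) (hn : n = m + k + 1) (hN : 0 < N)
    (h : ∀ ρ : ℕ, 0 < ρ → (e : ℝ) ^ m * (ρ : ℝ) ^ (2 * (N - 1) + 1) * n.factorial ≤
      m.factorial * (((N - 1 : ℕ) : ℝ) + 1) * (1 + 2 * ρ) ^ n * (1 + ρ) ^ (2 * (N - 1))) :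
    2 * (e : ℝ) ^ m ≤ (Real.exp 1 * (4 * N / n + 3)) ^ n := by
  obtain ⟨N', rfl⟩ : ∃ N', N = N' + 1 := ⟨N - 1, by omega⟩
  simp only [Nat.add_sub_cancel] at h
  have hn0 : 0 < n := by omega
  have hnr : (0 : ℝ) < n := by exact_mod_cast hn0
  set ρ : ℕ := ⌈(2 * (N' + 1 : ℕ) : ℝ) / n⌉₊ with hρ
  have hpos : (0 : ℝ) < (2 * (N' + 1 : ℕ) : ℝ) / n := by positivity
  have hρ0 : 0 < ρ := Nat.ceil_pos.mpr hpos
  have hρr : (0 : ℝ) < ρ := by exact_mod_cast hρ0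
  have h1 : (2 * (N' + 1 : ℕ) : ℝ) / n ≤ ρ := Nat.le_ceil _
  have h2 : (ρ : ℝ) < (2 * (N' + 1 : ℕ) : ℝ) / n + 1 := Nat.ceil_lt_add_one hpos.le
  have h3 : (2 * ((N' : ℝ) + 1)) ≤ ρ * n := by
    rw [div_le_iff₀ hnr] at h1
    push_cast at h1
    exact h1
  have h4 := h ρ hρ0
  -- the exponential bound
  have h5 : (1 + (ρ : ℝ)) ^ (2 * N') ≤ (ρ : ℝ) ^ (2 * N') * Real.exp n := by
    have a1 : (1 + (ρ : ℝ)) = ρ * (1 / ρ + 1) := by field_simp
    have a2 : 1 / (ρ : ℝ) + 1 ≤ Real.exp (1 / ρ) := Real.add_one_le_exp _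
    rw [a1, mul_pow]
    apply mul_le_mul_of_nonneg_left _ (by positivity)
    calc (1 / (ρ : ℝ) + 1) ^ (2 * N') ≤ Real.exp (1 / ρ) ^ (2 * N') :=
          pow_le_pow_left₀ (by positivity) a2 _
      _ = Real.exp ((2 * N' : ℕ) * (1 / ρ)) := by rw [← Real.exp_nat_mul]
      _ ≤ Real.exp n := by
          apply Real.exp_le_exp.mpr
          rw [mul_one_div, div_le_iff₀ hρr]
          push_cast
          nlinarith
  have h6 : (1 + 2 * (ρ : ℝ)) ≤ 4 * ((N' + 1 : ℕ) : ℝ) / n + 3 := by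
    have : 4 * ((N' + 1 : ℕ) : ℝ) / n = 2 * ((2 * (N' + 1 : ℕ) : ℝ) / n) := by ring
    rw [this]
    linarith
  have hfac : (m.factorial : ℝ) * n ≤ n.factorial := by
    have : m.factorial * n ≤ n.factorial := by
      obtain ⟨n', rfl⟩ : ∃ n', n = n' + 1 := ⟨n - 1, by omega⟩
      rw [Nat.factorial_succ, mul_comm]
      exact Nat.mul_le_mul_left _ (Nat.factorial_le (by omega))
    exact_mod_cast this
  have hmf : (0 : ℝ) < m.factorial := by exact_mod_cast Nat.factorial_pos _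
  have hρp : (0 : ℝ) < (ρ : ℝ) ^ (2 * N') := by positivity
  have h7 : (e : ℝ) ^ m * ((ρ : ℝ) ^ (2 * N') * ρ) * (m.factorial * n) ≤
      m.factorial * (ρ * n / 2) * (1 + 2 * ρ) ^ n * ((ρ : ℝ) ^ (2 * N') * Real.exp n) := by
    calc (e : ℝ) ^ m * ((ρ : ℝ) ^ (2 * N') * ρ) * (m.factorial * n) ≤
        (e : ℝ) ^ m * (ρ : ℝ) ^ (2 * N' + 1) * n.factorial := by
          rw [pow_succ]
          exact mul_le_mul_of_nonneg_left hfac (by positivity)
      _ ≤ m.factorial * ((N' : ℝ) + 1) * (1 + 2 * ρ) ^ n * (1 + ρ) ^ (2 * N') := h4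
      _ ≤ m.factorial * (ρ * n / 2) * (1 + 2 * ρ) ^ n * ((ρ : ℝ) ^ (2 * N') * Real.exp n) := by
          have : ((N' : ℝ) + 1) ≤ ρ * n / 2 := by linarith
          gcongr
  have h8 : 2 * (e : ℝ) ^ m ≤ (1 + 2 * ρ) ^ n * Real.exp n := by
    have hX : (0 : ℝ) < m.factorial * (ρ * n / 2) * (ρ : ℝ) ^ (2 * N') := by positivity
    apply le_of_mul_le_mul_left _ hX
    calc m.factorial * (ρ * n / 2) * (ρ : ℝ) ^ (2 * N') * (2 * (e : ℝ) ^ m) =
        (e : ℝ) ^ m * ((ρ : ℝ) ^ (2 * N') * ρ) * (m.factorial * n) := by ring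
      _ ≤ _ := h7
      _ = m.factorial * (ρ * n / 2) * (ρ : ℝ) ^ (2 * N') * ((1 + 2 * ρ) ^ n * Real.exp n) := by
          ring
  calc 2 * (e : ℝ) ^ m ≤ (1 + 2 * ρ) ^ n * Real.exp n := h8
    _ = (Real.exp 1 * (1 + 2 * ρ)) ^ n := by
        rw [mul_pow, ← Real.exp_nat_mul, mul_one, mul_comm]
    _ ≤ _ := by
        apply pow_le_pow_left₀ (by positivity)
        exact mul_le_mul_of_nonneg_left h6 (Real.exp_pos _).le

/-- the final estimate for forms of degree `d` in `n` variables -/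
theorem final_smooth (n d N : ℕ) (hn : 2 ≤ n) (hd : 1 ≤ d) (hdn : d ^ 16 ≤ 2 ^ n)
    (h : 2 * ((d - 1 : ℕ) : ℝ) ^ (n - 2) ≤ (Real.exp 1 * (4 * N / n + 3)) ^ n) :
    n * d ≤ 12 * N + 10 * n := by
  by_contra hcon
  push Not at hcon
  obtain ⟨e, rfl⟩ : ∃ e, d = e + 1 := ⟨d - 1, by omega⟩
  simp only [Nat.add_sub_cancel] at h
  have hn0 : (0 : ℝ) < n := by
    have : 0 < n := by omega
    exact_mod_cast this
  have h1 : (12 * (N : ℝ) + 10 * n) < n * (e + 1) := by exact_mod_cast hcon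
  have h2 : 4 * (N : ℝ) / n + 3 ≤ e / 3 := by
    have : 4 * (N : ℝ) / n ≤ (e - 9) / 3 := by
      rw [div_le_div_iff₀ hn0 (by norm_num)]
      nlinarith
    linarith
  have he : Real.exp 1 < 2.7182818286 := Real.exp_one_lt_d9
  have hN0 : (0 : ℝ) ≤ 4 * (N : ℝ) / n + 3 := by positivity
  have he0 : (0 : ℝ) ≤ e := by positivity
  have h3 : Real.exp 1 * (4 * N / n + 3) ≤ (90610 / 100000) * e := by
    calc Real.exp 1 * (4 * N / n + 3) ≤ 2.7182818286 * (e / 3) :=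
          mul_le_mul he.le h2 hN0 (by norm_num)
      _ ≤ (90610 / 100000) * e := by linarith
  have h4 : 2 * (e : ℝ) ^ (n - 2) ≤ (90610 / 100000) ^ n * (e : ℝ) ^ n := by
    refine h.trans ?_
    rw [← mul_pow]
    exact pow_le_pow_left₀ (by positivity) h3 n
  have hepos : (0 : ℝ) < e := by
    have h5 : (0 : ℝ) < 4 * (N : ℝ) / n + 3 := by positivity
    linarith
  have h5 : (e : ℝ) ^ n = (e : ℝ) ^ (n - 2) * (e : ℝ) ^ 2 := by
    rw [← pow_add]; congr 1; omega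
  rw [h5] at h4
  have h6 : (2 : ℝ) ≤ (90610 / 100000) ^ n * (e : ℝ) ^ 2 := by
    have hp : (0 : ℝ) < (e : ℝ) ^ (n - 2) := by positivity
    apply le_of_mul_le_mul_left _ hp
    linarith
  -- compare the eighth powers
  have h7 : (2 : ℝ) ^ 8 ≤ ((90610 / 100000) ^ n * (e : ℝ) ^ 2) ^ 8 :=
    pow_le_pow_left₀ (by norm_num) h6 8
  have h8 : ((90610 / 100000 : ℝ) ^ n * (e : ℝ) ^ 2) ^ 8 =
      ((90610 / 100000 : ℝ) ^ 8) ^ n * (e : ℝ) ^ 16 := by
    rw [mul_pow, ← pow_mul, ← pow_mul, ← pow_mul, mul_comm n 8]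
  have h9 : (e : ℝ) ^ 16 ≤ 2 ^ n := by
    have : e ^ 16 ≤ 2 ^ n := (Nat.pow_le_pow_left (Nat.le_succ e) 16).trans hdn
    exact_mod_cast this
  have h10 : ((90610 / 100000 : ℝ) ^ 8) ^ n * (e : ℝ) ^ 16 ≤
      ((90610 / 100000 : ℝ) ^ 8 * 2) ^ n := by
    rw [mul_pow]
    exact mul_le_mul_of_nonneg_left h9 (by positivity)
  have h11 : ((90610 / 100000 : ℝ) ^ 8 * 2) ^ n ≤ 1 := by
    apply pow_le_one₀ (by positivity)
    norm_num
  rw [h8] at h7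
  have h12 := h7.trans (h10.trans h11)
  norm_num at h12

end Pool.Agent.W944
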