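import Mathlib

/-! # The derivative of a determinant -/

set_option autoImplicit false

namespace Pool.Agent.W944

variable {R A : Type*} [CommRing R] [CommRing A] [Algebra R A]

lemma der_prod {γ : Type*} [DecidableEq γ] (D : Derivation R A A) (f : γ → A) (s : Finset γ) :
    D (∏ i ∈ s, f i) = ∑ i ∈ s, D (f i) * ∏ j ∈ s.erase i, f j := by
  induction s using Finset.induction_on with
  | empty => simp
  | insert a s ha ih =>
    rw [Finset.prod_insert ha, Derivation.leibniz, ih, Finset.sum_insert ha,
      Finset.erase_insert ha, smul_eq_mul, smul_eq_mul, Finset.mul_sum, add_comm]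
    congr 1
    · ring
    · apply Finset.sum_congr rfl
      intro i hi
      have hai : a ≠ i := fun h => ha (h ▸ hi)
      rw [Finset.erase_insert_of_ne hai, Finset.prod_insert (fun h => ha (Finset.mem_of_mem_erase h))]
      ring

/-- Jacobi's formula -/
theorem der_det {N : ℕ} (D : Derivation R A A) (M : Matrix (Fin N) (Fin N) A) :
    D M.det = ∑ i, ∑ j, M.adjugate i j * D (M j i) := by
  classical
  have h1 : ∀ i, ∑ j, M.adjugate i j * D (M j i) =
      (M.updateCol i (fun j => D (M j i))).det := by
    intro i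
    rw [← Matrix.cramer_apply, Matrix.cramer_eq_adjugate_mulVec]
    rfl
  simp_rw [h1, Matrix.det_apply']
  rw [map_sum, Finset.sum_comm]
  apply Finset.sum_congr rfl
  intro σ _
  have h2 : D (((Equiv.Perm.sign σ : ℤ) : A) * ∏ i, M (σ i) i) =
      ((Equiv.Perm.sign σ : ℤ) : A) * D (∏ i, M (σ i) i) := by
    rw [← zsmul_eq_mul, map_zsmul, zsmul_eq_mul]
  rw [h2, der_prod, Finset.mul_sum]
  apply Finset.sum_congr rfl
  intro i _
  congr 1
  rw [← Finset.mul_prod_erase Finset.univ _ (Finset.mem_univ i), Matrix.updateCol_self]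
  congr 1
  apply Finset.prod_congr rfl
  intro j hj
  rw [Matrix.updateCol_ne (Finset.ne_of_mem_erase hj)]

end Pool.Agent.W944
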