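import Pool.Agent.W944.Lower
import Pool.Agent.W944.Explicit
import Pool.Agent.W944.Jacobi

/-! # Determinantal complexity of smooth forms over an algebraically closed field -/

set_option autoImplicit false
set_option linter.unusedSectionVars false

open Module MvPolynomial

namespace Pool.Agent.W944

open Pool.Agent.H546R2.SL (component_mul exists_degree_bound)

lemma multichoose_succ (n x : ℕ) : (n + 1).multichoose x = (n + x).choose n := by
  rw [Nat.multichoose_eq]
  have h : n + 1 + x - 1 = n + x := by omega
  rw [h]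
  exact (Nat.choose_symm_of_eq_add (by omega)).symm

lemma multichoose_pred (N y : ℕ) (hN : 0 < N) :
    N.multichoose y = (N - 1 + y).choose (N - 1) := by
  obtain ⟨N', rfl⟩ : ∃ N', N = N' + 1 := ⟨N - 1, by omega⟩
  exact multichoose_succ _ _

lemma pderiv_affine {K : Type*} [Field K] {ι : Type*} (p : MvPolynomial ι K)
    (hp : p.totalDegree ≤ 1) (i : ι) : ∃ c : K, pderiv i p = C c := by
  classical
  have h1 : ∀ m ∈ p.support, ∃ c : K, pderiv i (monomial m (coeff m p)) = C c := by
    intro m hm
    have h2 : m.degree ≤ 1 := (le_totalDegree hm).trans hp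
    rw [pderiv_monomial]
    rcases Nat.le_one_iff_eq_zero_or_eq_one.mp h2 with h4 | h4
    · rw [Finsupp.degree_eq_zero_iff] at h4
      subst h4
      exact ⟨0, by simp⟩
    · have h5 : m ∈ Set.range (fun a : ι => Finsupp.single a 1) := by
        rw [Finsupp.range_single_one]; exact h4
      obtain ⟨j, rfl⟩ := h5
      by_cases h : j = i
      · subst h
        exact ⟨coeff (Finsupp.single j 1) p, by simp⟩
      · exact ⟨0, by simp [h]⟩
  choose! c hc using h1
  refine ⟨∑ m ∈ p.support, c m, ?_⟩
  conv_lhs => rw [p.as_sum]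
  rw [map_sum, map_sum]
  exact Finset.sum_congr rfl hc

section

variable {K : Type*} [Field K] {ι : Type*} {N : ℕ}
  {R : Type*} [CommRing R] [Algebra K R] [Algebra (MvPolynomial ι K) R]
  [IsScalarTower K (MvPolynomial ι K) R]

/-- polynomials of degree at most `a` map into the `a`-th power of the span of the variables -/
lemma algebraMap_mem_xsp_pow [Fintype ι] (a : ℕ) (f : MvPolynomial ι K)
    (hf : f.totalDegree ≤ a) :
    algebraMap (MvPolynomial ι K) R f ∈ xsp K ι R ^ a := by
  have h1 : f ∈ (restrictTotalDegree ι K 1) ^ a :=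
    Pool.Agent.H546R2.SL.restrict_le_pow a ((mem_restrictTotalDegree _ _ _).mpr hf)
  set φ : MvPolynomial ι K →ₐ[K] R := IsScalarTower.toAlgHom K (MvPolynomial ι K) R with hφ
  have h2 : algebraMap (MvPolynomial ι K) R f = φ f := rfl
  rw [h2]
  have h3 : (restrictTotalDegree ι K 1).map φ.toLinearMap ≤ xsp K ι R := by
    rintro _ ⟨g, hg, rfl⟩
    exact algebraMap_mem_xsp g ((mem_restrictTotalDegree _ _ _).mp hg)
  have h4 := pow_le_pow_left' h3 a
  rw [← Submodule.map_pow] at h4
  exact h4 ⟨f, h1, rfl⟩

/-- the derivatives of the determinant lie in the span of the entries of the adjugate -/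
lemma pderiv_det_mem (M : Matrix (Fin N) (Fin N) (MvPolynomial ι K))
    (hM : ∀ i j, (M i j).totalDegree ≤ 1) (i : ι) :
    algebraMap (MvPolynomial ι K) R (pderiv i M.det) ∈ gsp R M := by
  rw [der_det, map_sum]
  apply Submodule.sum_mem
  intro a _
  rw [map_sum]
  apply Submodule.sum_mem
  intro b _
  obtain ⟨c, hc⟩ := pderiv_affine (M b a) (hM b a) i
  rw [hc, mul_comm, ← smul_eq_C_mul, Algebra.algebraMap_eq_smul_one, smul_assoc,
    ← Algebra.algebraMap_eq_smul_one]
  exact Submodule.smul_mem _ _ (Submodule.subset_span ⟨(a, b), rfl⟩)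

end

end Pool.Agent.W944
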