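import Pool.Agent.W944.SmoothMain

/-! # The inequality for families of forms without common zeros -/

set_option autoImplicit false
set_option linter.unusedSectionVars false

open Module MvPolynomial

namespace Pool.Agent.W944

open Pool.Agent.H546R2.SL (component_mul exists_degree_bound)

variable {K : Type*} [Field K] {ι : Type*} [Fintype ι]

/-- forms of degree in a suitable range lie in the product of powers (family version) -/
lemma forms_mem' {R : Type*} [CommRing R] [Algebra K R] [Algebra (MvPolynomial ι K) R]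
    [IsScalarTower K (MvPolynomial ι K) R] {V : Type*} (y : V → MvPolynomial ι K) (e : ℕ)
    (hy : ∀ v, (y v).IsHomogeneous e)
    (G : Submodule K R) (hG : ∀ v, algebraMap (MvPolynomial ι K) R (y v) ∈ G) (M₀ : ℕ)
    (hM₀ : ∀ D ≥ M₀, ∀ p : MvPolynomial ι K, p.IsHomogeneous D →
      p ∈ Ideal.span (Set.range y)) (a : ℕ) :
    ∀ τ D, M₀ + e + e * τ ≤ D → D ≤ a + e * τ → ∀ p : MvPolynomial ι K,
      p.IsHomogeneous D → algebraMap (MvPolynomial ι K) R p ∈ xsp K ι R ^ a * G ^ τ := by
  classical
  intro τ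
  induction τ with
  | zero =>
    intro D _ hD p hp
    rw [pow_zero, mul_one]
    apply algebraMap_mem_xsp_pow
    exact hp.totalDegree_le.trans (by simpa using hD)
  | succ τ ih =>
    intro D hD1 hD2 p hp
    have hd1 : e * (τ + 1) = e * τ + e := by ring
    rw [hd1] at hD1 hD2
    obtain ⟨c, hc⟩ := Finsupp.mem_ideal_span_range_iff_exists_finsupp.mp
      (hM₀ D (by omega) p hp)
    have h1 := congrArg (homogeneousComponent D) hc
    rw [homogeneousComponent_eq_self hp] at h1
    rw [← h1, Finsupp.sum, map_sum, map_sum]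
    apply Submodule.sum_mem
    intro v _
    rw [component_mul D e (by omega) _ _ (hy v), map_mul, pow_succ, ← mul_assoc]
    apply Submodule.mul_mem_mul _ (hG v)
    exact ih (D - e) (by omega) (by omega) _ (homogeneousComponent_isHomogeneous _ _)

/-- a prime does not divide all members of a family without common zeros -/
lemma exists_nondvd [IsAlgClosed K] (P : MvPolynomial ι K) (hP : Prime P) {V : Type*}
    (y : V → MvPolynomial ι K)
    (hz : ∀ x : ι → K, (∀ v, eval x (y v) = 0) → x = 0)
    (hι : 2 ≤ Fintype.card ι) : ∃ v, ¬ P ∣ y v := by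
  classical
  by_contra hcon
  push Not at hcon
  obtain ⟨M₀, hM₀⟩ := exists_degree_bound y hz
  have h2 : Ideal.span (Set.range y) ≤ Ideal.span {P} := by
    rw [Ideal.span_le]
    rintro _ ⟨v, rfl⟩
    exact Ideal.mem_span_singleton.mpr (hcon v)
  obtain ⟨i, j, hij⟩ := Fintype.exists_pair_of_one_lt_card (by omega : 1 < Fintype.card ι)
  have h3 : ∀ i : ι, P ∣ X i := by
    intro i
    have h4 := h2 (hM₀ M₀ le_rfl (X i ^ M₀) (isHomogeneous_X_pow i M₀))
    exact hP.dvd_of_dvd_pow (Ideal.mem_span_singleton.mp h4)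
  obtain ⟨u, hu⟩ := h3 i
  obtain ⟨v, hv⟩ := h3 j
  have hu0 : u ≠ 0 := by rintro rfl; rw [mul_zero] at hu; exact X_ne_zero _ hu
  have hv0 : v ≠ 0 := by rintro rfl; rw [mul_zero] at hv; exact X_ne_zero _ hv
  obtain ⟨l, hl⟩ := exists_var P hP
  have d1 := degreeOf_mul_eq (n := l) hP.ne_zero hu0
  have d2 := degreeOf_mul_eq (n := l) hP.ne_zero hv0
  rw [← hu, degreeOf_X] at d1
  rw [← hv, degreeOf_X] at d2
  have e1 : l = i := by
    by_contra h
    rw [if_neg h] at d1
    omega
  have e2 : l = j := by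
    by_contra h
    rw [if_neg h] at d2
    omega
  exact hij (e1.symm.trans e2)

variable {L : Type*} [Field L] {O : ValuationSubring L} {φ : O →+* K} {j : K →+* O}

/-- limits of determinants: restrictions whose gradient contains forms without common zeros -/
theorem family_ineq [IsAlgClosed K] (hj : ∀ c, φ (j c) = c)
    (hφ : ∀ c : O, φ c ≠ 0 → ((c : L)⁻¹) ∈ O) (F : MvPolynomial ι K) (hF0 : F ≠ 0)
    (hFu : ¬ IsUnit F) {V : Type*} [Finite V] (y : V → MvPolynomial ι K) (e : ℕ)
    (hy : ∀ v, (y v).IsHomogeneous e)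
    (hz : ∀ x : ι → K, (∀ v, eval x (y v) = 0) → x = 0)
    (hι : 2 ≤ Fintype.card ι) (N : ℕ) (M : Matrix (Fin N) (Fin N) (MvPolynomial ι L))
    (hM : ∀ i j, (M i j).totalDegree ≤ 1) (D : MvPolynomial ι O)
    (hD : map O.subtype D = M.det) (hDF : map φ D = F)
    (hY : ∀ v, ∃ E : MvPolynomial ι O, map φ E = y v ∧ map O.subtype E ∈
      Submodule.span L (Set.range fun x : Fin N × Fin N => M.adjugate x.1 x.2)) :
    2 * (e : ℝ) ^ (Fintype.card ι - 2) ≤
      (Real.exp 1 * (4 * N / (Fintype.card ι) + 3)) ^ (Fintype.card ι) := by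
  classical
  have hN : 0 < N := by
    rcases Nat.eq_zero_or_pos N with h | h
    · subst h
      exfalso
      apply hFu
      rw [Matrix.det_fin_zero, ← map_one (map (σ := ι) O.subtype)] at hD
      rw [← hDF, map_injective O.subtype Subtype.val_injective hD, map_one]
      exact isUnit_one
    · exact h
  obtain ⟨P, hPi, hPF⟩ := WfDvdMonoid.exists_irreducible_factor hFu hF0
  have hP : Prime P := hPi.prime
  have : (Ideal.span {P}).IsPrime := (Ideal.span_singleton_prime hP.ne_zero).mpr hP
  obtain ⟨j', hj'⟩ := exists_var P hP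
  obtain ⟨M₀, hM₀⟩ := exists_degree_bound y hz
  have hFR : algebraMap (MvPolynomial ι K) (Q P) F = 0 :=
    Ideal.Quotient.eq_zero_iff_mem.mpr (Ideal.mem_span_singleton.mpr hPF)
  set G : Submodule K (Q P) := Submodule.span K
    (Set.range fun v => algebraMap (MvPolynomial ι K) (Q P) (y v)) with hGdef
  have hG : ∀ v, algebraMap (MvPolynomial ι K) (Q P) (y v) ∈ G :=
    fun v => Submodule.subset_span ⟨v, rfl⟩
  have hGfg : G.FG := Submodule.fg_span (Set.finite_range _)
  -- lower bound for the dimension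
  have hlow : ∀ τ : ℕ, (τ + 1) * (e * τ + (Fintype.card ι - 2)).choose
      (Fintype.card ι - 2) ≤
      finrank K ↥(xsp K ι (Q P) ^ (M₀ + e + τ) * G ^ τ) := by
    intro τ
    have h1 := card_le_finrank P hP j' hj'
      (expo j' (M₀ + e + e * τ) (M₀ + e + e * τ + τ))
      (fun m hm => ((mem_expo _ _ _ _).mp hm).1)
      (xsp K ι (Q P) ^ (M₀ + e + τ) * G ^ τ)
      ((xsp_fg.pow _).mul (hGfg.pow _)) (by
        intro m hm
        obtain ⟨_, hm1, hm2⟩ := (mem_expo _ _ _ _).mp hm
        exact forms_mem' y e hy _ hG M₀ hM₀ (M₀ + e + τ) τ m.degree hm1 (by omega)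
          (monomial m 1) (isHomogeneous_monomial _ rfl))
    refine le_trans ?_ h1
    refine le_trans ?_ (card_expo j' (Fintype.card ι - 2) _ τ (by omega))
    apply Nat.mul_le_mul_left
    apply Nat.choose_le_choose
    omega
  have hne : ∃ v, algebraMap (MvPolynomial ι K) (Q P) (y v) ≠ 0 := by
    obtain ⟨v, hv⟩ := exists_nondvd P hP y hz hι
    refine ⟨v, fun h => hv ?_⟩
    exact Ideal.mem_span_singleton.mp (Ideal.Quotient.eq_zero_iff_mem.mp h)
  -- the inequality between polynomials in `τ`
  apply explicit_ineq (Fintype.card ι - 2) 1 (Fintype.card ι) N e (by omega) hN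
  intro ρ hρ
  have hlead := leading_ineq (Fintype.card ι - 2) 1 (Fintype.card ι) (N - 1) (M₀ + e) e ρ
    (by omega) (fun τ hτ => by
      have h2 := border_ineq (R₀ := Q P) hj hφ M hM D hD F hDF hF0 hFR
        y hY hne (M₀ + e + τ) τ (ρ * τ) (ρ * τ)
      rw [multichoose_succ, multichoose_pred N _ hN] at h2
      have h3 := hlow τ
      calc (ρ * τ + (N - 1)).choose (N - 1) * ((ρ * τ + (N - 1 + 1)).choose (N - 1 + 1) *
            (τ ^ 1 * (e * τ + (Fintype.card ι - 2)).choose (Fintype.card ι - 2))) ≤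
            (ρ * τ + (N - 1)).choose (N - 1) * ((ρ * τ + N).choose N *
              finrank K ↥(xsp K ι (Q P) ^ (M₀ + e + τ) * G ^ τ)) := by
            rw [Nat.sub_add_cancel hN, pow_one]
            apply Nat.mul_le_mul_left
            apply Nat.mul_le_mul_left
            exact (Nat.mul_le_mul_right _ (Nat.le_succ τ)).trans h3
        _ ≤ _ := h2
        _ ≤ _ := by
            have e1 : M₀ + e + τ + ρ * τ + ρ * τ = M₀ + e + τ + 2 * ρ * τ := by ring
            rw [e1]
            have e2 : (N - 1 + (τ + ρ * τ)).choose (N - 1) ≤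
                (N - 1 + (M₀ + e + τ + ρ * τ)).choose (N - 1) :=
              Nat.choose_le_choose _ (by omega)
            exact Nat.mul_le_mul (Nat.mul_le_mul_left _ e2) e2)
  exact hlead

open Pool.Agent.H632R2.Border (map_aeval_comm)

lemma totalDegree_aeval_le {σ : Type*} (S : σ → MvPolynomial ι K)
    (hS : ∀ v, (S v).totalDegree ≤ 1) (p : MvPolynomial σ K) (hp : p.totalDegree ≤ 1) :
    (aeval S p).totalDegree ≤ 1 := by
  classical
  rw [← mem_restrictTotalDegree]
  rw [p.as_sum, map_sum]
  apply Submodule.sum_mem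
  intro m hm
  have h2 : m.degree ≤ 1 := (le_totalDegree hm).trans hp
  rw [mem_restrictTotalDegree]
  rcases Nat.le_one_iff_eq_zero_or_eq_one.mp h2 with h4 | h4
  · rw [Finsupp.degree_eq_zero_iff] at h4
    subst h4
    rw [aeval_monomial]
    simp
  · have h5 : m ∈ Set.range (fun a : σ => Finsupp.single a 1) := by
      rw [Finsupp.range_single_one]; exact h4
    obtain ⟨j, rfl⟩ := h5
    rw [aeval_monomial]
    simp only [algebraMap_eq, Finsupp.prod_single_index, pow_zero, pow_one]
    refine (totalDegree_mul _ _).trans ?_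
    rw [totalDegree_C, zero_add]
    exact hS j

/-- the same statement for an affine substitution in a polynomial -/
theorem subst_ineq [IsAlgClosed K] (hj : ∀ c, φ (j c) = c)
    (hφ : ∀ c : O, φ c ≠ 0 → ((c : L)⁻¹) ∈ O) {σ : Type*} (f : MvPolynomial σ K)
    (S : σ → MvPolynomial ι K) (hS : ∀ v, (S v).totalDegree ≤ 1)
    (hF0 : aeval S f ≠ 0) (hFu : ¬ IsUnit (aeval S f))
    {V : Type*} [Finite V] (y : V → MvPolynomial ι K) (e : ℕ)
    (hy : ∀ v, (y v).IsHomogeneous e)
    (hz : ∀ x : ι → K, (∀ v, eval x (y v) = 0) → x = 0)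
    (hyS : ∀ v, ∃ (c : K) (u : σ), y v = C c * aeval S (pderiv u f))
    (hι : 2 ≤ Fintype.card ι) (N : ℕ) (A : Matrix (Fin N) (Fin N) (MvPolynomial σ L))
    (hA : ∀ i j, (A i j).totalDegree ≤ 1) (D : MvPolynomial σ O)
    (hD : map O.subtype D = A.det) (hDF : map φ D = f) :
    2 * (e : ℝ) ^ (Fintype.card ι - 2) ≤
      (Real.exp 1 * (4 * N / (Fintype.card ι) + 3)) ^ (Fintype.card ι) := by
  classical
  have hjφ : φ.comp j = RingHom.id K := RingHom.ext hj
  set SO : σ → MvPolynomial ι O := fun v => map j (S v) with hSO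
  set SL : σ → MvPolynomial ι L := fun v => map O.subtype (SO v) with hSL
  have hφS : (fun v => map φ (SO v)) = S := by
    funext v
    rw [hSO]
    simp only
    rw [map_map, hjφ, map_id]
  have hSLdeg : ∀ v, (SL v).totalDegree ≤ 1 := by
    intro v
    rw [hSL, hSO]
    simp only
    rw [map_map]
    exact (Pool.Agent.H632R2.Border.totalDegree_map_le _ _).trans (hS v)
  set M : Matrix (Fin N) (Fin N) (MvPolynomial ι L) := A.map (aeval SL) with hMdef
  have hdet : M.det = aeval SL A.det := by
    rw [hMdef, ← AlgHom.mapMatrix_apply, ← AlgHom.map_det]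
  have hadj : ∀ a b, M.adjugate a b = aeval SL (A.adjugate a b) := by
    intro a b
    have h := AlgHom.map_adjugate (aeval (R := L) SL) A
    rw [AlgHom.mapMatrix_apply, AlgHom.mapMatrix_apply] at h
    rw [hMdef, ← h]
    rfl
  apply family_ineq hj hφ (aeval S f) hF0 hFu y e hy hz hι N M ?_ (aeval SO D) ?_ ?_ ?_
  · -- degrees
    intro a b
    rw [hMdef, Matrix.map_apply]
    exact totalDegree_aeval_le SL hSLdeg (A a b) (hA a b)
  · rw [map_aeval_comm, hD, hdet]
  · rw [map_aeval_comm, hDF, hφS]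
  · intro v
    obtain ⟨c, u, hcu⟩ := hyS v
    refine ⟨C (j c) * aeval SO (pderiv u D), ?_, ?_⟩
    · rw [map_mul, map_C, hj, map_aeval_comm, hφS, ← pderiv_map, hDF, hcu]
    · rw [map_mul, map_C, map_aeval_comm, ← pderiv_map, hD, ← smul_eq_C_mul]
      apply Submodule.smul_mem
      rw [der_det, map_sum]
      apply Submodule.sum_mem
      intro a _
      rw [map_sum]
      apply Submodule.sum_mem
      intro b _
      obtain ⟨c', hc'⟩ := pderiv_affine (A b a) (hA b a) u
      rw [hc', map_mul, mul_comm, aeval_C, algebraMap_eq, ← smul_eq_C_mul]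
      apply Submodule.smul_mem
      apply Submodule.subset_span
      exact ⟨(a, b), hadj a b⟩

end Pool.Agent.W944
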