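import Pool.Agent.W944.SemiD
import Pool.Agent.W944.LeadingD
import Pool.Agent.W944.Family

/-! # The inequality for families of forms without common zeros, entries of degree at most `δ` -/

set_option autoImplicit false
set_option linter.unusedSectionVars false

open Module MvPolynomial

namespace Pool.Agent.W944

open Pool.Agent.H546R2.SL (component_mul exists_degree_bound)

lemma totalDegree_aeval_leD {K : Type*} [Field K] {ι σ : Type*} (S : σ → MvPolynomial ι K)
    (hS : ∀ v, (S v).totalDegree ≤ 1) (d : ℕ) (p : MvPolynomial σ K) (hp : p.totalDegree ≤ d) :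
    (aeval S p).totalDegree ≤ d := by
  classical
  rw [p.as_sum, map_sum]
  apply totalDegree_finsetSum_le
  intro m hm
  have h2 : m.degree ≤ d := (le_totalDegree hm).trans hp
  rw [aeval_monomial, algebraMap_eq]
  refine (totalDegree_mul _ _).trans ?_
  rw [totalDegree_C, zero_add, Finsupp.prod]
  refine (totalDegree_finsetProd _ _).trans ?_
  refine le_trans ?_ h2
  rw [Finsupp.degree_apply]
  apply Finset.sum_le_sum
  intro i _
  refine (totalDegree_pow _ _).trans ?_
  calc m i * (S i).totalDegree ≤ m i * 1 := Nat.mul_le_mul_left _ (hS i)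
    _ = m i := Nat.mul_one _

lemma totalDegree_pderiv_leD {K : Type*} [Field K] {σ : Type*} (δ : ℕ) (p : MvPolynomial σ K)
    (hp : p.totalDegree ≤ δ) (i : σ) : (pderiv i p).totalDegree ≤ δ - 1 := by
  classical
  rw [p.as_sum, map_sum]
  apply totalDegree_finsetSum_le
  intro m hm
  have h2 : m.degree ≤ δ := (le_totalDegree hm).trans hp
  rw [pderiv_monomial]
  by_cases h : m i = 0
  · rw [h]
    simp
  · refine (totalDegree_monomial_le _ _).trans ?_
    have h3 : (m - Finsupp.single i 1) + Finsupp.single i 1 = m := by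
      ext l
      by_cases hl : i = l
      · subst hl
        simp only [Finsupp.coe_add, Pi.add_apply, Finsupp.coe_tsub, Pi.sub_apply,
          Finsupp.single_eq_same]
        omega
      · rw [Finsupp.coe_add, Pi.add_apply, Finsupp.coe_tsub, Pi.sub_apply,
          Finsupp.single_apply, if_neg hl]
        omega
    have h4 := congrArg Finsupp.degree h3
    rw [map_add, Finsupp.degree_single] at h4
    change Finsupp.degree (m - Finsupp.single i 1) ≤ δ - 1
    omega

variable {K : Type*} [Field K] {ι : Type*} [Fintype ι]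
variable {L : Type*} [Field L] {O : ValuationSubring L} {φ : O →+* K} {j : K →+* O}

/-- limits of determinants of matrices with entries of degree at most `δ` -/
theorem family_ineqD [IsAlgClosed K] (hj : ∀ c, φ (j c) = c)
    (hφ : ∀ c : O, φ c ≠ 0 → ((c : L)⁻¹) ∈ O) (δ : ℕ) (hδ : 1 ≤ δ)
    (F : MvPolynomial ι K) (hF0 : F ≠ 0)
    (hFu : ¬ IsUnit F) {V : Type*} [Finite V] (y : V → MvPolynomial ι K) (e : ℕ)
    (hy : ∀ v, (y v).IsHomogeneous e)
    (hz : ∀ x : ι → K, (∀ v, eval x (y v) = 0) → x = 0)
    (hι : 2 ≤ Fintype.card ι) (N : ℕ) (M : Matrix (Fin N) (Fin N) (MvPolynomial ι L))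
    (hM : ∀ i j, (M i j).totalDegree ≤ δ) (D : MvPolynomial ι O)
    (hD : map O.subtype D = M.det) (hDF : map φ D = F)
    (hY : ∀ v, ∃ E : MvPolynomial ι O, map φ E = y v ∧ map O.subtype E ∈
      restrictTotalDegree ι L (δ - 1) *
        Submodule.span L (Set.range fun x : Fin N × Fin N => M.adjugate x.1 x.2)) :
    2 * (e : ℝ) ^ (Fintype.card ι - 2) ≤
      (Real.exp 1 * (δ * (4 * N / (Fintype.card ι) + 3))) ^ (Fintype.card ι) := by
  classical
  have hN : 0 < N := by
    rcases Nat.eq_zero_or_pos N with h | h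
    · subst h
      exfalso
      apply hFu
      rw [Matrix.det_fin_zero, ← map_one (map (σ := ι) O.subtype)] at hD
      rw [← hDF, map_injective O.subtype Subtype.val_injective hD, map_one]
      exact isUnit_one
    · exact h
  obtain ⟨P, hPi, hPF⟩ := WfDvdMonoid.exists_irreducible_factor hFu hF0
  have hP : Prime P := hPi.prime
  have : (Ideal.span {P}).IsPrime := (Ideal.span_singleton_prime hP.ne_zero).mpr hP
  obtain ⟨j', hj'⟩ := exists_var P hP
  obtain ⟨M₀, hM₀⟩ := exists_degree_bound y hz
  have hFR : algebraMap (MvPolynomial ι K) (Q P) F = 0 :=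
    Ideal.Quotient.eq_zero_iff_mem.mpr (Ideal.mem_span_singleton.mpr hPF)
  set G : Submodule K (Q P) := Submodule.span K
    (Set.range fun v => algebraMap (MvPolynomial ι K) (Q P) (y v)) with hGdef
  have hG : ∀ v, algebraMap (MvPolynomial ι K) (Q P) (y v) ∈ G :=
    fun v => Submodule.subset_span ⟨v, rfl⟩
  have hGfg : G.FG := Submodule.fg_span (Set.finite_range _)
  -- lower bound for the dimension
  have hlow : ∀ τ : ℕ, (τ + 1) * (e * τ + (Fintype.card ι - 2)).choose
      (Fintype.card ι - 2) ≤
      finrank K ↥(xsp K ι (Q P) ^ (M₀ + e + τ) * G ^ τ) := by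
    intro τ
    have h1 := card_le_finrank P hP j' hj'
      (expo j' (M₀ + e + e * τ) (M₀ + e + e * τ + τ))
      (fun m hm => ((mem_expo _ _ _ _).mp hm).1)
      (xsp K ι (Q P) ^ (M₀ + e + τ) * G ^ τ)
      ((xsp_fg.pow _).mul (hGfg.pow _)) (by
        intro m hm
        obtain ⟨_, hm1, hm2⟩ := (mem_expo _ _ _ _).mp hm
        exact forms_mem' y e hy _ hG M₀ hM₀ (M₀ + e + τ) τ m.degree hm1 (by omega)
          (monomial m 1) (isHomogeneous_monomial _ rfl))
    refine le_trans ?_ h1
    refine le_trans ?_ (card_expo j' (Fintype.card ι - 2) _ τ (by omega))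
    apply Nat.mul_le_mul_left
    apply Nat.choose_le_choose
    omega
  have hne : ∃ v, algebraMap (MvPolynomial ι K) (Q P) (y v) ≠ 0 := by
    obtain ⟨v, hv⟩ := exists_nondvd P hP y hz hι
    refine ⟨v, fun h => hv ?_⟩
    exact Ideal.mem_span_singleton.mp (Ideal.Quotient.eq_zero_iff_mem.mp h)
  -- the inequality between polynomials in `τ`
  apply explicit_ineqD (Fintype.card ι - 2) 1 (Fintype.card ι) N e δ (by omega) hN
  intro ρ hρ
  have hlead := leading_ineqD (Fintype.card ι - 2) 1 (Fintype.card ι) (N - 1) (M₀ + e) e ρ δ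
    (by omega) (fun τ hτ => by
      have ha : M₀ + e + τ + (δ - 1) * τ ≤ δ * (M₀ + e + τ) := by
        obtain ⟨δ', rfl⟩ : ∃ δ', δ = δ' + 1 := ⟨δ - 1, by omega⟩
        simp only [Nat.add_sub_cancel]
        nlinarith
      have h2 := border_ineqD (R₀ := Q P) hj hφ δ M hM D hD F hDF hF0 hFR
        y hY hne (M₀ + e + τ) (M₀ + e + τ) τ (ρ * τ) (ρ * τ) ha
      rw [multichoose_succ, multichoose_pred N _ hN] at h2
      have h3 := hlow τ
      calc (ρ * τ + (N - 1)).choose (N - 1) * ((ρ * τ + (N - 1 + 1)).choose (N - 1 + 1) *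
            (τ ^ 1 * (e * τ + (Fintype.card ι - 2)).choose (Fintype.card ι - 2))) ≤
            (ρ * τ + (N - 1)).choose (N - 1) * ((ρ * τ + N).choose N *
              finrank K ↥(xsp K ι (Q P) ^ (M₀ + e + τ) * G ^ τ)) := by
            rw [Nat.sub_add_cancel hN, pow_one]
            apply Nat.mul_le_mul_left
            apply Nat.mul_le_mul_left
            exact (Nat.mul_le_mul_right _ (Nat.le_succ τ)).trans h3
        _ ≤ _ := h2
        _ ≤ _ := by
            have e1 : M₀ + e + τ + ρ * τ + ρ * τ = M₀ + e + τ + 2 * ρ * τ := by ring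
            rw [e1]
            have e2 : (N - 1 + (τ + ρ * τ)).choose (N - 1) ≤
                (N - 1 + (M₀ + e + τ + ρ * τ)).choose (N - 1) :=
              Nat.choose_le_choose _ (by omega)
            exact Nat.mul_le_mul (Nat.mul_le_mul_left _ e2) e2)
  exact hlead

open Pool.Agent.H632R2.Border (map_aeval_comm)

/-- the same statement for an affine substitution in a polynomial -/
theorem subst_ineqD [IsAlgClosed K] (hj : ∀ c, φ (j c) = c)
    (hφ : ∀ c : O, φ c ≠ 0 → ((c : L)⁻¹) ∈ O) (δ : ℕ) (hδ : 1 ≤ δ) {σ : Type*}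
    (f : MvPolynomial σ K)
    (S : σ → MvPolynomial ι K) (hS : ∀ v, (S v).totalDegree ≤ 1)
    (hF0 : aeval S f ≠ 0) (hFu : ¬ IsUnit (aeval S f))
    {V : Type*} [Finite V] (y : V → MvPolynomial ι K) (e : ℕ)
    (hy : ∀ v, (y v).IsHomogeneous e)
    (hz : ∀ x : ι → K, (∀ v, eval x (y v) = 0) → x = 0)
    (hyS : ∀ v, ∃ (c : K) (u : σ), y v = C c * aeval S (pderiv u f))
    (hι : 2 ≤ Fintype.card ι) (N : ℕ) (A : Matrix (Fin N) (Fin N) (MvPolynomial σ L))
    (hA : ∀ i j, (A i j).totalDegree ≤ δ) (D : MvPolynomial σ O)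
    (hD : map O.subtype D = A.det) (hDF : map φ D = f) :
    2 * (e : ℝ) ^ (Fintype.card ι - 2) ≤
      (Real.exp 1 * (δ * (4 * N / (Fintype.card ι) + 3))) ^ (Fintype.card ι) := by
  classical
  have hjφ : φ.comp j = RingHom.id K := RingHom.ext hj
  set SO : σ → MvPolynomial ι O := fun v => map j (S v) with hSO
  set SL : σ → MvPolynomial ι L := fun v => map O.subtype (SO v) with hSL
  have hφS : (fun v => map φ (SO v)) = S := by
    funext v
    rw [hSO]
    simp only
    rw [map_map, hjφ, map_id]
  have hSLdeg : ∀ v, (SL v).totalDegree ≤ 1 := by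
    intro v
    rw [hSL, hSO]
    simp only
    rw [map_map]
    exact (Pool.Agent.H632R2.Border.totalDegree_map_le _ _).trans (hS v)
  set M : Matrix (Fin N) (Fin N) (MvPolynomial ι L) := A.map (aeval SL) with hMdef
  have hdet : M.det = aeval SL A.det := by
    rw [hMdef, ← AlgHom.mapMatrix_apply, ← AlgHom.map_det]
  have hadj : ∀ a b, M.adjugate a b = aeval SL (A.adjugate a b) := by
    intro a b
    have h := AlgHom.map_adjugate (aeval (R := L) SL) A
    rw [AlgHom.mapMatrix_apply, AlgHom.mapMatrix_apply] at h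
    rw [hMdef, ← h]
    rfl
  apply family_ineqD hj hφ δ hδ (aeval S f) hF0 hFu y e hy hz hι N M ?_ (aeval SO D) ?_ ?_ ?_
  · -- degrees
    intro a b
    rw [hMdef, Matrix.map_apply]
    exact totalDegree_aeval_leD SL hSLdeg δ (A a b) (hA a b)
  · rw [map_aeval_comm, hD, hdet]
  · rw [map_aeval_comm, hDF, hφS]
  · intro v
    obtain ⟨c, u, hcu⟩ := hyS v
    refine ⟨C (j c) * aeval SO (pderiv u D), ?_, ?_⟩
    · rw [map_mul, map_C, hj, map_aeval_comm, hφS, ← pderiv_map, hDF, hcu]
    · rw [map_mul, map_C, map_aeval_comm, ← pderiv_map, hD, ← smul_eq_C_mul]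
      apply Submodule.smul_mem
      rw [der_det, map_sum]
      apply Submodule.sum_mem
      intro a _
      rw [map_sum]
      apply Submodule.sum_mem
      intro b _
      rw [map_mul]
      have g1 : aeval SL (pderiv u (A b a)) ∈ restrictTotalDegree ι L (δ - 1) := by
        rw [mem_restrictTotalDegree]
        exact totalDegree_aeval_leD SL hSLdeg _ _ (totalDegree_pderiv_leD δ _ (hA b a) u)
      have g2 : aeval SL (A.adjugate a b) ∈ Submodule.span L
          (Set.range fun x : Fin N × Fin N => M.adjugate x.1 x.2) := by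
        rw [← hadj a b]
        exact Submodule.subset_span ⟨(a, b), rfl⟩
      have g3 := Submodule.mul_mem_mul g1 g2
      rw [mul_comm (aeval SL (pderiv u (A b a))) (aeval SL (A.adjugate a b))] at g3
      exact g3

end Pool.Agent.W944
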