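import Mathlib

/-! # Comparison of leading coefficients -/

set_option autoImplicit false

open Filter Topology

namespace Pool.Agent.W944

lemma choose_ge (x k : ℕ) : ((x : ℝ)) ^ k / k.factorial ≤ ((x + k).choose k : ℝ) := by
  have h := Nat.pow_le_choose (α := ℝ) k (x + k)
  refine le_trans ?_ h
  apply div_le_div_of_nonneg_right _ (by positivity)
  apply pow_le_pow_left₀ (by positivity)
  have : x + k + 1 - k = x + 1 := by omega
  rw [this]
  push_cast
  linarith

lemma choose_le' (x k : ℕ) : (((k + x).choose k : ℕ) : ℝ) ≤ ((k : ℝ) + x) ^ k / k.factorial := by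
  have h := Nat.choose_le_pow_div (α := ℝ) k (k + x)
  refine h.trans (le_of_eq ?_)
  push_cast
  ring

/-- comparison of the leading coefficients in the dimension inequality -/
theorem leading_ineq (m k n N' c e ρ : ℕ) (hn : n = m + k + 1)
    (h : ∀ τ : ℕ, 1 ≤ τ → (ρ * τ + N').choose N' * ((ρ * τ + (N' + 1)).choose (N' + 1) *
      (τ ^ k * (e * τ + m).choose m)) ≤
      (n + (c + τ + 2 * ρ * τ)).choose n * (N' + (c + τ + ρ * τ)).choose N' *
        (N' + (c + τ + ρ * τ)).choose N') :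
    (e : ℝ) ^ m * (ρ : ℝ) ^ (2 * N' + 1) * n.factorial ≤
      m.factorial * (N' + 1) * (1 + 2 * ρ) ^ n * (1 + ρ) ^ (2 * N') := by
  set f : ℝ → ℝ := fun x => (1 + 2 * ρ + (n + c) * x) ^ n / n.factorial *
    ((1 + ρ + (N' + c) * x) ^ N' / N'.factorial) * ((1 + ρ + (N' + c) * x) ^ N' / N'.factorial)
    with hf
  have hfc : Continuous f := by
    rw [hf]; fun_prop
  set C : ℝ := (ρ : ℝ) ^ N' / N'.factorial * ((ρ : ℝ) ^ (N' + 1) / (N' + 1).factorial *
    ((e : ℝ) ^ m / m.factorial)) with hC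
  have key : ∀ τ : ℕ, 1 ≤ τ → C ≤ f (1 / (τ : ℝ)) := by
    intro τ hτ
    have hT : (0 : ℝ) < τ := by exact_mod_cast hτ
    have h1 : (((ρ * τ + N').choose N' * ((ρ * τ + (N' + 1)).choose (N' + 1) *
      (τ ^ k * (e * τ + m).choose m)) : ℕ) : ℝ) ≤
      (((n + (c + τ + 2 * ρ * τ)).choose n * (N' + (c + τ + ρ * τ)).choose N' *
        (N' + (c + τ + ρ * τ)).choose N' : ℕ) : ℝ) := by exact_mod_cast h τ hτ
    have h2 : ((ρ : ℝ) * τ) ^ N' / N'.factorial * (((ρ : ℝ) * τ) ^ (N' + 1) / (N' + 1).factorial *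
        ((τ : ℝ) ^ k * (((e : ℝ) * τ) ^ m / m.factorial))) ≤
        (((ρ * τ + N').choose N' * ((ρ * τ + (N' + 1)).choose (N' + 1) *
      (τ ^ k * (e * τ + m).choose m)) : ℕ) : ℝ) := by
      push_cast
      have a1 := choose_ge (ρ * τ) N'
      have a2 := choose_ge (ρ * τ) (N' + 1)
      have a3 := choose_ge (e * τ) m
      push_cast at a1 a2 a3
      gcongr
    have h3 : (((n + (c + τ + 2 * ρ * τ)).choose n * (N' + (c + τ + ρ * τ)).choose N' *
        (N' + (c + τ + ρ * τ)).choose N' : ℕ) : ℝ) ≤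
        ((n : ℝ) + (c + τ + 2 * ρ * τ)) ^ n / n.factorial *
        (((N' : ℝ) + (c + τ + ρ * τ)) ^ N' / N'.factorial) *
        (((N' : ℝ) + (c + τ + ρ * τ)) ^ N' / N'.factorial) := by
      push_cast
      have a1 := choose_le' (c + τ + 2 * ρ * τ) n
      have a2 := choose_le' (c + τ + ρ * τ) N'
      push_cast at a1 a2
      gcongr
    have h4 := h2.trans (h1.trans h3)
    have h5 : ((ρ : ℝ) * τ) ^ N' / N'.factorial * (((ρ : ℝ) * τ) ^ (N' + 1) / (N' + 1).factorial *
        ((τ : ℝ) ^ k * (((e : ℝ) * τ) ^ m / m.factorial))) = (τ : ℝ) ^ (n + 2 * N') * C := by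
      rw [hC, hn, mul_pow, mul_pow, mul_pow]
      ring
    have h6 : ((n : ℝ) + (c + τ + 2 * ρ * τ)) ^ n / n.factorial *
        (((N' : ℝ) + (c + τ + ρ * τ)) ^ N' / N'.factorial) *
        (((N' : ℝ) + (c + τ + ρ * τ)) ^ N' / N'.factorial) =
        (τ : ℝ) ^ (n + 2 * N') * f (1 / (τ : ℝ)) := by
      rw [hf]
      have e1 : (n : ℝ) + (c + τ + 2 * ρ * τ) = τ * (1 + 2 * ρ + (n + c) * (1 / τ)) := by
        field_simp
        ring
      have e2 : (N' : ℝ) + (c + τ + ρ * τ) = τ * (1 + ρ + (N' + c) * (1 / τ)) := by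
        field_simp
        ring
      rw [e1, e2, mul_pow, mul_pow]
      ring
    rw [h5, h6] at h4
    exact le_of_mul_le_mul_left h4 (by positivity)
  have hlim : Tendsto (fun τ : ℕ => f (1 / (τ : ℝ))) atTop (𝓝 (f 0)) :=
    (hfc.tendsto 0).comp (tendsto_one_div_atTop_nhds_zero_nat)
  have h0 : C ≤ f 0 := by
    apply ge_of_tendsto hlim
    filter_upwards [eventually_ge_atTop 1] with τ hτ using key τ hτ
  rw [hC, hf] at h0
  simp only [mul_zero, add_zero] at h0
  rw [Nat.factorial_succ] at h0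
  push_cast at h0
  have p1 : (0 : ℝ) < N'.factorial := by exact_mod_cast Nat.factorial_pos _
  have p2 : (0 : ℝ) < n.factorial := by exact_mod_cast Nat.factorial_pos _
  have p3 : (0 : ℝ) < m.factorial := by exact_mod_cast Nat.factorial_pos _
  have p4 : (0 : ℝ) < (N' : ℝ) + 1 := by positivity
  have h7 := mul_le_mul_of_nonneg_left h0
    (show (0 : ℝ) ≤ (N'.factorial : ℝ) * N'.factorial * (N' + 1) * m.factorial * n.factorial by
      positivity)
  have e3 : (N'.factorial : ℝ) * N'.factorial * (N' + 1) * m.factorial * n.factorial *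
      ((ρ : ℝ) ^ N' / N'.factorial * ((ρ : ℝ) ^ (N' + 1) / ((N' + 1) * N'.factorial) *
        ((e : ℝ) ^ m / m.factorial))) = (e : ℝ) ^ m * (ρ : ℝ) ^ (2 * N' + 1) * n.factorial := by
    field_simp
    ring
  have e4 : (N'.factorial : ℝ) * N'.factorial * (N' + 1) * m.factorial * n.factorial *
      ((1 + 2 * (ρ : ℝ)) ^ n / n.factorial * ((1 + (ρ : ℝ)) ^ N' / N'.factorial) *
        ((1 + (ρ : ℝ)) ^ N' / N'.factorial)) =
      m.factorial * (N' + 1) * (1 + 2 * ρ) ^ n * (1 + ρ) ^ (2 * N') := by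
    field_simp
    ring
  rw [e3, e4] at h7
  exact h7

end Pool.Agent.W944
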