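import Pool.Agent.W944.CircPerm
import Pool.Agent.W940.Cubic

/-! # The trade-off between the products with a factor of small degree and the other products -/

set_option autoImplicit false
set_option linter.unusedSectionVars false

open Module MvPolynomial

namespace Pool.Agent.W944.Cx

open Pool.Agent.W940.G
open Pool.Agent.H546R2.SL (perN)

/-- the choice of the parameters of the substitution -/
lemma exists_params (m : ℕ) (hm0 : 55000 ≤ m) : ∃ q ℓ k p D : ℕ, 2 ≤ k ∧ mm (2 ^ ℓ) = 2 * k ∧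
    0 < q ∧ m = NN q ℓ + p ∧ D = q * (q * ((2 ^ ℓ * 2 ^ ℓ) * k)) ∧ m ^ 2 ≤ 272 * D ∧
    D ≤ m ^ 2 ∧ m < 1696 * k := by
  obtain ⟨ℓ, hℓ1, hℓ2, hℓ4⟩ : ∃ ℓ : ℕ, 212 * 4 ^ ℓ ≤ m ∧ m < 848 * 4 ^ ℓ ∧ 4 ≤ ℓ := by
    have hP : ∃ j : ℕ, m < 212 * 4 ^ j := by
      refine ⟨m, ?_⟩
      have : m < 4 ^ m := Nat.lt_pow_self (by norm_num)
      omega
    classical
    obtain ⟨j, hj1, hj2⟩ : ∃ j : ℕ, m < 212 * 4 ^ j ∧ ∀ i < j, ¬ m < 212 * 4 ^ i :=
      ⟨Nat.find hP, Nat.find_spec hP, fun i hi => Nat.find_min hP hi⟩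
    have hj5 : 5 ≤ j := by
      by_contra hcon
      have h4 : 4 ^ j ≤ 4 ^ 4 := Nat.pow_le_pow_right (by norm_num) (by omega)
      have h5 : (4 : ℕ) ^ 4 = 256 := by norm_num
      omega
    obtain ⟨i, rfl⟩ : ∃ i, j = i + 1 := ⟨j - 1, by omega⟩
    refine ⟨i, not_lt.mp (hj2 i (by omega)), ?_, by omega⟩
    rw [pow_succ] at hj1
    omega
  set x : ℕ := 2 ^ ℓ * 2 ^ ℓ with hx
  have hx4 : 4 ^ ℓ = x := by
    rw [hx, ← mul_pow]
    norm_num
  rw [hx4] at hℓ1 hℓ2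
  have hx256 : 256 ≤ x := by
    rw [← hx4]
    calc 256 = 4 ^ 4 := by norm_num
      _ ≤ 4 ^ ℓ := Nat.pow_le_pow_right (by norm_num) hℓ4
  obtain ⟨k, hk⟩ : ∃ k, x = 2 * k := by
    refine ⟨2 ^ (ℓ - 1) * 2 ^ ℓ, ?_⟩
    rw [hx, ← mul_assoc, ← pow_succ']
    congr 2
    omega
  have hk128 : 128 ≤ k := by omega
  set L : ℕ := (36 * ℓ ^ 2 + 78 * ℓ + 6) * 2 ^ ℓ + 2 with hL
  have hL56 : L ≤ 56 * x := by
    have h1 := pow_bound ℓ hℓ4
    have h2 : 16 ≤ 2 ^ ℓ := by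
      calc 16 = 2 ^ 4 := by norm_num
        _ ≤ 2 ^ ℓ := Nat.pow_le_pow_right (by norm_num) hℓ4
    have h3 := Nat.mul_le_mul_right (2 ^ ℓ) h1
    have h4 : 56 * 2 ^ ℓ * 2 ^ ℓ = 56 * x := by rw [hx]; ring
    have h5 : (36 * ℓ ^ 2 + 78 * ℓ + 7) * 2 ^ ℓ = (36 * ℓ ^ 2 + 78 * ℓ + 6) * 2 ^ ℓ + 2 ^ ℓ := by
      ring
    rw [h4, h5] at h3
    omega
  set X := m - (60 * x + L) with hX
  set q := X / (5 * x) with hq
  have hXm : X + (60 * x + L) = m := by omega
  have hdiv := Nat.div_add_mod X (5 * x)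
  have hmod := Nat.mod_lt X (show 0 < 5 * x by omega)
  rw [← hq] at hdiv
  have hqx : m < 5 * x * q + 121 * x := by omega
  have hqx2 : 5 * x * q ≤ m := by omega
  have hq16 : 16 ≤ q := by
    by_contra hcon
    have h1 : 5 * x * q ≤ 5 * x * 15 := Nat.mul_le_mul_left _ (by omega)
    omega
  refine ⟨q, ℓ, k, X % (5 * x), q * (q * ((2 ^ ℓ * 2 ^ ℓ) * k)), by omega, hk, by omega, ?_, rfl,
    ?_, ?_, by omega⟩
  · unfold NN
    have h1 : 5 * (2 ^ ℓ) ^ 2 * q + 60 * (2 ^ ℓ) ^ 2 + (36 * ℓ ^ 2 + 78 * ℓ + 6) * 2 ^ ℓ + 2 =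
        5 * x * q + 60 * x + L := by
      rw [hx, hL]; ring
    rw [h1]
    omega
  · rw [← hx]
    have e1 : q * (q * (x * k)) = 2 * (q * k) ^ 2 := by rw [hk]; ring
    have e2 : 91 * m ≤ 2120 * (q * k) := by
      have : 5 * x * q = 10 * (q * k) := by rw [hk]; ring
      omega
    have e3 : (91 * m) ^ 2 ≤ (2120 * (q * k)) ^ 2 := Nat.pow_le_pow_left e2 2
    rw [e1]
    have e4 : (91 * m) ^ 2 = 8281 * m ^ 2 := by ring
    have e5 : (2120 * (q * k)) ^ 2 = 4494400 * (q * k) ^ 2 := by ring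
    rw [e4, e5] at e3
    omega
  · rw [← hx]
    have e1 : q * (q * (x * k)) = 2 * (q * k) ^ 2 := by rw [hk]; ring
    have e2 : 10 * (q * k) ≤ m := by
      have : 5 * x * q = 10 * (q * k) := by rw [hk]; ring
      omega
    have e3 : (10 * (q * k)) ^ 2 ≤ m ^ 2 := Nat.pow_le_pow_left e2 2
    have e4 : (10 * (q * k)) ^ 2 = 100 * (q * k) ^ 2 := by ring
    rw [e1]
    rw [e4] at e3
    omega

/-- logarithmic form of the inequality -/
lemma log_form (k D n r δ' : ℕ) (hk : 2 ≤ k) (hD : 0 < D) (hδ' : 0 < δ') (hr : r ≤ n)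
    (h : (((k - 1) * D : ℕ) : ℝ) ^ D ≤ ((δ' * (D + 5 * n) : ℕ) : ℝ) ^ D *
      Real.exp (2 * D + 3 * r + 3) * (((n - r : ℕ) + 1) * (r + 1) * (2 * r + 1))) :
    (D : ℝ) * (Real.log (((k - 1) * D : ℕ) : ℝ) - Real.log ((δ' * (D + 5 * n) : ℕ) : ℝ)) ≤
      2 * D + 3 * r + 3 + 3 * Real.log (2 * (n + 1)) := by
  have hpos1 : (0 : ℝ) < (((k - 1) * D : ℕ) : ℝ) := by
    have : 0 < (k - 1) * D := Nat.mul_pos (by omega) hD
    exact_mod_cast this
  have hpos2 : (0 : ℝ) < ((δ' * (D + 5 * n) : ℕ) : ℝ) := by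
    have : 0 < δ' * (D + 5 * n) := Nat.mul_pos hδ' (by omega)
    exact_mod_cast this
  have h1 := Real.log_le_log (by positivity) h
  rw [Real.log_pow, Real.log_mul (by positivity) (by positivity),
    Real.log_mul (by positivity) (by positivity), Real.log_pow, Real.log_exp] at h1
  have h2 : Real.log (((n - r : ℕ) + 1) * (r + 1) * (2 * r + 1)) ≤ 3 * Real.log (2 * (n + 1)) := by
    have h3 : (((n - r : ℕ) : ℝ) + 1) * (r + 1) * (2 * r + 1) ≤ (2 * (n + 1)) ^ 3 := by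
      have a1 : (((n - r : ℕ) : ℝ) + 1) ≤ 2 * (n + 1) := by
        have : ((n - r : ℕ) : ℝ) ≤ n := by exact_mod_cast Nat.sub_le n r
        have : (0 : ℝ) ≤ n := by positivity
        linarith
      have hr' : (r : ℝ) ≤ n := by exact_mod_cast hr
      have a2 : ((r : ℝ) + 1) ≤ 2 * (n + 1) := by linarith [(Nat.cast_nonneg n : (0 : ℝ) ≤ n)]
      have a3 : (2 * (r : ℝ) + 1) ≤ 2 * (n + 1) := by linarith
      calc _ ≤ (2 * ((n : ℝ) + 1)) * (2 * (n + 1)) * (2 * (n + 1)) := by gcongr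
        _ = _ := by ring
    have h4 := Real.log_le_log (by positivity) h3
    rw [Real.log_pow] at h4
    push_cast at h4
    exact h4
  linarith

lemma log_eight_ge : (2.01 : ℝ) ≤ Real.log 8 := by
  have h1 : Real.log 8 = 3 * Real.log 2 := by
    have : (8 : ℝ) = 2 ^ 3 := by norm_num
    rw [this, Real.log_pow]
    norm_num
  have h2 := Real.log_two_gt_d9
  rw [h1]
  linarith

/-- there are at least `D` products -/
lemma D_le_n (m k D n : ℕ) (hm : 2 ^ 21 ≤ m) (hD1 : m ^ 2 ≤ 272 * D) (hD2 : D ≤ m ^ 2)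
    (hk : m < 1696 * k)
    (h : (((k - 1) * D : ℕ) : ℝ) ^ D ≤ (((0 + 1) * (D + 5 * n) : ℕ) : ℝ) ^ D *
      Real.exp (2 * D + 3 * n + 3) * (((n - n : ℕ) + 1) * (n + 1) * (2 * n + 1))) : D ≤ n := by
  by_contra hcon
  push Not at hcon
  have hm' : 2097152 ≤ m := by
    have : (2 : ℕ) ^ 21 = 2097152 := by norm_num
    omega
  have hk' : 1237 ≤ k := by omega
  have hD0 : 0 < D := by nlinarith
  have h1 := log_form k D n n (0 + 1) (by omega) hD0 (by norm_num) le_rfl h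
  have hDr : (0 : ℝ) < D := by exact_mod_cast hD0
  have hkr : (1236 : ℝ) ≤ ((k - 1 : ℕ) : ℝ) := by
    have : 1236 ≤ k - 1 := by omega
    exact_mod_cast this
  have hnr : (n : ℝ) ≤ D := by exact_mod_cast hcon.le
  have e1 : (((k - 1) * D : ℕ) : ℝ) = ((k - 1 : ℕ) : ℝ) * D := by push_cast; ring
  have e2 : Real.log (((0 + 1) * (D + 5 * n) : ℕ) : ℝ) ≤ Real.log 6 + Real.log D := by
    rw [← Real.log_mul (by norm_num) (by positivity)]
    apply Real.log_le_log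
    · have : 0 < (0 + 1) * (D + 5 * n) := by omega
      exact_mod_cast this
    · push_cast
      linarith
  have e3 : Real.log (((k - 1) * D : ℕ) : ℝ) = Real.log ((k - 1 : ℕ) : ℝ) + Real.log D := by
    rw [e1, Real.log_mul (by linarith) (by positivity)]
  have e4 : Real.log (2 * ((n : ℝ) + 1)) ≤ 4 * m := by
    have h2 : 2 * ((n : ℝ) + 1) ≤ (m : ℝ) ^ 4 := by
      have : 2 * (n + 1) ≤ m ^ 4 := by
        have a1 : n + 1 ≤ m ^ 2 := by omega
        have a2 : 2 ≤ m ^ 2 := by nlinarith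
        calc 2 * (n + 1) ≤ m ^ 2 * m ^ 2 := Nat.mul_le_mul a2 a1
          _ = m ^ 4 := by ring
      exact_mod_cast this
    have h3 := Real.log_le_log (by positivity) h2
    rw [Real.log_pow] at h3
    have h4 := Real.log_le_sub_one_of_pos (show (0 : ℝ) < m by
      have : 0 < m := by omega
      exact_mod_cast this)
    push_cast at h3
    linarith
  have e5 : (3 : ℝ) + 3 * (4 * m) ≤ D / 100 := by
    have h2 : 27200 * (3 + 12 * m) ≤ 272 * D := by
      refine le_trans ?_ hD1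
      nlinarith
    have h3 : (27200 : ℝ) * (3 + 12 * m) ≤ 272 * D := by exact_mod_cast h2
    linarith
  -- the contradiction
  have h5 : Real.log ((k - 1 : ℕ) : ℝ) - Real.log 6 ≤ 5.01 := by
    have h6 : (D : ℝ) * (Real.log ((k - 1 : ℕ) : ℝ) - Real.log 6) ≤ D * 5.01 := by
      have h7 : (D : ℝ) * (Real.log ((k - 1 : ℕ) : ℝ) - Real.log 6) ≤
          D * (Real.log (((k - 1) * D : ℕ) : ℝ) -
            Real.log (((0 + 1) * (D + 5 * n) : ℕ) : ℝ)) := by
        apply mul_le_mul_of_nonneg_left _ hDr.le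
        rw [e3]
        linarith
      linarith
    exact le_of_mul_le_mul_left h6 hDr
  have h6 : Real.log 1236 ≤ Real.log ((k - 1 : ℕ) : ℝ) := Real.log_le_log (by norm_num) hkr
  have h7 : 30 * Real.log 2 + 4 * Real.log 6 ≤ 4 * Real.log 1236 := by
    have a1 : 30 * Real.log 2 = Real.log (2 ^ 30) := by rw [Real.log_pow]; norm_num
    have a2 : 4 * Real.log 6 = Real.log (6 ^ 4) := by rw [Real.log_pow]; norm_num
    have a3 : 4 * Real.log 1236 = Real.log (1236 ^ 4) := by rw [Real.log_pow]; norm_num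
    rw [a1, a2, a3, ← Real.log_mul (by norm_num) (by norm_num)]
    apply Real.log_le_log (by norm_num)
    norm_num
  have h8 := Real.log_two_gt_d9
  linarith

/-- **The trade-off.** -/
theorem circ_final (k₀ : Type*) [Field k₀] [CharZero k₀] (m : ℕ) (hm : 2 ^ 21 ≤ m) (δ : ℕ)
    (hδ : 1 ≤ δ) {n : ℕ}
    (a b : Fin n → MvPolynomial (Fin m × Fin m) (RatFunc k₀)) (R : Finset (Fin n))
    (ha : ∀ t, a t ∈ Submodule.span (RatFunc k₀)
      ({1} ∪ Set.range X ∪ {x | ∃ j ∈ Finset.Iio t, x = a j * b j}))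
    (hb : ∀ t, b t ∈ Submodule.span (RatFunc k₀)
      ({1} ∪ Set.range X ∪ {x | ∃ j ∈ Finset.Iio t, x = a j * b j}))
    (hR : ∀ t ∉ R, (a t).totalDegree ≤ δ)
    (F : MvPolynomial (Fin m × Fin m) (RatFunc k₀))
    (hF : F ∈ Submodule.span (RatFunc k₀)
      ({1} ∪ Set.range X ∪ {x | ∃ j ∈ (Finset.univ : Finset (Fin n)), x = a j * b j}))
    (hlim : ∀ μ, (coeff μ F).denom.eval 0 ≠ 0 ∧
      RatFunc.eval (RingHom.id k₀) 0 (coeff μ F) = coeff μ (perN k₀ m)) :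
    (m : ℝ) ^ 2 * Real.logb 2 ((m : ℝ) ^ 3 / (5 * 10 ^ 7 * δ * n)) ≤ 1200 * R.card := by
  rcases Nat.eq_zero_or_pos n with hn0 | hn0
  · subst hn0
    simp
  have hm' : 2097152 ≤ m := by
    have : (2 : ℕ) ^ 21 = 2097152 := by norm_num
    omega
  have hmr : (2097152 : ℝ) ≤ m := by exact_mod_cast hm'
  have hδr : (1 : ℝ) ≤ δ := by exact_mod_cast hδ
  have hnr : (1 : ℝ) ≤ n := by exact_mod_cast hn0
  have hden : (0 : ℝ) < 5 * 10 ^ 7 * δ * n := by positivity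
  rcases le_or_gt ((m : ℝ) ^ 3) (5 * 10 ^ 7 * δ * n) with htriv | hnt
  · have h1 : Real.logb 2 ((m : ℝ) ^ 3 / (5 * 10 ^ 7 * δ * n)) ≤ 0 := by
      apply Real.logb_nonpos (by norm_num) (by positivity)
      rw [div_le_one hden]
      exact htriv
    calc (m : ℝ) ^ 2 * Real.logb 2 ((m : ℝ) ^ 3 / (5 * 10 ^ 7 * δ * n)) ≤ (m : ℝ) ^ 2 * 0 :=
          mul_le_mul_of_nonneg_left h1 (by positivity)
      _ = 0 := mul_zero _
      _ ≤ _ := by positivity
  have hnm : n < m ^ 3 := by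
    have : (n : ℝ) < (m : ℝ) ^ 3 := by
      refine lt_of_le_of_lt ?_ hnt
      have : (1 : ℝ) * n ≤ 5 * 10 ^ 7 * δ * n := by
        apply mul_le_mul_of_nonneg_right _ (by positivity)
        nlinarith
      linarith
    exact_mod_cast this
  obtain ⟨q, ℓ, k, p, D, hk2, hmm, hq, hmN, hD, hD1, hD2, hk⟩ := exists_params m (by omega)
  have hD0 : 0 < D := by nlinarith
  have hDr : (0 : ℝ) < D := by exact_mod_cast hD0
  -- at least `D` products
  have hDn : D ≤ n := by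
    have h0 := circ_perm k₀ hk2 hmm hq m hmN 0 a b Finset.univ ha hb
      (fun t ht => absurd (Finset.mem_univ t) ht) F hF hlim D hD
    rw [Finset.card_univ, Fintype.card_fin] at h0
    exact D_le_n m k D n hm hD1 hD2 hk h0
  have hRn : R.card ≤ n := by
    have := Finset.card_le_univ R
    rwa [Fintype.card_fin] at this
  have h0 := circ_perm k₀ hk2 hmm hq m hmN δ a b R ha hb hR F hF hlim D hD
  have h1 := log_form k D n R.card (δ + 1) hk2 hD0 (by omega) hRn h0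
  -- the lower order terms
  have e4 : Real.log (2 * ((n : ℝ) + 1)) ≤ 4 * m := by
    have h2 : 2 * ((n : ℝ) + 1) ≤ (m : ℝ) ^ 4 := by
      have : 2 * (n + 1) ≤ m ^ 4 := by
        have a1 : n + 1 ≤ m ^ 3 := by omega
        calc 2 * (n + 1) ≤ m * m ^ 3 := Nat.mul_le_mul (by omega) a1
          _ = m ^ 4 := by ring
      exact_mod_cast this
    have h3 := Real.log_le_log (by positivity) h2
    rw [Real.log_pow] at h3
    have h4 := Real.log_le_sub_one_of_pos (show (0 : ℝ) < m by linarith)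
    push_cast at h3
    linarith
  have e5 : (3 : ℝ) + 3 * (4 * m) ≤ D / 100 := by
    have h2 : 27200 * (3 + 12 * m) ≤ 272 * D := by
      refine le_trans ?_ hD1
      nlinarith
    have h3 : (27200 : ℝ) * (3 + 12 * m) ≤ 272 * D := by exact_mod_cast h2
    linarith
  -- the numerator and the denominator
  have hDm : (m : ℝ) ^ 2 ≤ 272 * D := by exact_mod_cast hD1
  have hkm : (m : ℝ) ≤ 1698 * ((k - 1 : ℕ) : ℝ) := by
    have : m ≤ 1698 * (k - 1) := by omega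
    exact_mod_cast this
  have f1 : Real.log ((m : ℝ) ^ 3 / 461856) ≤ Real.log (((k - 1) * D : ℕ) : ℝ) := by
    apply Real.log_le_log (by positivity)
    rw [div_le_iff₀ (by norm_num)]
    push_cast
    calc (m : ℝ) ^ 3 = m * m ^ 2 := by ring
      _ ≤ (1698 * ((k - 1 : ℕ) : ℝ)) * (272 * D) := by gcongr
      _ = ((k - 1 : ℕ) : ℝ) * D * 461856 := by ring
  have f2 : Real.log (((δ + 1) * (D + 5 * n) : ℕ) : ℝ) ≤ Real.log (12 * δ * n) := by
    apply Real.log_le_log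
    · have : 0 < (δ + 1) * (D + 5 * n) := Nat.mul_pos (by omega) (by omega)
      exact_mod_cast this
    · have : (δ + 1) * (D + 5 * n) ≤ 12 * δ * n := by
        calc (δ + 1) * (D + 5 * n) ≤ (2 * δ) * (6 * n) := Nat.mul_le_mul (by omega) (by omega)
          _ = 12 * δ * n := by ring
      exact_mod_cast this
  have f3 : Real.log ((m : ℝ) ^ 3 / (5 * 10 ^ 7 * δ * n)) + 2.01 ≤
      Real.log (((k - 1) * D : ℕ) : ℝ) - Real.log (((δ + 1) * (D + 5 * n) : ℕ) : ℝ) := by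
    have g1 : Real.log ((m : ℝ) ^ 3 / (5 * 10 ^ 7 * δ * n)) + Real.log 8 ≤
        Real.log ((m : ℝ) ^ 3 / 461856) - Real.log (12 * δ * n) := by
      rw [← Real.log_mul (by positivity) (by norm_num),
        ← Real.log_div (by positivity) (by positivity)]
      apply Real.log_le_log (by positivity)
      rw [div_div, div_mul_eq_mul_div, div_le_div_iff₀ hden (by positivity)]
      have : (0 : ℝ) ≤ (m : ℝ) ^ 3 * (δ * n) := by positivity
      nlinarith
    have := log_eight_ge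
    linarith
  set Λ := Real.log ((m : ℝ) ^ 3 / (5 * 10 ^ 7 * δ * n)) with hΛ
  have hΛ0 : 0 ≤ Λ := by
    apply Real.log_nonneg
    rw [le_div_iff₀ hden]
    linarith
  have g2 : (D : ℝ) * Λ ≤ 3 * R.card := by
    have g3 : (D : ℝ) * (Λ + 2.01) ≤ D * (Real.log (((k - 1) * D : ℕ) : ℝ) -
        Real.log (((δ + 1) * (D + 5 * n) : ℕ) : ℝ)) := mul_le_mul_of_nonneg_left f3 hDr.le
    linarith
  have g4 : (m : ℝ) ^ 2 * Λ ≤ 816 * R.card := by
    calc (m : ℝ) ^ 2 * Λ ≤ 272 * D * Λ := mul_le_mul_of_nonneg_right hDm hΛ0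
      _ ≤ 816 * R.card := by linarith
  have hlog2 := Real.log_two_gt_d9
  have hlog2' : (0 : ℝ) < Real.log 2 := by linarith
  unfold Real.logb
  rw [← mul_div_assoc, div_le_iff₀ hlog2']
  have g5 : (0 : ℝ) ≤ R.card := by positivity
  nlinarith

end Pool.Agent.W944.Cx
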