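import Pool.Agent.W944.Upper

/-! # Kernel vectors of a matrix of affine forms: the chain of eliminations -/

set_option autoImplicit false
set_option linter.unusedSectionVars false

open Module MvPolynomial

namespace Pool.Agent.W944

variable {K : Type*} [Field K] {ι : Type*} {N : ℕ}

section General

variable (B : Type*) [CommRing B] [Algebra K B] [Algebra (MvPolynomial ι K) B]
  [IsScalarTower K (MvPolynomial ι K) B]
  {B' : Type*} [CommRing B'] [Algebra K B'] [Algebra (MvPolynomial ι K) B']
  [IsScalarTower K (MvPolynomial ι K) B']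

variable (K ι) in
/-- the span of `1` and the variables -/
def xsp : Submodule K B :=
  Submodule.span K (Set.range fun o : Option ι =>
    o.elim (1 : B) fun i => algebraMap (MvPolynomial ι K) B (X i))

variable {B}

/-- the vector `adj(M) v` -/
noncomputable def kvec (M : Matrix (Fin N) (Fin N) (MvPolynomial ι K)) (v : Fin N → B) :
    Fin N → B :=
  (M.adjugate.map (algebraMap (MvPolynomial ι K) B)).mulVec v

/-- the span of the entries of `adj(M) v` -/
noncomputable def ksp (M : Matrix (Fin N) (Fin N) (MvPolynomial ι K)) (v : Fin N → B) :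
    Submodule K B :=
  Submodule.span K (Set.range (kvec M v))

lemma one_mem_xsp : (1 : B) ∈ xsp K ι B :=
  Submodule.subset_span ⟨none, rfl⟩

lemma xsp_fg [Fintype ι] : (xsp K ι B).FG := Submodule.fg_span (Set.finite_range _)

lemma ksp_fg (M : Matrix (Fin N) (Fin N) (MvPolynomial ι K)) (v : Fin N → B) :
    (ksp M v).FG := Submodule.fg_span (Set.finite_range _)

lemma algebraMap_mem_xsp (f : MvPolynomial ι K) (hf : f.totalDegree ≤ 1) :
    algebraMap (MvPolynomial ι K) B f ∈ xsp K ι B := by
  classical
  rw [f.as_sum, map_sum]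
  apply Submodule.sum_mem
  intro m hm
  have h1 := le_totalDegree hm
  have h2 : m.degree ≤ 1 := h1.trans hf
  have h3 : (monomial m (coeff m f) : MvPolynomial ι K) = (coeff m f) • monomial m 1 := by
    rw [smul_monomial, smul_eq_mul, mul_one]
  rw [h3, Algebra.algebraMap_eq_smul_one, smul_assoc, ← Algebra.algebraMap_eq_smul_one]
  apply Submodule.smul_mem
  rcases Nat.le_one_iff_eq_zero_or_eq_one.mp h2 with h4 | h4
  · rw [Finsupp.degree_eq_zero_iff] at h4
    subst h4
    exact Submodule.subset_span ⟨none, by simp⟩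
  · have h5 : m ∈ Set.range (fun a : ι => Finsupp.single a 1) := by
      rw [Finsupp.range_single_one]; exact h4
    obtain ⟨i, rfl⟩ := h5
    exact Submodule.subset_span ⟨some i, rfl⟩

lemma xsp_map (φ : B →ₐ[MvPolynomial ι K] B') :
    (xsp K ι B).map (φ.restrictScalars K).toLinearMap = xsp K ι B' := by
  unfold xsp
  rw [Submodule.map_span, ← Set.range_comp]
  congr 2
  funext o
  cases o with
  | none => simp
  | some i => simp

lemma ksp_map (M : Matrix (Fin N) (Fin N) (MvPolynomial ι K)) (v : Fin N → B)
    (φ : B →ₐ[MvPolynomial ι K] B') :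
    (ksp M v).map (φ.restrictScalars K).toLinearMap = ksp M (fun l => φ (v l)) := by
  unfold ksp
  rw [Submodule.map_span, ← Set.range_comp]
  congr 2
  funext i
  simp [kvec, Matrix.mulVec, dotProduct]

lemma det_mul_mem (M : Matrix (Fin N) (Fin N) (MvPolynomial ι K))
    (hM : ∀ i j, (M i j).totalDegree ≤ 1) (v : Fin N → B) (j : Fin N) :
    algebraMap (MvPolynomial ι K) B M.det * v j ∈ xsp K ι B * ksp M v := by
  have h1 : (M.map (algebraMap (MvPolynomial ι K) B)).mulVec (kvec M v) =
      algebraMap (MvPolynomial ι K) B M.det • v := by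
    unfold kvec
    rw [Matrix.mulVec_mulVec, ← Matrix.map_mul, Matrix.mul_adjugate]
    ext l
    simp [Matrix.mulVec, dotProduct, Matrix.smul_apply, Matrix.one_apply, apply_ite,
      ite_mul]
  have h2 := congrFun h1 j
  rw [Pi.smul_apply, smul_eq_mul] at h2
  rw [← h2]
  unfold Matrix.mulVec dotProduct
  apply Submodule.sum_mem
  intro i _
  apply Submodule.mul_mem_mul
  · exact algebraMap_mem_xsp _ (hM j i)
  · exact Submodule.subset_span ⟨i, rfl⟩

/-- the dimensions -/
noncomputable def hd (M : Matrix (Fin N) (Fin N) (MvPolynomial ι K)) (v w : Fin N → B)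
    (a b c : ℕ) : ℕ := dm (xsp K ι B) (ksp M v) (ksp M.transpose w) a b c

lemma hd_comm (M : Matrix (Fin N) (Fin N) (MvPolynomial ι K)) (v w : Fin N → B) (a b c : ℕ) :
    hd M v w a b c = hd M.transpose w v a c b := by
  unfold hd
  rw [dm_comm, Matrix.transpose_transpose]

variable [Fintype ι]

lemma hd_map_le (M : Matrix (Fin N) (Fin N) (MvPolynomial ι K)) (v w : Fin N → B)
    (φ : B →ₐ[MvPolynomial ι K] B') (a b c : ℕ) :
    hd M (fun l => φ (v l)) (fun l => φ (w l)) a b c ≤ hd M v w a b c := by
  unfold hd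
  rw [← ksp_map, ← ksp_map, ← xsp_map φ]
  exact dm_map_le _ xsp_fg (ksp_fg _ _) (ksp_fg _ _) _ _ _

lemma hd_step₁ [IsDomain B] (M : Matrix (Fin N) (Fin N) (MvPolynomial ι K))
    (hM : ∀ i j, (M i j).totalDegree ≤ 1)
    (hdet : algebraMap (MvPolynomial ι K) B M.det ≠ 0) (v w : Fin N → B)
    (φ : B →ₐ[MvPolynomial ι K] B') (j : Fin N) (hvj : v j ≠ 0)
    (hφ : φ (algebraMap (MvPolynomial ι K) B M.det * v j) = 0) (a b c : ℕ) :
    hd M (fun l => φ (v l)) (fun l => φ (w l)) (a + 1) (b + 1) c + hd M v w a b c ≤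
      hd M v w (a + 1) (b + 1) c := by
  unfold hd
  rw [← ksp_map, ← ksp_map, ← xsp_map φ]
  exact dm_step₁ _ xsp_fg (ksp_fg _ _) (ksp_fg _ _) _ (mul_ne_zero hdet hvj) hφ
    (det_mul_mem M hM v j) _ _ _

lemma hd_step₂ [IsDomain B] (M : Matrix (Fin N) (Fin N) (MvPolynomial ι K))
    (hM : ∀ i j, (M i j).totalDegree ≤ 1)
    (hdet : algebraMap (MvPolynomial ι K) B M.det ≠ 0) (v w : Fin N → B)
    (φ : B →ₐ[MvPolynomial ι K] B') (j : Fin N) (hwj : w j ≠ 0)
    (hφ : φ (algebraMap (MvPolynomial ι K) B M.det * w j) = 0) (a b c : ℕ) :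
    hd M (fun l => φ (v l)) (fun l => φ (w l)) (a + 1) b (c + 1) + hd M v w a b c ≤
      hd M v w (a + 1) b (c + 1) := by
  rw [hd_comm M, hd_comm M, hd_comm M v w (a + 1)]
  exact hd_step₁ M.transpose (fun i j => hM j i) (by rwa [Matrix.det_transpose]) w v φ j hwj
    (by rwa [Matrix.det_transpose]) a c b

lemma hd_mono₁ [IsDomain B] (M : Matrix (Fin N) (Fin N) (MvPolynomial ι K)) (v w : Fin N → B)
    (i : Fin N) (hi : kvec M v i ≠ 0) (a b c t : ℕ) :
    hd M v w a b c ≤ hd M v w (a + t) (b + t) c :=
  dm_mono xsp_fg (ksp_fg _ _) (ksp_fg _ _) one_mem_xsp _ (Submodule.subset_span ⟨i, rfl⟩) hi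
    _ _ _ _

lemma hd_mono₂ [IsDomain B] (M : Matrix (Fin N) (Fin N) (MvPolynomial ι K)) (v w : Fin N → B)
    (i : Fin N) (hi : kvec M.transpose w i ≠ 0) (a b c t : ℕ) :
    hd M v w a b c ≤ hd M v w (a + t) b (c + t) := by
  rw [hd_comm M, hd_comm M]
  exact hd_mono₁ M.transpose w v i hi _ _ _ _

lemma hd_le (M : Matrix (Fin N) (Fin N) (MvPolynomial ι K)) (v w : Fin N → B) (a b c : ℕ) :
    hd M v w a b c ≤ (Fintype.card ι + 1).multichoose a * N.multichoose b * N.multichoose c := by
  have h := dm_le (K := K) (fun o : Option ι =>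
    o.elim (1 : B) fun i => algebraMap (MvPolynomial ι K) B (X i)) (kvec M v)
      (kvec M.transpose w) a b c
  rw [Fintype.card_option, Fintype.card_fin] at h
  exact h

end General

section Gen

variable [Fintype ι] (K ι N)

/-- the ring with the auxiliary vectors -/
abbrev Bg : Type _ := MvPolynomial (Fin N ⊕ Fin N) (MvPolynomial ι K)

variable {N}

/-- the first auxiliary vector, restricted to `U` -/
noncomputable def vU (U : Finset (Fin N)) : Fin N → Bg K ι N :=
  fun l => if l ∈ U then X (Sum.inl l) else 0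

/-- the second auxiliary vector, restricted to `U` -/
noncomputable def wU (U : Finset (Fin N)) : Fin N → Bg K ι N :=
  fun l => if l ∈ U then X (Sum.inr l) else 0

/-- the substitution of zero for one auxiliary variable -/
noncomputable def kill (s : Fin N ⊕ Fin N) : Bg K ι N →ₐ[MvPolynomial ι K] Bg K ι N :=
  aeval fun s' => if s' = s then 0 else X s'

lemma kill_vU (U : Finset (Fin N)) (j : Fin N) (hj : j ∉ U) :
    (fun l => kill K ι (Sum.inl j) (vU K ι (insert j U) l)) = vU K ι U := by
  funext l
  unfold kill vU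
  by_cases h1 : l = j
  · subst h1
    simp [hj]
  · by_cases h2 : l ∈ U
    · simp [h1, h2]
    · simp [h1, h2]

lemma kill_wU (U : Finset (Fin N)) (j : Fin N) (hj : j ∉ U) :
    (fun l => kill K ι (Sum.inr j) (wU K ι (insert j U) l)) = wU K ι U := by
  funext l
  unfold kill wU
  by_cases h1 : l = j
  · subst h1
    simp [hj]
  · by_cases h2 : l ∈ U
    · simp [h1, h2]
    · simp [h1, h2]

lemma kill_vU' (U : Finset (Fin N)) (j : Fin N) :
    (fun l => kill K ι (Sum.inr j) (vU K ι U l)) = vU K ι U := by
  funext l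
  unfold kill vU
  split_ifs <;> simp

lemma kill_wU' (U : Finset (Fin N)) (j : Fin N) :
    (fun l => kill K ι (Sum.inl j) (wU K ι U l)) = wU K ι U := by
  funext l
  unfold kill wU
  split_ifs <;> simp

variable {K ι}

variable {R : Type*} [CommRing R] [IsDomain R] [Algebra K R] [Algebra (MvPolynomial ι K) R]
  [IsScalarTower K (MvPolynomial ι K) R]

/-- evaluation of the auxiliary variables -/
noncomputable def fin_ev (R : Type*) [CommRing R] [Algebra (MvPolynomial ι K) R] (p q : Fin N) :
    Bg K ι N →ₐ[MvPolynomial ι K] R :=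
  aeval (Sum.elim (fun l => if l = q then 1 else 0) (fun l => if l = p then 1 else 0))

lemma fin_ev_v (p q : Fin N) :
    (fun l => fin_ev (K := K) (ι := ι) R p q (vU K ι {q} l)) = Pi.single q 1 := by
  funext l
  unfold fin_ev vU
  by_cases h : l = q
  · subst h; simp
  · simp [h]

lemma fin_ev_w (p q : Fin N) :
    (fun l => fin_ev (K := K) (ι := ι) R p q (wU K ι {p} l)) = Pi.single p 1 := by
  funext l
  unfold fin_ev wU
  by_cases h : l = p
  · subst h; simp
  · simp [h]

lemma kvec_single {B : Type*} [CommRing B] [Algebra K B] [Algebra (MvPolynomial ι K) B]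
    (M : Matrix (Fin N) (Fin N) (MvPolynomial ι K)) (q i : Fin N) :
    kvec M (Pi.single q (1 : B)) i = algebraMap (MvPolynomial ι K) B (M.adjugate i q) := by
  unfold kvec
  rw [Matrix.mulVec_single_one]
  rfl

variable (M : Matrix (Fin N) (Fin N) (MvPolynomial ι K))
  (hM : ∀ i j, (M i j).totalDegree ≤ 1) (hdet : M.det ≠ 0) (p q : Fin N)
  (hR : algebraMap (MvPolynomial ι K) R M.det = 0)
  (hpq : algebraMap (MvPolynomial ι K) R (M.adjugate p q) ≠ 0)

include hM hdet hR hpq in
/-- the first half of the chain -/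
lemma chain₁ (c : ℕ) (T : Finset (Fin N)) : q ∉ T → ∀ t a b,
    (t + (T.card + 1)).choose (T.card + 1) *
      hd M (Pi.single q (1 : R)) (Pi.single p (1 : R)) a b c ≤
    hd M (vU K ι (insert q T)) (wU K ι {p}) (a + t) (b + t) c := by
  classical
  have hdetB : algebraMap (MvPolynomial ι K) (Bg K ι N) M.det ≠ 0 := by
    rw [algebraMap_eq]
    exact (map_ne_zero_iff _ (C_injective _ _)).mpr hdet
  induction T using Finset.induction_on with
  | empty =>
    intro _
    rw [Finset.card_empty]
    apply comb 0 (fun a b => hd M (Pi.single q (1 : R)) (Pi.single p (1 : R)) a b c)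
      (fun a b => hd M (Pi.single q (1 : R)) (Pi.single p (1 : R)) a b c)
      (fun a b => hd M (vU K ι (insert q ∅)) (wU K ι {p}) a b c)
    · intro t a b
      rw [Nat.choose_zero_right, one_mul]
      exact hd_mono₁ M _ _ p (by rw [kvec_single]; exact hpq) _ _ _ _
    · intro a b
      have h := hd_map_le M (vU K ι {q}) (wU K ι {p}) (fin_ev (K := K) (ι := ι) R p q) a b c
      rw [fin_ev_v, fin_ev_w] at h
      exact h
    · intro a b
      have h := hd_step₁ M hM hdetB (vU K ι {q}) (wU K ι {p}) (fin_ev (K := K) (ι := ι) R p q) q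
        (by unfold vU; rw [if_pos (Finset.mem_singleton_self q)]; exact X_ne_zero _)
        (by rw [map_mul, AlgHom.commutes, hR, zero_mul]) a b c
      rw [fin_ev_v, fin_ev_w] at h
      exact h
  | insert j T hj ih =>
    intro hq
    have hq' : q ∉ T := fun h => hq (Finset.mem_insert_of_mem h)
    have hjq : j ∉ insert q T := by
      rw [Finset.mem_insert]
      rintro (h | h)
      · exact hq (by rw [h]; exact Finset.mem_insert_self _ _)
      · exact hj h
    rw [Finset.card_insert_of_notMem hj, Finset.insert_comm]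
    apply comb (T.card + 1) (fun a b => hd M (Pi.single q (1 : R)) (Pi.single p (1 : R)) a b c)
      (fun a b => hd M (vU K ι (insert q T)) (wU K ι {p}) a b c)
      (fun a b => hd M (vU K ι (insert j (insert q T))) (wU K ι {p}) a b c)
    · exact ih hq'
    · intro a b
      have h := hd_map_le M (vU K ι (insert j (insert q T))) (wU K ι {p})
        (kill K ι (Sum.inl j)) a b c
      rw [kill_vU K ι _ _ hjq, kill_wU'] at h
      exact h
    · intro a b
      have h := hd_step₁ M hM hdetB (vU K ι (insert j (insert q T))) (wU K ι {p})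
        (kill K ι (Sum.inl j)) j
        (by unfold vU; rw [if_pos (Finset.mem_insert_self _ _)]; exact X_ne_zero _)
        (by
          unfold vU kill
          rw [if_pos (Finset.mem_insert_self _ _), map_mul, aeval_X, if_pos rfl, mul_zero]) a b c
      rw [kill_vU K ι _ _ hjq, kill_wU'] at h
      exact h

include hM hdet hpq in
/-- the second half of the chain -/
lemma chain₂ (v : Finset (Fin N)) (b : ℕ) (T : Finset (Fin N)) : p ∉ T → ∀ t a c,
    (t + T.card).choose T.card * hd M (vU K ι v) (wU K ι {p}) a b c ≤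
    hd M (vU K ι v) (wU K ι (insert p T)) (a + t) b (c + t) := by
  classical
  have hdetB : algebraMap (MvPolynomial ι K) (Bg K ι N) M.det ≠ 0 := by
    rw [algebraMap_eq]
    exact (map_ne_zero_iff _ (C_injective _ _)).mpr hdet
  have hpq' : M.adjugate p q ≠ 0 := by
    intro h
    rw [h, map_zero] at hpq
    exact hpq rfl
  induction T using Finset.induction_on with
  | empty =>
    intro _ t a c
    rw [Finset.card_empty, Nat.choose_zero_right, one_mul]
    refine hd_mono₂ M _ _ q ?_ _ _ _ _
    have h1 : kvec M.transpose (wU K ι {p}) q =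
        C (M.adjugate p q) * X (Sum.inr p) := by
      unfold kvec Matrix.mulVec dotProduct wU
      rw [Finset.sum_eq_single p]
      · rw [if_pos (Finset.mem_singleton_self p), ← Matrix.adjugate_transpose]
        rfl
      · intro l _ hl
        rw [if_neg (by rwa [Finset.mem_singleton]), mul_zero]
      · intro h; exact absurd (Finset.mem_univ _) h
    rw [h1]
    exact mul_ne_zero ((map_ne_zero_iff _ (C_injective _ _)).mpr hpq') (X_ne_zero _)
  | insert j T hj ih =>
    intro hq
    have hq' : p ∉ T := fun h => hq (Finset.mem_insert_of_mem h)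
    have hjq : j ∉ insert p T := by
      rw [Finset.mem_insert]
      rintro (h | h)
      · exact hq (by rw [h]; exact Finset.mem_insert_self _ _)
      · exact hj h
    rw [Finset.card_insert_of_notMem hj, Finset.insert_comm]
    apply comb T.card (fun a c => hd M (vU K ι v) (wU K ι {p}) a b c)
      (fun a c => hd M (vU K ι v) (wU K ι (insert p T)) a b c)
      (fun a c => hd M (vU K ι v) (wU K ι (insert j (insert p T))) a b c)
    · exact ih hq'
    · intro a c
      have h := hd_map_le M (vU K ι v) (wU K ι (insert j (insert p T)))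
        (kill K ι (Sum.inr j)) a b c
      rw [kill_wU K ι _ _ hjq, kill_vU'] at h
      exact h
    · intro a c
      have h := hd_step₂ M hM hdetB (vU K ι v) (wU K ι (insert j (insert p T)))
        (kill K ι (Sum.inr j)) j
        (by unfold wU; rw [if_pos (Finset.mem_insert_self _ _)]; exact X_ne_zero _)
        (by
          unfold wU kill
          rw [if_pos (Finset.mem_insert_self _ _), map_mul, aeval_X, if_pos rfl, mul_zero]) a b c
      rw [kill_wU K ι _ _ hjq, kill_vU'] at h
      exact h

include hM hdet hR hpq in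
/-- the main inequality for the dimensions -/
theorem main_dim (a b c t s : ℕ) :
    (s + (N - 1)).choose (N - 1) * ((t + N).choose N *
      hd M (Pi.single q (1 : R)) (Pi.single p (1 : R)) a b c) ≤
    (Fintype.card ι + 1).multichoose (a + t + s) * N.multichoose (b + t) *
      N.multichoose (c + s) := by
  classical
  have hN : 0 < N := lt_of_le_of_lt (Nat.zero_le _) p.2
  have h1 := chain₁ M hM hdet p q hR hpq c (Finset.univ.erase q) (Finset.notMem_erase _ _) t a b
  have h2 := chain₂ (R := R) M hM hdet p q hpq Finset.univ (b + t) (Finset.univ.erase p)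
    (Finset.notMem_erase _ _) s (a + t) c
  have hc : ∀ x : Fin N, (Finset.univ.erase x).card = N - 1 := by
    intro x
    rw [Finset.card_erase_of_mem (Finset.mem_univ _), Finset.card_univ, Fintype.card_fin]
  rw [hc, Finset.insert_erase (Finset.mem_univ _)] at h1 h2
  rw [Nat.sub_add_cancel hN] at h1
  calc _ ≤ (s + (N - 1)).choose (N - 1) * hd M (vU K ι Finset.univ) (wU K ι {p}) (a + t) (b + t) c :=
        Nat.mul_le_mul_left _ h1
    _ ≤ _ := h2
    _ ≤ _ := hd_le _ _ _ _ _ _

end Gen

end Pool.Agent.W944
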