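import Pool.Agent.W944.Semi
import Pool.Agent.W944.Smooth

/-! # Matrices with entries of degree at most `δ`: the chain of eliminations -/

set_option autoImplicit false
set_option linter.unusedSectionVars false

open Module MvPolynomial

namespace Pool.Agent.W944

variable {K : Type*} [Field K] {ι : Type*} {N : ℕ} [Fintype ι]

section General

variable {B : Type*} [CommRing B] [Algebra K B] [Algebra (MvPolynomial ι K) B]
  [IsScalarTower K (MvPolynomial ι K) B]
  {B' : Type*} [CommRing B'] [Algebra K B'] [Algebra (MvPolynomial ι K) B']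
  [IsScalarTower K (MvPolynomial ι K) B']

variable (δ : ℕ)

lemma one_mem_xspD : (1 : B) ∈ xsp K ι B ^ δ := by
  have h := Submodule.pow_mem_pow (xsp K ι B) (one_mem_xsp (K := K) (ι := ι) (B := B)) δ
  rwa [one_pow] at h

lemma xspD_map (φ : B →ₐ[MvPolynomial ι K] B') :
    (xsp K ι B ^ δ).map (φ.restrictScalars K).toLinearMap = xsp K ι B' ^ δ := by
  rw [Submodule.map_pow, xsp_map]

lemma det_mul_memD (M : Matrix (Fin N) (Fin N) (MvPolynomial ι K))
    (hM : ∀ i j, (M i j).totalDegree ≤ δ) (v : Fin N → B) (j : Fin N) :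
    algebraMap (MvPolynomial ι K) B M.det * v j ∈ xsp K ι B ^ δ * ksp M v := by
  have h1 : (M.map (algebraMap (MvPolynomial ι K) B)).mulVec (kvec M v) =
      algebraMap (MvPolynomial ι K) B M.det • v := by
    unfold kvec
    rw [Matrix.mulVec_mulVec, ← Matrix.map_mul, Matrix.mul_adjugate]
    ext l
    simp [Matrix.mulVec, dotProduct, Matrix.smul_apply, Matrix.one_apply, apply_ite,
      ite_mul]
  have h2 := congrFun h1 j
  rw [Pi.smul_apply, smul_eq_mul] at h2
  rw [← h2]
  unfold Matrix.mulVec dotProduct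
  apply Submodule.sum_mem
  intro i _
  apply Submodule.mul_mem_mul
  · exact algebraMap_mem_xsp_pow δ _ (hM j i)
  · exact Submodule.subset_span ⟨i, rfl⟩

/-- the dimensions -/
noncomputable def hdd (M : Matrix (Fin N) (Fin N) (MvPolynomial ι K)) (v w : Fin N → B)
    (a b c : ℕ) : ℕ := dm (xsp K ι B ^ δ) (ksp M v) (ksp M.transpose w) a b c

lemma hdd_comm (M : Matrix (Fin N) (Fin N) (MvPolynomial ι K)) (v w : Fin N → B) (a b c : ℕ) :
    hdd δ M v w a b c = hdd δ M.transpose w v a c b := by
  unfold hdd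
  rw [dm_comm, Matrix.transpose_transpose]

lemma hdd_map_le (M : Matrix (Fin N) (Fin N) (MvPolynomial ι K)) (v w : Fin N → B)
    (φ : B →ₐ[MvPolynomial ι K] B') (a b c : ℕ) :
    hdd δ M (fun l => φ (v l)) (fun l => φ (w l)) a b c ≤ hdd δ M v w a b c := by
  unfold hdd
  rw [← ksp_map, ← ksp_map, ← xspD_map δ φ]
  exact dm_map_le _ (xsp_fg.pow _) (ksp_fg _ _) (ksp_fg _ _) _ _ _

lemma hdd_step₁ [IsDomain B] (M : Matrix (Fin N) (Fin N) (MvPolynomial ι K))
    (hM : ∀ i j, (M i j).totalDegree ≤ δ)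
    (hdet : algebraMap (MvPolynomial ι K) B M.det ≠ 0) (v w : Fin N → B)
    (φ : B →ₐ[MvPolynomial ι K] B') (j : Fin N) (hvj : v j ≠ 0)
    (hφ : φ (algebraMap (MvPolynomial ι K) B M.det * v j) = 0) (a b c : ℕ) :
    hdd δ M (fun l => φ (v l)) (fun l => φ (w l)) (a + 1) (b + 1) c + hdd δ M v w a b c ≤
      hdd δ M v w (a + 1) (b + 1) c := by
  unfold hdd
  rw [← ksp_map, ← ksp_map, ← xspD_map δ φ]
  exact dm_step₁ _ (xsp_fg.pow _) (ksp_fg _ _) (ksp_fg _ _) _ (mul_ne_zero hdet hvj) hφ
    (det_mul_memD δ M hM v j) _ _ _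

lemma hdd_step₂ [IsDomain B] (M : Matrix (Fin N) (Fin N) (MvPolynomial ι K))
    (hM : ∀ i j, (M i j).totalDegree ≤ δ)
    (hdet : algebraMap (MvPolynomial ι K) B M.det ≠ 0) (v w : Fin N → B)
    (φ : B →ₐ[MvPolynomial ι K] B') (j : Fin N) (hwj : w j ≠ 0)
    (hφ : φ (algebraMap (MvPolynomial ι K) B M.det * w j) = 0) (a b c : ℕ) :
    hdd δ M (fun l => φ (v l)) (fun l => φ (w l)) (a + 1) b (c + 1) + hdd δ M v w a b c ≤
      hdd δ M v w (a + 1) b (c + 1) := by
  rw [hdd_comm δ M, hdd_comm δ M, hdd_comm δ M v w (a + 1)]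
  exact hdd_step₁ δ M.transpose (fun i j => hM j i) (by rwa [Matrix.det_transpose]) w v φ j hwj
    (by rwa [Matrix.det_transpose]) a c b

lemma hdd_mono₁ [IsDomain B] (M : Matrix (Fin N) (Fin N) (MvPolynomial ι K)) (v w : Fin N → B)
    (i : Fin N) (hi : kvec M v i ≠ 0) (a b c t : ℕ) :
    hdd δ M v w a b c ≤ hdd δ M v w (a + t) (b + t) c :=
  dm_mono (xsp_fg.pow _) (ksp_fg _ _) (ksp_fg _ _) (one_mem_xspD δ) _
    (Submodule.subset_span ⟨i, rfl⟩) hi _ _ _ _

lemma hdd_mono₂ [IsDomain B] (M : Matrix (Fin N) (Fin N) (MvPolynomial ι K)) (v w : Fin N → B)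
    (i : Fin N) (hi : kvec M.transpose w i ≠ 0) (a b c t : ℕ) :
    hdd δ M v w a b c ≤ hdd δ M v w (a + t) b (c + t) := by
  rw [hdd_comm δ M, hdd_comm δ M]
  exact hdd_mono₁ δ M.transpose w v i hi _ _ _ _

lemma hdd_le (M : Matrix (Fin N) (Fin N) (MvPolynomial ι K)) (v w : Fin N → B) (a b c : ℕ) :
    hdd δ M v w a b c ≤
      (Fintype.card ι + 1).multichoose (δ * a) * N.multichoose b * N.multichoose c := by
  have h := hd_le M v w (δ * a) b c
  have h2 : hdd δ M v w a b c = hd M v w (δ * a) b c := by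
    unfold hdd hd dm pr
    rw [pow_mul]
  rw [h2]
  exact h

end General

section Gen

variable {R : Type*} [CommRing R] [IsDomain R] [Algebra K R] [Algebra (MvPolynomial ι K) R]
  [IsScalarTower K (MvPolynomial ι K) R]

variable (δ : ℕ) (M : Matrix (Fin N) (Fin N) (MvPolynomial ι K))
  (hM : ∀ i j, (M i j).totalDegree ≤ δ) (hdet : M.det ≠ 0) (p q : Fin N)
  (hR : algebraMap (MvPolynomial ι K) R M.det = 0)
  (hpq : algebraMap (MvPolynomial ι K) R (M.adjugate p q) ≠ 0)

include hM hdet hR hpq in
/-- the first half of the chain -/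
lemma chainD₁ (c : ℕ) (T : Finset (Fin N)) : q ∉ T → ∀ t a b,
    (t + (T.card + 1)).choose (T.card + 1) *
      hdd δ M (Pi.single q (1 : R)) (Pi.single p (1 : R)) a b c ≤
    hdd δ M (vU K ι (insert q T)) (wU K ι {p}) (a + t) (b + t) c := by
  classical
  have hdetB : algebraMap (MvPolynomial ι K) (Bg K ι N) M.det ≠ 0 := by
    rw [algebraMap_eq]
    exact (map_ne_zero_iff _ (C_injective _ _)).mpr hdet
  induction T using Finset.induction_on with
  | empty =>
    intro _
    rw [Finset.card_empty]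
    apply comb 0 (fun a b => hdd δ M (Pi.single q (1 : R)) (Pi.single p (1 : R)) a b c)
      (fun a b => hdd δ M (Pi.single q (1 : R)) (Pi.single p (1 : R)) a b c)
      (fun a b => hdd δ M (vU K ι (insert q ∅)) (wU K ι {p}) a b c)
    · intro t a b
      rw [Nat.choose_zero_right, one_mul]
      exact hdd_mono₁ δ M _ _ p (by rw [kvec_single]; exact hpq) _ _ _ _
    · intro a b
      have h := hdd_map_le δ M (vU K ι {q}) (wU K ι {p}) (fin_ev (K := K) (ι := ι) R p q) a b c
      rw [fin_ev_v, fin_ev_w] at h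
      exact h
    · intro a b
      have h := hdd_step₁ δ M hM hdetB (vU K ι {q}) (wU K ι {p}) (fin_ev (K := K) (ι := ι) R p q)
        q (by unfold vU; rw [if_pos (Finset.mem_singleton_self q)]; exact X_ne_zero _)
        (by rw [map_mul, AlgHom.commutes, hR, zero_mul]) a b c
      rw [fin_ev_v, fin_ev_w] at h
      exact h
  | insert j T hj ih =>
    intro hq
    have hq' : q ∉ T := fun h => hq (Finset.mem_insert_of_mem h)
    have hjq : j ∉ insert q T := by
      rw [Finset.mem_insert]
      rintro (h | h)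
      · exact hq (by rw [h]; exact Finset.mem_insert_self _ _)
      · exact hj h
    rw [Finset.card_insert_of_notMem hj, Finset.insert_comm]
    apply comb (T.card + 1) (fun a b => hdd δ M (Pi.single q (1 : R)) (Pi.single p (1 : R)) a b c)
      (fun a b => hdd δ M (vU K ι (insert q T)) (wU K ι {p}) a b c)
      (fun a b => hdd δ M (vU K ι (insert j (insert q T))) (wU K ι {p}) a b c)
    · exact ih hq'
    · intro a b
      have h := hdd_map_le δ M (vU K ι (insert j (insert q T))) (wU K ι {p})
        (kill K ι (Sum.inl j)) a b c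
      rw [kill_vU K ι _ _ hjq, kill_wU'] at h
      exact h
    · intro a b
      have h := hdd_step₁ δ M hM hdetB (vU K ι (insert j (insert q T))) (wU K ι {p})
        (kill K ι (Sum.inl j)) j
        (by unfold vU; rw [if_pos (Finset.mem_insert_self _ _)]; exact X_ne_zero _)
        (by
          unfold vU kill
          rw [if_pos (Finset.mem_insert_self _ _), map_mul, aeval_X, if_pos rfl, mul_zero]) a b c
      rw [kill_vU K ι _ _ hjq, kill_wU'] at h
      exact h

include hM hdet hpq in
/-- the second half of the chain -/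
lemma chainD₂ (v : Finset (Fin N)) (b : ℕ) (T : Finset (Fin N)) : p ∉ T → ∀ t a c,
    (t + T.card).choose T.card * hdd δ M (vU K ι v) (wU K ι {p}) a b c ≤
    hdd δ M (vU K ι v) (wU K ι (insert p T)) (a + t) b (c + t) := by
  classical
  have hdetB : algebraMap (MvPolynomial ι K) (Bg K ι N) M.det ≠ 0 := by
    rw [algebraMap_eq]
    exact (map_ne_zero_iff _ (C_injective _ _)).mpr hdet
  have hpq' : M.adjugate p q ≠ 0 := by
    intro h
    rw [h, map_zero] at hpq
    exact hpq rfl
  induction T using Finset.induction_on with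
  | empty =>
    intro _ t a c
    rw [Finset.card_empty, Nat.choose_zero_right, one_mul]
    refine hdd_mono₂ δ M _ _ q ?_ _ _ _ _
    have h1 : kvec M.transpose (wU K ι {p}) q =
        C (M.adjugate p q) * X (Sum.inr p) := by
      unfold kvec Matrix.mulVec dotProduct wU
      rw [Finset.sum_eq_single p]
      · rw [if_pos (Finset.mem_singleton_self p), ← Matrix.adjugate_transpose]
        rfl
      · intro l _ hl
        rw [if_neg (by rwa [Finset.mem_singleton]), mul_zero]
      · intro h; exact absurd (Finset.mem_univ _) h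
    rw [h1]
    exact mul_ne_zero ((map_ne_zero_iff _ (C_injective _ _)).mpr hpq') (X_ne_zero _)
  | insert j T hj ih =>
    intro hq
    have hq' : p ∉ T := fun h => hq (Finset.mem_insert_of_mem h)
    have hjq : j ∉ insert p T := by
      rw [Finset.mem_insert]
      rintro (h | h)
      · exact hq (by rw [h]; exact Finset.mem_insert_self _ _)
      · exact hj h
    rw [Finset.card_insert_of_notMem hj, Finset.insert_comm]
    apply comb T.card (fun a c => hdd δ M (vU K ι v) (wU K ι {p}) a b c)
      (fun a c => hdd δ M (vU K ι v) (wU K ι (insert p T)) a b c)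
      (fun a c => hdd δ M (vU K ι v) (wU K ι (insert j (insert p T))) a b c)
    · exact ih hq'
    · intro a c
      have h := hdd_map_le δ M (vU K ι v) (wU K ι (insert j (insert p T)))
        (kill K ι (Sum.inr j)) a b c
      rw [kill_wU K ι _ _ hjq, kill_vU'] at h
      exact h
    · intro a c
      have h := hdd_step₂ δ M hM hdetB (vU K ι v) (wU K ι (insert j (insert p T)))
        (kill K ι (Sum.inr j)) j
        (by unfold wU; rw [if_pos (Finset.mem_insert_self _ _)]; exact X_ne_zero _)
        (by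
          unfold wU kill
          rw [if_pos (Finset.mem_insert_self _ _), map_mul, aeval_X, if_pos rfl, mul_zero]) a b c
      rw [kill_wU K ι _ _ hjq, kill_vU'] at h
      exact h

include hM hdet hR hpq in
/-- the main inequality for the dimensions -/
theorem main_dimD (a b c t s : ℕ) :
    (s + (N - 1)).choose (N - 1) * ((t + N).choose N *
      hdd δ M (Pi.single q (1 : R)) (Pi.single p (1 : R)) a b c) ≤
    (Fintype.card ι + 1).multichoose (δ * (a + t + s)) * N.multichoose (b + t) *
      N.multichoose (c + s) := by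
  classical
  have hN : 0 < N := lt_of_le_of_lt (Nat.zero_le _) p.2
  have h1 := chainD₁ δ M hM hdet p q hR hpq c (Finset.univ.erase q) (Finset.notMem_erase _ _) t a b
  have h2 := chainD₂ (R := R) δ M hM hdet p q hpq Finset.univ (b + t) (Finset.univ.erase p)
    (Finset.notMem_erase _ _) s (a + t) c
  have hc : ∀ x : Fin N, (Finset.univ.erase x).card = N - 1 := by
    intro x
    rw [Finset.card_erase_of_mem (Finset.mem_univ _), Finset.card_univ, Fintype.card_fin]
  rw [hc, Finset.insert_erase (Finset.mem_univ _)] at h1 h2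
  rw [Nat.sub_add_cancel hN] at h1
  calc _ ≤ (s + (N - 1)).choose (N - 1) *
        hdd δ M (vU K ι Finset.univ) (wU K ι {p}) (a + t) (b + t) c :=
        Nat.mul_le_mul_left _ h1
    _ ≤ _ := h2
    _ ≤ _ := hdd_le _ _ _ _ _ _ _

end Gen

section Low

variable {R : Type*} [CommRing R] [IsDomain R] [Algebra K R] [Algebra (MvPolynomial ι K) R]
  [IsScalarTower K (MvPolynomial ι K) R]

open Pool.Agent.H546R2.SL (finrank_span_mul)

lemma lower_hdd (δ : ℕ) (M : Matrix (Fin N) (Fin N) (MvPolynomial ι K))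
    (hR : algebraMap (MvPolynomial ι K) R M.det = 0) (p q : Fin N)
    (hpq : algebraMap (MvPolynomial ι K) R (M.adjugate p q) ≠ 0) (a τ : ℕ) :
    finrank K ↥(xsp K ι R ^ (δ * a) * gsp R M ^ τ) ≤
      hdd δ M (Pi.single q (1 : R)) (Pi.single p (1 : R)) a τ τ := by
  have h := lower_hd M hR p q hpq (δ * a) τ
  have h2 : hdd δ M (Pi.single q (1 : R)) (Pi.single p (1 : R)) a τ τ =
      hd M (Pi.single q (1 : R)) (Pi.single p (1 : R)) (δ * a) τ τ := by
    unfold hdd hd dm pr
    rw [pow_mul]
  rw [h2]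
  exact h

/-- **Main inequality for entries of degree at most `δ`.** -/
theorem main_ineqD (δ : ℕ) (M : Matrix (Fin N) (Fin N) (MvPolynomial ι K))
    (hM : ∀ i j, (M i j).totalDegree ≤ δ) (hdet : M.det ≠ 0)
    (hR : algebraMap (MvPolynomial ι K) R M.det = 0)
    (hadj : ∃ p q, algebraMap (MvPolynomial ι K) R (M.adjugate p q) ≠ 0) (a τ t s : ℕ) :
    (s + (N - 1)).choose (N - 1) * ((t + N).choose N *
      finrank K ↥(xsp K ι R ^ (δ * a) * gsp R M ^ τ)) ≤
    (Fintype.card ι + 1).multichoose (δ * (a + t + s)) * N.multichoose (τ + t) *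
      N.multichoose (τ + s) := by
  obtain ⟨p, q, hpq⟩ := hadj
  refine le_trans ?_ (main_dimD δ M hM hdet p q hR hpq a τ τ t s)
  exact Nat.mul_le_mul_left _ (Nat.mul_le_mul_left _ (lower_hdd δ M hR p q hpq a τ))

end Low

end Pool.Agent.W944
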