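import Pool.Agent.W944.Prog
import Pool.Agent.H632R2.Border3

/-! # Limits of computations: the dimension inequality -/

set_option autoImplicit false

open Module MvPolynomial

namespace Pool.Agent.W944.Cx

open Pool.Agent.H546R2.SL (Nm exists_degree_bound spanning finrank_restrict Ex finite_Ex mem_Ex)
open Pool.Agent.H632R2.Border

/-- the number of the monomials of degree at most `t` -/
lemma Nm_ge {ι : Type*} [Fintype ι] (hι : 0 < Fintype.card ι) (t : ℕ) :
    (t + Fintype.card ι).choose (Fintype.card ι) ≤ Nm ι t := by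
  classical
  obtain ⟨k, hk⟩ : ∃ k, Fintype.card ι = k + 1 := ⟨Fintype.card ι - 1, by omega⟩
  set F : Finset (ι →₀ ℕ) := (Finset.range (t + 1)).biUnion fun D =>
    (Finset.univ : Finset ι).finsuppAntidiag D with hF
  have h1 : F.card = (t + Fintype.card ι).choose (Fintype.card ι) := by
    rw [hF, Finset.card_biUnion]
    · have h2 : ∀ D ∈ Finset.range (t + 1),
          ((Finset.univ : Finset ι).finsuppAntidiag D).card = (D + k).choose k := by
        intro D _
        rw [Finset.card_finsuppAntidiag_nat_eq_choose, Finset.card_univ, hk]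
        have : k + 1 + D - 1 = k + D := by omega
        rw [this, Nat.add_comm D k, Nat.choose_symm_add]
      rw [Finset.sum_congr rfl h2, Nat.sum_range_add_choose, hk]
      rfl
    · intro a _ b _ hab
      rw [Function.onFun, Finset.disjoint_left]
      intro m hm1 hm2
      rw [Finset.mem_finsuppAntidiag] at hm1 hm2
      exact hab (hm1.1.symm.trans hm2.1)
  rw [← h1]
  have h3 : (F : Set (ι →₀ ℕ)) ⊆ Ex ι t := by
    intro m hm
    rw [Finset.mem_coe, hF, Finset.mem_biUnion] at hm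
    obtain ⟨D, hD, hm⟩ := hm
    rw [Finset.mem_finsuppAntidiag] at hm
    rw [mem_Ex]
    have := Finset.mem_range.mp hD
    have h4 : ∑ i, m i = D := hm.1
    omega
  unfold Nm
  have h5 := Set.ncard_le_ncard h3 (Set.toFinite _)
  rw [Set.ncard_coe_finset] at h5
  exact h5

variable {Ω L : Type*} [Field Ω] [Field L] {σ ι : Type*}
  {O : ValuationSubring L} {φ : O →+* Ω} {j : Ω →+* O}

theorem circ_border_dim [IsAlgClosed Ω] [Fintype ι] (hj : ∀ c, φ (j c) = c) (δ : ℕ)
    (S : σ → MvPolynomial ι Ω) (hS : ∀ v, (S v).totalDegree ≤ 1) (f : MvPolynomial σ Ω)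
    {V : Type*} (y : V → MvPolynomial ι Ω) (e : ℕ) (he : 0 < e)
    (hy : ∀ v, (y v).IsHomogeneous e)
    (hz : ∀ x : ι → Ω, (∀ v, eval x (y v) = 0) → x = 0)
    (hyS : ∀ v, ∃ (c : Ω) (u : σ), y v = C c * aeval S (pderiv u f))
    (hι : 0 < Fintype.card ι) {n : ℕ}
    (a b : Fin n → MvPolynomial σ L) (R : Finset (Fin n))
    (la lb : Fin n → MvPolynomial σ L) (ca cb : Fin n → Fin n → L) (gm : Fin n → L)
    (hla : ∀ t, (la t).totalDegree ≤ 1) (hlb : ∀ t, (lb t).totalDegree ≤ 1)
    (ha : ∀ t, a t = la t + ∑ j ∈ Finset.Iio t, ca t j • (a j * b j))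
    (hb : ∀ t, b t = lb t + ∑ j ∈ Finset.Iio t, cb t j • (a j * b j))
    (hR : ∀ t ∉ R, (a t).totalDegree ≤ δ) (lf : MvPolynomial σ L) (hlf : lf.totalDegree ≤ 1)
    (F : MvPolynomial σ O) (hF : map O.subtype F = lf + ∑ j, gm j • (a j * b j))
    (hf : map φ F = f) :
    ∃ c₀ : ℕ, ∀ τ t₀ t₁ t₂ t₃ : ℕ, (t₀ + (n - R.card)).choose (n - R.card) *
        (t₁ + R.card).choose R.card * (t₂ + n).choose n *
        (t₃ + 2 * R.card).choose (2 * R.card) *
        (e * τ + Fintype.card ι).choose (Fintype.card ι) ≤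
      (Fintype.card ι + 1).multichoose ((δ + 1) * (τ + c₀ + (t₀ + 2 * t₁ + t₂ + t₃))) *
        (n + 1).multichoose (τ + c₀ + (t₀ + 2 * t₁ + t₃)) *
        (n + 2 * R.card + 1).multichoose (τ + c₀ + (t₂ + t₃)) := by
  classical
  set S' : σ → MvPolynomial ι L := fun v => map (O.subtype.comp j) (S v) with hS'
  have hS'd : ∀ v, (S' v).totalDegree ≤ 1 := fun v => (totalDegree_map_le _ _).trans (hS v)
  obtain ⟨W, hWfg, hW0, hWd, hWdim⟩ := prog_dim S' hS'd δ a b R la lb ca cb gm hla hlb ha hb hR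
    lf hlf (map O.subtype F) hF
  have hW1 : restrictTotalDegree ι L 1 ≤ W := by
    refine le_trans ?_ hW0
    intro p hp
    exact algebraMap_mem_xsp_pow (R := MvPolynomial ι L) (δ + 1) p
      (((mem_restrictTotalDegree _ _ _).mp hp).trans (by omega))
  have hyW : ∀ v, y v ∈ spec O φ j hj W := by
    intro v
    obtain ⟨c, u, hcu⟩ := hyS v
    rw [hcu, ← smul_eq_C_mul]
    apply Submodule.smul_mem
    refine ⟨aeval (fun v => map j (S v)) (pderiv u F), ?_, ?_⟩
    · have h1 := hWd u
      rw [map_aeval_comm]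
      have h2 : (fun v => map O.subtype (map j (S v))) = S' := by
        funext v; rw [map_map]
      rw [h2, ← pderiv_map]
      exact h1
    · rw [map_aeval_comm]
      have h2 : (fun v => map φ (map j (S v))) = S := by
        funext v
        rw [map_map]
        have : φ.comp j = RingHom.id Ω := RingHom.ext hj
        rw [this, map_id]
      rw [h2, ← pderiv_map, hf]
  obtain ⟨M, hM⟩ := exists_degree_bound y hz
  have hspan := spanning y e he hy M hM _ (restrict_le_spec (O := O) (φ := φ) (j := j) (hj := hj)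
    hW1) hyW
  refine ⟨M + e, fun τ t₀ t₁ t₂ t₃ => ?_⟩
  refine le_trans ?_ (hWdim (τ + (M + e)) t₀ t₁ t₂ t₃)
  apply Nat.mul_le_mul_left
  have h1 := hspan (e * τ)
  rw [Nat.mul_div_cancel_left _ he] at h1
  have h2 := h1.trans (spec_pow_le W (τ + (M + e)))
  have h3 := spec_fg (O := O) (φ := φ) (j := j) (hj := hj) (hWfg.pow (τ + (M + e)))
  have : FiniteDimensional Ω ↥(spec O φ j hj (W ^ (τ + (M + e)))) :=
    Module.Finite.iff_fg.mpr h3.1
  calc (e * τ + Fintype.card ι).choose (Fintype.card ι) ≤ Nm ι (e * τ) := Nm_ge hι _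
    _ = finrank Ω ↥(restrictTotalDegree ι Ω (e * τ)) := (finrank_restrict _).symm
    _ ≤ finrank Ω ↥(spec O φ j hj (W ^ (τ + (M + e)))) := Submodule.finrank_mono h2
    _ ≤ _ := h3.2

end Pool.Agent.W944.Cx
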