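import Pool.Agent.W944.CircBorder
import Pool.Agent.W944.LeadingD

/-! # Limits of computations: comparison of the leading coefficients -/

set_option autoImplicit false

open Filter Topology

namespace Pool.Agent.W944.Cx

/-- comparison of leading coefficients of products of binomial coefficients -/
theorem leading_prod {α β : Type*} [Fintype α] [Fintype β] (a m : α → ℕ) (A c M : β → ℕ)
    (hsum : ∑ i, m i = ∑ j, M j)
    (h : ∀ τ : ℕ, 1 ≤ τ → ∏ i, (a i * τ + m i).choose (m i) ≤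
      ∏ j, (M j + (c j + A j * τ)).choose (M j)) :
    ∏ i, ((a i : ℝ) ^ (m i) / (m i).factorial) ≤
      ∏ j, ((A j : ℝ) ^ (M j) / (M j).factorial) := by
  set f : ℝ → ℝ := fun x => ∏ j, ((A j + (M j + c j) * x : ℝ) ^ (M j) / (M j).factorial) with hf
  have hfc : Continuous f := by
    rw [hf]
    apply continuous_finsetProd
    intro j _
    fun_prop
  have key : ∀ τ : ℕ, 1 ≤ τ → ∏ i, ((a i : ℝ) ^ (m i) / (m i).factorial) ≤ f (1 / (τ : ℝ)) := by
    intro τ hτ
    have hT : (0 : ℝ) < τ := by exact_mod_cast hτ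
    have h1 : (∏ i, (((a i * τ + m i).choose (m i) : ℕ) : ℝ)) ≤
        ∏ j, (((M j + (c j + A j * τ)).choose (M j) : ℕ) : ℝ) := by
      exact_mod_cast h τ hτ
    have h2 : ∏ i, (((a i : ℝ) * τ) ^ (m i) / (m i).factorial) ≤
        ∏ i, (((a i * τ + m i).choose (m i) : ℕ) : ℝ) := by
      apply Finset.prod_le_prod
      · intro i _; positivity
      · intro i _
        have := choose_ge (a i * τ) (m i)
        push_cast at this
        exact this
    have h3 : ∏ j, (((M j + (c j + A j * τ)).choose (M j) : ℕ) : ℝ) ≤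
        ∏ j, (((M j : ℝ) + (c j + A j * τ)) ^ (M j) / (M j).factorial) := by
      apply Finset.prod_le_prod
      · intro i _; positivity
      · intro j _
        have := choose_le' (c j + A j * τ) (M j)
        push_cast at this
        exact this
    have h4 := h2.trans (h1.trans h3)
    have h5 : ∏ i, (((a i : ℝ) * τ) ^ (m i) / (m i).factorial) =
        (τ : ℝ) ^ (∑ i, m i) * ∏ i, ((a i : ℝ) ^ (m i) / (m i).factorial) := by
      rw [← Finset.prod_pow_eq_pow_sum, ← Finset.prod_mul_distrib]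
      apply Finset.prod_congr rfl
      intro i _
      rw [mul_pow]
      ring
    have h6 : ∏ j, (((M j : ℝ) + (c j + A j * τ)) ^ (M j) / (M j).factorial) =
        (τ : ℝ) ^ (∑ j, M j) * f (1 / (τ : ℝ)) := by
      rw [hf, ← Finset.prod_pow_eq_pow_sum, ← Finset.prod_mul_distrib]
      apply Finset.prod_congr rfl
      intro j _
      have e1 : (M j : ℝ) + (c j + A j * τ) = τ * (A j + (M j + c j) * (1 / τ)) := by
        field_simp
        ring
      rw [e1, mul_pow]
      ring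
    rw [h5, h6, hsum] at h4
    exact le_of_mul_le_mul_left h4 (by positivity)
  have hlim : Tendsto (fun τ : ℕ => f (1 / (τ : ℝ))) atTop (𝓝 (f 0)) :=
    (hfc.tendsto 0).comp (tendsto_one_div_atTop_nhds_zero_nat)
  have h0 : ∏ i, ((a i : ℝ) ^ (m i) / (m i).factorial) ≤ f 0 := by
    apply ge_of_tendsto hlim
    filter_upwards [eventually_ge_atTop 1] with τ hτ using key τ hτ
  rw [hf] at h0
  simpa using h0

lemma fact_le (m : ℕ) : Real.exp m * m.factorial ≤ Real.exp 1 * (m + 1) * (m : ℝ) ^ m := by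
  rcases Nat.eq_zero_or_pos m with h0 | h0
  · subst h0
    simp
  · have key : ∀ k : ℕ, Real.exp (k + 1 : ℕ) * (k + 1).factorial ≤
        Real.exp 1 * (k + 1 : ℕ) * ((k + 1 : ℕ) : ℝ) ^ (k + 1) := by
      intro k
      induction k with
      | zero => simp
      | succ k ih =>
        have h1 : Real.exp 1 * ((k + 1 : ℕ) : ℝ) ^ (k + 2) ≤ ((k + 2 : ℕ) : ℝ) ^ (k + 2) := by
          have hpos : (0 : ℝ) < ((k + 2 : ℕ) : ℝ) := by positivity
          have h2 : ((k + 1 : ℕ) : ℝ) / ((k + 2 : ℕ) : ℝ) ≤ Real.exp (-(1 / ((k + 2 : ℕ) : ℝ))) := by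
            have h3 := Real.add_one_le_exp (-(1 / ((k + 2 : ℕ) : ℝ)))
            have h4 : ((k + 1 : ℕ) : ℝ) / ((k + 2 : ℕ) : ℝ) = -(1 / ((k + 2 : ℕ) : ℝ)) + 1 := by
              push_cast
              field_simp
              ring
            rw [h4]
            exact h3
          have h5 : (((k + 1 : ℕ) : ℝ) / ((k + 2 : ℕ) : ℝ)) ^ (k + 2) ≤ Real.exp (-1) := by
            calc _ ≤ (Real.exp (-(1 / ((k + 2 : ℕ) : ℝ)))) ^ (k + 2) :=
                  pow_le_pow_left₀ (by positivity) h2 _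
              _ = Real.exp (-1) := by
                  rw [← Real.exp_nat_mul]
                  congr 1
                  field_simp
          rw [div_pow, div_le_iff₀ (by positivity), Real.exp_neg, inv_mul_eq_div,
            le_div_iff₀ (Real.exp_pos 1)] at h5
          linarith
        have e1 : Real.exp (k + 1 + 1 : ℕ) = Real.exp 1 * Real.exp (k + 1 : ℕ) := by
          rw [← Real.exp_add]
          congr 1
          push_cast
          ring
        rw [e1, Nat.factorial_succ (k + 1)]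
        push_cast at ih h1 ⊢
        calc Real.exp 1 * Real.exp ((k : ℝ) + 1) * (((k : ℝ) + 1 + 1) * (k + 1).factorial)
            = Real.exp 1 * ((k : ℝ) + 1 + 1) * (Real.exp ((k : ℝ) + 1) * (k + 1).factorial) := by
              ring
          _ ≤ Real.exp 1 * ((k : ℝ) + 1 + 1) *
              (Real.exp 1 * ((k : ℝ) + 1) * ((k : ℝ) + 1) ^ (k + 1)) := by gcongr
          _ = Real.exp 1 * ((k : ℝ) + 1 + 1) * (Real.exp 1 * ((k : ℝ) + 1) ^ (k + 2)) := by ring
          _ ≤ Real.exp 1 * ((k : ℝ) + 1 + 1) * (((k : ℝ) + 2) ^ (k + 2)) := by gcongr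
          _ = _ := by ring
    obtain ⟨k, rfl⟩ : ∃ k, m = k + 1 := ⟨m - 1, by omega⟩
    refine (key k).trans ?_
    push_cast
    gcongr
    linarith

lemma shift_pow (x : ℝ) (hx : 0 ≤ x) (m : ℕ) : (x + m) ^ m ≤ (m : ℝ) ^ m * Real.exp x := by
  rcases Nat.eq_zero_or_pos m with h0 | h0
  · subst h0
    simp
    exact hx
  · have hm : (0 : ℝ) < m := by exact_mod_cast h0
    have h1 : x + m = m * (x / m + 1) := by field_simp
    rw [h1, mul_pow]
    apply mul_le_mul_of_nonneg_left _ (by positivity)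
    calc (x / m + 1) ^ m ≤ (Real.exp (x / m)) ^ m :=
          pow_le_pow_left₀ (by positivity) (Real.add_one_le_exp _) _
      _ = Real.exp x := by
          rw [← Real.exp_nat_mul]
          congr 1
          field_simp

lemma self_pow_pos (m : ℕ) : (0 : ℝ) < (m : ℝ) ^ m := by
  rcases Nat.eq_zero_or_pos m with h0 | h0
  · subst h0; simp
  · have : (0 : ℝ) < m := by exact_mod_cast h0
    positivity

/-- the explicit inequality -/
theorem circ_explicit (D e δ' s r n c₀ : ℕ) (hn : n = s + r)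
    (h : ∀ τ t₀ t₁ t₂ t₃ : ℕ, (t₀ + s).choose s * (t₁ + r).choose r * (t₂ + n).choose n *
        (t₃ + 2 * r).choose (2 * r) * (e * τ + D).choose D ≤
      (D + 1).multichoose (δ' * (τ + c₀ + (t₀ + 2 * t₁ + t₂ + t₃))) *
        (n + 1).multichoose (τ + c₀ + (t₀ + 2 * t₁ + t₃)) *
        (n + 2 * r + 1).multichoose (τ + c₀ + (t₂ + t₃))) :
    ((e * D : ℕ) : ℝ) ^ D ≤ ((δ' * (D + 5 * n) : ℕ) : ℝ) ^ D * Real.exp (2 * D + 3 * r + 3) *
      ((s + 1) * (r + 1) * (2 * r + 1)) := by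
  have hmc : ∀ k x : ℕ, (k + 1).multichoose x = (k + x).choose k := by
    intro k x
    rw [Nat.multichoose_eq]
    have : k + 1 + x - 1 = k + x := by omega
    rw [this, Nat.add_comm k x, ← Nat.choose_symm_add]
  have hlead := leading_prod ![s, r, n, 2 * r, e * D] ![s, r, n, 2 * r, D]
    ![δ' * (D + 2 * n + 3 * r), D + n + 3 * r, D + n + 2 * r] ![δ' * c₀, c₀, c₀]
    ![D, n, n + 2 * r] (by
      rw [Fin.sum_univ_five, Fin.sum_univ_three]
      change s + r + n + 2 * r + D = D + n + (n + 2 * r)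
      omega) (by
      intro τ _
      rw [Fin.prod_univ_five, Fin.prod_univ_three]
      change (s * τ + s).choose s * (r * τ + r).choose r * (n * τ + n).choose n *
        (2 * r * τ + 2 * r).choose (2 * r) * (e * D * τ + D).choose D ≤
        (D + (δ' * c₀ + δ' * (D + 2 * n + 3 * r) * τ)).choose D *
        (n + (c₀ + (D + n + 3 * r) * τ)).choose n *
        (n + 2 * r + (c₀ + (D + n + 2 * r) * τ)).choose (n + 2 * r)
      have h1 := h (D * τ) (s * τ) (r * τ) (n * τ) (2 * r * τ)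
      rw [hmc, hmc, hmc] at h1
      have e1 : e * (D * τ) = e * D * τ := by ring
      have e2 : δ' * (D * τ + c₀ + (s * τ + 2 * (r * τ) + n * τ + 2 * r * τ)) =
          δ' * c₀ + δ' * (D + 2 * n + 3 * r) * τ := by rw [hn]; ring
      have e3 : D * τ + c₀ + (s * τ + 2 * (r * τ) + 2 * r * τ) = c₀ + (D + n + 3 * r) * τ := by
        rw [hn]; ring
      have e4 : D * τ + c₀ + (n * τ + 2 * r * τ) = c₀ + (D + n + 2 * r) * τ := by ring
      rw [e1, e2, e3, e4] at h1
      exact h1)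
  rw [Fin.prod_univ_five, Fin.prod_univ_three] at hlead
  change (s : ℝ) ^ s / s.factorial * ((r : ℝ) ^ r / r.factorial) * ((n : ℝ) ^ n / n.factorial) *
    (((2 * r : ℕ) : ℝ) ^ (2 * r) / (2 * r).factorial) *
    (((e * D : ℕ) : ℝ) ^ D / D.factorial) ≤
    ((δ' * (D + 2 * n + 3 * r) : ℕ) : ℝ) ^ D / D.factorial *
    (((D + n + 3 * r : ℕ) : ℝ) ^ n / n.factorial) *
    (((D + n + 2 * r : ℕ) : ℝ) ^ (n + 2 * r) / (n + 2 * r).factorial) at hlead
  set Ps := (s : ℝ) ^ s / s.factorial with hPs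
  set Pr := (r : ℝ) ^ r / r.factorial with hPr
  set Pn := (n : ℝ) ^ n / n.factorial with hPn
  set Pq := ((2 * r : ℕ) : ℝ) ^ (2 * r) / (2 * r).factorial with hPq
  have hP0 : ∀ m : ℕ, 0 < (m : ℝ) ^ m / m.factorial := by
    intro m
    have := self_pow_pos m
    positivity
  have hPs0 : 0 < Ps := hP0 s
  have hPr0 : 0 < Pr := hP0 r
  have hPn0 : 0 < Pn := hP0 n
  have hPq0 : 0 < Pq := hP0 (2 * r)
  have hPle : ∀ m : ℕ, Real.exp m ≤ Real.exp 1 * (m + 1) * ((m : ℝ) ^ m / m.factorial) := by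
    intro m
    have h1 := fact_le m
    rw [← mul_div_assoc, le_div_iff₀ (by positivity)]
    exact h1
  have h1 : ((D + n + 3 * r : ℕ) : ℝ) ^ n / n.factorial ≤ Pn * Real.exp (D + 3 * r) := by
    have h2 := shift_pow ((D : ℝ) + 3 * r) (by positivity) n
    have e1 : ((D + n + 3 * r : ℕ) : ℝ) = (D : ℝ) + 3 * r + n := by push_cast; ring
    rw [e1, hPn, div_mul_eq_mul_div]
    exact div_le_div_of_nonneg_right h2 (by positivity)
  have h2 : ((D + n + 2 * r : ℕ) : ℝ) ^ (n + 2 * r) / (n + 2 * r).factorial ≤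
      Real.exp ((n + 2 * r : ℕ)) * Real.exp D := by
    have h3 := shift_pow (D : ℝ) (by positivity) (n + 2 * r)
    have e1 : ((D + n + 2 * r : ℕ) : ℝ) = (D : ℝ) + (n + 2 * r : ℕ) := by push_cast; ring
    rw [e1]
    have h4 := Real.pow_div_factorial_le_exp ((n + 2 * r : ℕ) : ℝ) (by positivity) (n + 2 * r)
    calc ((D : ℝ) + (n + 2 * r : ℕ)) ^ (n + 2 * r) / (n + 2 * r).factorial ≤
        (((n + 2 * r : ℕ) : ℝ) ^ (n + 2 * r) * Real.exp D) / (n + 2 * r).factorial :=
          div_le_div_of_nonneg_right h3 (by positivity)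
      _ = ((n + 2 * r : ℕ) : ℝ) ^ (n + 2 * r) / (n + 2 * r).factorial * Real.exp D := by ring
      _ ≤ _ := by gcongr
  have hD0 : (0 : ℝ) < D.factorial := by positivity
  -- combine
  have h3 : Ps * Pr * Pn * Pq * (((e * D : ℕ) : ℝ) ^ D / D.factorial) ≤
      ((δ' * (D + 2 * n + 3 * r) : ℕ) : ℝ) ^ D / D.factorial * (Pn * Real.exp (D + 3 * r)) *
        (Real.exp ((n + 2 * r : ℕ)) * Real.exp D) := by
    refine hlead.trans ?_
    gcongr
  have h4 : Ps * Pr * Pq * ((e * D : ℕ) : ℝ) ^ D ≤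
      ((δ' * (D + 2 * n + 3 * r) : ℕ) : ℝ) ^ D * Real.exp (D + 3 * r) *
        (Real.exp ((n + 2 * r : ℕ)) * Real.exp D) := by
    have h5 := mul_le_mul_of_nonneg_left h3 (show 0 ≤ (D.factorial : ℝ) / Pn by positivity)
    have e1 : (D.factorial : ℝ) / Pn * (Ps * Pr * Pn * Pq * (((e * D : ℕ) : ℝ) ^ D /
        D.factorial)) = Ps * Pr * Pq * ((e * D : ℕ) : ℝ) ^ D := by
      field_simp
    have e2 : (D.factorial : ℝ) / Pn * (((δ' * (D + 2 * n + 3 * r) : ℕ) : ℝ) ^ D / D.factorial *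
        (Pn * Real.exp (D + 3 * r)) * (Real.exp ((n + 2 * r : ℕ)) * Real.exp D)) =
        ((δ' * (D + 2 * n + 3 * r) : ℕ) : ℝ) ^ D * Real.exp (D + 3 * r) *
        (Real.exp ((n + 2 * r : ℕ)) * Real.exp D) := by
      field_simp
    rw [e1, e2] at h5
    exact h5
  have h5 : Real.exp ((n + 2 * r : ℕ)) * ((e * D : ℕ) : ℝ) ^ D ≤
      (Real.exp 3 * ((s + 1) * (r + 1) * (2 * r + 1))) *
      (Ps * Pr * Pq * ((e * D : ℕ) : ℝ) ^ D) := by
    have e1 : Real.exp ((n + 2 * r : ℕ)) = Real.exp s * Real.exp r * Real.exp ((2 * r : ℕ)) := by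
      rw [← Real.exp_add, ← Real.exp_add]
      congr 1
      rw [hn]
      push_cast
      ring
    have e2 : Real.exp 3 = Real.exp 1 * Real.exp 1 * Real.exp 1 := by
      rw [← Real.exp_add, ← Real.exp_add]
      norm_num
    have a1 := hPle s
    have a2 := hPle r
    have a3 := hPle (2 * r)
    rw [e1, e2]
    calc Real.exp s * Real.exp r * Real.exp ((2 * r : ℕ)) * ((e * D : ℕ) : ℝ) ^ D
        ≤ (Real.exp 1 * (s + 1) * Ps) * (Real.exp 1 * (r + 1) * Pr) *
          (Real.exp 1 * (((2 * r : ℕ) : ℝ) + 1) * Pq) * ((e * D : ℕ) : ℝ) ^ D := by gcongr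
      _ = _ := by push_cast; ring
  have h6 : Real.exp ((n + 2 * r : ℕ)) * ((e * D : ℕ) : ℝ) ^ D ≤
      Real.exp ((n + 2 * r : ℕ)) * (((δ' * (D + 5 * n) : ℕ) : ℝ) ^ D *
        Real.exp (2 * D + 3 * r + 3) * ((s + 1) * (r + 1) * (2 * r + 1))) := by
    refine h5.trans ?_
    have e1 : Real.exp (2 * D + 3 * r + 3) = Real.exp (D + 3 * r) * Real.exp D * Real.exp 3 := by
      rw [← Real.exp_add, ← Real.exp_add]
      congr 1
      ring
    have e2 : ((δ' * (D + 2 * n + 3 * r) : ℕ) : ℝ) ^ D ≤ ((δ' * (D + 5 * n) : ℕ) : ℝ) ^ D := by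
      apply pow_le_pow_left₀ (by positivity)
      have : δ' * (D + 2 * n + 3 * r) ≤ δ' * (D + 5 * n) := Nat.mul_le_mul_left _ (by omega)
      exact_mod_cast this
    calc (Real.exp 3 * ((s + 1) * (r + 1) * (2 * r + 1))) *
        (Ps * Pr * Pq * ((e * D : ℕ) : ℝ) ^ D) ≤
        (Real.exp 3 * ((s + 1) * (r + 1) * (2 * r + 1))) *
        (((δ' * (D + 2 * n + 3 * r) : ℕ) : ℝ) ^ D * Real.exp (D + 3 * r) *
        (Real.exp ((n + 2 * r : ℕ)) * Real.exp D)) := by gcongr
      _ ≤ (Real.exp 3 * ((s + 1) * (r + 1) * (2 * r + 1))) *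
        (((δ' * (D + 5 * n) : ℕ) : ℝ) ^ D * Real.exp (D + 3 * r) *
        (Real.exp ((n + 2 * r : ℕ)) * Real.exp D)) := by gcongr
      _ = _ := by rw [e1]; ring
  exact le_of_mul_le_mul_left h6 (Real.exp_pos _)

end Pool.Agent.W944.Cx
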