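import Pool.Agent.W944.CircLead
import Pool.Agent.W944.LiftD
import Pool.Agent.W940.G20

/-! # Limits of computations of the permanent -/

set_option autoImplicit false
set_option linter.unusedSectionVars false

open Module MvPolynomial

namespace Pool.Agent.W944.Cx

open Pool.Agent.W940.G
open Pool.Agent.H546R2.SL (perN)
open Pool.Agent.H632R2.Border (O0 φ0 ψ0 φψ rmap rmap_mem rmap_eval totalDegree_map_le)

/-- decomposition of a linear combination of `1`, the variables and some products -/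
lemma mem_avail {K σ : Type*} [Field K] {n : ℕ} (g : Fin n → MvPolynomial σ K) (J : Finset (Fin n))
    (f : MvPolynomial σ K)
    (hf : f ∈ Submodule.span K ({1} ∪ Set.range X ∪ {x | ∃ j ∈ J, x = g j})) :
    ∃ (l : MvPolynomial σ K) (c : Fin n → K), l.totalDegree ≤ 1 ∧ f = l + ∑ j ∈ J, c j • g j := by
  classical
  rw [Submodule.span_union, Submodule.mem_sup] at hf
  obtain ⟨l, hl, x, hx, rfl⟩ := hf
  have hl1 : l.totalDegree ≤ 1 := by
    rw [← mem_restrictTotalDegree σ 1 l]
    have h1 : Submodule.span K ({1} ∪ Set.range (X : σ → MvPolynomial σ K)) ≤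
        restrictTotalDegree σ K 1 := by
      rw [Submodule.span_le]
      rintro y (hy | ⟨v, rfl⟩)
      · rw [Set.mem_singleton_iff] at hy
        rw [hy, SetLike.mem_coe, mem_restrictTotalDegree, totalDegree_one]
        exact Nat.zero_le _
      · rw [SetLike.mem_coe, mem_restrictTotalDegree, totalDegree_X]
    exact h1 hl
  have hx2 : x ∈ Submodule.span K (g '' (J : Set (Fin n))) := by
    have h2 : {x | ∃ j ∈ J, x = g j} = g '' (J : Set (Fin n)) := by
      ext y
      constructor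
      · rintro ⟨j, hj, rfl⟩
        exact ⟨j, hj, rfl⟩
      · rintro ⟨j, hj, rfl⟩
        exact ⟨j, hj, rfl⟩
    rwa [h2] at hx
  rw [Submodule.mem_span_image_finset_iff_exists_fun] at hx2
  obtain ⟨c, hc⟩ := hx2
  refine ⟨l, fun j => if h : j ∈ J then c ⟨j, h⟩ else 0, hl1, ?_⟩
  rw [← hc, ← Finset.sum_coe_sort J]
  congr 1
  apply Finset.sum_congr rfl
  intro j _
  simp only
  rw [dif_pos j.2]

/-- a polynomial over `k(ε)` with limit `f` is an integral polynomial over the closure -/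
lemma lift_poly {k : Type*} [Field k] {σ : Type*} (F : MvPolynomial σ (RatFunc k))
    (f : MvPolynomial σ k)
    (hF : ∀ m, (coeff m F).denom.eval 0 ≠ 0 ∧
      RatFunc.eval (RingHom.id k) 0 (coeff m F) = coeff m f) :
    ∃ D : MvPolynomial σ (O0 (AlgebraicClosure k)),
      map (O0 (AlgebraicClosure k)).subtype D =
        map (rmap (algebraMap k (AlgebraicClosure k))) F ∧
      map (φ0 (AlgebraicClosure k)) D = map (algebraMap k (AlgebraicClosure k)) f := by
  set Ω := AlgebraicClosure k with hΩ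
  set ρ := rmap (algebraMap k Ω) with hρ
  have hcoef : ∀ d, coeff d (MvPolynomial.map ρ F) ∈ O0 Ω := by
    intro d
    rw [coeff_map]
    exact rmap_mem _ (hF d).1
  have hrange : MvPolynomial.map ρ F ∈ (MvPolynomial.map (σ := σ) (O0 Ω).subtype).range := by
    rw [RingHom.mem_range]
    change _ ∈ Set.range _
    rw [mem_range_map_iff_coeffs_subset]
    intro x hx
    rw [Finset.mem_coe, mem_coeffs_iff] at hx
    obtain ⟨d, _, rfl⟩ := hx
    exact ⟨⟨_, hcoef d⟩, rfl⟩
  obtain ⟨D, hD⟩ := hrange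
  refine ⟨D, hD, ?_⟩
  ext d
  rw [coeff_map, coeff_map, ← (hF d).2, ← rmap_eval (algebraMap k Ω) (hF d).1]
  congr 1
  apply Subtype.ext
  have h1 := congrArg (coeff d) hD
  rw [coeff_map] at h1
  exact h1

/-- **The inequality for the permanent.** -/
theorem circ_perm (k₀ : Type*) [Field k₀] [CharZero k₀] {q ℓ k p : ℕ} (hk : 2 ≤ k)
    (hm' : mm (2 ^ ℓ) = 2 * k) (hq : 0 < q) (m : ℕ) (hm : m = NN q ℓ + p) (δ : ℕ) {n : ℕ}
    (a b : Fin n → MvPolynomial (Fin m × Fin m) (RatFunc k₀)) (R : Finset (Fin n))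
    (ha : ∀ t, a t ∈ Submodule.span (RatFunc k₀)
      ({1} ∪ Set.range X ∪ {x | ∃ j ∈ Finset.Iio t, x = a j * b j}))
    (hb : ∀ t, b t ∈ Submodule.span (RatFunc k₀)
      ({1} ∪ Set.range X ∪ {x | ∃ j ∈ Finset.Iio t, x = a j * b j}))
    (hR : ∀ t ∉ R, (a t).totalDegree ≤ δ)
    (F : MvPolynomial (Fin m × Fin m) (RatFunc k₀))
    (hF : F ∈ Submodule.span (RatFunc k₀)
      ({1} ∪ Set.range X ∪ {x | ∃ j ∈ (Finset.univ : Finset (Fin n)), x = a j * b j}))
    (hlim : ∀ μ, (coeff μ F).denom.eval 0 ≠ 0 ∧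
      RatFunc.eval (RingHom.id k₀) 0 (coeff μ F) = coeff μ (perN k₀ m)) (D : ℕ)
    (hD : D = q * (q * ((2 ^ ℓ * 2 ^ ℓ) * k))) :
    (((k - 1) * D : ℕ) : ℝ) ^ D ≤ (((δ + 1) * (D + 5 * n) : ℕ) : ℝ) ^ D *
      Real.exp (2 * D + 3 * R.card + 3) *
      (((n - R.card : ℕ) + 1) * (R.card + 1) * (2 * R.card + 1)) := by
  classical
  choose la ca hla hae using fun t => mem_avail (fun j => a j * b j) (Finset.Iio t) (a t) (ha t)
  choose lb cb hlb hbe using fun t => mem_avail (fun j => a j * b j) (Finset.Iio t) (b t) (hb t)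
  obtain ⟨lf, gm, hlf, hfe⟩ := mem_avail (fun j => a j * b j) Finset.univ F hF
  obtain ⟨G, hG1, hG2⟩ := lift_poly F (perN k₀ m) hlim
  rw [Pool.Agent.H546R2.SL.map_perN] at hG2
  obtain ⟨S, y, hS, hy, hz, hyS, hS0, hS1⟩ :=
    exists_subst2 (AlgebraicClosure k₀) hk hm' hq m hm
  have hcard : Fintype.card (Id2 q (2 ^ ℓ) k) = D := by
    rw [hD]
    simp [Id2, Fintype.card_prod]
  have hcard0 : 0 < Fintype.card (Id2 q (2 ^ ℓ) k) := by
    rw [hcard, hD]
    have h1 : 0 < 2 ^ ℓ * 2 ^ ℓ := by positivity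
    have h2 : 0 < k := by omega
    positivity
  set ρ := rmap (algebraMap k₀ (AlgebraicClosure k₀)) with hρ
  have hmapsum : ∀ (J : Finset (Fin n)) (c : Fin n → RatFunc k₀),
      map ρ (∑ j ∈ J, c j • (a j * b j)) =
        ∑ j ∈ J, ρ (c j) • (map ρ (a j) * map ρ (b j)) := by
    intro J c
    rw [map_sum]
    apply Finset.sum_congr rfl
    intro j _
    rw [smul_eq_C_mul, map_mul, map_C, map_mul, smul_eq_C_mul]
  obtain ⟨c₀, hdim⟩ := circ_border_dim (φψ (AlgebraicClosure k₀)) δ S hS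
    (perN (AlgebraicClosure k₀) m) y (k - 1) (by omega) hy hz hyS hcard0
    (fun t => map ρ (a t)) (fun t => map ρ (b t)) R (fun t => map ρ (la t))
    (fun t => map ρ (lb t)) (fun t j => ρ (ca t j)) (fun t j => ρ (cb t j)) (fun j => ρ (gm j))
    (fun t => (totalDegree_map_le _ _).trans (hla t))
    (fun t => (totalDegree_map_le _ _).trans (hlb t))
    (fun t => by
      conv_lhs => rw [hae t]
      rw [map_add, hmapsum])
    (fun t => by
      conv_lhs => rw [hbe t]
      rw [map_add, hmapsum])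
    (fun t ht => (totalDegree_map_le _ _).trans (hR t ht)) (map ρ lf)
    ((totalDegree_map_le _ _).trans hlf) G (by
      rw [hG1]
      conv_lhs => rw [hfe]
      rw [map_add, hmapsum]) hG2
  have hRn : R.card ≤ n := by
    have := Finset.card_le_univ R
    rwa [Fintype.card_fin] at this
  have h := circ_explicit (Fintype.card (Id2 q (2 ^ ℓ) k)) (k - 1) (δ + 1) (n - R.card) R.card n
    c₀ (by omega) hdim
  rw [hcard] at h
  exact h

end Pool.Agent.W944.Cx
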