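import Pool.Agent.W944.Upper

/-! # Elimination of the variables of a triangular system, several types of equations -/

set_option autoImplicit false

open Module MvPolynomial

namespace Pool.Agent.W944.Cx

variable {K : Type*} [Field K]

section Step

variable {A B : Type*} [CommRing A] [Algebra K A] [CommRing B] [Algebra K B]

/-- elimination step for an equation in a product of powers -/
lemma dm_step [IsDomain A] (σ : A →ₐ[K] B) {X Y Z : Submodule K A} (hX : X.FG) (hY : Y.FG)
    (hZ : Z.FG) (q : A) (hq : q ≠ 0) (hσ : σ q = 0) (α β γ : ℕ)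
    (hqm : q ∈ X ^ α * Y ^ β * Z ^ γ) (a b c : ℕ) :
    dm (X.map σ.toLinearMap) (Y.map σ.toLinearMap) (Z.map σ.toLinearMap) (a + α) (b + β) (c + γ) +
      dm X Y Z a b c ≤ dm X Y Z (a + α) (b + β) (c + γ) := by
  unfold dm
  rw [← pr_map]
  apply elim_step σ _ _ (pr_fg hX hY hZ _ _ _) q hq hσ
  have h1 : Submodule.span K {q} ≤ X ^ α * Y ^ β * Z ^ γ := by
    rw [Submodule.span_singleton_le_iff_mem]; exact hqm
  calc Submodule.span K {q} * pr X Y Z a b c ≤ (X ^ α * Y ^ β * Z ^ γ) * pr X Y Z a b c :=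
        mul_le_mul' h1 le_rfl
    _ = pr X Y Z (a + α) (b + β) (c + γ) := by unfold pr; ring

/-- monotonicity when all spaces contain `1` -/
lemma dm_mono_one {X Y Z : Submodule K A} (hX : X.FG) (hY : Y.FG) (hZ : Z.FG)
    (h1 : (1 : A) ∈ X) (h2 : (1 : A) ∈ Y) (h3 : (1 : A) ∈ Z) {a b c a' b' c' : ℕ}
    (ha : a ≤ a') (hb : b ≤ b') (hc : c ≤ c') :
    dm X Y Z a b c ≤ dm X Y Z a' b' c' := by
  have : FiniteDimensional K ↥(pr X Y Z a' b' c') :=
    Module.Finite.iff_fg.mpr (pr_fg hX hY hZ _ _ _)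
  unfold dm
  apply Submodule.finrank_mono
  exact mul_le_mul' (mul_le_mul'
    (Pool.Agent.H546R2.SL.pow_mono_of_one_mem _ h1 ha)
    (Pool.Agent.H546R2.SL.pow_mono_of_one_mem _ h2 hb))
    (Pool.Agent.H546R2.SL.pow_mono_of_one_mem _ h3 hc)

end Step

variable {A : Type*} [CommRing A] [Algebra K A] {κ : Type*}

variable (K A) in
/-- the span of `1` and the variables in `S` -/
noncomputable def vs (S : Finset κ) : Submodule K (MvPolynomial κ A) :=
  Submodule.span K (Set.range fun o : Option S => o.elim 1 fun i => X i.1)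

lemma vs_fg (S : Finset κ) : (vs K A S).FG := Submodule.fg_span (Set.finite_range _)

lemma one_mem_vs (S : Finset κ) : (1 : MvPolynomial κ A) ∈ vs K A S :=
  Submodule.subset_span ⟨none, rfl⟩

lemma X_mem_vs {S : Finset κ} {i : κ} (hi : i ∈ S) : (X i : MvPolynomial κ A) ∈ vs K A S :=
  Submodule.subset_span ⟨some ⟨i, hi⟩, rfl⟩

/-- the image of a space of constants -/
noncomputable def xs (κ : Type*) (X₀ : Submodule K A) : Submodule K (MvPolynomial κ A) :=
  X₀.map (IsScalarTower.toAlgHom K A (MvPolynomial κ A)).toLinearMap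

lemma xs_fg {X₀ : Submodule K A} (h : X₀.FG) : (xs κ X₀).FG := h.map _

lemma one_mem_xs {X₀ : Submodule K A} (h : 1 ∈ X₀) : (1 : MvPolynomial κ A) ∈ xs κ X₀ :=
  ⟨1, h, map_one (IsScalarTower.toAlgHom K A (MvPolynomial κ A))⟩

lemma C_mem_xs {X₀ : Submodule K A} {a : A} (h : a ∈ X₀) : (C a : MvPolynomial κ A) ∈ xs κ X₀ :=
  ⟨a, h, rfl⟩

/-- restriction of scalars as a linear map -/
noncomputable abbrev rs {B B' : Type*} [CommRing B] [CommRing B'] [Algebra K B] [Algebra K B']
    [Algebra A B] [Algebra A B'] [IsScalarTower K A B] [IsScalarTower K A B'] (φ : B →ₐ[A] B') :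
    B →ₐ[K] B' := φ.restrictScalars K

lemma xs_map (X₀ : Submodule K A) (Φ : MvPolynomial κ A →ₐ[A] MvPolynomial κ A) :
    (xs κ X₀).map (rs (K := K) Φ).toLinearMap = xs κ X₀ := by
  unfold xs
  rw [← Submodule.map_comp]
  congr 1
  apply LinearMap.ext
  intro x
  change Φ (algebraMap A _ x) = algebraMap A _ x
  exact Φ.commutes x

lemma xs_map_ev (X₀ : Submodule K A) (ev : MvPolynomial κ A →ₐ[A] A) :
    (xs κ X₀).map (rs (K := K) ev).toLinearMap = X₀ := by
  unfold xs
  rw [← Submodule.map_comp]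
  have h : (rs (K := K) ev).toLinearMap ∘ₗ
      (IsScalarTower.toAlgHom K A (MvPolynomial κ A)).toLinearMap = LinearMap.id := by
    apply LinearMap.ext
    intro x
    change ev (algebraMap A _ x) = x
    exact ev.commutes x
  rw [h, Submodule.map_id]

variable (X₀ : Submodule K A) (Sz Sw : Finset κ)

/-- the dimensions after a partial elimination -/
noncomputable def DM (Φ : MvPolynomial κ A →ₐ[A] MvPolynomial κ A) (a b c : ℕ) : ℕ :=
  dm (xs κ X₀) ((vs K A Sz).map (rs (K := K) Φ).toLinearMap)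
    ((vs K A Sw).map (rs (K := K) Φ).toLinearMap) a b c

/-- the dimensions after the evaluation -/
noncomputable def DE (ev : MvPolynomial κ A →ₐ[A] A) (a b c : ℕ) : ℕ :=
  dm X₀ ((vs K A Sz).map (rs (K := K) ev).toLinearMap)
    ((vs K A Sw).map (rs (K := K) ev).toLinearMap) a b c

variable [DecidableEq κ]

/-- the substitution of `p i` for the variable `i` -/
noncomputable def el (p : κ → MvPolynomial κ A) (i : κ) :
    MvPolynomial κ A →ₐ[A] MvPolynomial κ A :=
  aeval (Function.update X i (p i))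

lemma el_X_self (p : κ → MvPolynomial κ A) (i : κ) : el p i (X i) = p i := by
  unfold el
  rw [aeval_X, Function.update_self]

lemma el_X_ne (p : κ → MvPolynomial κ A) {i j : κ} (h : j ≠ i) : el p i (X j) = X j := by
  unfold el
  rw [aeval_X, Function.update_of_ne h]

omit [Algebra K A] [DecidableEq κ] in
/-- a homomorphism that fixes some variables fixes the polynomials in these variables -/
lemma fix_supported (Φ : MvPolynomial κ A →ₐ[A] MvPolynomial κ A) (s : Set κ)
    (h : ∀ j ∈ s, Φ (X j) = X j) {q : MvPolynomial κ A} (hq : q ∈ supported A s) : Φ q = q := by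
  have h1 : supported A s ≤ AlgHom.equalizer Φ (AlgHom.id A _) := by
    unfold supported
    rw [Algebra.adjoin_le_iff]
    rintro _ ⟨j, hj, rfl⟩
    exact h j hj
  exact h1 hq

omit [Algebra K A] [DecidableEq κ] in
lemma X_ne_of_supported [Nontrivial A] {i : κ} {s : Set κ} (hi : i ∉ s) {q : MvPolynomial κ A}
    (hq : q ∈ supported A s) : X i - q ≠ 0 := by
  intro h
  have h1 : (X i : MvPolynomial κ A) = q := sub_eq_zero.mp h
  rw [← h1, X_mem_supported] at hq
  exact hi hq

variable {X₀ Sz Sw}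

lemma DM_comp (p : κ → MvPolynomial κ A) (i : κ)
    (Φ : MvPolynomial κ A →ₐ[A] MvPolynomial κ A) (a b c : ℕ) :
    DM X₀ Sz Sw ((el p i).comp Φ) a b c =
      dm ((xs κ X₀).map (rs (K := K) (el p i)).toLinearMap)
        (((vs K A Sz).map (rs (K := K) Φ).toLinearMap).map (rs (K := K) (el p i)).toLinearMap)
        (((vs K A Sw).map (rs (K := K) Φ).toLinearMap).map (rs (K := K) (el p i)).toLinearMap)
        a b c := by
  unfold DM
  rw [xs_map, ← Submodule.map_comp, ← Submodule.map_comp]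
  rfl

lemma DM_comp_le (hX : X₀.FG) (p : κ → MvPolynomial κ A) (i : κ)
    (Φ : MvPolynomial κ A →ₐ[A] MvPolynomial κ A) (a b c : ℕ) :
    DM X₀ Sz Sw ((el p i).comp Φ) a b c ≤ DM X₀ Sz Sw Φ a b c := by
  rw [DM_comp]
  exact dm_map_le _ (xs_fg hX) ((vs_fg Sz).map _) ((vs_fg Sw).map _) _ _ _

lemma DM_step [IsDomain A] (hX : X₀.FG) (ρ : κ → ℕ) (p : κ → MvPolynomial κ A) (i : κ)
    (Φ : MvPolynomial κ A →ₐ[A] MvPolynomial κ A) (hp : p i ∈ supported A {j | ρ i < ρ j})
    (hΦ : ∀ j, ρ i ≤ ρ j → Φ (X j) = X j) (α β γ : ℕ)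
    (hmem : X i - p i ∈ xs κ X₀ ^ α * vs K A Sz ^ β * vs K A Sw ^ γ) (a b c : ℕ) :
    DM X₀ Sz Sw ((el p i).comp Φ) (a + α) (b + β) (c + γ) + DM X₀ Sz Sw Φ a b c ≤
      DM X₀ Sz Sw Φ (a + α) (b + β) (c + γ) := by
  have hfixp : Φ (p i) = p i := fix_supported Φ _ (fun j hj => hΦ j (le_of_lt hj)) hp
  have help : el p i (p i) = p i := by
    apply fix_supported _ _ _ hp
    intro j hj
    apply el_X_ne
    intro h
    rw [h] at hj
    exact lt_irrefl (ρ i) hj
  have hne : X i - p i ≠ 0 := X_ne_of_supported (s := {j | ρ i < ρ j}) (by simp) hp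
  have hzero : el p i (X i - p i) = 0 := by
    rw [map_sub, el_X_self, help, sub_self]
  have h6 : Φ (X i - p i) = X i - p i := by
    rw [map_sub, hΦ i le_rfl, hfixp]
  have h5 : X i - p i ∈ xs κ X₀ ^ α * ((vs K A Sz).map (rs (K := K) Φ).toLinearMap) ^ β *
      ((vs K A Sw).map (rs (K := K) Φ).toLinearMap) ^ γ := by
    rw [← xs_map X₀ Φ, ← Submodule.map_pow, ← Submodule.map_pow, ← Submodule.map_pow,
      ← Submodule.map_mul, ← Submodule.map_mul]
    exact ⟨_, hmem, h6⟩
  rw [DM_comp]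
  exact dm_step (rs (K := K) (el p i)) (xs_fg hX) ((vs_fg Sz).map _) ((vs_fg Sw).map _)
    (X i - p i) hne hzero α β γ h5 a b c

lemma next_hom (ρ : κ → ℕ) (p : κ → MvPolynomial κ A) (ev : MvPolynomial κ A →ₐ[A] A)
    (i : κ) (S : Finset κ) (hmin' : ∀ j ∈ S, ρ i < ρ j) (hev : ev (X i) = ev (p i))
    (Φ : MvPolynomial κ A →ₐ[A] MvPolynomial κ A)
    (hΦ : ∀ l ∈ insert i S, ∀ j, ρ l ≤ ρ j → Φ (X j) = X j) (hevΦ : ev.comp Φ = ev) :
    (∀ l ∈ S, ∀ j, ρ l ≤ ρ j → ((el p i).comp Φ) (X j) = X j) ∧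
      ev.comp ((el p i).comp Φ) = ev := by
  constructor
  · intro l hl j hj
    rw [AlgHom.comp_apply, hΦ l (Finset.mem_insert_of_mem hl) j hj]
    apply el_X_ne
    rintro rfl
    exact absurd (hmin' l hl) (not_lt.mpr hj)
  · have h2 : ev.comp (el p i) = ev := by
      apply algHom_ext
      intro j
      rw [AlgHom.comp_apply]
      by_cases hj : j = i
      · subst hj
        rw [el_X_self, hev]
      · rw [el_X_ne p hj]
    rw [← AlgHom.comp_assoc, h2, hevΦ]

lemma DE_le_DM (hX : X₀.FG) (h1 : 1 ∈ X₀) (ev : MvPolynomial κ A →ₐ[A] A)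
    (Φ : MvPolynomial κ A →ₐ[A] MvPolynomial κ A) (hΦ : ev.comp Φ = ev) {a b c a' b' c' : ℕ}
    (ha : a ≤ a') (hb : b ≤ b') (hc : c ≤ c') :
    DE X₀ Sz Sw ev a b c ≤ DM X₀ Sz Sw Φ a' b' c' := by
  unfold DE DM
  have fz : ((vs K A Sz).map (rs (K := K) Φ).toLinearMap).FG := (vs_fg Sz).map _
  have fw : ((vs K A Sw).map (rs (K := K) Φ).toLinearMap).FG := (vs_fg Sw).map _
  have hc' : ∀ S : Finset κ, (vs K A S).map (rs (K := K) ev).toLinearMap =
      ((vs K A S).map (rs (K := K) Φ).toLinearMap).map (rs (K := K) ev).toLinearMap := by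
    intro S
    rw [← Submodule.map_comp]
    congr 1
    apply LinearMap.ext
    intro x
    change ev x = ev (Φ x)
    conv_lhs => rw [← hΦ]
    rfl
  rw [hc' Sz, hc' Sw]
  conv_lhs => rw [← xs_map_ev X₀ ev]
  refine (dm_map_le _ (xs_fg hX) fz fw _ _ _).trans ?_
  apply dm_mono_one (xs_fg hX) fz fw (one_mem_xs h1) _ _ ha hb hc
  · exact ⟨1, one_mem_vs Sz, map_one (rs (K := K) Φ)⟩
  · exact ⟨1, one_mem_vs Sw, map_one (rs (K := K) Φ)⟩

variable {T : Type*} [Fintype T] [DecidableEq T]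

/-- the product of binomial coefficients -/
def pc (ty : κ → T) (S : Finset κ) (t : T → ℕ) : ℕ :=
  ∏ y, (t y + (S.filter (ty · = y)).card).choose (S.filter (ty · = y)).card

/-- the product over the other types -/
def qc (ty : κ → T) (S : Finset κ) (y₀ : T) (t : T → ℕ) : ℕ :=
  ∏ y ∈ Finset.univ.erase y₀, (t y + (S.filter (ty · = y)).card).choose
    (S.filter (ty · = y)).card

lemma pc_eq (ty : κ → T) (S : Finset κ) (y₀ : T) (t : T → ℕ) :
    pc ty S t = (t y₀ + (S.filter (ty · = y₀)).card).choose (S.filter (ty · = y₀)).card *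
      qc ty S y₀ t := by
  unfold pc qc
  rw [← Finset.mul_prod_erase Finset.univ _ (Finset.mem_univ y₀)]

lemma pc_insert (ty : κ → T) (S : Finset κ) (i : κ) (hi : i ∉ S) (t : T → ℕ) :
    pc ty (insert i S) t = (t (ty i) + ((S.filter (ty · = ty i)).card + 1)).choose
      ((S.filter (ty · = ty i)).card + 1) * qc ty S (ty i) t := by
  have cnt1 : ((insert i S).filter (ty · = ty i)).card = (S.filter (ty · = ty i)).card + 1 := by
    rw [Finset.filter_insert, if_pos rfl, Finset.card_insert_of_notMem]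
    intro h
    exact hi (Finset.mem_of_mem_filter _ h)
  have cnt2 : ∀ y ≠ ty i, ((insert i S).filter (ty · = y)).card =
      (S.filter (ty · = y)).card := by
    intro y hy
    rw [Finset.filter_insert, if_neg (Ne.symm hy)]
  rw [pc_eq ty _ (ty i), cnt1]
  congr 1
  unfold qc
  apply Finset.prod_congr rfl
  intro y hy
  rw [cnt2 y (Finset.ne_of_mem_erase hy)]

lemma qc_update (ty : κ → T) (S : Finset κ) (y₀ : T) (t : T → ℕ) (n : ℕ) :
    qc ty S y₀ (Function.update t y₀ n) = qc ty S y₀ t := by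
  unfold qc
  apply Finset.prod_congr rfl
  intro y hy
  rw [Function.update_of_ne (Finset.ne_of_mem_erase hy)]

lemma sum_update_eq (y₀ : T) (t w : T → ℕ) (n : ℕ) (ht : t y₀ = n + 1) :
    ∑ y, t y * w y = (∑ y, Function.update t y₀ n y * w y) + w y₀ := by
  rw [← Finset.add_sum_erase Finset.univ _ (Finset.mem_univ y₀),
    ← Finset.add_sum_erase Finset.univ (fun y => Function.update t y₀ n y * w y)
      (Finset.mem_univ y₀), ht, Function.update_self]
  have : ∑ x ∈ Finset.univ.erase y₀, t x * w x =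
      ∑ x ∈ Finset.univ.erase y₀, Function.update t y₀ n x * w x := by
    apply Finset.sum_congr rfl
    intro y hy
    rw [Function.update_of_ne (Finset.ne_of_mem_erase hy)]
  rw [this]
  ring

/-- **Elimination theorem.** -/
theorem elimination [IsDomain A] (hX : X₀.FG) (h1 : 1 ∈ X₀) (ρ : κ → ℕ)
    (hρ : Function.Injective ρ) (ty : κ → T) (α β γ : T → ℕ) (p : κ → MvPolynomial κ A)
    (ev : MvPolynomial κ A →ₐ[A] A) (a b c : ℕ) (S : Finset κ)
    (hp : ∀ i ∈ S, p i ∈ supported A {j | ρ i < ρ j})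
    (hmem : ∀ i ∈ S, X i - p i ∈
      xs κ X₀ ^ α (ty i) * vs K A Sz ^ β (ty i) * vs K A Sw ^ γ (ty i))
    (hev : ∀ i ∈ S, ev (X i) = ev (p i)) :
    ∀ (t : T → ℕ) (Φ : MvPolynomial κ A →ₐ[A] MvPolynomial κ A),
      (∀ i ∈ S, ∀ j, ρ i ≤ ρ j → Φ (X j) = X j) → ev.comp Φ = ev →
      pc ty S t * DE X₀ Sz Sw ev a b c ≤
      DM X₀ Sz Sw Φ (a + ∑ y, t y * α y) (b + ∑ y, t y * β y) (c + ∑ y, t y * γ y) := by
  classical
  induction S using Finset.induction_on_min_value ρ with
  | empty =>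
    intro t Φ _ hΦ
    have e1 : pc ty (∅ : Finset κ) t = 1 := by
      apply Finset.prod_eq_one
      intro y _
      simp
    rw [e1, one_mul]
    exact DE_le_DM hX h1 ev Φ hΦ (Nat.le_add_right _ _) (Nat.le_add_right _ _)
      (Nat.le_add_right _ _)
  | insert i S hi hmin ih =>
    have hmin' : ∀ j ∈ S, ρ i < ρ j := by
      intro j hj
      refine lt_of_le_of_ne (hmin j hj) ?_
      intro h
      exact hi (hρ h ▸ hj)
    have ih' := ih (fun j hj => hp j (Finset.mem_insert_of_mem hj))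
      (fun j hj => hmem j (Finset.mem_insert_of_mem hj))
      (fun j hj => hev j (Finset.mem_insert_of_mem hj))
    clear ih
    have hii : i ∈ insert i S := Finset.mem_insert_self _ _
    have key : ∀ (n : ℕ) (t : T → ℕ) (Φ : MvPolynomial κ A →ₐ[A] MvPolynomial κ A),
      t (ty i) = n →
      (∀ l ∈ insert i S, ∀ j, ρ l ≤ ρ j → Φ (X j) = X j) → ev.comp Φ = ev →
      pc ty (insert i S) t * DE X₀ Sz Sw ev a b c ≤
      DM X₀ Sz Sw Φ (a + ∑ y, t y * α y) (b + ∑ y, t y * β y) (c + ∑ y, t y * γ y) := by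
      intro n
      induction n with
      | zero =>
        intro t Φ ht hΦ hevΦ
        obtain ⟨n1, n2⟩ := next_hom ρ p ev i S hmin' (hev i hii) Φ hΦ hevΦ
        have h3 := ih' t _ n1 n2
        rw [pc_eq ty S (ty i), ht, zero_add, Nat.choose_self, one_mul] at h3
        rw [pc_insert ty S i hi, ht, zero_add, Nat.choose_self, one_mul]
        exact h3.trans (DM_comp_le hX p i Φ _ _ _)
      | succ n ihn =>
        intro t Φ ht hΦ hevΦ
        obtain ⟨n1, n2⟩ := next_hom ρ p ev i S hmin' (hev i hii) Φ hΦ hevΦ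
        have h3 := ih' t _ n1 n2
        have h4 := ihn (Function.update t (ty i) n) Φ (by rw [Function.update_self]) hΦ hevΦ
        rw [pc_insert ty S i hi, qc_update, Function.update_self] at h4
        rw [pc_eq ty S (ty i), ht] at h3
        rw [pc_insert ty S i hi, ht]
        have hstep := DM_step (Sz := Sz) (Sw := Sw) hX ρ p i Φ (hp i hii) (hΦ i hii) _ _ _
          (hmem i hii) (a + ∑ y, Function.update t (ty i) n y * α y)
          (b + ∑ y, Function.update t (ty i) n y * β y)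
          (c + ∑ y, Function.update t (ty i) n y * γ y)
        rw [add_assoc, add_assoc, add_assoc, ← sum_update_eq (ty i) t α n ht,
          ← sum_update_eq (ty i) t β n ht, ← sum_update_eq (ty i) t γ n ht] at hstep
        set c₀ := (S.filter (ty · = ty i)).card
        have hch : (n + 1 + (c₀ + 1)).choose (c₀ + 1) =
            (n + 1 + c₀).choose c₀ + (n + (c₀ + 1)).choose (c₀ + 1) := by
          have : n + 1 + (c₀ + 1) = (n + 1 + c₀) + 1 := by ring
          rw [this, Nat.choose_succ_succ]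
          congr 2
          ring
        rw [hch, add_mul, add_mul]
        omega
    intro t Φ hΦ hevΦ
    exact key _ t Φ rfl hΦ hevΦ

end Pool.Agent.W944.Cx
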