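import Pool.Agent.W944.Smooth

/-! # Forms modulo an irreducible factor -/

set_option autoImplicit false
set_option linter.unusedSectionVars false

open Module MvPolynomial

namespace Pool.Agent.W944

open Pool.Agent.H546R2.SL (component_mul exists_degree_bound)

variable {K : Type*} [Field K] {ι : Type*} [Fintype ι]

section count

/-- exponents without the variable `j` and with total degree between `A` and `B` -/
noncomputable def expo [DecidableEq ι] (j : ι) (A B : ℕ) : Finset (ι →₀ ℕ) :=
  (Finset.Icc A B).biUnion fun D => (Finset.univ.erase j).finsuppAntidiag D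

lemma mem_expo [DecidableEq ι] (j : ι) (A B : ℕ) (m : ι →₀ ℕ) :
    m ∈ expo j A B ↔ m j = 0 ∧ A ≤ m.degree ∧ m.degree ≤ B := by
  unfold expo
  simp only [Finset.mem_biUnion, Finset.mem_Icc, Finset.mem_finsuppAntidiag]
  have hs : m j = 0 → (Finset.univ.erase j).sum m = m.degree := by
    intro h0
    rw [Finsupp.degree_eq_sum, ← Finset.add_sum_erase Finset.univ _ (Finset.mem_univ j), h0,
      zero_add]
  have hsup : m.support ⊆ Finset.univ.erase j ↔ m j = 0 := by
    constructor
    · intro h
      by_contra h0
      have := h (Finsupp.mem_support_iff.mpr h0)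
      exact (Finset.notMem_erase _ _) this
    · intro h i hi
      rw [Finset.mem_erase]
      refine ⟨fun hij => ?_, Finset.mem_univ _⟩
      rw [hij, Finsupp.mem_support_iff] at hi
      exact hi h
  constructor
  · rintro ⟨D, ⟨h1, h2⟩, h3, h4⟩
    rw [hsup] at h4
    rw [hs h4] at h3
    subst h3
    exact ⟨h4, h1, h2⟩
  · rintro ⟨h0, h1, h2⟩
    exact ⟨m.degree, ⟨h1, h2⟩, hs h0, hsup.mpr h0⟩

lemma card_expo [DecidableEq ι] (j : ι) (k A b : ℕ) (hι : Fintype.card ι = k + 2) :
    (b + 1) * (A + k).choose k ≤ (expo j A (A + b)).card := by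
  unfold expo
  rw [Finset.card_biUnion]
  · have h1 : ∀ D ∈ Finset.Icc A (A + b),
        (A + k).choose k ≤ ((Finset.univ.erase j).finsuppAntidiag D).card := by
      intro D hD
      rw [Finset.card_finsuppAntidiag_nat_eq_choose, Finset.card_erase_of_mem (Finset.mem_univ _),
        Finset.card_univ, hι]
      have h2 : k + 2 - 1 + D - 1 = D + k := by omega
      rw [h2]
      have h3 : (D + k).choose D = (D + k).choose k := Nat.choose_symm_of_eq_add rfl
      rw [h3]
      exact Nat.choose_le_choose _ (Nat.add_le_add_right (Finset.mem_Icc.mp hD).1 _)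
    calc (b + 1) * (A + k).choose k = ∑ _D ∈ Finset.Icc A (A + b), (A + k).choose k := by
          rw [Finset.sum_const, Nat.card_Icc, smul_eq_mul]
          congr 1
          omega
      _ ≤ _ := Finset.sum_le_sum h1
  · intro D _ D' _ hDD'
    rw [Function.onFun, Finset.disjoint_left]
    intro m hm hm'
    rw [Finset.mem_finsuppAntidiag] at hm hm'
    exact hDD' (hm.1.symm.trans hm'.1)

end count

variable (P : MvPolynomial ι K) (hP : Prime P)

/-- the quotient ring -/
abbrev Q (P : MvPolynomial ι K) : Type _ := MvPolynomial ι K ⧸ Ideal.span {P}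

include hP in
/-- some variable occurs in a prime polynomial -/
lemma exists_var : ∃ j, degreeOf j P ≠ 0 := by
  classical
  by_contra hcon
  push Not at hcon
  have h1 : P.totalDegree = 0 := by
    have h2 : ∀ m ∈ P.support, m = 0 := by
      intro m hm
      ext i
      have h3 := monomial_le_degreeOf i hm
      rw [hcon i] at h3
      simpa using h3
    rw [totalDegree, ← Nat.bot_eq_zero, Finset.sup_eq_bot_iff]
    intro m hm
    rw [h2 m hm]
    simp
  obtain ⟨c, hc⟩ : ∃ c : K, P = C c := ⟨_, totalDegree_eq_zero_iff_eq_C.mp h1⟩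
  have hc0 : c ≠ 0 := by
    rintro rfl
    rw [map_zero] at hc
    exact hP.ne_zero hc
  apply hP.not_isUnit
  rw [hc]
  exact (isUnit_iff_ne_zero.mpr hc0).map C

include hP in
/-- the dimension of a subspace of the quotient containing the classes of many monomials -/
lemma card_le_finrank (j : ι) (hj : degreeOf j P ≠ 0) (S : Finset (ι →₀ ℕ))
    (hS : ∀ m ∈ S, m j = 0) (V : Submodule K (Q P)) (hV : V.FG)
    (hSV : ∀ m ∈ S, Ideal.Quotient.mk (Ideal.span {P}) (monomial m 1) ∈ V) :
    S.card ≤ finrank K ↥V := by
  classical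
  have fdV : FiniteDimensional K ↥V := Module.Finite.iff_fg.mpr hV
  have hli : LinearIndependent K (fun m : S => (⟨_, hSV m.1 m.2⟩ : ↥V)) := by
    rw [Fintype.linearIndependent_iff]
    intro g hg m₀
    by_contra hne
    set f : MvPolynomial ι K := ∑ m : S, monomial m.1 (g m) with hf
    have hcoef : ∀ m : S, coeff m.1 f = g m := by
      intro m
      rw [hf, coeff_sum, Finset.sum_eq_single m]
      · rw [coeff_monomial, if_pos rfl]
      · intro m' _ hm'
        rw [coeff_monomial, if_neg (fun h => hm' (Subtype.ext h))]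
      · intro h; exact absurd (Finset.mem_univ _) h
    have hf0 : f ≠ 0 := by
      intro h
      apply hne
      rw [← hcoef m₀, h, coeff_zero]
    have hmk : Ideal.Quotient.mk (Ideal.span {P}) f = 0 := by
      have h1 := congrArg (Subtype.val) hg
      rw [Submodule.coe_sum] at h1
      simp only [Submodule.coe_smul, Submodule.coe_zero] at h1
      rw [hf, map_sum, ← h1]
      apply Finset.sum_congr rfl
      intro m _
      have h2 : (monomial m.1 (g m) : MvPolynomial ι K) = g m • monomial m.1 1 := by
        rw [smul_monomial, smul_eq_mul, mul_one]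
      rw [h2]
      rfl
    rw [Ideal.Quotient.eq_zero_iff_mem, Ideal.mem_span_singleton] at hmk
    obtain ⟨h, hh⟩ := hmk
    have hh0 : h ≠ 0 := by
      rintro rfl
      rw [mul_zero] at hh
      exact hf0 hh
    have hdeg := degreeOf_mul_eq (n := j) hP.ne_zero hh0
    rw [← hh] at hdeg
    have hdf : degreeOf j f = 0 := by
      rw [← Nat.le_zero, degreeOf_le_iff]
      intro m hm
      have h3 : m ∈ S := by
        by_contra hmS
        rw [MvPolynomial.mem_support_iff] at hm
        apply hm
        rw [hf, coeff_sum]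
        apply Finset.sum_eq_zero
        intro m' _
        rw [coeff_monomial, if_neg]
        rintro rfl
        exact hmS m'.2
      exact (hS m h3).le
    omega
  have h := hli.fintype_card_le_finrank
  rwa [Fintype.card_coe] at h

/-- forms of degree in a suitable range lie in the product of powers -/
lemma forms_mem {R : Type*} [CommRing R] [Algebra K R] [Algebra (MvPolynomial ι K) R]
    [IsScalarTower K (MvPolynomial ι K) R] (F : MvPolynomial ι K) (d : ℕ)
    (hF : F.IsHomogeneous d) (hFR : algebraMap (MvPolynomial ι K) R F = 0)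
    (G : Submodule K R) (hG : ∀ i, algebraMap (MvPolynomial ι K) R (pderiv i F) ∈ G) (M₀ : ℕ)
    (hM₀ : ∀ D ≥ M₀, ∀ p : MvPolynomial ι K, p.IsHomogeneous D →
      p ∈ Ideal.span (Set.range fun o : Option ι => o.elim F fun i => pderiv i F)) (a : ℕ) :
    ∀ τ D, M₀ + d + (d - 1) * τ ≤ D → D ≤ a + (d - 1) * τ → ∀ p : MvPolynomial ι K,
      p.IsHomogeneous D → algebraMap (MvPolynomial ι K) R p ∈ xsp K ι R ^ a * G ^ τ := by
  classical
  intro τ
  induction τ with
  | zero =>
    intro D _ hD p hp
    rw [pow_zero, mul_one]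
    apply algebraMap_mem_xsp_pow
    exact hp.totalDegree_le.trans (by simpa using hD)
  | succ τ ih =>
    intro D hD1 hD2 p hp
    have hd1 : (d - 1) * (τ + 1) = (d - 1) * τ + (d - 1) := by ring
    rw [hd1] at hD1 hD2
    obtain ⟨c, hc⟩ := Finsupp.mem_ideal_span_range_iff_exists_finsupp.mp
      (hM₀ D (by omega) p hp)
    have h1 := congrArg (homogeneousComponent D) hc
    rw [homogeneousComponent_eq_self hp] at h1
    rw [← h1, Finsupp.sum, map_sum, map_sum]
    apply Submodule.sum_mem
    intro o _
    cases o with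
    | none =>
      simp only [Option.elim]
      rw [component_mul D d (by omega) _ _ hF, map_mul, hFR, mul_zero]
      exact Submodule.zero_mem _
    | some i =>
      simp only [Option.elim]
      rw [component_mul D (d - 1) (by omega) _ _ hF.pderiv, map_mul, pow_succ, ← mul_assoc]
      apply Submodule.mul_mem_mul _ (hG i)
      exact ih (D - (d - 1)) (by omega) (by omega) _ (homogeneousComponent_isHomogeneous _ _)

include hP in
/-- a prime factor of a smooth form does not divide all derivatives -/
lemma exists_pderiv [IsAlgClosed K] (F : MvPolynomial ι K)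
    (hsm : ∀ x : ι → K, eval x F = 0 → (∀ i, eval x (pderiv i F) = 0) → x = 0)
    (hι : 2 ≤ Fintype.card ι) (hPF : P ∣ F) : ∃ i, ¬ P ∣ pderiv i F := by
  classical
  by_contra hcon
  push Not at hcon
  obtain ⟨M₀, hM₀⟩ := exists_degree_bound
    (fun o : Option ι => o.elim F fun i => pderiv i F) (fun x hx => hsm x (hx none)
      (fun i => hx (some i)))
  have h2 : Ideal.span (Set.range fun o : Option ι => o.elim F fun i => pderiv i F) ≤
      Ideal.span {P} := by
    rw [Ideal.span_le]
    rintro _ ⟨o, rfl⟩
    cases o with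
    | none => exact Ideal.mem_span_singleton.mpr hPF
    | some i => exact Ideal.mem_span_singleton.mpr (hcon i)
  obtain ⟨i, j, hij⟩ := Fintype.exists_pair_of_one_lt_card (by omega : 1 < Fintype.card ι)
  have h3 : ∀ i : ι, P ∣ X i := by
    intro i
    have h4 := h2 (hM₀ M₀ le_rfl (X i ^ M₀) (isHomogeneous_X_pow i M₀))
    exact hP.dvd_of_dvd_pow (Ideal.mem_span_singleton.mp h4)
  obtain ⟨u, hu⟩ := h3 i
  obtain ⟨v, hv⟩ := h3 j
  have hu0 : u ≠ 0 := by rintro rfl; rw [mul_zero] at hu; exact X_ne_zero _ hu
  have hv0 : v ≠ 0 := by rintro rfl; rw [mul_zero] at hv; exact X_ne_zero _ hv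
  obtain ⟨l, hl⟩ := exists_var P hP
  have d1 := degreeOf_mul_eq (n := l) hP.ne_zero hu0
  have d2 := degreeOf_mul_eq (n := l) hP.ne_zero hv0
  rw [← hu, degreeOf_X] at d1
  rw [← hv, degreeOf_X] at d2
  have e1 : l = i := by
    by_contra h
    rw [if_neg h] at d1
    omega
  have e2 : l = j := by
    by_contra h
    rw [if_neg h] at d2
    omega
  exact hij (e1.symm.trans e2)

end Pool.Agent.W944
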