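import Pool.Agent.W944.Chain

/-! # The entries of the adjugate modulo the determinant -/

set_option autoImplicit false
set_option linter.unusedSectionVars false

open Module MvPolynomial

namespace Pool.Agent.W944

open Pool.Agent.H546R2.SL (finrank_span_mul pow_mono_of_one_mem)

section Rank

variable {R : Type*} [CommRing R] {N : ℕ}

lemma adj_kernel (M : Matrix (Fin N) (Fin N) R) (u : Fin N → R) (hu : M.mulVec u = 0)
    (p q i : Fin N) : M.adjugate p q * u i = u p * M.adjugate i q := by
  classical
  set M' := M.updateRow q (Pi.single p 1) with hM'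
  have h1 : M'.mulVec u = Pi.single q (u p) := by
    funext r
    have h0 : M'.mulVec u r = ∑ j, M' r j * u j := rfl
    rw [h0]
    by_cases hr : r = q
    · subst hr
      rw [Pi.single_eq_same, hM', Finset.sum_eq_single p]
      · rw [Matrix.updateRow_self, Pi.single_eq_same, one_mul]
      · intro j _ hj
        rw [Matrix.updateRow_self, Pi.single_eq_of_ne hj, zero_mul]
      · intro h; exact absurd (Finset.mem_univ _) h
    · rw [Pi.single_eq_of_ne hr, hM']
      have h2 : ∑ j, M r j * u j = 0 := congrFun hu r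
      rw [← h2]
      apply Finset.sum_congr rfl
      intro j _
      rw [Matrix.updateRow_ne hr]
  have h2 : M'.adjugate.mulVec (M'.mulVec u) = M'.det • u := by
    rw [Matrix.mulVec_mulVec, Matrix.adjugate_mul, Matrix.smul_mulVec, Matrix.one_mulVec]
  rw [h1] at h2
  have h3 := congrFun h2 i
  rw [Matrix.mulVec_single, Pi.smul_apply, Pi.smul_apply, smul_eq_mul] at h3
  have h4 : M'.adjugate i q = M.adjugate i q := by
    rw [Matrix.adjugate_apply, Matrix.adjugate_apply, hM', Matrix.updateRow_idem]
  have h5 : M'.det = M.adjugate p q := by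
    rw [Matrix.adjugate_apply]
  simp only [Matrix.col_apply, MulOpposite.smul_eq_mul_unop, MulOpposite.unop_op, h4, h5] at h3
  rw [← h3, mul_comm]

/-- the adjugate of a singular matrix has rank at most one -/
lemma adj_rank_one (M : Matrix (Fin N) (Fin N) R) (hM : M.det = 0) (p q i j : Fin N) :
    M.adjugate p q * M.adjugate i j = M.adjugate p j * M.adjugate i q := by
  have h1 : M.mulVec (fun i => M.adjugate i j) = 0 := by
    funext r
    have h2 := congrFun (congrFun (Matrix.mul_adjugate M) r) j
    rw [hM, zero_smul] at h2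
    exact h2
  exact adj_kernel M _ h1 p q i

end Rank

variable {K : Type*} [Field K] {ι : Type*} [Fintype ι] {N : ℕ}
  {R : Type*} [CommRing R] [IsDomain R] [Algebra K R] [Algebra (MvPolynomial ι K) R]
  [IsScalarTower K (MvPolynomial ι K) R]

/-- the span of the entries of the adjugate -/
def gsp (R : Type*) [CommRing R] [Algebra K R] [Algebra (MvPolynomial ι K) R]
    (M : Matrix (Fin N) (Fin N) (MvPolynomial ι K)) : Submodule K R :=
  Submodule.span K (Set.range fun x : Fin N × Fin N =>
    algebraMap (MvPolynomial ι K) R (M.adjugate x.1 x.2))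

lemma gsp_fg (M : Matrix (Fin N) (Fin N) (MvPolynomial ι K)) : (gsp R M).FG :=
  Submodule.fg_span (Set.finite_range _)

lemma gsp_le (M : Matrix (Fin N) (Fin N) (MvPolynomial ι K))
    (hR : algebraMap (MvPolynomial ι K) R M.det = 0) (p q : Fin N) :
    Submodule.span K {algebraMap (MvPolynomial ι K) R (M.adjugate p q)} * gsp R M ≤
      ksp M (Pi.single q (1 : R)) * ksp M.transpose (Pi.single p (1 : R)) := by
  classical
  unfold gsp
  rw [Submodule.span_mul_span, Submodule.span_le]
  rintro _ ⟨_, h, _, ⟨⟨i, j⟩, rfl⟩, rfl⟩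
  rw [Set.mem_singleton_iff] at h
  subst h
  have h1 : algebraMap (MvPolynomial ι K) R (M.adjugate p q) *
      algebraMap (MvPolynomial ι K) R (M.adjugate i j) =
      algebraMap (MvPolynomial ι K) R (M.adjugate i q) *
        algebraMap (MvPolynomial ι K) R (M.adjugate p j) := by
    have h2 := adj_rank_one (M.map (algebraMap (MvPolynomial ι K) R))
      (by rw [← RingHom.mapMatrix_apply, ← RingHom.map_det, hR]) p q i j
    rw [← RingHom.mapMatrix_apply, ← RingHom.map_adjugate] at h2
    simp only [RingHom.mapMatrix_apply, Matrix.map_apply] at h2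
    rw [h2, mul_comm]
  simp only
  rw [h1]
  apply Submodule.mul_mem_mul
  · exact Submodule.subset_span ⟨i, kvec_single M q i⟩
  · refine Submodule.subset_span ⟨j, ?_⟩
    rw [kvec_single, ← Matrix.adjugate_transpose, Matrix.transpose_apply]

lemma lower_hd (M : Matrix (Fin N) (Fin N) (MvPolynomial ι K))
    (hR : algebraMap (MvPolynomial ι K) R M.det = 0) (p q : Fin N)
    (hpq : algebraMap (MvPolynomial ι K) R (M.adjugate p q) ≠ 0) (a τ : ℕ) :
    finrank K ↥(xsp K ι R ^ a * gsp R M ^ τ) ≤
      hd M (Pi.single q (1 : R)) (Pi.single p (1 : R)) a τ τ := by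
  unfold hd dm
  have : FiniteDimensional K ↥(pr (xsp K ι R) (ksp M (Pi.single q (1 : R)))
      (ksp M.transpose (Pi.single p (1 : R))) a τ τ) :=
    Module.Finite.iff_fg.mpr (pr_fg xsp_fg (ksp_fg _ _) (ksp_fg _ _) _ _ _)
  rw [← finrank_span_mul (K := K) (algebraMap (MvPolynomial ι K) R (M.adjugate p q) ^ τ)
    (pow_ne_zero _ hpq)]
  apply Submodule.finrank_mono
  have h1 := pow_le_pow_left' (gsp_le M hR p q) τ
  rw [mul_pow, Submodule.span_pow, Set.singleton_pow] at h1
  calc Submodule.span K {algebraMap (MvPolynomial ι K) R (M.adjugate p q) ^ τ} *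
        (xsp K ι R ^ a * gsp R M ^ τ) = xsp K ι R ^ a *
        (Submodule.span K {algebraMap (MvPolynomial ι K) R (M.adjugate p q) ^ τ} *
          gsp R M ^ τ) := by ring
    _ ≤ xsp K ι R ^ a *
        (ksp M (Pi.single q (1 : R)) * ksp M.transpose (Pi.single p (1 : R))) ^ τ :=
        mul_le_mul' le_rfl h1
    _ = _ := by unfold pr; rw [mul_pow]; ring

/-- **Main inequality.** `M` is an `N × N` matrix of polynomials of degree at most one in
`card ι` variables, `R` is a domain to which the polynomial ring maps so that the determinant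
becomes zero but some entry of the adjugate does not. -/
theorem main_ineq (M : Matrix (Fin N) (Fin N) (MvPolynomial ι K))
    (hM : ∀ i j, (M i j).totalDegree ≤ 1) (hdet : M.det ≠ 0)
    (hR : algebraMap (MvPolynomial ι K) R M.det = 0)
    (hadj : ∃ p q, algebraMap (MvPolynomial ι K) R (M.adjugate p q) ≠ 0) (a τ t s : ℕ) :
    (s + (N - 1)).choose (N - 1) * ((t + N).choose N *
      finrank K ↥(xsp K ι R ^ a * gsp R M ^ τ)) ≤
    (Fintype.card ι + 1).multichoose (a + t + s) * N.multichoose (τ + t) *
      N.multichoose (τ + s) := by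
  obtain ⟨p, q, hpq⟩ := hadj
  refine le_trans ?_ (main_dim M hM hdet p q hR hpq a τ τ t s)
  exact Nat.mul_le_mul_left _ (Nat.mul_le_mul_left _ (lower_hd M hR p q hpq a τ))

end Pool.Agent.W944
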