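import Mathlib

/-! # Fractional distribution of the products over the scales -/

set_option autoImplicit false
set_option linter.unusedSectionVars false
set_option linter.unusedVariables false

namespace Pool.Agent.W944.Pk

open Finset

/-- the efficiency of a product of class `k` at the scale `j` -/
noncomputable def wt (k j : ℕ) : ℝ := min 1 (2 ^ k / 2 ^ j)

lemma wt_pos (k j : ℕ) : 0 < wt k j := by
  unfold wt
  positivity

lemma wt_le_one (k j : ℕ) : wt k j ≤ 1 := min_le_left _ _

lemma wt_of_le {k j : ℕ} (h : j ≤ k) : wt k j = 1 := by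
  unfold wt
  apply min_eq_left
  rw [one_le_div (by positivity)]
  exact pow_le_pow_right₀ (by norm_num) h

lemma wt_of_ge {k j : ℕ} (h : k ≤ j) : wt k j = 2 ^ k / 2 ^ j := by
  unfold wt
  apply min_eq_right
  rw [div_le_one (by positivity)]
  exact pow_le_pow_right₀ (by norm_num) h

lemma wt_mono (k j : ℕ) : wt k j ≤ wt (k + 1) j := by
  unfold wt
  apply min_le_min_left
  apply div_le_div_of_nonneg_right _ (by positivity)
  exact pow_le_pow_right₀ (by norm_num) (by omega)

lemma wt_double (k j : ℕ) : wt (k + 1) j ≤ 2 * wt k j := by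
  unfold wt
  rw [mul_min_of_nonneg _ _ (by norm_num : (0 : ℝ) ≤ 2)]
  apply min_le_min
  · norm_num
  · rw [pow_succ]
    apply le_of_eq
    ring

/-- the sum of the efficiencies over the classes -/
lemma sum_wt (D j : ℕ) (hj : j < D) : ∑ k ∈ range D, wt k j ≤ 2 * (D - j) := by
  have h1 : ∀ E, j ≤ E → ∑ k ∈ range E, wt k j = (E - j) + (1 - 1 / 2 ^ j) := by
    intro E hE
    induction E, hE using Nat.le_induction with
    | base =>
      have h2 : ∀ i, i ≤ j → ∑ k ∈ range i, wt k j = (2 ^ i - 1) / 2 ^ j := by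
        intro i hi
        induction i with
        | zero => simp
        | succ i ih =>
          rw [sum_range_succ, ih (by omega), wt_of_ge (by omega)]
          rw [pow_succ]
          ring
      rw [h2 j le_rfl]
      have : (2 : ℝ) ^ j ≠ 0 := by positivity
      field_simp
      ring
    | succ E hE ih =>
      rw [sum_range_succ, ih, wt_of_le hE]
      push_cast
      ring
  rw [h1 D hj.le]
  have h3 : (1 : ℝ) ≤ (D : ℝ) - j := by
    have : ((j + 1 : ℕ) : ℝ) ≤ D := by exact_mod_cast hj
    push_cast at this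
    linarith
  have h4 : (0 : ℝ) < 1 / 2 ^ j := by positivity
  linarith

/-- a quasiconcave function is comparable to a positive combination of efficiencies -/
lemma decompose (D : ℕ) (hD : 0 < D) (h : ℕ → ℝ) (h0 : ∀ k, 0 ≤ h k) (h1 : ∀ k, h k ≤ h (k + 1))
    (h2 : ∀ k, h (k + 1) ≤ 2 * h k) :
    ∃ θ : ℕ → ℝ, (∀ j < D, 0 ≤ θ j) ∧ ∀ k < D, h k ≤ ∑ j ∈ range D, θ j * wt k j ∧
      ∑ j ∈ range D, θ j * wt k j ≤ 2 * h k := by
  classical
  have hne : (range D).Nonempty := ⟨0, mem_range.mpr hD⟩
  obtain ⟨φ, hφ⟩ : ∃ φ : ℕ → ℕ → ℝ, φ = fun k t => h t * (1 + 2 ^ k / 2 ^ t) := ⟨_, rfl⟩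
  have hφ0 : ∀ k t, 0 ≤ φ k t := by
    intro k t
    rw [hφ]
    exact mul_nonneg (h0 t) (by positivity)
  obtain ⟨g, hg⟩ : ∃ g : ℕ → ℝ, g = fun k => (range D).inf' hne (φ k) := ⟨_, rfl⟩
  have hgle : ∀ k t, t < D → g k ≤ φ k t := by
    intro k t ht
    rw [hg]
    exact inf'_le _ (mem_range.mpr ht)
  have hgex : ∀ k, ∃ t < D, g k = φ k t := by
    intro k
    obtain ⟨t, ht, h3⟩ := exists_mem_eq_inf' hne (φ k)
    exact ⟨t, mem_range.mp ht, by rw [hg]; exact h3⟩
  have hmono : ∀ k l, k ≤ l → h k ≤ h l := fun k l hkl => monotone_nat_of_le_succ h1 hkl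
  have hdbl : ∀ k l, h (k + l) ≤ 2 ^ l * h k := by
    intro k l
    induction l with
    | zero => simp
    | succ l ih =>
      calc h (k + (l + 1)) ≤ 2 * h (k + l) := h2 (k + l)
        _ ≤ 2 * (2 ^ l * h k) := by linarith
        _ = _ := by ring
  have hgh : ∀ k, h k ≤ g k := by
    intro k
    obtain ⟨t, ht, h3⟩ := hgex k
    rw [h3, hφ]
    simp only
    rcases le_total k t with h4 | h4
    · calc h k ≤ h t := hmono k t h4
        _ = h t * 1 := by ring
        _ ≤ h t * (1 + 2 ^ k / 2 ^ t) := by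
          apply mul_le_mul_of_nonneg_left _ (h0 t)
          have : (0 : ℝ) ≤ 2 ^ k / 2 ^ t := by positivity
          linarith
    · obtain ⟨l, rfl⟩ := Nat.exists_eq_add_of_le h4
      have e1 : (2 : ℝ) ^ (t + l) / 2 ^ t = 2 ^ l := by
        rw [pow_add]
        field_simp
      rw [e1]
      have := hdbl t l
      have := h0 t
      linarith
  have hg2 : ∀ k, k < D → g k ≤ 2 * h k := by
    intro k hk
    refine (hgle k k hk).trans (le_of_eq ?_)
    rw [hφ]
    simp only
    rw [div_self (by positivity)]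
    ring
  have hgm : ∀ k, g k ≤ g (k + 1) := by
    intro k
    obtain ⟨t, ht, h3⟩ := hgex (k + 1)
    rw [h3]
    refine (hgle k t ht).trans ?_
    rw [hφ]
    simp only
    apply mul_le_mul_of_nonneg_left _ (h0 t)
    have : (2 : ℝ) ^ k / 2 ^ t ≤ 2 ^ (k + 1) / 2 ^ t := by
      apply div_le_div_of_nonneg_right _ (by positivity)
      exact pow_le_pow_right₀ (by norm_num) (by omega)
    linarith
  have hg0 : g 1 ≤ 2 * g 0 := by
    obtain ⟨t, ht, h3⟩ := hgex 0
    rw [h3]
    refine (hgle 1 t ht).trans ?_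
    rw [hφ]
    simp only
    have h4 : (2 : ℝ) ^ 1 / 2 ^ t = 2 * (2 ^ 0 / 2 ^ t) := by ring
    rw [h4]
    have h5 := h0 t
    have h6 : (0 : ℝ) ≤ 2 ^ 0 / 2 ^ t := by positivity
    nlinarith
  have hconc : ∀ k, g (k + 2) + 2 * g k ≤ 3 * g (k + 1) := by
    intro k
    obtain ⟨t, ht, h3⟩ := hgex (k + 1)
    rw [h3]
    have h4 := hgle (k + 2) t ht
    have h5 := hgle k t ht
    rw [hφ] at h4 h5 ⊢
    simp only at h4 h5 ⊢
    have h6 : (2 : ℝ) ^ (k + 2) / 2 ^ t = 4 * (2 ^ k / 2 ^ t) := by ring
    have h7 : (2 : ℝ) ^ (k + 1) / 2 ^ t = 2 * (2 ^ k / 2 ^ t) := by ring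
    rw [h6] at h4
    rw [h7]
    linarith
  -- the slopes
  obtain ⟨sl, hsl⟩ : ∃ sl : ℕ → ℝ, sl = fun j =>
    if j = 0 then g 0 else if j < D then (g j - g (j - 1)) / 2 ^ (j - 1) else 0 := ⟨_, rfl⟩
  have hsl0 : sl 0 = g 0 := by rw [hsl]; simp
  have hslS : ∀ j, j + 1 < D → sl (j + 1) = (g (j + 1) - g j) / 2 ^ j := by
    intro j hj
    rw [hsl]
    simp only [Nat.add_one_ne_zero, if_false, if_pos hj, Nat.add_sub_cancel]
  have hslD : sl D = 0 := by
    rw [hsl]
    simp only [lt_irrefl, if_false]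
    rw [if_neg (by omega)]
  have hslm : ∀ j, j < D → sl (j + 1) ≤ sl j := by
    intro j hj
    by_cases hj1 : j + 1 < D
    · rw [hslS j hj1]
      rcases Nat.eq_zero_or_pos j with h3 | h3
      · subst h3
        rw [hsl0]
        simp only [pow_zero, div_one, zero_add]
        linarith
      · obtain ⟨i, rfl⟩ : ∃ i, j = i + 1 := ⟨j - 1, by omega⟩
        rw [hslS i (by omega), pow_succ, div_le_div_iff₀ (by positivity) (by positivity)]
        have h4 := hconc i
        have h5 : (0 : ℝ) < 2 ^ i := by positivity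
        nlinarith
    · have h3 : j + 1 = D := by omega
      rw [h3, hslD]
      rcases Nat.eq_zero_or_pos j with h4 | h4
      · subst h4
        rw [hsl0]
        exact (h0 0).trans (hgh 0)
      · obtain ⟨i, rfl⟩ : ∃ i, j = i + 1 := ⟨j - 1, by omega⟩
        rw [hslS i (by omega)]
        apply div_nonneg _ (by positivity)
        have := hgm i
        linarith
  have htel : ∀ k, k < D → ∑ j ∈ Ico (k + 1) D, (sl j - sl (j + 1)) = sl (k + 1) := by
    intro k hk
    rw [Finset.sum_Ico_eq_sum_range]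
    have h3 := Finset.sum_range_sub' (fun i => sl (k + 1 + i)) (D - (k + 1))
    have h4 : k + 1 + (D - (k + 1)) = D := by omega
    rw [h4, hslD, sub_zero] at h3
    exact h3
  set θ : ℕ → ℝ := fun j => 2 ^ j * (sl j - sl (j + 1)) with hθ
  have hval : ∀ k, k < D → ∑ j ∈ range D, θ j * wt k j = g k := by
    intro k
    induction k with
    | zero =>
      intro _
      have h3 : ∀ j ∈ range D, θ j * wt 0 j = sl j - sl (j + 1) := by
        intro j _
        rw [wt_of_ge (Nat.zero_le j), hθ]
        simp only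
        field_simp
      rw [sum_congr rfl h3, Finset.sum_range_sub', hslD, hsl0, sub_zero]
    | succ k ih =>
      intro hk
      have h3 := ih (by omega)
      have h4 : ∑ j ∈ range D, θ j * wt (k + 1) j - ∑ j ∈ range D, θ j * wt k j =
          2 ^ k * ∑ j ∈ Ico (k + 1) D, (sl j - sl (j + 1)) := by
        rw [← sum_sub_distrib, mul_sum]
        rw [range_eq_Ico, ← Finset.sum_Ico_consecutive _ (Nat.zero_le (k + 1)) hk.le]
        have h5 : ∑ j ∈ Ico 0 (k + 1), (θ j * wt (k + 1) j - θ j * wt k j) = 0 := by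
          apply sum_eq_zero
          intro j hj
          rw [mem_Ico] at hj
          rw [wt_of_le (by omega), wt_of_le (by omega)]
          ring
        rw [h5, zero_add]
        apply sum_congr rfl
        intro j hj
        rw [mem_Ico] at hj
        rw [wt_of_ge (by omega), wt_of_ge (by omega), hθ]
        simp only
        rw [pow_succ]
        field_simp
        ring
      rw [htel k (by omega), hslS k hk] at h4
      have h6 : (2 : ℝ) ^ k * ((g (k + 1) - g k) / 2 ^ k) = g (k + 1) - g k := by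
        field_simp
      rw [h6] at h4
      linarith
  refine ⟨θ, ?_, ?_⟩
  · intro j hj
    rw [hθ]
    apply mul_nonneg (by positivity)
    have := hslm j hj
    linarith
  · intro k hk
    rw [hval k hk]
    exact ⟨hgh k, hg2 k hk⟩

/-- the dual inequality -/
lemma dual (D : ℕ) (m : ℕ → ℝ) (hm : ∀ k, 0 ≤ m k) (M : ℝ) (hM : 0 < M)
    (h : ∀ j < D, 4 * M * (D - j) ≤ ∑ k ∈ range D, m k * wt k j)
    (l : ℕ → ℝ) (hl : ∀ j, 0 ≤ l j) (hp : ℕ → ℝ)
    (hh : ∀ k < D, ∀ j < D, l j * wt k j ≤ hp k)
    (hq : ∀ k < D, ∃ j < D, hp k = l j * wt k j) :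
    M * ∑ j ∈ range D, l j ≤ ∑ k ∈ range D, m k * hp k := by
  classical
  rcases Nat.eq_zero_or_pos D with hD | hD
  · subst hD
    simp
  have hne : (range D).Nonempty := ⟨0, mem_range.mpr hD⟩
  obtain ⟨g, hg⟩ : ∃ g : ℕ → ℝ, g = fun k => (range D).sup' hne fun j => l j * wt k j := ⟨_, rfl⟩
  have hgge : ∀ k j, j < D → l j * wt k j ≤ g k := by
    intro k j hj
    rw [hg]
    exact le_sup' (fun j => l j * wt k j) (mem_range.mpr hj)
  have hgex : ∀ k, ∃ j < D, g k = l j * wt k j := by
    intro k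
    obtain ⟨t, ht, h3⟩ := exists_mem_eq_sup' hne fun j => l j * wt k j
    exact ⟨t, mem_range.mp ht, by rw [hg]; exact h3⟩
  have hgp : ∀ k < D, g k = hp k := by
    intro k hk
    apply le_antisymm
    · obtain ⟨j, hj, h3⟩ := hgex k
      rw [h3]
      exact hh k hk j hj
    · obtain ⟨j, hj, h3⟩ := hq k hk
      rw [h3]
      exact hgge k j hj
  obtain ⟨θ, hθ0, hθ⟩ := decompose D hD g
    (fun k => by
      obtain ⟨j, hj, h3⟩ := hgex k
      rw [h3]
      exact mul_nonneg (hl j) (wt_pos k j).le)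
    (fun k => by
      obtain ⟨j, hj, h3⟩ := hgex k
      rw [h3]
      exact (mul_le_mul_of_nonneg_left (wt_mono k j) (hl j)).trans (hgge (k + 1) j hj))
    (fun k => by
      obtain ⟨j, hj, h3⟩ := hgex (k + 1)
      rw [h3]
      have h4 := hgge k j hj
      have h5 := mul_le_mul_of_nonneg_left (wt_double k j) (hl j)
      linarith)
  have h3 : ∑ j ∈ range D, l j ≤ ∑ i ∈ range D, θ i * (2 * (D - i)) := by
    calc ∑ j ∈ range D, l j ≤ ∑ j ∈ range D, ∑ i ∈ range D, θ i * wt j i := by
          apply sum_le_sum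
          intro j hj
          rw [mem_range] at hj
          have h4 := hgge j j hj
          rw [wt_of_le le_rfl, mul_one] at h4
          exact h4.trans (hθ j hj).1
      _ = ∑ i ∈ range D, θ i * ∑ j ∈ range D, wt j i := by
          rw [sum_comm]
          apply sum_congr rfl
          intro i _
          rw [mul_sum]
      _ ≤ _ := by
          apply sum_le_sum
          intro i hi
          rw [mem_range] at hi
          exact mul_le_mul_of_nonneg_left (sum_wt D i hi) (hθ0 i hi)
  calc M * ∑ j ∈ range D, l j ≤ M * ∑ i ∈ range D, θ i * (2 * (D - i)) :=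
        mul_le_mul_of_nonneg_left h3 hM.le
    _ = 1 / 2 * ∑ i ∈ range D, θ i * (4 * M * (D - i)) := by
        rw [mul_sum, mul_sum]
        apply sum_congr rfl
        intro i _
        ring
    _ ≤ 1 / 2 * ∑ i ∈ range D, θ i * ∑ k ∈ range D, m k * wt k i := by
        apply mul_le_mul_of_nonneg_left _ (by norm_num)
        apply sum_le_sum
        intro i hi
        rw [mem_range] at hi
        exact mul_le_mul_of_nonneg_left (h i hi) (hθ0 i hi)
    _ = 1 / 2 * ∑ k ∈ range D, m k * ∑ i ∈ range D, θ i * wt k i := by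
        congr 1
        simp_rw [mul_sum]
        rw [sum_comm]
        apply sum_congr rfl
        intro k _
        apply sum_congr rfl
        intro i _
        ring
    _ ≤ 1 / 2 * ∑ k ∈ range D, m k * (2 * hp k) := by
        apply mul_le_mul_of_nonneg_left _ (by norm_num)
        apply sum_le_sum
        intro k hk
        rw [mem_range] at hk
        have h5 := (hθ k hk).2
        rw [hgp k hk] at h5
        exact mul_le_mul_of_nonneg_left h5 (hm k)
    _ = _ := by
        rw [mul_sum]
        apply sum_congr rfl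
        intro k _
        ring

/-- **The fractional distribution.** -/
theorem fractional (D : ℕ) (m : ℕ → ℝ) (hm : ∀ k, 0 ≤ m k) (M : ℝ) (hM : 0 < M)
    (h : ∀ j < D, 4 * M * (D - j) ≤ ∑ k ∈ range D, m k * wt k j) :
    ∃ y : Fin D → Fin D → ℝ, (∀ k j, 0 ≤ y k j) ∧ (∀ k, ∑ j, y k j ≤ m k) ∧
      ∀ j : Fin D, M ≤ ∑ k, y k j * wt k j := by
  classical
  by_contra hcon
  push Not at hcon
  set Y : Set (Fin D → Fin D → ℝ) :=
    Set.Icc 0 (fun k _ => m k) ∩ {y | ∀ k, ∑ j, y k j ≤ m k} with hY
  have hYmem : ∀ y : Fin D → Fin D → ℝ, y ∈ Y ↔ (∀ k j, 0 ≤ y k j) ∧ ∀ k, ∑ j, y k j ≤ m k := by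
    intro y
    constructor
    · rintro ⟨⟨h1, h2⟩, h3⟩
      exact ⟨fun k j => h1 k j, h3⟩
    · rintro ⟨h1, h2⟩
      refine ⟨⟨fun k j => h1 k j, fun k j => ?_⟩, h2⟩
      exact (single_le_sum (fun j _ => h1 k j) (mem_univ j)).trans (h2 k)
  have hYcl : IsClosed {y : Fin D → Fin D → ℝ | ∀ k, ∑ j, y k j ≤ m k} := by
    have : {y : Fin D → Fin D → ℝ | ∀ k, ∑ j, y k j ≤ m k} =
        ⋂ k : Fin D, {y | ∑ j, y k j ≤ m k} := by
      ext y
      simp
    rw [this]
    apply isClosed_iInter
    intro k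
    apply isClosed_le _ continuous_const
    fun_prop
  have hYc : IsCompact Y := isCompact_Icc.inter_right hYcl
  have hYconv : Convex ℝ Y := by
    intro x hx y hy a b ha hb hab
    rw [hYmem] at hx hy ⊢
    constructor
    · intro k j
      simp only [Pi.add_apply, Pi.smul_apply, smul_eq_mul]
      have := mul_nonneg ha (hx.1 k j)
      have := mul_nonneg hb (hy.1 k j)
      linarith
    · intro k
      simp only [Pi.add_apply, Pi.smul_apply, smul_eq_mul]
      rw [sum_add_distrib, ← mul_sum, ← mul_sum]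
      have h3 := mul_le_mul_of_nonneg_left (hx.2 k) ha
      have h4 := mul_le_mul_of_nonneg_left (hy.2 k) hb
      calc _ ≤ a * m k + b * m k := by linarith
        _ = m k := by rw [← add_mul, hab, one_mul]
  set A : (Fin D → Fin D → ℝ) →ₗ[ℝ] (Fin D → ℝ) :=
    { toFun := fun y j => ∑ k, y k j * wt k j
      map_add' := by
        intro x y
        funext j
        simp only [Pi.add_apply]
        rw [← sum_add_distrib]
        apply sum_congr rfl
        intro k _
        ring
      map_smul' := by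
        intro c x
        funext j
        simp only [Pi.smul_apply, smul_eq_mul, RingHom.id_apply]
        rw [mul_sum]
        apply sum_congr rfl
        intro k _
        ring } with hA
  have hAc : Continuous A := LinearMap.continuous_of_finiteDimensional A
  set t : Set (Fin D → ℝ) := {z | ∀ j, M ≤ z j} with ht
  have htc : IsClosed t := by
    have : t = ⋂ j, {z : Fin D → ℝ | M ≤ z j} := by
      ext z
      simp [ht]
    rw [this]
    apply isClosed_iInter
    intro j
    exact isClosed_le continuous_const (continuous_apply j)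
  have htconv : Convex ℝ t := by
    intro x hx y hy a b ha hb hab j
    simp only [Pi.add_apply, Pi.smul_apply, smul_eq_mul]
    have h3 := mul_le_mul_of_nonneg_left (hx j) ha
    have h4 := mul_le_mul_of_nonneg_left (hy j) hb
    calc M = a * M + b * M := by rw [← add_mul, hab, one_mul]
      _ ≤ _ := by linarith
  have hdisj : Disjoint (A '' Y) t := by
    rw [Set.disjoint_left]
    rintro z ⟨y, hy, rfl⟩ hz
    rw [hYmem] at hy
    obtain ⟨j, hj⟩ := hcon y hy.1 hy.2
    exact absurd (hz j) (not_le.mpr hj)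
  obtain ⟨f, u, v, hf1, huv, hf2⟩ := geometric_hahn_banach_compact_closed
    (hYconv.linear_image A) (hYc.image hAc) htconv htc hdisj
  set l : Fin D → ℝ := fun j => f (Pi.single j 1) with hl
  have hfz : ∀ z : Fin D → ℝ, f z = ∑ j, z j * l j := by
    intro z
    have h3 := LinearMap.pi_apply_eq_sum_univ (f : (Fin D → ℝ) →ₗ[ℝ] ℝ) z
    have h4 : f z = (f : (Fin D → ℝ) →ₗ[ℝ] ℝ) z := rfl
    rw [h4, h3]
    apply sum_congr rfl
    intro j _
    rw [smul_eq_mul, hl]
    simp only [ContinuousLinearMap.coe_coe]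
    congr 2
    funext i
    simp [Pi.single_apply, eq_comm]
  have hl0 : ∀ j, 0 ≤ l j := by
    intro j
    by_contra hneg
    push Not at hneg
    -- go far in the direction `j`
    have h3 := hf2 (fun _ => M) (fun _ => le_rfl)
    set c : ℝ := (f (fun _ => M) - v) / (- l j) with hc
    have hc0 : 0 ≤ c := div_nonneg (by linarith) (by linarith)
    have h4 := hf2 ((fun _ => M) + c • Pi.single j 1) (fun i => by
      simp only [Pi.add_apply, Pi.smul_apply, smul_eq_mul]
      have : (0 : ℝ) ≤ (Pi.single j (1 : ℝ) : Fin D → ℝ) i := by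
        rw [Pi.single_apply]
        split_ifs <;> norm_num
      nlinarith)
    rw [map_add, map_smul, smul_eq_mul] at h4
    have h5 : c * f (Pi.single j 1) = v - f (fun _ => M) := by
      have h6 : f (Pi.single j 1) = l j := rfl
      have h7 : - l j ≠ 0 := by linarith
      have h8 : c * - l j = f (fun _ => M) - v := by rw [hc]; exact div_mul_cancel₀ _ h7
      rw [h6]
      linarith
    rw [h5] at h4
    linarith
  -- the best choice
  rcases Nat.eq_zero_or_pos D with hD | hD
  · subst hD
    have h3 := hf1 (A 0) ⟨0, by rw [hYmem]; exact ⟨fun k => k.elim0, fun k => k.elim0⟩, rfl⟩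
    have h4 := hf2 (A 0) (fun j => j.elim0)
    linarith
  have : Nonempty (Fin D) := ⟨⟨0, hD⟩⟩
  have hbest : ∀ k : Fin D, ∃ j : Fin D, ∀ i : Fin D, l i * wt k i ≤ l j * wt k j :=
    fun k => Finite.exists_max fun i : Fin D => l i * wt k i
  choose b hb using hbest
  set y : Fin D → Fin D → ℝ := fun k j => if j = b k then m k else 0 with hy
  have hyY : y ∈ Y := by
    rw [hYmem]
    constructor
    · intro k j
      rw [hy]
      simp only
      split_ifs
      · exact hm k
      · exact le_rfl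
    · intro k
      rw [hy]
      simp
  have h3 := hf1 (A y) ⟨y, hyY, rfl⟩
  have h4 := hf2 (fun _ => M) (fun _ => le_rfl)
  rw [hfz] at h3 h4
  have h5 : ∑ j, A y j * l j = ∑ k : Fin D, m k * (l (b k) * wt k (b k)) := by
    have h6 : ∀ j, A y j * l j = ∑ k : Fin D, (if j = b k then m k * (l j * wt k j) else 0) := by
      intro j
      change (∑ k, y k j * wt k j) * l j = _
      rw [sum_mul]
      apply sum_congr rfl
      intro k _
      rw [hy]
      simp only
      split_ifs <;> ring
    rw [sum_congr rfl fun j _ => h6 j, sum_comm]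
    apply sum_congr rfl
    intro k _
    rw [sum_ite_eq' univ (b k) fun j => m k * (l j * wt k j)]
    simp
  rw [h5] at h3
  -- back to natural numbers
  obtain ⟨l', hl'⟩ : ∃ l' : ℕ → ℝ, l' = fun j => if hj : j < D then l ⟨j, hj⟩ else 0 := ⟨_, rfl⟩
  have hl'e : ∀ j : Fin D, l' j = l j := by
    intro j
    rw [hl']
    simp
  obtain ⟨hp, hhp⟩ : ∃ hp : ℕ → ℝ, hp = fun k => if hk : k < D then
    l (b ⟨k, hk⟩) * wt k (b ⟨k, hk⟩) else 0 := ⟨_, rfl⟩
  have hhpe : ∀ k : Fin D, hp k = l (b k) * wt k (b k) := by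
    intro k
    rw [hhp]
    simp
  have h7 := dual D m hm M hM h l' (fun j => by
      rw [hl']
      simp only
      split_ifs
      · exact hl0 _
      · exact le_rfl) hp
    (fun k hk j hj => by
      have e1 := hl'e ⟨j, hj⟩
      have e2 := hhpe ⟨k, hk⟩
      simp only at e1 e2
      rw [e1, e2]
      exact hb ⟨k, hk⟩ ⟨j, hj⟩)
    (fun k hk => ⟨b ⟨k, hk⟩, (b ⟨k, hk⟩).2, by
      have e1 := hl'e (b ⟨k, hk⟩)
      have e2 := hhpe ⟨k, hk⟩
      simp only at e1 e2
      rw [e1, e2]⟩)
  rw [← Fin.sum_univ_eq_sum_range (fun j => l' j), ← Fin.sum_univ_eq_sum_range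
    (fun k => m k * hp k)] at h7
  simp_rw [hl'e, hhpe] at h7
  rw [mul_sum] at h7
  linarith

end Pool.Agent.W944.Pk
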