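import Pool.Agent.W944.PkLp

/-! # Integral distribution of the products over the scales -/

set_option autoImplicit false
set_option linter.unusedSectionVars false
set_option linter.unusedVariables false

namespace Pool.Agent.W944.Pk

open Finset

lemma extract {α : Type*} (g : α → ℕ) (j : ℕ) (n : ℕ) : ∀ t : Multiset α, t.card = n →
    (∀ a ∈ t, g a ≤ j) → 2 ^ j ≤ (t.map fun a => 2 ^ g a).sum →
    ∃ s ≤ t, (s.map fun a => 2 ^ g a).sum = 2 ^ j := by
  classical
  induction n with
  | zero =>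
    intro t ht hg hs
    rw [Multiset.card_eq_zero] at ht
    subst ht
    simp only [Multiset.map_zero, Multiset.sum_zero] at hs
    have : 0 < 2 ^ j := by positivity
    omega
  | succ n ih =>
    intro t ht hg hs
    rcases hs.eq_or_lt with h1 | h1
    · exact ⟨t, le_rfl, h1.symm⟩
    · -- remove a smallest element
      have hne : t ≠ 0 := by
        rintro rfl
        simp at ht
      obtain ⟨a, ha, hmin⟩ : ∃ a ∈ t, ∀ b ∈ t, g a ≤ g b := by
        obtain ⟨a, ha, h2⟩ := t.toFinset.exists_min_image g (by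
          rwa [Multiset.toFinset_nonempty])
        exact ⟨a, Multiset.mem_toFinset.mp ha, fun b hb => h2 b (Multiset.mem_toFinset.mpr hb)⟩
      have hd1 : 2 ^ g a ∣ (t.map fun a => 2 ^ g a).sum := by
        apply Multiset.dvd_sum
        intro x hx
        obtain ⟨b, hb, rfl⟩ := Multiset.mem_map.mp hx
        exact pow_dvd_pow 2 (hmin b hb)
      have hd2 : 2 ^ g a ∣ 2 ^ j := pow_dvd_pow 2 (hg a ha)
      have h3 : 2 ^ j + 2 ^ g a ≤ (t.map fun a => 2 ^ g a).sum := by
        obtain ⟨u, hu⟩ := hd1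
        obtain ⟨v, hv⟩ := hd2
        rw [hu] at h1 ⊢
        rw [hv] at h1 ⊢
        have h4 : v < u := lt_of_mul_lt_mul_left h1 (Nat.zero_le _)
        calc 2 ^ g a * v + 2 ^ g a = 2 ^ g a * (v + 1) := by ring
          _ ≤ 2 ^ g a * u := Nat.mul_le_mul_left _ h4
      have h5 : 2 ^ g a + ((t.erase a).map fun a => 2 ^ g a).sum =
          (t.map fun a => 2 ^ g a).sum := by
        conv_rhs => rw [← Multiset.cons_erase ha]
        rw [Multiset.map_cons, Multiset.sum_cons]
      obtain ⟨s, hs1, hs2⟩ := ih (t.erase a)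
        (by rw [Multiset.card_erase_of_mem ha, ht]; rfl)
        (fun b hb => hg b (Multiset.mem_of_mem_erase hb)) (by omega)
      exact ⟨s, hs1.trans (Multiset.erase_le a t), hs2⟩

lemma bins {α : Type*} [DecidableEq α] (g : α → ℕ) (j N : ℕ) : ∀ t : Multiset α,
    (∀ a ∈ t, g a ≤ j) → N * 2 ^ j ≤ (t.map fun a => 2 ^ g a).sum →
    ∃ S : Fin N → Multiset α, ∑ v, S v ≤ t ∧ ∀ v, ((S v).map fun a => 2 ^ g a).sum = 2 ^ j := by
  induction N with
  | zero =>
    intro t _ _
    exact ⟨Fin.elim0, by simp, fun v => v.elim0⟩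
  | succ N ih =>
    intro t hg hs
    have h0 : 2 ^ j ≤ (t.map fun a => 2 ^ g a).sum := by
      refine le_trans ?_ hs
      exact Nat.le_mul_of_pos_left _ (Nat.succ_pos N)
    obtain ⟨s, hs1, hs2⟩ := extract g j t.card t rfl hg h0
    have h1 : (s.map fun a => 2 ^ g a).sum + ((t - s).map fun a => 2 ^ g a).sum =
        (t.map fun a => 2 ^ g a).sum := by
      rw [← Multiset.sum_add, ← Multiset.map_add, add_comm s, Multiset.sub_add_cancel hs1]
    obtain ⟨S, hS1, hS2⟩ := ih (t - s) (fun a ha => hg a (Multiset.mem_of_le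
      (Multiset.sub_le_self t s) ha)) (by
        rw [Nat.succ_mul] at hs
        omega)
    refine ⟨Fin.cons s S, ?_, ?_⟩
    · rw [Fin.sum_univ_succ]
      simp only [Fin.cons_zero, Fin.cons_succ]
      calc s + ∑ v, S v ≤ s + (t - s) := by gcongr
        _ = t := by rw [add_comm, Multiset.sub_add_cancel hs1]
    · intro v
      refine Fin.cases ?_ (fun v => ?_) v
      · rw [Fin.cons_zero]; exact hs2
      · rw [Fin.cons_succ]; exact hS2 v

lemma two_pow_min (k j : ℕ) : ((2 ^ min k j : ℕ) : ℝ) = 2 ^ j * wt k j := by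
  rcases le_total k j with h | h
  · rw [min_eq_left h, wt_of_ge h]
    push_cast
    field_simp
  · rw [min_eq_right h, wt_of_le h]
    push_cast
    ring

/-- **The integral distribution.** -/
theorem integral (D N : ℕ) (m : ℕ → ℕ)
    (h : ∀ j < D, 4 * ((N : ℝ) + D) * (D - j) ≤ ∑ k ∈ range D, m k * wt k j) :
    ∃ L : Fin N → ℕ → Multiset ℕ,
      (∀ v, ∀ j < D, ((L v j).map fun k => 2 ^ min k j).sum = 2 ^ j) ∧
      ∀ k, ∑ v, ∑ j ∈ range D, (L v j).count k ≤ m k := by
  classical
  rcases Nat.eq_zero_or_pos D with hD | hD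
  · subst hD
    exact ⟨fun _ _ => 0, fun v j hj => absurd hj (Nat.not_lt_zero j), fun k => by simp⟩
  have hDr : (0 : ℝ) < D := by exact_mod_cast hD
  obtain ⟨y, hy0, hy1, hy2⟩ := fractional D (fun k => (m k : ℝ)) (fun k => by positivity)
    ((N : ℝ) + D) (by positivity) h
  obtain ⟨t, ht⟩ : ∃ t : Fin D → Multiset ℕ, t = fun j =>
    ∑ k : Fin D, Multiset.replicate ⌊y k j⌋₊ (k : ℕ) := ⟨_, rfl⟩
  have htsum : ∀ j : Fin D, ((t j).map fun k => 2 ^ min k (j : ℕ)).sum =
      ∑ k : Fin D, ⌊y k j⌋₊ * 2 ^ min (k : ℕ) (j : ℕ) := by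
    intro j
    rw [ht]
    simp only
    have h1 : ∀ s : Finset (Fin D),
        (((∑ k ∈ s, Multiset.replicate ⌊y k j⌋₊ (k : ℕ)).map fun k => 2 ^ min k (j : ℕ)).sum :
          ℕ) = ∑ k ∈ s, ⌊y k j⌋₊ * 2 ^ min (k : ℕ) (j : ℕ) := by
      intro s
      induction s using Finset.induction_on with
      | empty => simp
      | insert a s ha ih =>
        rw [sum_insert ha, sum_insert ha, Multiset.map_add, Multiset.sum_add, ih,
          Multiset.map_replicate, Multiset.sum_replicate, smul_eq_mul]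
    exact h1 univ
  have htcount : ∀ (j : Fin D) (k : ℕ), (t j).count k =
      ∑ i : Fin D, if (i : ℕ) = k then ⌊y i j⌋₊ else 0 := by
    intro j k
    rw [ht]
    simp only
    rw [Multiset.count_sum']
    apply sum_congr rfl
    intro i _
    rw [Multiset.count_replicate]
  have hlevel : ∀ j : Fin D, N * 2 ^ (j : ℕ) ≤ ((t j).map fun k => 2 ^ min k (j : ℕ)).sum := by
    intro j
    rw [htsum j]
    have h1 : (N : ℝ) * 2 ^ (j : ℕ) ≤ ∑ k : Fin D, (⌊y k j⌋₊ : ℝ) * (2 ^ (j : ℕ) * wt k j) := by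
      have h2 : ∀ k : Fin D, (y k j - 1) * wt k j ≤ (⌊y k j⌋₊ : ℝ) * wt k j := by
        intro k
        apply mul_le_mul_of_nonneg_right _ (wt_pos _ _).le
        have := Nat.lt_floor_add_one (y k j)
        linarith
      have h3 : (N : ℝ) ≤ ∑ k : Fin D, (⌊y k j⌋₊ : ℝ) * wt k j := by
        have h4 := Finset.sum_le_sum (s := univ) fun (k : Fin D) _ => h2 k
        have h5 : ∑ k : Fin D, (y k j - 1) * wt k j =
            ∑ k : Fin D, y k j * wt k j - ∑ k : Fin D, wt k j := by
          rw [← sum_sub_distrib]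
          apply sum_congr rfl
          intro k _
          ring
        have h6 : ∑ k : Fin D, wt k j ≤ D := by
          calc ∑ k : Fin D, wt k j ≤ ∑ k : Fin D, (1 : ℝ) :=
                sum_le_sum fun k _ => wt_le_one _ _
            _ = D := by simp
        have h7 := hy2 j
        linarith
      calc (N : ℝ) * 2 ^ (j : ℕ) ≤ (∑ k : Fin D, (⌊y k j⌋₊ : ℝ) * wt k j) * 2 ^ (j : ℕ) := by
            gcongr
        _ = _ := by
            rw [sum_mul]
            apply sum_congr rfl
            intro k _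
            ring
    have h8 : ((∑ k : Fin D, ⌊y k j⌋₊ * 2 ^ min (k : ℕ) (j : ℕ) : ℕ) : ℝ) =
        ∑ k : Fin D, (⌊y k j⌋₊ : ℝ) * (2 ^ (j : ℕ) * wt k j) := by
      rw [Nat.cast_sum]
      apply sum_congr rfl
      intro k _
      rw [Nat.cast_mul, two_pow_min]
    rw [← h8] at h1
    exact_mod_cast h1
  have hb : ∀ j : Fin D, ∃ S : Fin N → Multiset ℕ, ∑ v, S v ≤ t j ∧
      ∀ v, ((S v).map fun k => 2 ^ min k (j : ℕ)).sum = 2 ^ (j : ℕ) := fun j =>
    bins (fun k => min k (j : ℕ)) j N (t j) (fun a _ => min_le_right _ _) (hlevel j)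
  choose S hS1 hS2 using hb
  refine ⟨fun v j => if hj : j < D then S ⟨j, hj⟩ v else 0, ?_, ?_⟩
  · intro v j hj
    simp only [dif_pos hj]
    exact hS2 ⟨j, hj⟩ v
  · intro k
    have h1 : ∑ v : Fin N, ∑ j ∈ range D,
        (if hj : j < D then S ⟨j, hj⟩ v else 0 : Multiset ℕ).count k =
        ∑ j : Fin D, (∑ v, S j v).count k := by
      rw [sum_comm]
      rw [← Fin.sum_univ_eq_sum_range (fun j => ∑ v : Fin N,
        (if hj : j < D then S ⟨j, hj⟩ v else 0 : Multiset ℕ).count k)]
      apply sum_congr rfl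
      intro j _
      rw [Multiset.count_sum']
      apply sum_congr rfl
      intro v _
      simp
    rw [h1]
    have h2 : ∑ j : Fin D, (∑ v, S j v).count k ≤ ∑ j : Fin D, (t j).count k :=
      sum_le_sum fun j _ => Multiset.count_le_of_le k (hS1 j)
    refine h2.trans ?_
    simp_rw [htcount]
    rw [sum_comm]
    have h3 : ∑ i : Fin D, ∑ j : Fin D, (if (i : ℕ) = k then ⌊y i j⌋₊ else 0) =
        ∑ i : Fin D, if (i : ℕ) = k then ∑ j : Fin D, ⌊y i j⌋₊ else 0 := by
      apply sum_congr rfl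
      intro i _
      split_ifs with h4
      · rfl
      · simp
    rw [h3]
    by_cases hk : k < D
    · rw [sum_eq_single (⟨k, hk⟩ : Fin D)]
      · simp only [if_true]
        have h4 : ((∑ j : Fin D, ⌊y ⟨k, hk⟩ j⌋₊ : ℕ) : ℝ) ≤ m k := by
          rw [Nat.cast_sum]
          calc ∑ j : Fin D, ((⌊y ⟨k, hk⟩ j⌋₊ : ℕ) : ℝ) ≤ ∑ j : Fin D, y ⟨k, hk⟩ j :=
                sum_le_sum fun j _ => Nat.floor_le (hy0 _ _)
            _ ≤ _ := hy1 ⟨k, hk⟩
        exact_mod_cast h4
      · intro i _ hi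
        rw [if_neg]
        intro h5
        exact hi (Fin.ext h5)
      · intro h5
        exact absurd (mem_univ _) h5
    · rw [sum_eq_zero]
      · exact Nat.zero_le _
      · intro i _
        rw [if_neg]
        intro h5
        exact hk (h5 ▸ i.2)

end Pool.Agent.W944.Pk
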