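import Pool.Agent.W944.Lower
import Pool.Agent.H632R2.Border3

/-! # Specialization along a place, modulo an irreducible factor -/

set_option autoImplicit false
set_option linter.unusedSectionVars false

open Module MvPolynomial

namespace Pool.Agent.W944

open Pool.Agent.H632R2.Border (spec exists_max)

variable {Ω L : Type*} [Field Ω] [Field L] {ι : Type*}
  {O : ValuationSubring L} {φ : O →+* Ω} {j : Ω →+* O}

/-- a nonzero polynomial is a scalar times an integral polynomial with nonzero specialization -/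
lemma exists_primitive (φ : O →+* Ω) (p : MvPolynomial ι L) (hp : p ≠ 0) :
    ∃ (c : L) (Q : MvPolynomial ι O), c ≠ 0 ∧ p = C c * map O.subtype Q ∧ map φ Q ≠ 0 := by
  classical
  obtain ⟨m, hm⟩ : ∃ m ∈ p.support, coeff m p ≠ 0 := by
    obtain ⟨m, hm⟩ := MvPolynomial.ne_zero_iff.mp hp
    exact ⟨m, MvPolynomial.mem_support_iff.mpr hm, hm⟩
  obtain ⟨b, hb, hb0, hmax⟩ := exists_max (O := O) p.support (fun m => coeff m p) ⟨m, hm⟩
  set d : (ι →₀ ℕ) → O := fun m =>
    if h : m ∈ p.support then ⟨coeff m p / coeff b p, hmax m h⟩ else 0 with hd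
  have hd1 : ∀ m ∈ p.support, ((d m : O) : L) = coeff m p / coeff b p := by
    intro m hm
    rw [hd]; simp only [hm, dif_pos]
  set Q : MvPolynomial ι O := ∑ m ∈ p.support, monomial m (d m) with hQ
  have hcQ : ∀ m ∈ p.support, coeff m Q = d m := by
    intro m hm
    rw [hQ, coeff_sum, Finset.sum_eq_single m]
    · rw [coeff_monomial, if_pos rfl]
    · intro m' _ hm'
      rw [coeff_monomial, if_neg hm']
    · intro h; exact absurd hm h
  refine ⟨coeff b p, Q, hb0, ?_, ?_⟩
  · rw [hQ, map_sum, Finset.mul_sum]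
    conv_lhs => rw [p.as_sum]
    apply Finset.sum_congr rfl
    intro m hm
    rw [map_monomial, C_mul_monomial]
    congr 1
    change coeff m p = coeff b p * ((d m : O) : L)
    rw [hd1 m hm]
    field_simp
  · intro h
    have h1 := congrArg (coeff b) h
    rw [coeff_map, hcQ b hb, coeff_zero] at h1
    have h2 : d b = 1 := by
      apply Subtype.val_injective
      rw [hd1 b hb, div_self hb0]
      rfl
    rw [h2, map_one] at h1
    exact one_ne_zero h1

/-- if `D = c * E` with `D`, `E` integral and `E` of nonzero specialization then `c` is integral -/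
lemma scalar_mem (hφ : ∀ c : O, φ c ≠ 0 → ((c : L)⁻¹) ∈ O) (D E : MvPolynomial ι O) (c : L)
    (h : map O.subtype D = C c * map O.subtype E) (hE : map φ E ≠ 0) : c ∈ O := by
  obtain ⟨m, hm⟩ := MvPolynomial.ne_zero_iff.mp hE
  rw [coeff_map] at hm
  have h1 := congrArg (coeff m) h
  rw [coeff_map, coeff_C_mul, coeff_map] at h1
  have h2 : ((coeff m E : O) : L) ≠ 0 := by
    intro h3
    apply hm
    have : coeff m E = 0 := Subtype.val_injective h3
    rw [this, map_zero]
  have h3 : c = ((coeff m D : O) : L) * ((coeff m E : O) : L)⁻¹ := by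
    change ((coeff m D : O) : L) = c * ((coeff m E : O) : L) at h1
    rw [h1, mul_assoc, mul_inv_cancel₀ h2, mul_one]
  rw [h3]
  exact O.mul_mem _ _ (coeff m D).2 (hφ _ hm)

/-- cofactors of integral polynomials are integral -/
lemma cofactor_mem (hφ : ∀ c : O, φ c ≠ 0 → ((c : L)⁻¹) ∈ O) (D Q : MvPolynomial ι O)
    (h : MvPolynomial ι L) (hh : map O.subtype D = map O.subtype Q * h) (hQ : map φ Q ≠ 0) :
    ∃ H : MvPolynomial ι O, map O.subtype H = h := by
  by_cases h0 : h = 0
  · exact ⟨0, by rw [h0, map_zero]⟩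
  obtain ⟨c, H, _, hH, hH2⟩ := exists_primitive φ h h0
  have h1 : map O.subtype D = C c * map O.subtype (Q * H) := by
    rw [hh, hH, map_mul]; ring
  have h2 := scalar_mem hφ D (Q * H) c h1 (by rw [map_mul]; exact mul_ne_zero hQ hH2)
  refine ⟨C ⟨c, h2⟩ * H, ?_⟩
  rw [map_mul, map_C, hH]
  rfl

/-- an irreducible factor whose specialization vanishes in the domain `R₀` -/
lemma exists_factor {R₀ : Type*} [CommRing R₀] [IsDomain R₀] (π : MvPolynomial ι Ω →+* R₀)
    (hφ : ∀ c : O, φ c ≠ 0 → ((c : L)⁻¹) ∈ O) (p : MvPolynomial ι L) (hp : p ≠ 0) :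
    ∀ (Q : MvPolynomial ι O) (c : L), c ≠ 0 → p = C c * map O.subtype Q → map φ Q ≠ 0 →
      π (map φ Q) = 0 → ∃ P, Irreducible P ∧ P ∣ p ∧ ∃ (Q' : MvPolynomial ι O) (c' : L),
        c' ≠ 0 ∧ P = C c' * map O.subtype Q' ∧ map φ Q' ≠ 0 ∧ π (map φ Q') = 0 := by
  classical
  induction p using WfDvdMonoid.induction_on_irreducible with
  | zero => exact absurd rfl hp
  | unit u hu =>
    intro Q c hc hQ hQ1 hQ2
    exfalso
    rw [MvPolynomial.isUnit_iff_eq_C_of_isReduced] at hu
    obtain ⟨r, hr, rfl⟩ := hu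
    have h1 : map O.subtype Q = C (c⁻¹ * r) := by
      rw [map_mul, hQ, ← mul_assoc, ← map_mul, inv_mul_cancel₀ hc, map_one, one_mul]
    have h2 : Q = C (coeff 0 Q) := by
      apply map_injective O.subtype Subtype.val_injective
      rw [map_C, h1]
      congr 1
      have h3 := congrArg (coeff 0) h1
      rw [coeff_map, coeff_zero_C] at h3
      exact h3.symm
    rw [h2, map_C] at hQ1 hQ2
    have h4 : φ (coeff 0 Q) ≠ 0 := by
      intro h; rw [h, map_zero] at hQ1; exact hQ1 rfl
    have h5 : IsUnit (π (C (φ (coeff 0 Q)))) :=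
      ((isUnit_iff_ne_zero.mpr h4).map C).map π
    exact h5.ne_zero hQ2
  | mul a i ha hi ih =>
    intro Q c hc hQ hQ1 hQ2
    obtain ⟨c1, Q1, hc1, hi1, hi2⟩ := exists_primitive φ i hi.ne_zero
    obtain ⟨c2, Q2, hc2, ha1, ha2⟩ := exists_primitive φ a ha
    have h1 : map O.subtype Q = C (c⁻¹ * (c1 * c2)) * map O.subtype (Q1 * Q2) := by
      have h2 : C c * map O.subtype Q = C c * (C (c⁻¹ * (c1 * c2)) * map O.subtype (Q1 * Q2)) := by
        rw [← hQ, hi1, ha1, map_mul, map_mul, map_mul]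
        have : (C c : MvPolynomial ι L) * C c⁻¹ = 1 := by
          rw [← map_mul, mul_inv_cancel₀ hc, map_one]
        calc C c1 * map O.subtype Q1 * (C c2 * map O.subtype Q2) =
            1 * (C c1 * C c2 * (map O.subtype Q1 * map O.subtype Q2)) := by ring
          _ = (C c * C c⁻¹) * (C c1 * C c2 * (map O.subtype Q1 * map O.subtype Q2)) := by rw [this]
          _ = _ := by ring
      exact mul_left_cancel₀ (by rw [Ne, C_eq_zero]; exact hc) h2
    have hQ12 : map φ (Q1 * Q2) ≠ 0 := by rw [map_mul]; exact mul_ne_zero hi2 ha2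
    have h2 := scalar_mem hφ Q (Q1 * Q2) _ h1 hQ12
    have h3 : Q = C ⟨_, h2⟩ * (Q1 * Q2) := by
      apply map_injective O.subtype Subtype.val_injective
      rw [h1, (map O.subtype).map_mul (C ⟨_, h2⟩) (Q1 * Q2), MvPolynomial.map_C]
      rfl
    rw [h3, map_mul, map_C] at hQ1 hQ2
    have h4 : φ ⟨_, h2⟩ ≠ 0 := by
      intro h; rw [h, map_zero, zero_mul] at hQ1; exact hQ1 rfl
    have h5 : π (C (φ ⟨_, h2⟩)) ≠ 0 :=
      (((isUnit_iff_ne_zero.mpr h4).map C).map π).ne_zero
    rw [map_mul, map_mul, map_mul] at hQ2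
    rcases mul_eq_zero.mp hQ2 with h6 | h6
    · exact absurd h6 h5
    · rcases mul_eq_zero.mp h6 with h7 | h7
      · exact ⟨i, hi, dvd_mul_right _ _, Q1, c1, hc1, hi1, hi2, h7⟩
      · obtain ⟨P, hP, hPa, hP2⟩ := ih ha Q2 c2 hc2 ha1 ha2 h7
        exact ⟨P, hP, hPa.mul_left _, hP2⟩

end Pool.Agent.W944
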