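import Pool.Agent.W944.SysEv
import Pool.Agent.W944.FamilyD

/-! # Computations: the partial derivatives, and the dimension inequality -/

set_option autoImplicit false

open Module MvPolynomial

namespace Pool.Agent.W944.Cx

/-- summation by parts for a triangular system and the transposed system -/
lemma adj_sum {A : Type*} [CommRing A] {n : ℕ} (g D src w : Fin n → A) (c : Fin n → Fin n → A)
    (hD : ∀ t, D t = src t + ∑ j ∈ Finset.Iio t, c t j * D j)
    (hw : ∀ t, w t = g t + ∑ j ∈ Finset.Ioi t, c j t * w j) :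
    ∑ t, g t * D t = ∑ t, w t * src t := by
  have h1 : ∀ t, g t * D t = w t * D t - ∑ j ∈ Finset.Ioi t, c j t * w j * D t := by
    intro t
    rw [← Finset.sum_mul]
    have := hw t
    linear_combination (-D t) * this
  have h2 : ∀ t, w t * src t = w t * D t - ∑ j ∈ Finset.Iio t, c t j * w t * D j := by
    intro t
    have e : ∑ j ∈ Finset.Iio t, c t j * w t * D j = w t * ∑ j ∈ Finset.Iio t, c t j * D j := by
      rw [Finset.mul_sum]
      apply Finset.sum_congr rfl
      intro j _
      ring
    rw [e]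
    have := hD t
    linear_combination (-w t) * this
  rw [Finset.sum_congr rfl (fun t _ => h1 t), Finset.sum_congr rfl (fun t _ => h2 t),
    Finset.sum_sub_distrib, Finset.sum_sub_distrib]
  congr 1
  apply Finset.sum_comm'
  intro x y
  simp

variable {L : Type*} [Field L] {σ ι : Type*} [Fintype ι] {n : ℕ}

/-- the data of a computation after a substitution -/
theorem prog_dim (S : σ → MvPolynomial ι L) (hS : ∀ v, (S v).totalDegree ≤ 1) (δ : ℕ)
    (a b : Fin n → MvPolynomial σ L) (R : Finset (Fin n))
    (la lb : Fin n → MvPolynomial σ L) (ca cb : Fin n → Fin n → L) (gm : Fin n → L)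
    (hla : ∀ t, (la t).totalDegree ≤ 1) (hlb : ∀ t, (lb t).totalDegree ≤ 1)
    (ha : ∀ t, a t = la t + ∑ j ∈ Finset.Iio t, ca t j • (a j * b j))
    (hb : ∀ t, b t = lb t + ∑ j ∈ Finset.Iio t, cb t j • (a j * b j))
    (hR : ∀ t ∉ R, (a t).totalDegree ≤ δ) (lf : MvPolynomial σ L) (hlf : lf.totalDegree ≤ 1)
    (f : MvPolynomial σ L) (hf : f = lf + ∑ j, gm j • (a j * b j)) :
    ∃ V : Submodule L (MvPolynomial ι L), V.FG ∧ xsp L ι (MvPolynomial ι L) ^ (δ + 1) ≤ V ∧
      (∀ v, aeval S (pderiv v f) ∈ V) ∧
      ∀ T t₀ t₁ t₂ t₃ : ℕ, (t₀ + (n - R.card)).choose (n - R.card) *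
        (t₁ + R.card).choose R.card * (t₂ + n).choose n *
        (t₃ + 2 * R.card).choose (2 * R.card) * finrank L ↥(V ^ T) ≤
      (Fintype.card ι + 1).multichoose ((δ + 1) * (T + (t₀ + 2 * t₁ + t₂ + t₃))) *
        (n + 1).multichoose (T + (t₀ + 2 * t₁ + t₃)) *
        (n + 2 * R.card + 1).multichoose (T + (t₂ + t₃)) := by
  classical
  set φ : MvPolynomial σ L →ₐ[L] MvPolynomial ι L := aeval S with hφ
  set X₀ : Submodule L (MvPolynomial ι L) := xsp L ι (MvPolynomial ι L) ^ (δ + 1) with hX₀
  have hX : X₀.FG := xsp_fg.pow _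
  have hmemX : ∀ p : MvPolynomial ι L, p.totalDegree ≤ δ + 1 → p ∈ X₀ := fun p hp =>
    algebraMap_mem_xsp_pow (R := MvPolynomial ι L) (δ + 1) p hp
  have h1 : (1 : MvPolynomial ι L) ∈ X₀ := hmemX 1 (by rw [totalDegree_one]; exact Nat.zero_le _)
  have hdeg : ∀ (d : ℕ) (p : MvPolynomial σ L), p.totalDegree ≤ d → (φ p).totalDegree ≤ d :=
    fun d p hp => totalDegree_aeval_leD S hS d p hp
  -- the adjoint values
  set cc : Fin n → Fin n → MvPolynomial ι L := fun j t => if j ∈ R then ca j t • φ (b j) + cb j t • φ (a j)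
    else cb j t • φ (a j) with hcc
  set w : Fin n → MvPolynomial ι L := wsol (fun t => algebraMap L (MvPolynomial ι L) (gm t)) cc with hw
  have hweq : ∀ t, w t = algebraMap L (MvPolynomial ι L) (gm t) + ∑ j ∈ Finset.Ioi t, cc j t * w j :=
    fun t => wsol_eq _ _ t
  have hw' : ∀ t, w t = algebraMap L (MvPolynomial ι L) (gm t) + ∑ j ∈ Finset.Ioi t,
      if j ∈ R then ca j t • (φ (b j) * w j) + cb j t • (φ (a j) * w j)
      else cb j t • (φ (a j) * w j) := by
    intro t
    rw [hweq t]
    congr 1
    apply Finset.sum_congr rfl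
    intro j _
    rw [hcc]
    simp only
    split_ifs
    · rw [add_mul, smul_mul_assoc, smul_mul_assoc]
    · rw [smul_mul_assoc]
  have hφa : ∀ t, φ (a t) = φ (la t) + ∑ j ∈ Finset.Iio t, ca t j • (φ (a j) * φ (b j)) := by
    intro t
    conv_lhs => rw [ha t]
    rw [map_add, map_sum]
    congr 1
    apply Finset.sum_congr rfl
    intro j _
    rw [map_smul, map_mul]
  have hφb : ∀ t, φ (b t) = φ (lb t) + ∑ j ∈ Finset.Iio t, cb t j • (φ (a j) * φ (b j)) := by
    intro t
    conv_lhs => rw [hb t]
    rw [map_add, map_sum]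
    congr 1
    apply Finset.sum_congr rfl
    intro j _
    rw [map_smul, map_mul]
  set ev := evs (fun t => φ (a t)) (fun t => φ (b t)) w with hev
  set Z : Submodule L (MvPolynomial ι L) := (vs L (MvPolynomial ι L) (Sz n)).map (rs (K := L) ev).toLinearMap with hZ
  set W : Submodule L (MvPolynomial ι L) := (vs L (MvPolynomial ι L) (Sw R)).map (rs (K := L) ev).toLinearMap with hW
  have hZ1 : (1 : MvPolynomial ι L) ∈ Z := ⟨1, one_mem_vs _, map_one (rs (K := L) ev)⟩
  have hW1 : (1 : MvPolynomial ι L) ∈ W := ⟨1, one_mem_vs _, map_one (rs (K := L) ev)⟩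
  have hZg : ∀ t, φ (a t) * φ (b t) ∈ Z := fun t => ⟨_, mem_z (t := t), evs_z _ _ _ t⟩
  have hWw : ∀ t, w t ∈ W := fun t => ⟨_, mem_w R (t := t), evs_w _ _ _ t⟩
  have hWp : ∀ t ∈ R, φ (b t) * w t ∈ W := fun t ht => ⟨_, mem_p R ht, evs_p _ _ _ t⟩
  have hWq : ∀ t ∈ R, φ (a t) * w t ∈ W := fun t ht => ⟨_, mem_q R ht, evs_q _ _ _ t⟩
  have hXZW : ∀ x ∈ X₀, ∀ z ∈ Z, ∀ y ∈ W, x * z * y ∈ X₀ * Z * W := fun x hx z hz y hy =>
    Submodule.mul_mem_mul (Submodule.mul_mem_mul hx hz) hy
  have hV1 : ∀ x ∈ X₀, x ∈ X₀ * Z * W := by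
    intro x hx
    have := hXZW x hx 1 hZ1 1 hW1
    rwa [mul_one, mul_one] at this
  have hV2 : ∀ y ∈ W, y ∈ X₀ * Z * W := by
    intro y hy
    have := hXZW 1 h1 1 hZ1 y hy
    rwa [mul_one, one_mul] at this
  refine ⟨X₀ * Z * W, (hX.mul ((vs_fg _).map _)).mul ((vs_fg _).map _), fun x hx => hV1 x hx,
    ?_, ?_⟩
  · -- the partial derivatives
    intro v
    set src : Fin n → MvPolynomial ι L := fun t => if t ∈ R then
      φ (pderiv v (la t)) * φ (b t) + φ (a t) * φ (pderiv v (lb t))
      else φ (pderiv v (a t)) * φ (b t) + φ (a t) * φ (pderiv v (lb t)) with hsrc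
    set D : Fin n → MvPolynomial ι L := fun t => φ (pderiv v (a t * b t)) with hDdef
    have hDa : ∀ t, φ (pderiv v (a t)) = φ (pderiv v (la t)) +
        ∑ j ∈ Finset.Iio t, ca t j • D j := by
      intro t
      conv_lhs => rw [ha t]
      rw [map_add, map_sum, map_add, map_sum]
      congr 1
      apply Finset.sum_congr rfl
      intro j _
      rw [Derivation.map_smul, map_smul]
    have hDb : ∀ t, φ (pderiv v (b t)) = φ (pderiv v (lb t)) +
        ∑ j ∈ Finset.Iio t, cb t j • D j := by
      intro t
      conv_lhs => rw [hb t]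
      rw [map_add, map_sum, map_add, map_sum]
      congr 1
      apply Finset.sum_congr rfl
      intro j _
      rw [Derivation.map_smul, map_smul]
    have hD : ∀ t, D t = src t + ∑ j ∈ Finset.Iio t, cc t j * D j := by
      intro t
      have e0 : D t = φ (a t) * φ (pderiv v (b t)) + φ (b t) * φ (pderiv v (a t)) := by
        rw [hDdef]
        simp only
        rw [Derivation.leibniz, smul_eq_mul, smul_eq_mul, map_add, map_mul, map_mul]
      by_cases ht : t ∈ R
      · have e1 : ∑ j ∈ Finset.Iio t, cc t j * D j =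
            φ (b t) * (∑ j ∈ Finset.Iio t, ca t j • D j) +
            φ (a t) * (∑ j ∈ Finset.Iio t, cb t j • D j) := by
          rw [Finset.mul_sum, Finset.mul_sum, ← Finset.sum_add_distrib]
          apply Finset.sum_congr rfl
          intro j _
          rw [hcc]
          simp only [if_pos ht]
          rw [add_mul, smul_mul_assoc, smul_mul_assoc, mul_smul_comm, mul_smul_comm]
        rw [e0, e1, hDb, hDa, hsrc]
        simp only [if_pos ht]
        ring
      · have e1 : ∑ j ∈ Finset.Iio t, cc t j * D j =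
            φ (a t) * (∑ j ∈ Finset.Iio t, cb t j • D j) := by
          rw [Finset.mul_sum]
          apply Finset.sum_congr rfl
          intro j _
          rw [hcc]
          simp only [if_neg ht]
          rw [smul_mul_assoc, mul_smul_comm]
        rw [e0, e1, hDb, hsrc]
        simp only [if_neg ht]
        ring
    have hsum := adj_sum (fun t => algebraMap L (MvPolynomial ι L) (gm t)) D src w cc hD hweq
    have hfd : φ (pderiv v f) = φ (pderiv v lf) + ∑ t, w t * src t := by
      rw [← hsum, hf, map_add, map_sum, map_add, map_sum]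
      congr 1
      apply Finset.sum_congr rfl
      intro j _
      rw [Derivation.map_smul, map_smul, Algebra.smul_def]
    have hconst : ∀ (l : MvPolynomial σ L), l.totalDegree ≤ 1 → ∃ c : L,
        φ (pderiv v l) = algebraMap L (MvPolynomial ι L) c := by
      intro l hl
      obtain ⟨c, hc⟩ := pderiv_affine l hl v
      refine ⟨c, ?_⟩
      rw [hc, ← algebraMap_eq]
      exact AlgHom.commutes φ c
    rw [hfd]
    apply Submodule.add_mem
    · obtain ⟨c, hc⟩ := hconst lf hlf
      rw [hc, Algebra.algebraMap_eq_smul_one]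
      exact Submodule.smul_mem _ _ (hV1 1 h1)
    · apply Submodule.sum_mem
      intro t _
      obtain ⟨c₂, hc₂⟩ := hconst (lb t) (hlb t)
      by_cases ht : t ∈ R
      · obtain ⟨c₁, hc₁⟩ := hconst (la t) (hla t)
        have e : w t * src t = c₁ • (φ (b t) * w t) + c₂ • (φ (a t) * w t) := by
          rw [hsrc]
          simp only [if_pos ht]
          rw [hc₁, hc₂, Algebra.smul_def, Algebra.smul_def]
          ring
        rw [e]
        apply hV2
        exact Submodule.add_mem _ (Submodule.smul_mem _ _ (hWp t ht))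
          (Submodule.smul_mem _ _ (hWq t ht))
      · have e : w t * src t = φ (pderiv v (a t)) * φ (lb t) * 1 * w t +
            (∑ j ∈ Finset.Iio t, cb t j • (φ (pderiv v (a t)) * (φ (a j) * φ (b j)) * w t)) +
            c₂ • (φ (a t) * 1 * w t) := by
          rw [hsrc]
          simp only [if_neg ht]
          have e2 : ∑ j ∈ Finset.Iio t, cb t j • (φ (pderiv v (a t)) * (φ (a j) * φ (b j)) * w t) =
              φ (pderiv v (a t)) * w t * ∑ j ∈ Finset.Iio t, cb t j • (φ (a j) * φ (b j)) := by
            rw [Finset.mul_sum]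
            apply Finset.sum_congr rfl
            intro j _
            rw [mul_smul_comm]
            congr 1
            ring
          rw [e2, hc₂, Algebra.smul_def]
          have e3 := hφb t
          linear_combination (φ (pderiv v (a t)) * w t) * e3
        have hda : (φ (pderiv v (a t))).totalDegree ≤ δ :=
          hdeg _ _ ((totalDegree_pderiv_leD δ (a t) (hR t ht) v).trans (Nat.sub_le _ _))
        rw [e]
        apply Submodule.add_mem
        · apply Submodule.add_mem
          · apply hXZW _ _ 1 hZ1 _ (hWw t)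
            apply hmemX
            refine (totalDegree_mul _ _).trans ?_
            have := hdeg 1 (lb t) (hlb t)
            omega
          · apply Submodule.sum_mem
            intro j _
            apply Submodule.smul_mem
            exact hXZW _ (hmemX _ (by omega)) _ (hZg j) _ (hWw t)
        · apply Submodule.smul_mem
          apply hXZW _ _ 1 hZ1 _ (hWw t)
          apply hmemX
          have := hdeg δ (a t) (hR t ht)
          omega
  · intro T t₀ t₁ t₂ t₃
    have h := circ_dim (L := L) (A := MvPolynomial ι L) (R := R) (la := fun t => φ (la t))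
      (lb := fun t => φ (lb t)) (fa := fun t => φ (a t)) (ca := ca) (cb := cb) (gm := gm)
      (a' := fun t => φ (a t)) (b' := fun t => φ (b t)) (w := w) hX h1
      (fun t _ => hmemX _ ((hdeg 1 _ (hla t)).trans (by omega)))
      (fun t => hmemX _ ((hdeg 1 _ (hlb t)).trans (by omega)))
      (fun t ht => hmemX _ ((hdeg δ _ (hR t ht)).trans (by omega)))
      (fun t ht => hmemX _ (by
        refine (totalDegree_mul _ _).trans ?_
        have := hdeg 1 (lb t) (hlb t)
        have := hdeg δ _ (hR t ht)
        omega))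
      hφb (fun t _ => hφa t) (fun t _ => rfl) hw' T T T t₀ t₁ t₂ t₃
    have e1 : finrank L ↥((X₀ * Z * W) ^ T) = DE X₀ (Sz n) (Sw R) ev T T T := by
      rw [mul_pow, mul_pow]
      rfl
    rw [e1]
    refine h.trans ?_
    apply Nat.mul_le_mul_right
    apply Nat.mul_le_mul_right
    rw [hX₀, ← pow_mul]
    have h3 := finrank_pow_span_le (K := L) (fun o : Option ι =>
      o.elim (1 : MvPolynomial ι L) fun i => algebraMap (MvPolynomial ι L) (MvPolynomial ι L) (X i))
      ((δ + 1) * (T + (t₀ + 2 * t₁ + t₂ + t₃)))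
    rw [Fintype.card_option] at h3
    exact h3

end Pool.Agent.W944.Cx
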