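import Pool.Agent.W944.Place

/-! # Semicontinuity of dimensions and the main inequality for limits -/

set_option autoImplicit false
set_option linter.unusedSectionVars false

open Module MvPolynomial

namespace Pool.Agent.W944

open Pool.Agent.H632R2.Border (spec exists_max mem_spec spec_mono restrict_le_spec)

variable {Ω L : Type*} [Field Ω] [Field L] {ι : Type*}
  {O : ValuationSubring L} {φ : O →+* Ω} {j : Ω →+* O} (hj : ∀ c, φ (j c) = c)

variable {R' : Type*} [CommRing R'] [Algebra L R'] [Algebra (MvPolynomial ι L) R']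
  [IsScalarTower L (MvPolynomial ι L) R']

variable (L ι R') in
/-- the structure map -/
noncomputable def qmap : MvPolynomial ι L →ₐ[L] R' :=
  IsScalarTower.toAlgHom L (MvPolynomial ι L) R'

variable {R₀ : Type*} [CommRing R₀] [Algebra Ω R₀] [Algebra (MvPolynomial ι Ω) R₀]
  [IsScalarTower Ω (MvPolynomial ι Ω) R₀]

variable (ι R₀) in
/-- the specialization of a subspace of the quotient ring -/
noncomputable def sp (V : Submodule L R') :
    Submodule Ω R₀ :=
  (spec O φ j hj (V.comap (qmap L ι R').toLinearMap)).map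
    (IsScalarTower.toAlgHom Ω (MvPolynomial ι Ω) R₀).toLinearMap

lemma mem_sp (V : Submodule L R')
    (x : R₀) : x ∈ sp ι hj R₀ V ↔ ∃ G : MvPolynomial ι O, qmap L ι R' (map O.subtype G) ∈ V ∧
      algebraMap (MvPolynomial ι Ω) R₀ (map φ G) = x := by
  unfold sp
  rw [Submodule.mem_map]
  constructor
  · rintro ⟨_, ⟨G, hG, rfl⟩, rfl⟩
    exact ⟨G, hG, rfl⟩
  · rintro ⟨G, hG, rfl⟩
    exact ⟨_, ⟨G, hG, rfl⟩, rfl⟩

lemma sp_fg (hφ : ∀ c : O, φ c ≠ 0 → ((c : L)⁻¹) ∈ O) (P : MvPolynomial ι L)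
    (Q : MvPolynomial ι O) (c : L) (hP : P = C c * map O.subtype Q)
    (hQ : map φ Q ≠ 0) (hQ0 : algebraMap (MvPolynomial ι Ω) R₀ (map φ Q) = 0)
    (hker : ∀ f, algebraMap (MvPolynomial ι L) R' f = 0 → P ∣ f)
    (V : Submodule L R') (hV : V.FG) :
    (sp ι hj R₀ V).FG ∧ finrank Ω ↥(sp ι hj R₀ V) ≤ finrank L ↥V := by
  classical
  have : FiniteDimensional L ↥V := Module.Finite.iff_fg.mpr hV
  let b := Basis.ofVectorSpace Ω ↥(sp ι hj R₀ V)
  have hG : ∀ i, ∃ G : MvPolynomial ι O, qmap L ι R' (map O.subtype G) ∈ V ∧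
      algebraMap (MvPolynomial ι Ω) R₀ (map φ G) = (b i : R₀) :=
    fun i => (mem_sp hj V _).mp (b i).2
  choose G hGV hGb using hG
  have h1 : LinearIndependent Ω (fun i => algebraMap (MvPolynomial ι Ω) R₀ (map φ (G i))) := by
    have h2 := b.linearIndependent.map' (sp ι hj R₀ V).subtype (Submodule.ker_subtype _)
    have h3 : (⇑(sp ι hj R₀ V).subtype ∘ ⇑b) =
        fun i => algebraMap (MvPolynomial ι Ω) R₀ (map φ (G i)) := by
      funext i
      rw [hGb]; rfl
    rwa [h3] at h2
  have h5 : LinearIndependent L (fun i => (⟨qmap L ι R' (map O.subtype (G i)), hGV i⟩ : ↥V)) := by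
    rw [linearIndependent_iff'] at h1 ⊢
    intro s e he i₀ hi₀
    by_contra hb0
    obtain ⟨b₀, hb₀, hc₀, hmax⟩ := exists_max (O := O) s e ⟨i₀, hi₀, hb0⟩
    set d : _ → O := fun b' => if hb' : b' ∈ s then ⟨e b' / e b₀, hmax b' hb'⟩ else 0 with hd
    have hd1 : ∀ b' ∈ s, ((d b' : O) : L) = e b' / e b₀ := by
      intro b' hb'
      rw [hd]; simp only [hb', dif_pos]
    set D : MvPolynomial ι O := ∑ b' ∈ s, C (d b') * G b' with hD
    have h6 : qmap L ι R' (map O.subtype D) = 0 := by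
      have h7 : ∀ b' ∈ s, qmap L ι R' (map O.subtype (C (d b') * G b')) =
          (e b₀)⁻¹ • (e b' • qmap L ι R' (map O.subtype (G b'))) := by
        intro b' hb'
        rw [map_mul, map_C, ← smul_eq_C_mul, map_smul, smul_smul]
        congr 1
        change ((d b' : O) : L) = _
        rw [hd1 b' hb']
        field_simp
      rw [hD, map_sum, map_sum, Finset.sum_congr rfl h7, ← Finset.smul_sum]
      have h8 := congrArg Subtype.val he
      rw [Submodule.coe_sum] at h8
      simp only [Submodule.coe_smul, Submodule.coe_zero] at h8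
      rw [h8, smul_zero]
    obtain ⟨h, hh⟩ := hker _ h6
    have h8 : map O.subtype D = map O.subtype Q * (C c * h) := by rw [hh, hP]; ring
    obtain ⟨H, hH⟩ := cofactor_mem hφ D Q _ h8 hQ
    have h9 : D = Q * H := by
      apply map_injective O.subtype Subtype.val_injective
      rw [h8, (map O.subtype).map_mul Q H, hH]
    have h10 : algebraMap (MvPolynomial ι Ω) R₀ (map φ D) = 0 := by
      rw [h9, map_mul, map_mul, hQ0, zero_mul]
    rw [hD, map_sum, map_sum] at h10
    have h11 := h1 s (fun b' => φ (d b')) (by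
      rw [← h10]
      refine Finset.sum_congr rfl fun b' _ => ?_
      rw [map_mul, map_C, ← smul_eq_C_mul, Algebra.algebraMap_eq_smul_one (φ (d b') • map φ (G b')),
        smul_assoc, ← Algebra.algebraMap_eq_smul_one]) b₀ hb₀
    have h12 : d b₀ = 1 := by
      apply Subtype.val_injective
      rw [hd1 b₀ hb₀, div_self hc₀]
      rfl
    rw [h12, map_one] at h11
    exact one_ne_zero h11
  have := h5.finite
  have := Fintype.ofFinite (Basis.ofVectorSpaceIndex Ω ↥(sp ι hj R₀ V))
  refine ⟨?_, ?_⟩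
  · have := Module.Finite.of_basis b
    exact Module.Finite.iff_fg.mp inferInstance
  · rw [finrank_eq_card_basis b]
    exact h5.fintype_card_le_finrank

lemma sp_mul_le (V W : Submodule L R') :
    sp ι hj R₀ V * sp ι hj R₀ W ≤ sp ι hj R₀ (V * W) := by
  rw [Submodule.mul_le]
  intro x hx y hy
  obtain ⟨G, hG, rfl⟩ := (mem_sp hj V _).mp hx
  obtain ⟨H, hH, rfl⟩ := (mem_sp hj W _).mp hy
  rw [mem_sp]
  refine ⟨G * H, ?_, by rw [map_mul, map_mul]⟩
  rw [map_mul, map_mul]
  exact Submodule.mul_mem_mul hG hH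

lemma sp_pow_le (V : Submodule L R') (t : ℕ) :
    (sp ι hj R₀ V) ^ t ≤ sp ι hj R₀ (V ^ t) := by
  induction t with
  | zero =>
    rw [pow_zero, pow_zero]
    intro p hp
    obtain ⟨c, rfl⟩ := Submodule.mem_one.mp hp
    rw [mem_sp]
    refine ⟨C (j c), ?_, ?_⟩
    · rw [map_C]
      refine Submodule.mem_one.mpr ⟨((j c : O) : L), ?_⟩
      rw [IsScalarTower.algebraMap_apply L (MvPolynomial ι L) R']
      rfl
    · rw [map_C, hj, ← algebraMap_eq, ← IsScalarTower.algebraMap_apply]
  | succ t ih =>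
    rw [pow_succ, pow_succ]
    exact (mul_le_mul' ih le_rfl).trans (sp_mul_le hj _ _)

lemma xsp_le_sp : xsp Ω ι R₀ ≤ sp ι hj R₀ (xsp L ι R') := by
  unfold xsp
  rw [Submodule.span_le]
  rintro _ ⟨o, rfl⟩
  rw [SetLike.mem_coe, mem_sp]
  cases o with
  | none =>
    refine ⟨1, ?_, by simp⟩
    rw [map_one, map_one]
    exact Submodule.subset_span ⟨none, rfl⟩
  | some i =>
    refine ⟨X i, ?_, by simp⟩
    rw [map_X]
    exact Submodule.subset_span ⟨some i, rfl⟩

section core

variable [Fintype ι] [IsDomain R₀] [IsDomain R'] {N : ℕ}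

include hj in
/-- the inequality for a given factor -/
theorem border_core (hφ : ∀ c : O, φ c ≠ 0 → ((c : L)⁻¹) ∈ O)
    (A : Matrix (Fin N) (Fin N) (MvPolynomial ι L)) (hA : ∀ a b, (A a b).totalDegree ≤ 1)
    (hdet : A.det ≠ 0) (P : MvPolynomial ι L)
    (Q : MvPolynomial ι O) (c : L) (hPQ : P = C c * map O.subtype Q)
    (hQ : map φ Q ≠ 0) (hQ0 : algebraMap (MvPolynomial ι Ω) R₀ (map φ Q) = 0)
    (hker : ∀ f, algebraMap (MvPolynomial ι L) R' f = 0 → P ∣ f)
    (hR : algebraMap (MvPolynomial ι L) R' A.det = 0)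
    {V : Type*} [Finite V] (Y : V → MvPolynomial ι Ω)
    (hY : ∀ v, ∃ E : MvPolynomial ι O, map φ E = Y v ∧ map O.subtype E ∈
      Submodule.span L (Set.range fun x : Fin N × Fin N => A.adjugate x.1 x.2))
    (hne : ∃ v, algebraMap (MvPolynomial ι Ω) R₀ (Y v) ≠ 0) (a τ t s : ℕ) :
    (s + (N - 1)).choose (N - 1) * ((t + N).choose N *
      finrank Ω ↥(xsp Ω ι R₀ ^ a * (Submodule.span Ω
        (Set.range fun v => algebraMap (MvPolynomial ι Ω) R₀ (Y v))) ^ τ)) ≤
    (Fintype.card ι + 1).multichoose (a + t + s) * N.multichoose (τ + t) *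
      N.multichoose (τ + s) := by
  classical
  -- the forms lie in the specialization of the span of the entries of the adjugate
  have hYsp : ∀ v, algebraMap (MvPolynomial ι Ω) R₀ (Y v) ∈ sp ι hj R₀ (gsp R' A) := by
    intro v
    obtain ⟨E, hE1, hE2⟩ := hY v
    rw [mem_sp]
    refine ⟨E, ?_, by rw [hE1]⟩
    have h1 : Submodule.span L (Set.range fun x : Fin N × Fin N => A.adjugate x.1 x.2) ≤
        (gsp R' A).comap (qmap L ι R').toLinearMap := by
      rw [Submodule.span_le]
      rintro _ ⟨x, rfl⟩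
      exact Submodule.subset_span ⟨x, rfl⟩
    exact h1 hE2
  have hfg := fun (V : Submodule L R') hV =>
    sp_fg (R₀ := R₀) hj hφ P Q c hPQ hQ hQ0 hker V hV
  have hadj : ∃ p q, algebraMap (MvPolynomial ι L) R' (A.adjugate p q) ≠ 0 := by
    by_contra hcon
    push Not at hcon
    obtain ⟨v, hv⟩ := hne
    have h0 : gsp R' A = ⊥ := by
      rw [eq_bot_iff]
      unfold gsp
      rw [Submodule.span_le]
      rintro _ ⟨⟨a, b⟩, rfl⟩
      exact hcon a b
    have h1 := hYsp v
    rw [h0] at h1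
    have h2 := hfg ⊥ Submodule.fg_bot
    rw [finrank_bot, Nat.le_zero] at h2
    have : FiniteDimensional Ω ↥(sp ι hj R₀ (⊥ : Submodule L R')) :=
      Module.Finite.iff_fg.mpr h2.1
    rw [Submodule.finrank_eq_zero.mp h2.2, Submodule.mem_bot] at h1
    exact hv h1
  refine le_trans ?_ (main_ineq (R := R') A hA hdet hR hadj a τ t s)
  apply Nat.mul_le_mul_left
  apply Nat.mul_le_mul_left
  have h3 := hfg (xsp L ι R' ^ a * gsp R' A ^ τ) ((xsp_fg.pow _).mul ((gsp_fg _).pow _))
  have : FiniteDimensional Ω ↥(sp ι hj R₀ (xsp L ι R' ^ a * gsp R' A ^ τ)) :=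
    Module.Finite.iff_fg.mpr h3.1
  refine le_trans (Submodule.finrank_mono ?_) h3.2
  refine le_trans ?_ (sp_mul_le hj _ _)
  apply mul_le_mul'
  · exact (pow_le_pow_left' (xsp_le_sp hj) a).trans (sp_pow_le hj _ _)
  · refine (pow_le_pow_left' ?_ τ).trans (sp_pow_le hj _ _)
    rw [Submodule.span_le]
    rintro _ ⟨v, rfl⟩
    exact hYsp v

end core

include hj in
/-- **Main inequality for limits.**  `A` is an `N × N` matrix of polynomials of degree at most
one over `L` whose determinant specializes to `F` along the place, `R₀` is a domain over the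
residue field in which `F` becomes zero, and the forms `Y v` are specializations of linear
combinations of entries of the adjugate. -/
theorem border_ineq [Fintype ι] [IsDomain R₀] (hφ : ∀ c : O, φ c ≠ 0 → ((c : L)⁻¹) ∈ O) {N : ℕ}
    (A : Matrix (Fin N) (Fin N) (MvPolynomial ι L)) (hA : ∀ a b, (A a b).totalDegree ≤ 1)
    (D : MvPolynomial ι O) (hD : map O.subtype D = A.det) (F : MvPolynomial ι Ω)
    (hDF : map φ D = F) (hF0 : F ≠ 0) (hFR : algebraMap (MvPolynomial ι Ω) R₀ F = 0)
    {V : Type*} [Finite V] (Y : V → MvPolynomial ι Ω)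
    (hY : ∀ v, ∃ E : MvPolynomial ι O, map φ E = Y v ∧ map O.subtype E ∈
      Submodule.span L (Set.range fun x : Fin N × Fin N => A.adjugate x.1 x.2))
    (hne : ∃ v, algebraMap (MvPolynomial ι Ω) R₀ (Y v) ≠ 0) (a τ t s : ℕ) :
    (s + (N - 1)).choose (N - 1) * ((t + N).choose N *
      finrank Ω ↥(xsp Ω ι R₀ ^ a * (Submodule.span Ω
        (Set.range fun v => algebraMap (MvPolynomial ι Ω) R₀ (Y v))) ^ τ)) ≤
    (Fintype.card ι + 1).multichoose (a + t + s) * N.multichoose (τ + t) *
      N.multichoose (τ + s) := by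
  classical
  have hdet : A.det ≠ 0 := by
    intro h
    apply hF0
    have : D = 0 := by
      apply map_injective O.subtype Subtype.val_injective
      rw [hD, h, map_zero]
    rw [← hDF, this, map_zero]
  obtain ⟨P, hP, hPd, Q, c, hc, hPQ, hQ, hQ0⟩ := exists_factor
    (algebraMap (MvPolynomial ι Ω) R₀) hφ A.det hdet D 1 one_ne_zero
    (by rw [map_one, one_mul, hD]) (by rw [hDF]; exact hF0) (by rw [hDF]; exact hFR)
  have hPp : Prime P := hP.prime
  have hprime : (Ideal.span {P}).IsPrime := (Ideal.span_singleton_prime hPp.ne_zero).mpr hPp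
  have hR : algebraMap (MvPolynomial ι L) (MvPolynomial ι L ⧸ Ideal.span {P}) A.det = 0 :=
    Ideal.Quotient.eq_zero_iff_mem.mpr (Ideal.mem_span_singleton.mpr hPd)
  exact border_core (R' := MvPolynomial ι L ⧸ Ideal.span {P}) hj hφ A hA hdet P Q c hPQ hQ hQ0
    (fun f hf => Ideal.mem_span_singleton.mp (Ideal.Quotient.eq_zero_iff_mem.mp hf)) hR Y hY hne
    a τ t s

end Pool.Agent.W944
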