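import Pool.Agent.W944.ChainD

/-! # The main inequality for limits, entries of degree at most `δ` -/

set_option autoImplicit false
set_option linter.unusedSectionVars false

open Module MvPolynomial

namespace Pool.Agent.W944

variable {Ω L : Type*} [Field Ω] [Field L] {ι : Type*}
  {O : ValuationSubring L} {φ : O →+* Ω} {j : Ω →+* O} (hj : ∀ c, φ (j c) = c)

variable {R' : Type*} [CommRing R'] [Algebra L R'] [Algebra (MvPolynomial ι L) R']
  [IsScalarTower L (MvPolynomial ι L) R']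

variable {R₀ : Type*} [CommRing R₀] [Algebra Ω R₀] [Algebra (MvPolynomial ι Ω) R₀]
  [IsScalarTower Ω (MvPolynomial ι Ω) R₀]

lemma sp_mono {V W : Submodule L R'} (h : V ≤ W) : sp ι hj R₀ V ≤ sp ι hj R₀ W := by
  intro x hx
  obtain ⟨G, hG, rfl⟩ := (mem_sp hj V _).mp hx
  exact (mem_sp hj W _).mpr ⟨G, h hG, rfl⟩

section core

variable [Fintype ι] [IsDomain R₀] [IsDomain R'] {N : ℕ}

include hj in
/-- the inequality for a given factor -/
theorem border_coreD (hφ : ∀ c : O, φ c ≠ 0 → ((c : L)⁻¹) ∈ O) (δ : ℕ)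
    (A : Matrix (Fin N) (Fin N) (MvPolynomial ι L)) (hA : ∀ a b, (A a b).totalDegree ≤ δ)
    (hdet : A.det ≠ 0) (P : MvPolynomial ι L)
    (Q : MvPolynomial ι O) (c : L) (hPQ : P = C c * map O.subtype Q)
    (hQ : map φ Q ≠ 0) (hQ0 : algebraMap (MvPolynomial ι Ω) R₀ (map φ Q) = 0)
    (hker : ∀ f, algebraMap (MvPolynomial ι L) R' f = 0 → P ∣ f)
    (hR : algebraMap (MvPolynomial ι L) R' A.det = 0)
    {V : Type*} [Finite V] (Y : V → MvPolynomial ι Ω)
    (hY : ∀ v, ∃ E : MvPolynomial ι O, map φ E = Y v ∧ map O.subtype E ∈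
      restrictTotalDegree ι L (δ - 1) *
        Submodule.span L (Set.range fun x : Fin N × Fin N => A.adjugate x.1 x.2))
    (hne : ∃ v, algebraMap (MvPolynomial ι Ω) R₀ (Y v) ≠ 0) (a a' τ t s : ℕ)
    (ha : a + (δ - 1) * τ ≤ δ * a') :
    (s + (N - 1)).choose (N - 1) * ((t + N).choose N *
      finrank Ω ↥(xsp Ω ι R₀ ^ a * (Submodule.span Ω
        (Set.range fun v => algebraMap (MvPolynomial ι Ω) R₀ (Y v))) ^ τ)) ≤
    (Fintype.card ι + 1).multichoose (δ * (a' + t + s)) * N.multichoose (τ + t) *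
      N.multichoose (τ + s) := by
  classical
  -- the forms lie in the specialization of the product
  have hYsp : ∀ v, algebraMap (MvPolynomial ι Ω) R₀ (Y v) ∈
      sp ι hj R₀ (xsp L ι R' ^ (δ - 1) * gsp R' A) := by
    intro v
    obtain ⟨E, hE1, hE2⟩ := hY v
    rw [mem_sp]
    refine ⟨E, ?_, by rw [hE1]⟩
    have h1 : restrictTotalDegree ι L (δ - 1) *
        Submodule.span L (Set.range fun x : Fin N × Fin N => A.adjugate x.1 x.2) ≤
        (xsp L ι R' ^ (δ - 1) * gsp R' A).comap (qmap L ι R').toLinearMap := by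
      rw [Submodule.mul_le]
      intro f hf g hg
      rw [Submodule.mem_comap]
      change qmap L ι R' (f * g) ∈ _
      rw [map_mul]
      apply Submodule.mul_mem_mul
      · exact algebraMap_mem_xsp_pow (δ - 1) f ((mem_restrictTotalDegree _ _ _).mp hf)
      · have h2 : Submodule.span L (Set.range fun x : Fin N × Fin N => A.adjugate x.1 x.2) ≤
            (gsp R' A).comap (qmap L ι R').toLinearMap := by
          rw [Submodule.span_le]
          rintro _ ⟨x, rfl⟩
          exact Submodule.subset_span ⟨x, rfl⟩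
        exact h2 hg
    exact h1 hE2
  have hfg := fun (V : Submodule L R') hV =>
    sp_fg (R₀ := R₀) hj hφ P Q c hPQ hQ hQ0 hker V hV
  have hadj : ∃ p q, algebraMap (MvPolynomial ι L) R' (A.adjugate p q) ≠ 0 := by
    by_contra hcon
    push Not at hcon
    obtain ⟨v, hv⟩ := hne
    have h0 : gsp R' A = ⊥ := by
      rw [eq_bot_iff]
      unfold gsp
      rw [Submodule.span_le]
      rintro _ ⟨⟨a, b⟩, rfl⟩
      exact hcon a b
    have h1 := hYsp v
    rw [h0, Submodule.mul_bot] at h1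
    have h2 := hfg ⊥ Submodule.fg_bot
    rw [finrank_bot, Nat.le_zero] at h2
    have : FiniteDimensional Ω ↥(sp ι hj R₀ (⊥ : Submodule L R')) :=
      Module.Finite.iff_fg.mpr h2.1
    rw [Submodule.finrank_eq_zero.mp h2.2, Submodule.mem_bot] at h1
    exact hv h1
  have hmain := main_ineqD (R := R') δ A hA hdet hR hadj a' τ t s
  refine le_trans ?_ hmain
  apply Nat.mul_le_mul_left
  apply Nat.mul_le_mul_left
  have h3 := hfg (xsp L ι R' ^ (δ * a') * gsp R' A ^ τ)
    ((xsp_fg.pow _).mul ((gsp_fg _).pow _))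
  have : FiniteDimensional Ω ↥(sp ι hj R₀ (xsp L ι R' ^ (δ * a') * gsp R' A ^ τ)) :=
    Module.Finite.iff_fg.mpr h3.1
  refine le_trans (Submodule.finrank_mono ?_) h3.2
  have h4 : xsp L ι R' ^ a * (xsp L ι R' ^ (δ - 1) * gsp R' A) ^ τ ≤
      xsp L ι R' ^ (δ * a') * gsp R' A ^ τ := by
    rw [mul_pow, ← pow_mul, ← mul_assoc, ← pow_add]
    exact mul_le_mul' (Pool.Agent.H546R2.SL.pow_mono_of_one_mem _ one_mem_xsp ha) le_rfl
  refine le_trans ?_ (sp_mono hj h4)
  refine le_trans ?_ (sp_mul_le hj _ _)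
  apply mul_le_mul'
  · exact (pow_le_pow_left' (xsp_le_sp hj) _).trans (sp_pow_le hj _ _)
  · refine (pow_le_pow_left' ?_ τ).trans (sp_pow_le hj _ _)
    rw [Submodule.span_le]
    rintro _ ⟨v, rfl⟩
    exact hYsp v

end core

include hj in
/-- **Main inequality for limits, entries of degree at most `δ`.** -/
theorem border_ineqD [Fintype ι] [IsDomain R₀] (hφ : ∀ c : O, φ c ≠ 0 → ((c : L)⁻¹) ∈ O)
    {N : ℕ} (δ : ℕ)
    (A : Matrix (Fin N) (Fin N) (MvPolynomial ι L)) (hA : ∀ a b, (A a b).totalDegree ≤ δ)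
    (D : MvPolynomial ι O) (hD : map O.subtype D = A.det) (F : MvPolynomial ι Ω)
    (hDF : map φ D = F) (hF0 : F ≠ 0) (hFR : algebraMap (MvPolynomial ι Ω) R₀ F = 0)
    {V : Type*} [Finite V] (Y : V → MvPolynomial ι Ω)
    (hY : ∀ v, ∃ E : MvPolynomial ι O, map φ E = Y v ∧ map O.subtype E ∈
      restrictTotalDegree ι L (δ - 1) *
        Submodule.span L (Set.range fun x : Fin N × Fin N => A.adjugate x.1 x.2))
    (hne : ∃ v, algebraMap (MvPolynomial ι Ω) R₀ (Y v) ≠ 0) (a a' τ t s : ℕ)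
    (ha : a + (δ - 1) * τ ≤ δ * a') :
    (s + (N - 1)).choose (N - 1) * ((t + N).choose N *
      finrank Ω ↥(xsp Ω ι R₀ ^ a * (Submodule.span Ω
        (Set.range fun v => algebraMap (MvPolynomial ι Ω) R₀ (Y v))) ^ τ)) ≤
    (Fintype.card ι + 1).multichoose (δ * (a' + t + s)) * N.multichoose (τ + t) *
      N.multichoose (τ + s) := by
  classical
  have hdet : A.det ≠ 0 := by
    intro h
    apply hF0
    have : D = 0 := by
      apply map_injective O.subtype Subtype.val_injective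
      rw [hD, h, map_zero]
    rw [← hDF, this, map_zero]
  obtain ⟨P, hP, hPd, Q, c, hc, hPQ, hQ, hQ0⟩ := exists_factor
    (algebraMap (MvPolynomial ι Ω) R₀) hφ A.det hdet D 1 one_ne_zero
    (by rw [map_one, one_mul, hD]) (by rw [hDF]; exact hF0) (by rw [hDF]; exact hFR)
  have hPp : Prime P := hP.prime
  have hprime : (Ideal.span {P}).IsPrime := (Ideal.span_singleton_prime hPp.ne_zero).mpr hPp
  have hR : algebraMap (MvPolynomial ι L) (MvPolynomial ι L ⧸ Ideal.span {P}) A.det = 0 :=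
    Ideal.Quotient.eq_zero_iff_mem.mpr (Ideal.mem_span_singleton.mpr hPd)
  exact border_coreD (R' := MvPolynomial ι L ⧸ Ideal.span {P}) hj hφ δ A hA hdet P Q c hPQ hQ hQ0
    (fun f hf => Ideal.mem_span_singleton.mp (Ideal.Quotient.eq_zero_iff_mem.mp hf)) hR Y hY hne
    a a' τ t s ha

end Pool.Agent.W944
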