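import Pool.Agent.W944.Forms
import Pool.Agent.W944.Semi

/-! # The lower bound for smooth forms -/

set_option autoImplicit false
set_option linter.unusedSectionVars false

open Module MvPolynomial

namespace Pool.Agent.W944

open Pool.Agent.H546R2.SL (component_mul exists_degree_bound)

variable {K : Type*} [Field K] {ι : Type*} [Fintype ι]

lemma not_isUnit_of_isHomogeneous (F : MvPolynomial ι K) (d : ℕ) (hd : 1 ≤ d)
    (hF : F.IsHomogeneous d) : ¬ IsUnit F := by
  intro h
  have h1 : IsUnit (constantCoeff F) := h.map constantCoeff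
  have h2 : constantCoeff F ≠ 0 := h1.ne_zero
  rw [constantCoeff_eq] at h2
  have h3 := hF h2
  rw [map_zero] at h3
  omega

variable {L : Type*} [Field L] {O : ValuationSubring L} {φ : O →+* K} {j : K →+* O}

/-- limits of determinants: smooth forms over an algebraically closed field -/
theorem smooth_ineq_closed [IsAlgClosed K] (hj : ∀ c, φ (j c) = c)
    (hφ : ∀ c : O, φ c ≠ 0 → ((c : L)⁻¹) ∈ O) (F : MvPolynomial ι K) (d : ℕ) (hd : 1 ≤ d)
    (hF : F.IsHomogeneous d)
    (hsm : ∀ x : ι → K, eval x F = 0 → (∀ i, eval x (pderiv i F) = 0) → x = 0)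
    (hι : 2 ≤ Fintype.card ι) (N : ℕ) (M : Matrix (Fin N) (Fin N) (MvPolynomial ι L))
    (hM : ∀ i j, (M i j).totalDegree ≤ 1) (D : MvPolynomial ι O)
    (hD : map O.subtype D = M.det) (hDF : map φ D = F) :
    2 * ((d - 1 : ℕ) : ℝ) ^ (Fintype.card ι - 2) ≤
      (Real.exp 1 * (4 * N / (Fintype.card ι) + 3)) ^ (Fintype.card ι) := by
  classical
  obtain ⟨i₀⟩ : Nonempty ι := Fintype.card_pos_iff.mp (by omega)
  have hF0 : F ≠ 0 := by
    rintro rfl
    have h := hsm (fun _ => 1) (by simp) (by simp)
    exact one_ne_zero (congrFun h i₀)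
  have hFu := not_isUnit_of_isHomogeneous F d hd hF
  have hN : 0 < N := by
    rcases Nat.eq_zero_or_pos N with h | h
    · subst h
      exfalso
      apply hFu
      rw [Matrix.det_fin_zero, ← map_one (map (σ := ι) O.subtype)] at hD
      rw [← hDF, map_injective O.subtype Subtype.val_injective hD, map_one]
      exact isUnit_one
    · exact h
  obtain ⟨P, hPi, hPF⟩ := WfDvdMonoid.exists_irreducible_factor hFu hF0
  have hP : Prime P := hPi.prime
  have : (Ideal.span {P}).IsPrime := (Ideal.span_singleton_prime hP.ne_zero).mpr hP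
  obtain ⟨j', hj'⟩ := exists_var P hP
  obtain ⟨M₀, hM₀⟩ := exists_degree_bound
    (fun o : Option ι => o.elim F fun i => pderiv i F) (fun x hx => hsm x (hx none)
      (fun i => hx (some i)))
  have hFR : algebraMap (MvPolynomial ι K) (Q P) F = 0 :=
    Ideal.Quotient.eq_zero_iff_mem.mpr (Ideal.mem_span_singleton.mpr hPF)
  set G : Submodule K (Q P) := Submodule.span K
    (Set.range fun i => algebraMap (MvPolynomial ι K) (Q P) (pderiv i F)) with hGdef
  have hG : ∀ i, algebraMap (MvPolynomial ι K) (Q P) (pderiv i F) ∈ G :=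
    fun i => Submodule.subset_span ⟨i, rfl⟩
  have hGfg : G.FG := Submodule.fg_span (Set.finite_range _)
  -- lower bound for the dimension
  have hlow : ∀ τ : ℕ, (τ + 1) * ((d - 1) * τ + (Fintype.card ι - 2)).choose
      (Fintype.card ι - 2) ≤
      finrank K ↥(xsp K ι (Q P) ^ (M₀ + d + τ) * G ^ τ) := by
    intro τ
    have h1 := card_le_finrank P hP j' hj'
      (expo j' (M₀ + d + (d - 1) * τ) (M₀ + d + (d - 1) * τ + τ))
      (fun m hm => ((mem_expo _ _ _ _).mp hm).1)
      (xsp K ι (Q P) ^ (M₀ + d + τ) * G ^ τ)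
      ((xsp_fg.pow _).mul (hGfg.pow _)) (by
        intro m hm
        obtain ⟨_, hm1, hm2⟩ := (mem_expo _ _ _ _).mp hm
        exact forms_mem F d hF hFR _ hG M₀ hM₀ (M₀ + d + τ) τ m.degree hm1 (by omega)
          (monomial m 1) (isHomogeneous_monomial _ rfl))
    refine le_trans ?_ h1
    refine le_trans ?_ (card_expo j' (Fintype.card ι - 2) _ τ (by omega))
    apply Nat.mul_le_mul_left
    apply Nat.choose_le_choose
    omega
  have hY : ∀ i, ∃ E : MvPolynomial ι O, map φ E = pderiv i F ∧ map O.subtype E ∈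
      Submodule.span L (Set.range fun x : Fin N × Fin N => M.adjugate x.1 x.2) := by
    intro i
    refine ⟨pderiv i D, ?_, ?_⟩
    · rw [← pderiv_map, hDF]
    · rw [← pderiv_map, hD]
      exact pderiv_det_mem (R := MvPolynomial ι L) M hM i
  have hne : ∃ i, algebraMap (MvPolynomial ι K) (Q P) (pderiv i F) ≠ 0 := by
    obtain ⟨i, hi⟩ := exists_pderiv P hP F hsm hι hPF
    refine ⟨i, fun h => hi ?_⟩
    exact Ideal.mem_span_singleton.mp (Ideal.Quotient.eq_zero_iff_mem.mp h)
  -- the inequality between polynomials in `τ`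
  apply explicit_ineq (Fintype.card ι - 2) 1 (Fintype.card ι) N (d - 1) (by omega) hN
  intro ρ hρ
  have hlead := leading_ineq (Fintype.card ι - 2) 1 (Fintype.card ι) (N - 1) (M₀ + d) (d - 1) ρ
    (by omega) (fun τ hτ => by
      have h2 := border_ineq (R₀ := Q P) hj hφ M hM D hD F hDF hF0 hFR
        (fun i => pderiv i F) hY hne (M₀ + d + τ) τ (ρ * τ) (ρ * τ)
      rw [multichoose_succ, multichoose_pred N _ hN] at h2
      have h3 := hlow τ
      calc (ρ * τ + (N - 1)).choose (N - 1) * ((ρ * τ + (N - 1 + 1)).choose (N - 1 + 1) *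
            (τ ^ 1 * ((d - 1) * τ + (Fintype.card ι - 2)).choose (Fintype.card ι - 2))) ≤
            (ρ * τ + (N - 1)).choose (N - 1) * ((ρ * τ + N).choose N *
              finrank K ↥(xsp K ι (Q P) ^ (M₀ + d + τ) * G ^ τ)) := by
            rw [Nat.sub_add_cancel hN, pow_one]
            apply Nat.mul_le_mul_left
            apply Nat.mul_le_mul_left
            exact (Nat.mul_le_mul_right _ (Nat.le_succ τ)).trans h3
        _ ≤ _ := h2
        _ ≤ _ := by
            have e1 : M₀ + d + τ + ρ * τ + ρ * τ = M₀ + d + τ + 2 * ρ * τ := by ring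
            rw [e1]
            have e2 : (N - 1 + (τ + ρ * τ)).choose (N - 1) ≤
                (N - 1 + (M₀ + d + τ + ρ * τ)).choose (N - 1) :=
              Nat.choose_le_choose _ (by omega)
            exact Nat.mul_le_mul (Nat.mul_le_mul_left _ e2) e2)
  exact hlead

end Pool.Agent.W944
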