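import Pool.Agent.H546R2.SL.A4

/-! # Dimensions of products of subspaces: one elimination step -/

set_option autoImplicit false

open Module

namespace Pool.Agent.W944

open Pool.Agent.H546R2.SL (finrank_span_mul pow_mono_of_one_mem)

variable {K A B : Type*} [Field K] [CommRing A] [Algebra K A] [CommRing B] [Algebra K B]

/-- one elimination step: a homomorphism that kills the nonzero element `q` -/
lemma elim_step [IsDomain A] (σ : A →ₐ[K] B) (E E' : Submodule K A) (hE' : E'.FG) (q : A)
    (hq : q ≠ 0) (hσ : σ q = 0) (hle : Submodule.span K {q} * E ≤ E') :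
    finrank K ↥(E'.map σ.toLinearMap) + finrank K ↥E ≤ finrank K ↥E' := by
  have fdE' : FiniteDimensional K ↥E' := Module.Finite.iff_fg.mpr hE'
  set g : ↥E' →ₗ[K] B := σ.toLinearMap.comp E'.subtype with hg
  have h1 := LinearMap.finrank_range_add_finrank_ker g
  have h2 : LinearMap.range g = E'.map σ.toLinearMap := by
    rw [hg, LinearMap.range_comp, Submodule.range_subtype]
  rw [h2] at h1
  have h3 : finrank K ↥E ≤ finrank K ↥(LinearMap.ker g) := by
    rw [← finrank_span_mul (K := K) q hq E]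
    have h4 : (Submodule.span K {q} * E) ≤ (LinearMap.ker g).map E'.subtype := by
      intro x hx
      rw [Submodule.mem_map]
      refine ⟨⟨x, hle hx⟩, ?_, rfl⟩
      rw [LinearMap.mem_ker, hg]
      rw [Submodule.mem_span_singleton_mul] at hx
      obtain ⟨z, _, rfl⟩ := hx
      simp [hσ]
    have h5 := Submodule.finrank_mono h4
    have h6 : finrank K ↥((LinearMap.ker g).map E'.subtype) = finrank K ↥(LinearMap.ker g) :=
      (Submodule.equivMapOfInjective _ E'.injective_subtype _).finrank_eq.symm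
    exact h5.trans h6.le
  omega

/-- products of powers of three subspaces -/
def pr (X Y Z : Submodule K A) (a b c : ℕ) : Submodule K A := X ^ a * Y ^ b * Z ^ c

/-- the dimension of a product of powers -/
noncomputable def dm (X Y Z : Submodule K A) (a b c : ℕ) : ℕ := finrank K ↥(pr X Y Z a b c)

lemma pr_fg {X Y Z : Submodule K A} (hX : X.FG) (hY : Y.FG) (hZ : Z.FG) (a b c : ℕ) :
    (pr X Y Z a b c).FG := ((hX.pow a).mul (hY.pow b)).mul (hZ.pow c)

lemma pr_map (σ : A →ₐ[K] B) (X Y Z : Submodule K A) (a b c : ℕ) :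
    (pr X Y Z a b c).map σ.toLinearMap =
      pr (X.map σ.toLinearMap) (Y.map σ.toLinearMap) (Z.map σ.toLinearMap) a b c := by
  unfold pr
  rw [Submodule.map_mul, Submodule.map_mul, Submodule.map_pow, Submodule.map_pow,
    Submodule.map_pow]

/-- the homomorphic image has at most the dimension -/
lemma dm_map_le (σ : A →ₐ[K] B) {X Y Z : Submodule K A} (hX : X.FG) (hY : Y.FG) (hZ : Z.FG)
    (a b c : ℕ) :
    dm (X.map σ.toLinearMap) (Y.map σ.toLinearMap) (Z.map σ.toLinearMap) a b c ≤
      dm X Y Z a b c := by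
  have : FiniteDimensional K ↥(pr X Y Z a b c) := Module.Finite.iff_fg.mpr (pr_fg hX hY hZ a b c)
  unfold dm
  rw [← pr_map]
  exact Submodule.finrank_map_le _ _

/-- elimination step of the first kind -/
lemma dm_step₁ [IsDomain A] (σ : A →ₐ[K] B) {X Y Z : Submodule K A} (hX : X.FG) (hY : Y.FG)
    (hZ : Z.FG) (q : A) (hq : q ≠ 0) (hσ : σ q = 0) (hqm : q ∈ X * Y) (a b c : ℕ) :
    dm (X.map σ.toLinearMap) (Y.map σ.toLinearMap) (Z.map σ.toLinearMap) (a + 1) (b + 1) c +
      dm X Y Z a b c ≤ dm X Y Z (a + 1) (b + 1) c := by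
  unfold dm
  rw [← pr_map]
  apply elim_step σ _ _ (pr_fg hX hY hZ _ _ _) q hq hσ
  have h1 : Submodule.span K {q} ≤ X * Y := by
    rw [Submodule.span_singleton_le_iff_mem]; exact hqm
  calc Submodule.span K {q} * pr X Y Z a b c ≤ (X * Y) * pr X Y Z a b c := mul_le_mul' h1 le_rfl
    _ = pr X Y Z (a + 1) (b + 1) c := by unfold pr; ring

lemma pr_comm (X Y Z : Submodule K A) (a b c : ℕ) : pr X Y Z a b c = pr X Z Y a c b := by
  unfold pr; ring

lemma dm_comm (X Y Z : Submodule K A) (a b c : ℕ) : dm X Y Z a b c = dm X Z Y a c b := by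
  unfold dm; rw [pr_comm]

/-- monotonicity -/
lemma dm_mono [IsDomain A] {X Y Z : Submodule K A} (hX : X.FG) (hY : Y.FG) (hZ : Z.FG)
    (h1 : (1 : A) ∈ X) (y : A) (hy : y ∈ Y) (hy0 : y ≠ 0) (a b c t : ℕ) :
    dm X Y Z a b c ≤ dm X Y Z (a + t) (b + t) c := by
  have : FiniteDimensional K ↥(pr X Y Z (a + t) (b + t) c) :=
    Module.Finite.iff_fg.mpr (pr_fg hX hY hZ _ _ _)
  unfold dm
  rw [← finrank_span_mul (K := K) (y ^ t) (pow_ne_zero _ hy0) (pr X Y Z a b c)]
  apply Submodule.finrank_mono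
  have h2 : Submodule.span K {y ^ t} ≤ Y ^ t := by
    rw [Submodule.span_singleton_le_iff_mem]; exact Submodule.pow_mem_pow _ hy _
  calc Submodule.span K {y ^ t} * pr X Y Z a b c ≤ Y ^ t * (X ^ (a + t) * Y ^ b * Z ^ c) := by
        apply mul_le_mul' h2
        unfold pr
        exact mul_le_mul' (mul_le_mul' (pow_mono_of_one_mem X h1 (Nat.le_add_right _ _)) le_rfl)
          le_rfl
    _ = pr X Y Z (a + t) (b + t) c := by unfold pr; ring

/-- the combinatorial induction -/
lemma comb (r : ℕ) (f u v : ℕ → ℕ → ℕ)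
    (hu : ∀ t a b, (t + r).choose r * f a b ≤ u (a + t) (b + t))
    (h0 : ∀ a b, u a b ≤ v a b)
    (h1 : ∀ a b, u (a + 1) (b + 1) + v a b ≤ v (a + 1) (b + 1)) :
    ∀ t a b, (t + (r + 1)).choose (r + 1) * f a b ≤ v (a + t) (b + t) := by
  intro t
  induction t with
  | zero =>
    intro a b
    have h2 := hu 0 a b
    rw [zero_add, Nat.choose_self] at h2 ⊢
    exact h2.trans (h0 _ _)
  | succ t ih =>
    intro a b
    have h2 := hu (t + 1) a b
    have h3 := h1 (a + t) (b + t)
    have h4 := ih a b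
    have h5 : (t + 1 + (r + 1)).choose (r + 1) =
        (t + 1 + r).choose r + (t + (r + 1)).choose (r + 1) := by
      have : t + 1 + (r + 1) = (t + 1 + r) + 1 := by ring
      rw [this, Nat.choose_succ_succ]
      congr 2
      ring
    rw [h5, add_mul]
    have h6 : a + (t + 1) = a + t + 1 := by ring
    have h7 : b + (t + 1) = b + t + 1 := by ring
    rw [h6, h7] at h2 ⊢
    omega

end Pool.Agent.W944
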