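import Pool.Agent.W944.Elim

/-! # The triangular system of a computation with products, and its transposed system -/

set_option autoImplicit false

open Module MvPolynomial

namespace Pool.Agent.W944.Cx

/-- the variables: values of the products, their adjoint variables and the adjoint variables of the
two factors -/
inductive Vr (n : ℕ)
  | z (t : Fin n)
  | w (t : Fin n)
  | p (t : Fin n)
  | q (t : Fin n)
  deriving DecidableEq

/-- the order of elimination -/
def rk {n : ℕ} : Vr n → ℕ
  | .p t => 3 * t.1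
  | .q t => 3 * t.1 + 1
  | .w t => 3 * t.1 + 2
  | .z t => 3 * n + (n - 1 - t.1)

lemma rk_injective {n : ℕ} : Function.Injective (rk (n := n)) := by
  intro a b h
  cases a <;> cases b <;> simp only [rk] at h <;> rename_i s t <;>
    first
    | (congr 1; apply Fin.ext; omega)
    | (exfalso; omega)

variable {L : Type*} [Field L] {A : Type*} [CommRing A] [Algebra L A] {n : ℕ}

/-- an affine combination of the values of the earlier products -/
noncomputable def aff (l : Fin n → A) (c : Fin n → Fin n → L) (t : Fin n) :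
    MvPolynomial (Vr n) A :=
  C (l t) + ∑ j ∈ Finset.Iio t, c t j • X (Vr.z j)

variable (R : Finset (Fin n)) (la lb fa : Fin n → A) (ca cb : Fin n → Fin n → L) (gm : Fin n → L)

/-- the right-hand sides of the equations -/
noncomputable def sysp : Vr n → MvPolynomial (Vr n) A
  | .z t => if t ∈ R then aff la ca t * aff lb cb t else C (fa t) * aff lb cb t
  | .w t => algebraMap L (MvPolynomial (Vr n) A) (gm t) + ∑ j ∈ Finset.Ioi t,
      if j ∈ R then ca j t • X (Vr.p j) + cb j t • X (Vr.q j)
      else cb j t • (C (fa j) * X (Vr.w j))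
  | .p t => aff lb cb t * X (Vr.w t)
  | .q t => aff la ca t * X (Vr.w t)

lemma sysp_z (t : Fin n) : sysp R la lb fa ca cb gm (Vr.z t) =
    if t ∈ R then aff la ca t * aff lb cb t else C (fa t) * aff lb cb t := rfl

lemma sysp_w (t : Fin n) : sysp R la lb fa ca cb gm (Vr.w t) =
    algebraMap L (MvPolynomial (Vr n) A) (gm t) + ∑ j ∈ Finset.Ioi t,
      if j ∈ R then ca j t • X (Vr.p j) + cb j t • X (Vr.q j)
      else cb j t • (C (fa j) * X (Vr.w j)) := rfl

lemma sysp_p (t : Fin n) : sysp R la lb fa ca cb gm (Vr.p t) = aff lb cb t * X (Vr.w t) := rfl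

lemma sysp_q (t : Fin n) : sysp R la lb fa ca cb gm (Vr.q t) = aff la ca t * X (Vr.w t) := rfl

/-- the types of the equations -/
def ty : Vr n → Fin 4
  | .z t => if t ∈ R then 1 else 0
  | .w _ => 2
  | .p _ => 3
  | .q _ => 3

/-- the exponents of the space of polynomials -/
def αt : Fin 4 → ℕ := ![1, 2, 1, 1]
/-- the exponents of the space of values -/
def βt : Fin 4 → ℕ := ![1, 2, 0, 1]
/-- the exponents of the space of adjoint variables -/
def γt : Fin 4 → ℕ := ![0, 0, 1, 1]

/-- the variables of the products -/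
def Sz (n : ℕ) : Finset (Vr n) := Finset.univ.image Vr.z

/-- the adjoint variables -/
def Sw : Finset (Vr n) := Finset.univ.image Vr.w ∪ (R.image Vr.p ∪ R.image Vr.q)

lemma smul_mem_supported (s : Set (Vr n)) (c : L) {x : MvPolynomial (Vr n) A}
    (hx : x ∈ supported A s) : c • x ∈ supported A s := by
  rw [← algebraMap_smul A c x]
  exact Subalgebra.smul_mem _ hx _

lemma aff_supported (l : Fin n → A) (c : Fin n → Fin n → L) (t : Fin n) (s : Set (Vr n))
    (hs : ∀ j < t, Vr.z j ∈ s) : aff l c t ∈ supported A s := by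
  unfold aff
  apply Subalgebra.add_mem
  · exact Subalgebra.algebraMap_mem _ _
  · apply Subalgebra.sum_mem
    intro j hj
    exact smul_mem_supported s _ (X_mem_supported_of_mem (hs j (Finset.mem_Iio.mp hj)))
where
  X_mem_supported_of_mem {s : Set (Vr n)} {i : Vr n} (hi : i ∈ s) :
    (X i : MvPolynomial (Vr n) A) ∈ supported A s := Algebra.subset_adjoin ⟨i, hi, rfl⟩

lemma X_supp {s : Set (Vr n)} {i : Vr n} (hi : i ∈ s) :
    (X i : MvPolynomial (Vr n) A) ∈ supported A s := Algebra.subset_adjoin ⟨i, hi, rfl⟩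

lemma sysp_supported (i : Vr n) :
    sysp R la lb fa ca cb gm i ∈ supported A {j | rk i < rk j} := by
  cases i with
  | z t =>
    have h : ∀ j < t, Vr.z j ∈ {j | rk (Vr.z t) < rk j} := by
      intro j hj
      change 3 * n + (n - 1 - t.1) < 3 * n + (n - 1 - j.1)
      have := Fin.lt_def.mp hj
      omega
    rw [sysp_z]
    split_ifs
    · exact Subalgebra.mul_mem _ (aff_supported _ _ _ _ h) (aff_supported _ _ _ _ h)
    · exact Subalgebra.mul_mem _ (Subalgebra.algebraMap_mem _ _) (aff_supported _ _ _ _ h)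
  | w t =>
    rw [sysp_w]
    apply Subalgebra.add_mem
    · rw [IsScalarTower.algebraMap_apply L A]
      exact Subalgebra.algebraMap_mem _ _
    · apply Subalgebra.sum_mem
      intro j hj
      have hj' := Fin.lt_def.mp (Finset.mem_Ioi.mp hj)
      split_ifs
      · apply Subalgebra.add_mem
        · apply smul_mem_supported
          apply X_supp
          change 3 * t.1 + 2 < 3 * j.1
          omega
        · apply smul_mem_supported
          apply X_supp
          change 3 * t.1 + 2 < 3 * j.1 + 1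
          omega
      · apply smul_mem_supported
        apply Subalgebra.mul_mem _ (Subalgebra.algebraMap_mem _ _)
        apply X_supp
        change 3 * t.1 + 2 < 3 * j.1 + 2
        omega
  | p t =>
    rw [sysp_p]
    apply Subalgebra.mul_mem
    · apply aff_supported
      intro j _
      change 3 * t.1 < 3 * n + (n - 1 - j.1)
      omega
    · apply X_supp
      change 3 * t.1 < 3 * t.1 + 2
      omega
  | q t =>
    rw [sysp_q]
    apply Subalgebra.mul_mem
    · apply aff_supported
      intro j _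
      change 3 * t.1 + 1 < 3 * n + (n - 1 - j.1)
      omega
    · apply X_supp
      change 3 * t.1 + 1 < 3 * t.1 + 2
      omega

/-! ### Membership -/

variable {X₀ : Submodule L A}

lemma mem_z {t : Fin n} : (X (Vr.z t) : MvPolynomial (Vr n) A) ∈ vs L A (Sz n) :=
  X_mem_vs (Finset.mem_image_of_mem _ (Finset.mem_univ t))

lemma mem_w {t : Fin n} : (X (Vr.w t) : MvPolynomial (Vr n) A) ∈ vs L A (Sw R) :=
  X_mem_vs (Finset.mem_union_left _ (Finset.mem_image_of_mem _ (Finset.mem_univ t)))

lemma mem_p {t : Fin n} (ht : t ∈ R) : (X (Vr.p t) : MvPolynomial (Vr n) A) ∈ vs L A (Sw R) :=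
  X_mem_vs (Finset.mem_union_right _ (Finset.mem_union_left _ (Finset.mem_image_of_mem _ ht)))

lemma mem_q {t : Fin n} (ht : t ∈ R) : (X (Vr.q t) : MvPolynomial (Vr n) A) ∈ vs L A (Sw R) :=
  X_mem_vs (Finset.mem_union_right _ (Finset.mem_union_right _ (Finset.mem_image_of_mem _ ht)))

lemma mul_mem_xv {x v : MvPolynomial (Vr n) A} {V : Submodule L (MvPolynomial (Vr n) A)}
    (hx : x ∈ xs (Vr n) X₀) (hv : v ∈ V) : x * v ∈ xs (Vr n) X₀ * V :=
  Submodule.mul_mem_mul hx hv

lemma mem_xv_right (h1 : 1 ∈ X₀) {v : MvPolynomial (Vr n) A}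
    {V : Submodule L (MvPolynomial (Vr n) A)} (hv : v ∈ V) : v ∈ xs (Vr n) X₀ * V := by
  have h := Submodule.mul_mem_mul (one_mem_xs (κ := Vr n) h1) hv
  rwa [one_mul] at h

lemma mem_xv_left {x : MvPolynomial (Vr n) A}
    {V : Submodule L (MvPolynomial (Vr n) A)} (hV : 1 ∈ V) (hx : x ∈ xs (Vr n) X₀) :
    x ∈ xs (Vr n) X₀ * V := by
  have h := Submodule.mul_mem_mul hx hV
  rwa [mul_one] at h

lemma aff_mem (h1 : 1 ∈ X₀) (l : Fin n → A) (c : Fin n → Fin n → L) (t : Fin n)
    (hl : l t ∈ X₀) : aff l c t ∈ xs (Vr n) X₀ * vs L A (Sz n) := by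
  unfold aff
  apply Submodule.add_mem
  · exact mem_xv_left (one_mem_vs _) (C_mem_xs hl)
  · apply Submodule.sum_mem
    intro j _
    exact Submodule.smul_mem _ _ (mem_xv_right h1 mem_z)

lemma C_mul_aff_mem (l : Fin n → A) (c : Fin n → Fin n → L) (t : Fin n) (f : A)
    (hf : f ∈ X₀) (hfl : f * l t ∈ X₀) : C f * aff l c t ∈ xs (Vr n) X₀ * vs L A (Sz n) := by
  unfold aff
  rw [mul_add, ← C_mul, Finset.mul_sum]
  apply Submodule.add_mem
  · exact mem_xv_left (one_mem_vs _) (C_mem_xs hfl)
  · apply Submodule.sum_mem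
    intro j _
    rw [mul_smul_comm]
    exact Submodule.smul_mem _ _ (mul_mem_xv (C_mem_xs hf) mem_z)

lemma sysp_mem (h1 : 1 ∈ X₀) (hla : ∀ t ∈ R, la t ∈ X₀) (hlb : ∀ t, lb t ∈ X₀)
    (hfa : ∀ t ∉ R, fa t ∈ X₀) (hfl : ∀ t ∉ R, fa t * lb t ∈ X₀) (i : Vr n)
    (hi : i ∈ Sz n ∪ Sw R) :
    X i - sysp R la lb fa ca cb gm i ∈ xs (Vr n) X₀ ^ αt (ty R i) * vs L A (Sz n) ^ βt (ty R i) *
      vs L A (Sw R) ^ γt (ty R i) := by
  cases i with
  | z t =>
    by_cases ht : t ∈ R
    · have e : ty R (Vr.z t) = 1 := by change (if t ∈ R then (1 : Fin 4) else 0) = 1; rw [if_pos ht]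
      rw [e, sysp_z, if_pos ht]
      change _ ∈ xs (Vr n) X₀ ^ 2 * vs L A (Sz n) ^ 2 * vs L A (Sw R) ^ 0
      rw [pow_zero, mul_one, ← mul_pow, pow_two]
      apply Submodule.sub_mem
      · have h := Submodule.mul_mem_mul (mem_xv_right (n := n) h1 (mem_z (L := L) (t := t)))
          (mem_xv_right (n := n) h1 (one_mem_vs (K := L) (A := A) (Sz n)))
        rwa [mul_one] at h
      · exact Submodule.mul_mem_mul (aff_mem h1 _ _ _ (hla t ht)) (aff_mem h1 _ _ _ (hlb t))
    · have e : ty R (Vr.z t) = 0 := by change (if t ∈ R then (1 : Fin 4) else 0) = 0; rw [if_neg ht]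
      rw [e, sysp_z, if_neg ht]
      change _ ∈ xs (Vr n) X₀ ^ 1 * vs L A (Sz n) ^ 1 * vs L A (Sw R) ^ 0
      rw [pow_zero, mul_one, pow_one, pow_one]
      apply Submodule.sub_mem
      · exact mem_xv_right h1 mem_z
      · exact C_mul_aff_mem _ _ _ _ (hfa t ht) (hfl t ht)
  | w t =>
    change _ ∈ xs (Vr n) X₀ ^ 1 * vs L A (Sz n) ^ 0 * vs L A (Sw R) ^ 1
    rw [pow_zero, mul_one, pow_one, pow_one, sysp_w]
    apply Submodule.sub_mem
    · exact mem_xv_right h1 (mem_w R)
    · apply Submodule.add_mem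
      · rw [Algebra.algebraMap_eq_smul_one]
        exact Submodule.smul_mem _ _ (mem_xv_right h1 (one_mem_vs _))
      · apply Submodule.sum_mem
        intro j _
        split_ifs with hj
        · apply Submodule.add_mem
          · exact Submodule.smul_mem _ _ (mem_xv_right h1 (mem_p R hj))
          · exact Submodule.smul_mem _ _ (mem_xv_right h1 (mem_q R hj))
        · exact Submodule.smul_mem _ _ (mul_mem_xv (C_mem_xs (hfa j hj)) (mem_w R))
  | p t =>
    have ht : t ∈ R := by
      rcases Finset.mem_union.mp hi with h | h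
      · obtain ⟨s, _, hs⟩ := Finset.mem_image.mp h
        cases hs
      · rcases Finset.mem_union.mp h with h | h
        · obtain ⟨s, _, hs⟩ := Finset.mem_image.mp h
          cases hs
        · rcases Finset.mem_union.mp h with h | h
          · obtain ⟨s, hs1, hs⟩ := Finset.mem_image.mp h
            cases hs
            exact hs1
          · obtain ⟨s, _, hs⟩ := Finset.mem_image.mp h
            cases hs
    change _ ∈ xs (Vr n) X₀ ^ 1 * vs L A (Sz n) ^ 1 * vs L A (Sw R) ^ 1
    rw [pow_one, pow_one, pow_one, sysp_p]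
    apply Submodule.sub_mem
    · have h := Submodule.mul_mem_mul (mem_xv_right (n := n) h1 (one_mem_vs (K := L) (A := A)
        (Sz n))) (mem_p (L := L) (A := A) R ht)
      rwa [one_mul] at h
    · exact Submodule.mul_mem_mul (aff_mem h1 _ _ _ (hlb t)) (mem_w R)
  | q t =>
    have ht : t ∈ R := by
      rcases Finset.mem_union.mp hi with h | h
      · obtain ⟨s, _, hs⟩ := Finset.mem_image.mp h
        cases hs
      · rcases Finset.mem_union.mp h with h | h
        · obtain ⟨s, _, hs⟩ := Finset.mem_image.mp h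
          cases hs
        · rcases Finset.mem_union.mp h with h | h
          · obtain ⟨s, _, hs⟩ := Finset.mem_image.mp h
            cases hs
          · obtain ⟨s, hs1, hs⟩ := Finset.mem_image.mp h
            cases hs
            exact hs1
    change _ ∈ xs (Vr n) X₀ ^ 1 * vs L A (Sz n) ^ 1 * vs L A (Sw R) ^ 1
    rw [pow_one, pow_one, pow_one, sysp_q]
    apply Submodule.sub_mem
    · have h := Submodule.mul_mem_mul (mem_xv_right (n := n) h1 (one_mem_vs (K := L) (A := A)
        (Sz n))) (mem_q (L := L) (A := A) R ht)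
      rwa [one_mul] at h
    · exact Submodule.mul_mem_mul (aff_mem h1 _ _ _ (hla t ht)) (mem_w R)

end Pool.Agent.W944.Cx
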