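import Pool.Agent.W944.Sys

/-! # Evaluation of the triangular system, and the dimension inequality -/

set_option autoImplicit false

open Module MvPolynomial

namespace Pool.Agent.W944.Cx

section Upper

variable {L : Type*} [Field L] {A : Type*} [CommRing A] [Algebra L A] {κ : Type*}

lemma DM_id_le {X₀ : Submodule L A} (hX : X₀.FG) (S T : Finset κ) (a b c : ℕ) :
    DM X₀ S T (AlgHom.id A (MvPolynomial κ A)) a b c ≤
      finrank L ↥(X₀ ^ a) * (S.card + 1).multichoose b * (T.card + 1).multichoose c := by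
  have hid : ∀ S : Finset κ, (vs L A S).map
      (rs (K := L) (AlgHom.id A (MvPolynomial κ A))).toLinearMap = vs L A S := by
    intro S
    exact Submodule.map_id _
  have hc : ∀ (S : Finset κ) (b : ℕ), finrank L ↥(vs L A S ^ b) ≤ (S.card + 1).multichoose b := by
    intro S b
    have h := finrank_pow_span_le (K := L) (fun o : Option S =>
      (o.elim 1 fun i => X i.1 : MvPolynomial κ A)) b
    rw [Fintype.card_option, Fintype.card_coe] at h
    exact h
  have hx : finrank L ↥(xs κ X₀ ^ a) ≤ finrank L ↥(X₀ ^ a) := by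
    unfold xs
    rw [← Submodule.map_pow]
    have : FiniteDimensional L ↥(X₀ ^ a) := Module.Finite.iff_fg.mpr (hX.pow a)
    exact Submodule.finrank_map_le _ _
  unfold DM
  rw [hid, hid]
  unfold dm pr
  calc _ ≤ finrank L ↥(xs κ X₀ ^ a * vs L A S ^ b) * finrank L ↥(vs L A T ^ c) :=
        finrank_mul_le _ _ (((xs_fg hX).pow _).mul ((vs_fg S).pow _)) ((vs_fg T).pow _)
    _ ≤ _ := by
        apply Nat.mul_le_mul _ (hc T c)
        exact (finrank_mul_le _ _ ((xs_fg hX).pow _) ((vs_fg S).pow _)).trans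
          (Nat.mul_le_mul hx (hc S b))

end Upper

section Counts

variable {n : ℕ} (R : Finset (Fin n))

lemma card_Sz : (Sz n).card = n := by
  unfold Sz
  rw [Finset.card_image_of_injective _ (fun a b h => by cases h; rfl), Finset.card_univ,
    Fintype.card_fin]

lemma card_Sw : (Sw R).card = n + 2 * R.card := by
  unfold Sw
  rw [Finset.card_union_of_disjoint, Finset.card_union_of_disjoint,
    Finset.card_image_of_injective _ (fun a b h => by cases h; rfl),
    Finset.card_image_of_injective _ (fun a b h => by cases h; rfl),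
    Finset.card_image_of_injective _ (fun a b h => by cases h; rfl), Finset.card_univ,
    Fintype.card_fin]
  · ring
  · rw [Finset.disjoint_left]
    intro x hx hy
    obtain ⟨s, _, rfl⟩ := Finset.mem_image.mp hx
    obtain ⟨s', _, h⟩ := Finset.mem_image.mp hy
    cases h
  · rw [Finset.disjoint_left]
    intro x hx hy
    obtain ⟨s, _, rfl⟩ := Finset.mem_image.mp hx
    rcases Finset.mem_union.mp hy with hy | hy
    · obtain ⟨s', _, h⟩ := Finset.mem_image.mp hy
      cases h
    · obtain ⟨s', _, h⟩ := Finset.mem_image.mp hy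
      cases h

lemma ty_z (t : Fin n) : ty R (Vr.z t) = if t ∈ R then 1 else 0 := rfl
lemma ty_w (t : Fin n) : ty R (Vr.w t) = 2 := rfl
lemma ty_p (t : Fin n) : ty R (Vr.p t) = 3 := rfl
lemma ty_q (t : Fin n) : ty R (Vr.q t) = 3 := rfl

lemma cnt0 : ((Sz n ∪ Sw R).filter (ty R · = 0)).card = n - R.card := by
  have h : (Sz n ∪ Sw R).filter (ty R · = 0) = (Finset.univ \ R).image Vr.z := by
    ext i
    rw [Finset.mem_filter]
    cases i <;> simp [Sz, Sw, ty_z, ty_w, ty_p, ty_q]
  rw [h, Finset.card_image_of_injective _ (fun a b h => by cases h; rfl),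
    Finset.card_sdiff_of_subset (Finset.subset_univ R), Finset.card_univ, Fintype.card_fin]

lemma cnt1 : ((Sz n ∪ Sw R).filter (ty R · = 1)).card = R.card := by
  have h : (Sz n ∪ Sw R).filter (ty R · = 1) = R.image Vr.z := by
    ext i
    rw [Finset.mem_filter]
    cases i <;> simp [Sz, Sw, ty_z, ty_w, ty_p, ty_q]
  rw [h, Finset.card_image_of_injective _ (fun a b h => by cases h; rfl)]

lemma cnt2 : ((Sz n ∪ Sw R).filter (ty R · = 2)).card = n := by
  have h : (Sz n ∪ Sw R).filter (ty R · = 2) = Finset.univ.image Vr.w := by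
    ext i
    rw [Finset.mem_filter]
    cases i <;> simp [Sz, Sw, ty_z, ty_w, ty_p, ty_q]
    split_ifs <;> decide
  rw [h, Finset.card_image_of_injective _ (fun a b h => by cases h; rfl), Finset.card_univ,
    Fintype.card_fin]

lemma cnt3 : ((Sz n ∪ Sw R).filter (ty R · = 3)).card = 2 * R.card := by
  have h : (Sz n ∪ Sw R).filter (ty R · = 3) = R.image Vr.p ∪ R.image Vr.q := by
    ext i
    rw [Finset.mem_filter]
    cases i <;> simp [Sz, Sw, ty_z, ty_w, ty_p, ty_q]
    split_ifs <;> decide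
  rw [h, Finset.card_union_of_disjoint,
    Finset.card_image_of_injective _ (fun a b h => by cases h; rfl),
    Finset.card_image_of_injective _ (fun a b h => by cases h; rfl)]
  · ring
  · rw [Finset.disjoint_left]
    intro x hx hy
    obtain ⟨s, _, rfl⟩ := Finset.mem_image.mp hx
    obtain ⟨s', _, h⟩ := Finset.mem_image.mp hy
    cases h

lemma pc_val (t : Fin 4 → ℕ) : pc (ty R) (Sz n ∪ Sw R) t =
    (t 0 + (n - R.card)).choose (n - R.card) * (t 1 + R.card).choose R.card *
      (t 2 + n).choose n * (t 3 + 2 * R.card).choose (2 * R.card) := by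
  unfold pc
  rw [Fin.prod_univ_four, cnt0, cnt1, cnt2, cnt3]

end Counts

variable {L : Type*} [Field L] {A : Type*} [CommRing A] [Algebra L A] {n : ℕ}

/-- the evaluation at the values of the computation -/
noncomputable def evs (a' b' w : Fin n → A) : MvPolynomial (Vr n) A →ₐ[A] A :=
  aeval fun i => match i with
    | .z t => a' t * b' t
    | .w t => w t
    | .p t => b' t * w t
    | .q t => a' t * w t

variable (a' b' w : Fin n → A)

lemma evs_z (t : Fin n) : evs a' b' w (X (Vr.z t)) = a' t * b' t := by unfold evs; rw [aeval_X]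
lemma evs_w (t : Fin n) : evs a' b' w (X (Vr.w t)) = w t := by unfold evs; rw [aeval_X]
lemma evs_p (t : Fin n) : evs a' b' w (X (Vr.p t)) = b' t * w t := by unfold evs; rw [aeval_X]
lemma evs_q (t : Fin n) : evs a' b' w (X (Vr.q t)) = a' t * w t := by unfold evs; rw [aeval_X]

lemma evs_C (x : A) : evs a' b' w (C x) = x := (evs a' b' w).commutes x

lemma evs_smul (c : L) (x : MvPolynomial (Vr n) A) :
    evs a' b' w (c • x) = c • evs a' b' w x := map_smul (rs (K := L) (evs a' b' w)) c x

lemma evs_aff (l : Fin n → A) (c : Fin n → Fin n → L) (t : Fin n) :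
    evs a' b' w (aff l c t) = l t + ∑ j ∈ Finset.Iio t, c t j • (a' j * b' j) := by
  unfold aff
  rw [map_add, evs_C, map_sum]
  congr 1
  apply Finset.sum_congr rfl
  intro j _
  rw [evs_smul, evs_z]

variable {a' b' w} {R : Finset (Fin n)} {la lb fa : Fin n → A} {ca cb : Fin n → Fin n → L}
  {gm : Fin n → L}

lemma evs_sys (hb : ∀ t, b' t = lb t + ∑ j ∈ Finset.Iio t, cb t j • (a' j * b' j))
    (ha : ∀ t ∈ R, a' t = la t + ∑ j ∈ Finset.Iio t, ca t j • (a' j * b' j))
    (hfa : ∀ t ∉ R, fa t = a' t)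
    (hw : ∀ t, w t = algebraMap L A (gm t) + ∑ j ∈ Finset.Ioi t,
      if j ∈ R then ca j t • (b' j * w j) + cb j t • (a' j * w j)
      else cb j t • (a' j * w j)) (i : Vr n) (hi : i ∈ Sz n ∪ Sw R) :
    evs a' b' w (X i) = evs a' b' w (sysp R la lb fa ca cb gm i) := by
  cases i with
  | z t =>
    rw [evs_z, sysp_z]
    split_ifs with ht
    · rw [map_mul, evs_aff, evs_aff, ← hb, ← ha t ht]
    · rw [map_mul, evs_aff, ← hb, evs_C, hfa t ht]
  | w t =>
    rw [evs_w, sysp_w, hw t, map_add, map_sum, IsScalarTower.algebraMap_apply L A]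
    congr 1
    · exact (AlgHom.commutes _ _).symm
    · apply Finset.sum_congr rfl
      intro j _
      split_ifs with hj
      · rw [map_add, evs_smul, evs_smul, evs_p, evs_q]
      · rw [evs_smul, map_mul, evs_C, evs_w, hfa j hj]
  | p t =>
    rw [evs_p, sysp_p, map_mul, evs_aff, evs_w, ← hb]
  | q t =>
    have ht : t ∈ R := by
      rcases Finset.mem_union.mp hi with h | h
      · obtain ⟨s, _, hs⟩ := Finset.mem_image.mp h
        cases hs
      · rcases Finset.mem_union.mp h with h | h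
        · obtain ⟨s, _, hs⟩ := Finset.mem_image.mp h
          cases hs
        · rcases Finset.mem_union.mp h with h | h
          · obtain ⟨s, _, hs⟩ := Finset.mem_image.mp h
            cases hs
          · obtain ⟨s, hs1, hs⟩ := Finset.mem_image.mp h
            cases hs
            exact hs1
    rw [evs_q, sysp_q, map_mul, evs_aff, evs_w, ← ha t ht]

/-- the solution of the transposed system -/
noncomputable def wsol (g : Fin n → A) (c : Fin n → Fin n → A) (t : Fin n) : A :=
  g t + ∑ j ∈ (Finset.Ioi t).attach, c j.1 t * wsol g c j.1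
termination_by n - t.1
decreasing_by
  have := Fin.lt_def.mp (Finset.mem_Ioi.mp j.2)
  omega

lemma wsol_eq (g : Fin n → A) (c : Fin n → Fin n → A) (t : Fin n) :
    wsol g c t = g t + ∑ j ∈ Finset.Ioi t, c j t * wsol g c j := by
  rw [wsol, Finset.sum_attach (Finset.Ioi t) (fun j => c j t * wsol g c j)]

/-- **Dimension inequality for a computation.** -/
theorem circ_dim [IsDomain A] {X₀ : Submodule L A} (hX : X₀.FG) (h1 : 1 ∈ X₀)
    (hla : ∀ t ∈ R, la t ∈ X₀) (hlb : ∀ t, lb t ∈ X₀)
    (hfa' : ∀ t ∉ R, fa t ∈ X₀) (hfl : ∀ t ∉ R, fa t * lb t ∈ X₀)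
    (hb : ∀ t, b' t = lb t + ∑ j ∈ Finset.Iio t, cb t j • (a' j * b' j))
    (ha : ∀ t ∈ R, a' t = la t + ∑ j ∈ Finset.Iio t, ca t j • (a' j * b' j))
    (hfa : ∀ t ∉ R, fa t = a' t)
    (hw : ∀ t, w t = algebraMap L A (gm t) + ∑ j ∈ Finset.Ioi t,
      if j ∈ R then ca j t • (b' j * w j) + cb j t • (a' j * w j)
      else cb j t • (a' j * w j)) (a b c t₀ t₁ t₂ t₃ : ℕ) :
    (t₀ + (n - R.card)).choose (n - R.card) * (t₁ + R.card).choose R.card *
      (t₂ + n).choose n * (t₃ + 2 * R.card).choose (2 * R.card) *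
      DE X₀ (Sz n) (Sw R) (evs a' b' w) a b c ≤
    finrank L ↥(X₀ ^ (a + (t₀ + 2 * t₁ + t₂ + t₃))) *
      (n + 1).multichoose (b + (t₀ + 2 * t₁ + t₃)) *
      (n + 2 * R.card + 1).multichoose (c + (t₂ + t₃)) := by
  have h := elimination (T := Fin 4) hX h1 rk rk_injective (ty R) αt βt γt
    (sysp R la lb fa ca cb gm) (evs a' b' w) a b c (Sz n ∪ Sw R)
    (fun i _ => sysp_supported R la lb fa ca cb gm i)
    (fun i hi => sysp_mem R la lb fa ca cb gm h1 hla hlb hfa' hfl i hi)
    (fun i hi => evs_sys hb ha hfa hw i hi) ![t₀, t₁, t₂, t₃] (AlgHom.id A _)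
    (fun _ _ _ _ => rfl) (AlgHom.comp_id _)
  rw [pc_val] at h
  have s1 : ∑ y, ![t₀, t₁, t₂, t₃] y * αt y = t₀ + 2 * t₁ + t₂ + t₃ := by
    rw [Fin.sum_univ_four]
    change t₀ * 1 + t₁ * 2 + t₂ * 1 + t₃ * 1 = _
    ring
  have s2 : ∑ y, ![t₀, t₁, t₂, t₃] y * βt y = t₀ + 2 * t₁ + t₃ := by
    rw [Fin.sum_univ_four]
    change t₀ * 1 + t₁ * 2 + t₂ * 0 + t₃ * 1 = _
    ring
  have s3 : ∑ y, ![t₀, t₁, t₂, t₃] y * γt y = t₂ + t₃ := by
    rw [Fin.sum_univ_four]
    change t₀ * 0 + t₁ * 0 + t₂ * 1 + t₃ * 1 = _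
    ring
  rw [s1, s2, s3] at h
  have h2 := h.trans (DM_id_le hX _ _ _ _ _)
  rw [card_Sz, card_Sw] at h2
  exact h2

end Pool.Agent.W944.Cx
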