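import Pool.Agent.W944.Step

/-! # Upper bounds for the dimensions of products -/

set_option autoImplicit false

open Module

namespace Pool.Agent.W944

variable {K A : Type*} [Field K] [CommRing A] [Algebra K A]

lemma finrank_mul_le (M N : Submodule K A) (hM : M.FG) (hN : N.FG) :
    finrank K ↥(M * N) ≤ finrank K ↥M * finrank K ↥N := by
  have : FiniteDimensional K ↥M := Module.Finite.iff_fg.mpr hM
  have : FiniteDimensional K ↥N := Module.Finite.iff_fg.mpr hN
  rw [← Submodule.mulMap_range M N, ← finrank_tensorProduct (R := K) (M := ↥M) (M' := ↥N)]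
  exact LinearMap.finrank_range_le _

lemma pow_span_le {γ : Type*} (y : γ → A) (b : ℕ) :
    (Submodule.span K (Set.range y)) ^ b ≤
      Submodule.span K (Set.range fun m : Sym γ b => (m.1.map y).prod) := by
  induction b with
  | zero =>
    rw [pow_zero, Submodule.one_eq_span]
    apply Submodule.span_mono
    rintro x hx
    rw [Set.mem_singleton_iff] at hx
    exact ⟨Sym.nil, by simp [hx]⟩
  | succ b ih =>
    rw [pow_succ]
    refine (mul_le_mul' ih le_rfl).trans ?_
    rw [Submodule.span_mul_span, Submodule.span_le]
    rintro _ ⟨_, ⟨m, rfl⟩, _, ⟨i, rfl⟩, rfl⟩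
    apply Submodule.subset_span
    refine ⟨Sym.cons i m, ?_⟩
    change (Multiset.map y ↑(i ::ₛ m)).prod = (Multiset.map y ↑m).prod * y i
    rw [Sym.coe_cons, Multiset.map_cons, Multiset.prod_cons, mul_comm]

lemma finrank_pow_span_le {γ : Type*} [Fintype γ] (y : γ → A) (b : ℕ) :
    finrank K ↥((Submodule.span K (Set.range y)) ^ b) ≤ (Fintype.card γ).multichoose b := by
  classical
  have h1 := pow_span_le (K := K) y b
  have h2 : FiniteDimensional K
      ↥(Submodule.span K (Set.range fun m : Sym γ b => (m.1.map y).prod)) :=
    FiniteDimensional.span_of_finite K (Set.finite_range _)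
  refine (Submodule.finrank_mono h1).trans ?_
  rw [← Sym.card_sym_eq_multichoose]
  exact finrank_range_le_card (R := K) _

/-- the upper bound for three families of generators -/
lemma dm_le {α β γ : Type*} [Fintype α] [Fintype β] [Fintype γ] (x : α → A) (y : β → A)
    (z : γ → A) (a b c : ℕ) :
    dm (Submodule.span K (Set.range x)) (Submodule.span K (Set.range y))
      (Submodule.span K (Set.range z)) a b c ≤
      (Fintype.card α).multichoose a * (Fintype.card β).multichoose b *
        (Fintype.card γ).multichoose c := by
  have hx : (Submodule.span K (Set.range x)).FG := Submodule.fg_span (Set.finite_range _)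
  have hy : (Submodule.span K (Set.range y)).FG := Submodule.fg_span (Set.finite_range _)
  have hz : (Submodule.span K (Set.range z)).FG := Submodule.fg_span (Set.finite_range _)
  unfold dm pr
  calc _ ≤ finrank K ↥(Submodule.span K (Set.range x) ^ a * Submodule.span K (Set.range y) ^ b) *
        finrank K ↥(Submodule.span K (Set.range z) ^ c) :=
        finrank_mul_le _ _ ((hx.pow _).mul (hy.pow _)) (hz.pow _)
    _ ≤ _ := by
        apply Nat.mul_le_mul _ (finrank_pow_span_le z c)
        exact (finrank_mul_le _ _ (hx.pow _) (hy.pow _)).trans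
          (Nat.mul_le_mul (finrank_pow_span_le x a) (finrank_pow_span_le y b))

end Pool.Agent.W944
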