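import Pool.Agent.W944.WtDim
import Pool.Agent.W944.CircLead

/-! # Limits of computations with weights: the explicit inequality -/

set_option autoImplicit false
set_option linter.unusedSectionVars false

open Module MvPolynomial Topology

namespace Pool.Agent.W944.Wt

open Pool.Agent.H546R2.SL (Nm exists_degree_bound spanning finrank_restrict)
open Pool.Agent.H632R2.Border
open Pool.Agent.W944.Cx (Nm_ge fact_le self_pow_pos)

/-- comparison of leading coefficients -/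
lemma wlead (M D e Ω c K : ℝ) (hM : 0 ≤ M) (hD : 0 ≤ D) (he : 0 ≤ e) (hΩ : 0 ≤ Ω) (m k : ℕ)
    (Pd Pw : ℝ) (hPd : 0 < Pd) (hPw : 0 < Pw)
    (h : ∀ s : ℕ, 1 ≤ s → (Ω * M * s) ^ m / (m.factorial * Pd) * ((e * D * s) ^ k / k.factorial) ≤
      (Ω * M * s + Ω * (D * s + c) + K) ^ (k + m) / ((k + m).factorial * Pw)) :
    (Ω * M) ^ m / (m.factorial * Pd) * ((e * D) ^ k / k.factorial) ≤
      (Ω * (M + D)) ^ (k + m) / ((k + m).factorial * Pw) := by
  set f : ℝ → ℝ := fun x => (Ω * (M + D) + (Ω * c + K) * x) ^ (k + m) / ((k + m).factorial * Pw)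
    with hf
  have hfc : Continuous f := by
    rw [hf]; fun_prop
  have key : ∀ s : ℕ, 1 ≤ s → (Ω * M) ^ m / (m.factorial * Pd) * ((e * D) ^ k / k.factorial) ≤
      f (1 / (s : ℝ)) := by
    intro s hs
    have hT : (0 : ℝ) < s := by exact_mod_cast hs
    have h1 := h s hs
    have e1 : (Ω * M * s) ^ m / (m.factorial * Pd) * ((e * D * s) ^ k / k.factorial) =
        (s : ℝ) ^ (k + m) * ((Ω * M) ^ m / (m.factorial * Pd) * ((e * D) ^ k / k.factorial)) := by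
      rw [mul_pow, mul_pow (e * D), pow_add]
      ring
    have e2 : (Ω * M * s + Ω * (D * s + c) + K) ^ (k + m) / ((k + m).factorial * Pw) =
        (s : ℝ) ^ (k + m) * f (1 / (s : ℝ)) := by
      rw [hf]
      have e3 : Ω * M * s + Ω * (D * s + c) + K =
          s * (Ω * (M + D) + (Ω * c + K) * (1 / s)) := by
        field_simp
        ring
      rw [e3, mul_pow]
      ring
    rw [e1, e2] at h1
    exact le_of_mul_le_mul_left h1 (by positivity)
  have hlim : Filter.Tendsto (fun s : ℕ => f (1 / (s : ℝ))) Filter.atTop (𝓝 (f 0)) :=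
    (hfc.tendsto 0).comp (tendsto_one_div_atTop_nhds_zero_nat)
  have h0 : (Ω * M) ^ m / (m.factorial * Pd) * ((e * D) ^ k / k.factorial) ≤ f 0 := by
    apply ge_of_tendsto hlim
    filter_upwards [Filter.eventually_ge_atTop 1] with s hs using key s hs
  rw [hf] at h0
  simpa using h0

/-- the explicit form -/
lemma wexpl (m k e Ω : ℕ) (hk : 0 < k) (hΩ : 0 < Ω) (Pd Pw : ℝ) (hPd : 0 < Pd) (hPw : 0 < Pw)
    (h : ((Ω : ℝ) * m) ^ m / (m.factorial * Pd) * (((e : ℝ) * k) ^ k / k.factorial) ≤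
      ((Ω : ℝ) * (m + k)) ^ (k + m) / ((k + m).factorial * Pw)) :
    (e : ℝ) ^ k * Pw ≤ (Ω : ℝ) ^ k * Pd * (Real.exp 2 * (m + 1) * (k + 1)) := by
  have hm0 := self_pow_pos m
  have hk0 : (0 : ℝ) < (k : ℝ) ^ k := self_pow_pos k
  have hΩr : (0 : ℝ) < Ω := by exact_mod_cast hΩ
  have hfm : (0 : ℝ) < m.factorial := by positivity
  have hfk : (0 : ℝ) < k.factorial := by positivity
  have h1 := fact_le m
  have h2 := fact_le k
  have h3 := Real.pow_div_factorial_le_exp ((k + m : ℕ) : ℝ) (by positivity) (k + m)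
  have hsum : ((Ω : ℝ) * (m + k)) ^ (k + m) / ((k + m).factorial * Pw) ≤
      (Ω : ℝ) ^ (k + m) * Real.exp ((k + m : ℕ)) / Pw := by
    have e1 : ((Ω : ℝ) * (m + k)) ^ (k + m) / ((k + m).factorial * Pw) =
        (Ω : ℝ) ^ (k + m) * (((k + m : ℕ) : ℝ) ^ (k + m) / (k + m).factorial) / Pw := by
      rw [mul_pow]
      push_cast
      rw [add_comm (m : ℝ) (k : ℝ)]
      field_simp
    rw [e1]
    gcongr
  have h4 := h.trans hsum
  rw [le_div_iff₀ hPw] at h4
  -- multiply by everything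
  have h5 : (m : ℝ) ^ m * ((e : ℝ) ^ k * (k : ℝ) ^ k) * Pw ≤
      (Ω : ℝ) ^ k * Pd * (m.factorial * k.factorial * Real.exp ((k + m : ℕ))) := by
    have h6 := mul_le_mul_of_nonneg_left h4
      (show (0 : ℝ) ≤ m.factorial * Pd * k.factorial / (Ω : ℝ) ^ m by positivity)
    have e1 : (m.factorial : ℝ) * Pd * k.factorial / (Ω : ℝ) ^ m *
        (((Ω : ℝ) * m) ^ m / (m.factorial * Pd) * (((e : ℝ) * k) ^ k / k.factorial) * Pw) =
        (m : ℝ) ^ m * ((e : ℝ) ^ k * (k : ℝ) ^ k) * Pw := by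
      rw [mul_pow, mul_pow]
      field_simp
    have e2 : (m.factorial : ℝ) * Pd * k.factorial / (Ω : ℝ) ^ m *
        ((Ω : ℝ) ^ (k + m) * Real.exp ((k + m : ℕ))) =
        (Ω : ℝ) ^ k * Pd * (m.factorial * k.factorial * Real.exp ((k + m : ℕ))) := by
      rw [pow_add]
      field_simp
    rw [e1, e2] at h6
    exact h6
  have h6 : (m.factorial : ℝ) * k.factorial * Real.exp ((k + m : ℕ)) ≤
      (Real.exp 2 * (m + 1) * (k + 1)) * ((m : ℝ) ^ m * (k : ℝ) ^ k) := by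
    have e1 : Real.exp ((k + m : ℕ)) = Real.exp m * Real.exp k := by
      rw [← Real.exp_add]
      congr 1
      push_cast
      ring
    have e2 : Real.exp 2 = Real.exp 1 * Real.exp 1 := by
      rw [← Real.exp_add]
      norm_num
    rw [e1, e2]
    calc (m.factorial : ℝ) * k.factorial * (Real.exp m * Real.exp k)
        = (Real.exp m * m.factorial) * (Real.exp k * k.factorial) := by ring
      _ ≤ (Real.exp 1 * (m + 1) * (m : ℝ) ^ m) * (Real.exp 1 * (k + 1) * (k : ℝ) ^ k) := by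
          gcongr
      _ = _ := by ring
  have h7 : ((m : ℝ) ^ m * (k : ℝ) ^ k) * ((e : ℝ) ^ k * Pw) ≤
      ((m : ℝ) ^ m * (k : ℝ) ^ k) * ((Ω : ℝ) ^ k * Pd * (Real.exp 2 * (m + 1) * (k + 1))) := by
    calc ((m : ℝ) ^ m * (k : ℝ) ^ k) * ((e : ℝ) ^ k * Pw) =
        (m : ℝ) ^ m * ((e : ℝ) ^ k * (k : ℝ) ^ k) * Pw := by ring
      _ ≤ (Ω : ℝ) ^ k * Pd * (m.factorial * k.factorial * Real.exp ((k + m : ℕ))) := h5
      _ ≤ (Ω : ℝ) ^ k * Pd * ((Real.exp 2 * (m + 1) * (k + 1)) *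
          ((m : ℝ) ^ m * (k : ℝ) ^ k)) := by gcongr
      _ = _ := by ring
  exact le_of_mul_le_mul_left h7 (by positivity)

variable {Ω₀ L : Type*} [Field Ω₀] [Field L] {σ ι : Type*}
  {O : ValuationSubring L} {φ : O →+* Ω₀} {j : Ω₀ →+* O}

/-- **The inequality for limits of weighted computations.** -/
theorem wborder [IsAlgClosed Ω₀] [Fintype ι] (hj : ∀ c, φ (j c) = c)
    (S : σ → MvPolynomial ι Ω₀) (hS : ∀ v, (S v).totalDegree ≤ 1) (f : MvPolynomial σ Ω₀)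
    {V : Type*} (y : V → MvPolynomial ι Ω₀) (e : ℕ) (he : 0 < e)
    (hy : ∀ v, (y v).IsHomogeneous e)
    (hz : ∀ x : ι → Ω₀, (∀ v, eval x (y v) = 0) → x = 0)
    (hyS : ∀ v, ∃ (c : Ω₀) (u : σ), y v = C c * aeval S (pderiv u f))
    (hι : 0 < Fintype.card ι) {n : ℕ}
    (wz wv A B dz dv : Fin n → ℕ) (Ω : ℕ)
    (a b : Fin n → MvPolynomial σ L) (qa qb : Fin n → MvPolynomial σ L)
    (ca cb : Fin n → Fin n → L) (gm : Fin n → L)
    (ha : ∀ t, a t = qa t + ∑ j ∈ Finset.Iio t, ca t j • (a j * b j))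
    (hb : ∀ t, b t = qb t + ∑ j ∈ Finset.Iio t, cb t j • (a j * b j))
    (qf : MvPolynomial σ L)
    (hqa : ∀ t, (qa t).totalDegree ≤ A t) (hqb : ∀ t, (qb t).totalDegree ≤ B t)
    (hqf : qf.totalDegree ≤ Ω)
    (hca : ∀ t, ∀ j < t, ca t j ≠ 0 → wz j ≤ A t) (hcb : ∀ t, ∀ j < t, cb t j ≠ 0 → wz j ≤ B t)
    (hwz : ∀ t, 0 < wz t) (hwv : ∀ t, 0 < wv t)
    (hz1 : ∀ t, wz t ≤ dz t) (hz2 : ∀ t, A t + B t ≤ dz t) (hv1 : ∀ t, wv t ≤ dv t)
    (hv2 : ∀ t, ∀ j > t, ca j t ≠ 0 → B j + wv j ≤ dv t)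
    (hv3 : ∀ t, ∀ j > t, cb j t ≠ 0 → A j + wv j ≤ dv t)
    (hΩ : ∀ t, A t + B t + wv t ≤ Ω) (hΩ1 : 1 ≤ Ω)
    (F : MvPolynomial σ O) (hF : map O.subtype F = qf + ∑ j, gm j • (a j * b j))
    (hf : map φ F = f) :
    (e : ℝ) ^ (Fintype.card ι) * ((∏ t, (wz t : ℝ)) * ∏ t, (wv t : ℝ)) ≤
      (Ω : ℝ) ^ (Fintype.card ι) * ((∏ t, (dz t : ℝ)) * ∏ t, (dv t : ℝ)) *
        (Real.exp 2 * ((2 * n : ℕ) + 1) * (Fintype.card ι + 1)) := by
  classical
  set S' : σ → MvPolynomial ι L := fun v => map (O.subtype.comp j) (S v) with hS'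
  have hS'd : ∀ v, (S' v).totalDegree ≤ 1 := fun v => (totalDegree_map_le _ _).trans (hS v)
  obtain ⟨W, hWfg, hW1, hWd, hWdim⟩ := wprog_dim S' hS'd wz wv A B dz dv Ω a b qa qb ca cb gm
    ha hb qf (map O.subtype F) hF hqa hqb hqf hca hcb hwz hwv hz1 hz2 hv1 hv2 hv3 hΩ hΩ1
  have hyW : ∀ v, y v ∈ spec O φ j hj W := by
    intro v
    obtain ⟨c, u, hcu⟩ := hyS v
    rw [hcu, ← smul_eq_C_mul]
    apply Submodule.smul_mem
    refine ⟨aeval (fun v => map j (S v)) (pderiv u F), ?_, ?_⟩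
    · have h1 := hWd u
      rw [map_aeval_comm]
      have h2 : (fun v => map O.subtype (map j (S v))) = S' := by
        funext v; rw [MvPolynomial.map_map]
      rw [h2, ← pderiv_map]
      exact h1
    · rw [map_aeval_comm]
      have h2 : (fun v => map φ (map j (S v))) = S := by
        funext v
        rw [MvPolynomial.map_map]
        have : φ.comp j = RingHom.id Ω₀ := RingHom.ext hj
        rw [this, MvPolynomial.map_id]
      rw [h2, ← pderiv_map, hf]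
  obtain ⟨M, hM⟩ := exists_degree_bound y hz
  have hspan := spanning y e he hy M hM _ (restrict_le_spec (O := O) (φ := φ) (j := j) (hj := hj)
    hW1) hyW
  set D := Fintype.card ι with hD
  have hPd : (0 : ℝ) < (∏ t, (dz t : ℝ)) * ∏ t, (dv t : ℝ) := by
    apply mul_pos
    · exact Finset.prod_pos fun t _ => by exact_mod_cast lt_of_lt_of_le (hwz t) (hz1 t)
    · exact Finset.prod_pos fun t _ => by exact_mod_cast lt_of_lt_of_le (hwv t) (hv1 t)
  have hPw : (0 : ℝ) < (∏ t, (wz t : ℝ)) * ∏ t, (wv t : ℝ) := by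
    apply mul_pos
    · exact Finset.prod_pos fun t _ => by exact_mod_cast hwz t
    · exact Finset.prod_pos fun t _ => by exact_mod_cast hwv t
  have hdim : ∀ T τ : ℕ, (T : ℝ) ^ (2 * n) / ((2 * n).factorial *
        ((∏ t, (dz t : ℝ)) * ∏ t, (dv t : ℝ))) * ((((e : ℝ) * τ) ^ D) / D.factorial) ≤
      ((T : ℝ) + Ω * (τ + (M + e : ℕ)) + (D + (∑ t, (wz t : ℝ) + ∑ t, (wv t : ℝ)))) ^
        (D + 2 * n) / ((D + 2 * n).factorial *
        ((∏ t, (wz t : ℝ)) * ∏ t, (wv t : ℝ))) := by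
    intro T τ
    have h0 := hWdim T (τ + (M + e))
    rw [Nat.cast_add] at h0
    refine le_trans ?_ h0
    apply mul_le_mul_of_nonneg_left _ (by positivity)
    have h1 := hspan (e * τ)
    rw [Nat.mul_div_cancel_left _ he] at h1
    have h2 := h1.trans (spec_pow_le W (τ + (M + e)))
    have h3 := spec_fg (O := O) (φ := φ) (j := j) (hj := hj) (hWfg.pow (τ + (M + e)))
    have : FiniteDimensional Ω₀ ↥(spec O φ j hj (W ^ (τ + (M + e)))) :=
      Module.Finite.iff_fg.mpr h3.1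
    have h4 : (e * τ + D).choose D ≤ finrank L ↥(W ^ (τ + (M + e))) := by
      calc (e * τ + Fintype.card ι).choose (Fintype.card ι) ≤ Nm ι (e * τ) := Nm_ge hι _
        _ = finrank Ω₀ ↥(restrictTotalDegree ι Ω₀ (e * τ)) := (finrank_restrict _).symm
        _ ≤ finrank Ω₀ ↥(spec O φ j hj (W ^ (τ + (M + e)))) := Submodule.finrank_mono h2
        _ ≤ _ := h3.2
    have h5 := choose_ge (e * τ) D
    push_cast at h5
    have h6 : (((e * τ + D).choose D : ℕ) : ℝ) ≤ finrank L ↥(W ^ (τ + (M + e))) := by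
      exact_mod_cast h4
    exact h5.trans h6
  have hlead := wlead ((2 * n : ℕ) : ℝ) D e Ω ((M + e : ℕ) : ℝ)
    (D + (∑ t, (wz t : ℝ) + ∑ t, (wv t : ℝ))) (by positivity) (by positivity) (by positivity)
    (by positivity) (2 * n) D ((∏ t, (dz t : ℝ)) * ∏ t, (dv t : ℝ))
    ((∏ t, (wz t : ℝ)) * ∏ t, (wv t : ℝ)) hPd hPw (by
      intro s _
      have h := hdim (Ω * (2 * n) * s) (D * s)
      have e1 : ((Ω * (2 * n) * s : ℕ) : ℝ) = (Ω : ℝ) * ((2 * n : ℕ) : ℝ) * s := by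
        push_cast; ring
      have e2 : ((D * s : ℕ) : ℝ) = (D : ℝ) * s := by push_cast; ring
      rw [e1, e2, ← mul_assoc (e : ℝ) (D : ℝ) (s : ℝ)] at h
      exact h)
  exact wexpl (2 * n) D e Ω hι (by omega) _ _ hPd hPw hlead

end Pool.Agent.W944.Wt
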