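import Pool.Agent.W944.V2Dim
import Pool.Agent.W944.WtBorder

/-! # Computations with arbitrary polynomials as gates: the explicit inequality for limits -/

set_option autoImplicit false
set_option linter.unusedSectionVars false

open Module MvPolynomial Topology

namespace Pool.Agent.W944.V2

open Pool.Agent.W944.Wt
open Pool.Agent.H546R2.SL (Nm exists_degree_bound spanning finrank_restrict)
open Pool.Agent.H632R2.Border
open Pool.Agent.W944.Cx (Nm_ge fact_le self_pow_pos)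

lemma pow_fact_step (j : ℕ) : ((j + 1 : ℕ) : ℝ) ^ (j + 1) / (j + 1).factorial ≤
    Real.exp 1 * ((j : ℝ) ^ j / j.factorial) := by
  have h1 : (0 : ℝ) < j.factorial := by positivity
  have e1 : ((j + 1 : ℕ) : ℝ) ^ (j + 1) / (j + 1).factorial =
      ((j + 1 : ℕ) : ℝ) ^ j / j.factorial := by
    rw [Nat.factorial_succ, pow_succ]
    have : ((j + 1 : ℕ) : ℝ) ≠ 0 := by positivity
    push_cast
    push_cast at this
    field_simp
  rw [e1, ← mul_div_assoc]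
  apply div_le_div_of_nonneg_right _ h1.le
  rcases Nat.eq_zero_or_pos j with h0 | h0
  · subst h0
    simp
  · have hj : (0 : ℝ) < j := by exact_mod_cast h0
    have h2 : ((j + 1 : ℕ) : ℝ) ≤ Real.exp (1 / j) * j := by
      have h3 := Real.add_one_le_exp (1 / (j : ℝ))
      push_cast
      calc (j : ℝ) + 1 = (1 / j + 1) * j := by
            field_simp
            ring
        _ ≤ Real.exp (1 / j) * j := by gcongr
    calc ((j + 1 : ℕ) : ℝ) ^ j ≤ (Real.exp (1 / j) * j) ^ j := by gcongr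
      _ = Real.exp 1 * (j : ℝ) ^ j := by
        rw [mul_pow, ← Real.exp_nat_mul]
        congr 2
        field_simp

lemma pow_fact_le (m k : ℕ) : ((m + k : ℕ) : ℝ) ^ (m + k) / (m + k).factorial ≤
    Real.exp k * ((m : ℝ) ^ m / m.factorial) := by
  induction k with
  | zero => simp
  | succ k ih =>
    have h1 := pow_fact_step (m + k)
    calc ((m + (k + 1) : ℕ) : ℝ) ^ (m + (k + 1)) / (m + (k + 1)).factorial
        = ((m + k + 1 : ℕ) : ℝ) ^ (m + k + 1) / (m + k + 1).factorial := rfl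
      _ ≤ Real.exp 1 * (((m + k : ℕ) : ℝ) ^ (m + k) / (m + k).factorial) := h1
      _ ≤ Real.exp 1 * (Real.exp k * ((m : ℝ) ^ m / m.factorial)) := by gcongr
      _ = Real.exp (k + 1 : ℕ) * ((m : ℝ) ^ m / m.factorial) := by
        rw [← mul_assoc, ← Real.exp_add]
        congr 2
        push_cast
        ring

/-- the explicit form -/
lemma gexpl (m k e Ω : ℕ) (hΩ : 0 < Ω) (Pd Pw : ℝ) (hPd : 0 < Pd) (hPw : 0 < Pw)
    (h : ((Ω : ℝ) * m) ^ m / (m.factorial * Pd) * (((e : ℝ) * k) ^ k / k.factorial) ≤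
      ((Ω : ℝ) * (m + k)) ^ (k + m) / ((k + m).factorial * Pw)) :
    (e : ℝ) ^ k * Pw ≤ (Ω : ℝ) ^ k * Pd * (Real.exp 1 * (k + 1)) := by
  have hm0 := self_pow_pos m
  have hk0 : (0 : ℝ) < (k : ℝ) ^ k := self_pow_pos k
  have hΩr : (0 : ℝ) < Ω := by exact_mod_cast hΩ
  have hfm : (0 : ℝ) < m.factorial := by positivity
  have hfk : (0 : ℝ) < k.factorial := by positivity
  have h2 := fact_le k
  have h3 := pow_fact_le m k
  have e0 : ((Ω : ℝ) * (m + k)) ^ (k + m) / ((k + m).factorial * Pw) =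
      (Ω : ℝ) ^ (m + k) * (((m + k : ℕ) : ℝ) ^ (m + k) / (m + k).factorial) / Pw := by
    rw [mul_pow, Nat.add_comm k m]
    push_cast
    field_simp
  have h4 : ((Ω : ℝ) * m) ^ m / (m.factorial * Pd) * (((e : ℝ) * k) ^ k / k.factorial) ≤
      (Ω : ℝ) ^ (m + k) * (Real.exp k * ((m : ℝ) ^ m / m.factorial)) / Pw := by
    refine h.trans ?_
    rw [e0]
    gcongr
  rw [le_div_iff₀ hPw] at h4
  have h5 : (m : ℝ) ^ m * Ω ^ m * ((e : ℝ) ^ k * Pw * k ^ k) ≤
      (m : ℝ) ^ m * Ω ^ m * ((Ω : ℝ) ^ k * Pd * (Real.exp k * k.factorial)) := by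
    have h6 := mul_le_mul_of_nonneg_left h4
      (show (0 : ℝ) ≤ m.factorial * Pd * k.factorial by positivity)
    have e1 : (m.factorial : ℝ) * Pd * k.factorial *
        (((Ω : ℝ) * m) ^ m / (m.factorial * Pd) * (((e : ℝ) * k) ^ k / k.factorial) * Pw) =
        (m : ℝ) ^ m * Ω ^ m * ((e : ℝ) ^ k * Pw * k ^ k) := by
      rw [mul_pow, mul_pow]
      field_simp
    have e2 : (m.factorial : ℝ) * Pd * k.factorial *
        ((Ω : ℝ) ^ (m + k) * (Real.exp k * ((m : ℝ) ^ m / m.factorial))) =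
        (m : ℝ) ^ m * Ω ^ m * ((Ω : ℝ) ^ k * Pd * (Real.exp k * k.factorial)) := by
      rw [pow_add]
      field_simp
    rw [e1, e2] at h6
    exact h6
  have h6 : (e : ℝ) ^ k * Pw * k ^ k ≤ (Ω : ℝ) ^ k * Pd * (Real.exp k * k.factorial) :=
    le_of_mul_le_mul_left h5 (by positivity)
  have h7 : (k : ℝ) ^ k * ((e : ℝ) ^ k * Pw) ≤
      (k : ℝ) ^ k * ((Ω : ℝ) ^ k * Pd * (Real.exp 1 * (k + 1))) := by
    calc (k : ℝ) ^ k * ((e : ℝ) ^ k * Pw) = (e : ℝ) ^ k * Pw * k ^ k := by ring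
      _ ≤ (Ω : ℝ) ^ k * Pd * (Real.exp k * k.factorial) := h6
      _ ≤ (Ω : ℝ) ^ k * Pd * (Real.exp 1 * (k + 1) * (k : ℝ) ^ k) := by gcongr
      _ = _ := by ring
  exact le_of_mul_le_mul_left h7 hk0

variable {Ω₀ L : Type*} [Field Ω₀] [Field L] {σ ι : Type*} [Fintype σ]
  {O : ValuationSubring L} {φ : O →+* Ω₀} {j : Ω₀ →+* O}

/-- **The inequality for limits of computations with integral weights.** -/
theorem gborder [IsAlgClosed Ω₀] [Fintype ι] (hj : ∀ c, φ (j c) = c)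
    (S : σ → MvPolynomial ι Ω₀) (hS : ∀ v, (S v).totalDegree ≤ 1) (f : MvPolynomial σ Ω₀)
    {V : Type*} (y₀ : V → MvPolynomial ι Ω₀) (e : ℕ) (he : 0 < e)
    (hy₀ : ∀ v, (y₀ v).IsHomogeneous e)
    (hz₀ : ∀ x : ι → Ω₀, (∀ v, eval x (y₀ v) = 0) → x = 0)
    (hyS : ∀ v, ∃ (c : Ω₀) (u : σ), y₀ v = C c * aeval S (pderiv u f))
    (hι : 0 < Fintype.card ι) {n R : ℕ}
    (Q : ℕ) (hQ : 0 < Q) (C₀ W : Fin n → ℕ) (A E : Fin R → ℕ) (Ω : ℕ)
    (z : Fin n → MvPolynomial σ L) (y q : Fin R → MvPolynomial σ L)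
    (c : Fin R → Fin n → L) (gm : Fin n → L) (H : Fin n → MvPolynomial (σ ⊕ Fin R) L)
    (κ : Fin R → ℕ) (hκ : ∀ j, κ j ≤ n) (hcκ : ∀ j (s : Fin n), c j s ≠ 0 → s.1 < κ j)
    (hHκ : ∀ s : Fin n, H s ∈ supported L (ua σ κ s.1))
    (hz : ∀ s, z s = aeval (Sum.elim X y) (H s)) (hy : ∀ j, y j = q j + ∑ s, c j s • z s)
    (q0 : MvPolynomial σ L)
    (hq : ∀ j, Q * (q j).totalDegree ≤ A j) (hc : ∀ j s, c j s ≠ 0 → C₀ s ≤ A j)
    (hC0 : ∀ s, 0 < C₀ s) (hA : ∀ j, A j ≤ Ω) (hC : ∀ s, C₀ s ≤ Ω) (hΩ : Q ≤ Ω)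
    (hH : ∀ s, H s ∈ wp L (wh σ Q A) (W s))
    (hE : ∀ s j, pderiv (Sum.inr j) (H s) ≠ 0 → W s ≤ C₀ s + E j)
    (hX : ∀ s v, pderiv (Sum.inl v) (H s) ≠ 0 → W s ≤ C₀ s + Ω)
    (hq0 : Q * q0.totalDegree ≤ 3 * Ω)
    (F : MvPolynomial σ O) (hF : map O.subtype F = q0 + ∑ s, gm s • z s)
    (hf : map φ F = f) :
    (e : ℝ) ^ (Fintype.card ι) * ((Q : ℝ) ^ (Fintype.card ι) *
        ((∏ s, (C₀ s : ℝ)) * ∏ j, ((2 * Ω - A j : ℕ) : ℝ))) ≤
      ((3 * Ω : ℕ) : ℝ) ^ (Fintype.card ι) *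
        ((∏ s, ((max (C₀ s) (W s) : ℕ) : ℝ)) * ∏ j, ((2 * Ω - A j + E j : ℕ) : ℝ)) *
        (Real.exp 1 * (Fintype.card ι + 1)) := by
  classical
  set S' : σ → MvPolynomial ι L := fun v => map (O.subtype.comp j) (S v) with hS'
  have hS'd : ∀ v, (S' v).totalDegree ≤ 1 := fun v => (totalDegree_map_le _ _).trans (hS v)
  obtain ⟨U, hUfg, hU1, hUd, hUdim⟩ := gprog_dim S' hS'd Q hQ C₀ W A E Ω z y q c gm H κ hκ hcκ
    hHκ hz hy q0 (map O.subtype F) hF hq hc hC0 hA hC hΩ hH hE hX hq0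
  have hyW : ∀ v, y₀ v ∈ spec O φ j hj U := by
    intro v
    obtain ⟨c, u, hcu⟩ := hyS v
    rw [hcu, ← smul_eq_C_mul]
    apply Submodule.smul_mem
    refine ⟨aeval (fun v => map j (S v)) (pderiv u F), ?_, ?_⟩
    · have h1 := hUd u
      rw [map_aeval_comm]
      have h2 : (fun v => map O.subtype (map j (S v))) = S' := by
        funext v; rw [MvPolynomial.map_map]
      rw [h2, ← pderiv_map]
      exact h1
    · rw [map_aeval_comm]
      have h2 : (fun v => map φ (map j (S v))) = S := by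
        funext v
        rw [MvPolynomial.map_map]
        have : φ.comp j = RingHom.id Ω₀ := RingHom.ext hj
        rw [this, MvPolynomial.map_id]
      rw [h2, ← pderiv_map, hf]
  obtain ⟨M, hM⟩ := exists_degree_bound y₀ hz₀
  have hspan := spanning y₀ e he hy₀ M hM _ (restrict_le_spec (O := O) (φ := φ) (j := j) (hj := hj)
    hU1) hyW
  set D := Fintype.card ι with hD
  have hΩ0 : 0 < Ω := hQ.trans_le hΩ
  have hPd : (0 : ℝ) < (∏ s, ((max (C₀ s) (W s) : ℕ) : ℝ)) *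
      ∏ j, ((2 * Ω - A j + E j : ℕ) : ℝ) := by
    apply mul_pos
    · exact Finset.prod_pos fun s _ => by
        exact_mod_cast lt_of_lt_of_le (hC0 s) (le_max_left _ _)
    · exact Finset.prod_pos fun i _ => by
        have h1 := hA i
        have : 0 < 2 * Ω - A i + E i := by omega
        exact_mod_cast this
  have hPw : (0 : ℝ) < (Q : ℝ) ^ D * ((∏ s, (C₀ s : ℝ)) * ∏ j, ((2 * Ω - A j : ℕ) : ℝ)) := by
    have hQr : (0 : ℝ) < Q := by exact_mod_cast hQ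
    apply mul_pos (by positivity)
    apply mul_pos
    · exact Finset.prod_pos fun s _ => by exact_mod_cast hC0 s
    · exact Finset.prod_pos fun i _ => by
        have h1 := hA i
        have : 0 < 2 * Ω - A i := by omega
        exact_mod_cast this
  have hdim : ∀ T τ : ℕ, (T : ℝ) ^ (n + R) / ((n + R).factorial *
        ((∏ s, ((max (C₀ s) (W s) : ℕ) : ℝ)) * ∏ j, ((2 * Ω - A j + E j : ℕ) : ℝ))) *
          ((((e : ℝ) * τ) ^ D) / D.factorial) ≤
      ((T : ℝ) + (3 * Ω : ℕ) * (τ + (M + e : ℕ)) +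
        (∑ v : Vg ι n R, (wg ι Q C₀ (fun j => 2 * Ω - A j) v : ℝ))) ^
        (D + (n + R)) / ((D + (n + R)).factorial *
        ((Q : ℝ) ^ D * ((∏ s, (C₀ s : ℝ)) * ∏ j, ((2 * Ω - A j : ℕ) : ℝ)))) := by
    intro T τ
    have h0 := hUdim T (τ + (M + e))
    rw [Nat.cast_add τ] at h0
    refine le_trans ?_ h0
    apply mul_le_mul_of_nonneg_left _ (by positivity)
    have h1 := hspan (e * τ)
    rw [Nat.mul_div_cancel_left _ he] at h1
    have h2 := h1.trans (spec_pow_le U (τ + (M + e)))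
    have h3 := spec_fg (O := O) (φ := φ) (j := j) (hj := hj) (hUfg.pow (τ + (M + e)))
    have : FiniteDimensional Ω₀ ↥(spec O φ j hj (U ^ (τ + (M + e)))) :=
      Module.Finite.iff_fg.mpr h3.1
    have h4 : (e * τ + D).choose D ≤ finrank L ↥(U ^ (τ + (M + e))) := by
      calc (e * τ + Fintype.card ι).choose (Fintype.card ι) ≤ Nm ι (e * τ) := Nm_ge hι _
        _ = finrank Ω₀ ↥(restrictTotalDegree ι Ω₀ (e * τ)) := (finrank_restrict _).symm
        _ ≤ finrank Ω₀ ↥(spec O φ j hj (U ^ (τ + (M + e)))) := Submodule.finrank_mono h2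
        _ ≤ _ := h3.2
    have h5 := choose_ge (e * τ) D
    push_cast at h5
    have h6 : (((e * τ + D).choose D : ℕ) : ℝ) ≤ finrank L ↥(U ^ (τ + (M + e))) := by
      exact_mod_cast h4
    exact h5.trans h6
  have hlead := wlead ((n + R : ℕ) : ℝ) D e ((3 * Ω : ℕ) : ℝ) ((M + e : ℕ) : ℝ)
    (∑ v : Vg ι n R, (wg ι Q C₀ (fun j => 2 * Ω - A j) v : ℝ)) (by positivity) (by positivity)
    (by positivity) (by positivity) (n + R) D
    ((∏ s, ((max (C₀ s) (W s) : ℕ) : ℝ)) * ∏ j, ((2 * Ω - A j + E j : ℕ) : ℝ))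
    ((Q : ℝ) ^ D * ((∏ s, (C₀ s : ℝ)) * ∏ j, ((2 * Ω - A j : ℕ) : ℝ))) hPd hPw (by
      intro s _
      have h := hdim (3 * Ω * (n + R) * s) (D * s)
      have e1 : ((3 * Ω * (n + R) * s : ℕ) : ℝ) =
          ((3 * Ω : ℕ) : ℝ) * ((n + R : ℕ) : ℝ) * s := by
        push_cast; ring
      have e2 : ((D * s : ℕ) : ℝ) = (D : ℝ) * s := by push_cast; ring
      rw [e1, e2, ← mul_assoc (e : ℝ) (D : ℝ) (s : ℝ)] at h
      exact h)
  exact gexpl (n + R) D e (3 * Ω) (by omega) _ _ hPd hPw hlead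

end Pool.Agent.W944.V2
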