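import Pool.Agent.W944.WtProg

/-! # Computations with weights: the dimension inequality -/

set_option autoImplicit false
set_option linter.unusedSectionVars false

open Module MvPolynomial

namespace Pool.Agent.W944.Wt

open Pool.Agent.W944.Cx (wsol wsol_eq adj_sum)

variable {L : Type*} [Field L] {σ ι : Type*} [Fintype ι] {n : ℕ}

/-- the evaluation -/
noncomputable def evw (g w : Fin n → MvPolynomial ι L) :
    MvPolynomial (Vs ι n) L →ₐ[L] MvPolynomial ι L :=
  aeval (Sum.elim X (Sum.elim g w))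

lemma evw_rename (g w : Fin n → MvPolynomial ι L) (q : MvPolynomial ι L) :
    evw g w (rename Sum.inl q) = q := by
  unfold evw
  rw [aeval_rename]
  have : (Sum.elim X (Sum.elim g w) : Vs ι n → MvPolynomial ι L) ∘ Sum.inl = X := rfl
  rw [this, aeval_X_left_apply]

lemma evw_z (g w : Fin n → MvPolynomial ι L) (t : Fin n) :
    evw g w (X (Sum.inr (Sum.inl t))) = g t := by
  unfold evw; rw [aeval_X]; rfl

lemma evw_w (g w : Fin n → MvPolynomial ι L) (t : Fin n) :
    evw g w (X (Sum.inr (Sum.inr t))) = w t := by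
  unfold evw; rw [aeval_X]; rfl

lemma evw_pa (g w : Fin n → MvPolynomial ι L) (q : Fin n → MvPolynomial ι L)
    (c : Fin n → Fin n → L) (t : Fin n) :
    evw g w (pa q c t) = q t + ∑ j ∈ Finset.Iio t, c t j • g j := by
  unfold pa
  rw [map_add, evw_rename, map_sum]
  congr 1
  apply Finset.sum_congr rfl
  intro j _
  rw [map_smul, evw_z]

theorem wprog_dim [DecidableEq ι] (S : σ → MvPolynomial ι L) (hS : ∀ v, (S v).totalDegree ≤ 1)
    (wz wv A B dz dv : Fin n → ℕ) (Ω : ℕ)
    (a b : Fin n → MvPolynomial σ L) (qa qb : Fin n → MvPolynomial σ L)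
    (ca cb : Fin n → Fin n → L) (gm : Fin n → L)
    (ha : ∀ t, a t = qa t + ∑ j ∈ Finset.Iio t, ca t j • (a j * b j))
    (hb : ∀ t, b t = qb t + ∑ j ∈ Finset.Iio t, cb t j • (a j * b j))
    (qf f : MvPolynomial σ L) (hf : f = qf + ∑ j, gm j • (a j * b j))
    (hqa : ∀ t, (qa t).totalDegree ≤ A t) (hqb : ∀ t, (qb t).totalDegree ≤ B t)
    (hqf : qf.totalDegree ≤ Ω)
    (hca : ∀ t, ∀ j < t, ca t j ≠ 0 → wz j ≤ A t) (hcb : ∀ t, ∀ j < t, cb t j ≠ 0 → wz j ≤ B t)
    (hwz : ∀ t, 0 < wz t) (hwv : ∀ t, 0 < wv t)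
    (hz1 : ∀ t, wz t ≤ dz t) (hz2 : ∀ t, A t + B t ≤ dz t) (hv1 : ∀ t, wv t ≤ dv t)
    (hv2 : ∀ t, ∀ j > t, ca j t ≠ 0 → B j + wv j ≤ dv t)
    (hv3 : ∀ t, ∀ j > t, cb j t ≠ 0 → A j + wv j ≤ dv t)
    (hΩ : ∀ t, A t + B t + wv t ≤ Ω) (hΩ1 : 1 ≤ Ω) :
    ∃ V : Submodule L (MvPolynomial ι L), V.FG ∧ restrictTotalDegree ι L 1 ≤ V ∧
      (∀ v, aeval S (pderiv v f) ∈ V) ∧
      ∀ T T₁ : ℕ, (T : ℝ) ^ (2 * n) / ((2 * n).factorial *
        ((∏ t, (dz t : ℝ)) * ∏ t, (dv t : ℝ))) * finrank L ↥(V ^ T₁) ≤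
      ((T : ℝ) + Ω * T₁ + (Fintype.card ι + (∑ t, (wz t : ℝ) + ∑ t, (wv t : ℝ)))) ^
        (Fintype.card ι + 2 * n) / ((Fintype.card ι + 2 * n).factorial *
        ((∏ t, (wz t : ℝ)) * ∏ t, (wv t : ℝ))) := by
  classical
  set φ : MvPolynomial σ L →ₐ[L] MvPolynomial ι L := aeval S with hφ
  have hdeg : ∀ (d : ℕ) (p : MvPolynomial σ L), p.totalDegree ≤ d → (φ p).totalDegree ≤ d :=
    fun d p hp => totalDegree_aeval_leD S hS d p hp
  set cc : Fin n → Fin n → MvPolynomial ι L :=
    fun j t => ca j t • φ (b j) + cb j t • φ (a j) with hcc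
  set u : Fin n → MvPolynomial ι L := wsol (fun t => C (gm t)) cc with hu
  have hueq : ∀ t, u t = C (gm t) + ∑ j ∈ Finset.Ioi t, cc j t * u j := fun t => wsol_eq _ _ t
  set g : Fin n → MvPolynomial ι L := fun t => φ (a t) * φ (b t) with hg
  have hφa : ∀ t, φ (a t) = φ (qa t) + ∑ j ∈ Finset.Iio t, ca t j • g j := by
    intro t
    conv_lhs => rw [ha t]
    rw [map_add, map_sum]
    congr 1
    apply Finset.sum_congr rfl
    intro j _
    rw [map_smul, map_mul]
  have hφb : ∀ t, φ (b t) = φ (qb t) + ∑ j ∈ Finset.Iio t, cb t j • g j := by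
    intro t
    conv_lhs => rw [hb t]
    rw [map_add, map_sum]
    congr 1
    apply Finset.sum_congr rfl
    intro j _
    rw [map_smul, map_mul]
  set ev := evw g u with hev
  set w : Vs ι n → ℕ := wt ι wz wv with hw
  have hwpos : ∀ v, 0 < w v := by
    rintro (i | t | t)
    · exact Nat.one_pos
    · exact hwz t
    · exact hwv t
  -- membership in the spaces
  have hpoly : ∀ (q : MvPolynomial ι L) (k : ℕ), q.totalDegree ≤ k → q ∈ ew ev w k :=
    fun q k hq => ⟨_, rename_mem wz wv q k hq, evw_rename _ _ q⟩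
  have hEa : ∀ t, φ (a t) ∈ ew ev w (A t) := fun t =>
    ⟨_, pa_mem (fun t => φ (qa t)) ca t (A t) (hdeg _ _ (hqa t)) (hca t), by
      change ev (pa (fun t => φ (qa t)) ca t) = _
      rw [hev, evw_pa, ← hφa]⟩
  have hEb : ∀ t, φ (b t) ∈ ew ev w (B t) := fun t =>
    ⟨_, pa_mem (fun t => φ (qb t)) cb t (B t) (hdeg _ _ (hqb t)) (hcb t), by
      change ev (pa (fun t => φ (qb t)) cb t) = _
      rw [hev, evw_pa, ← hφb]⟩
  have hEu : ∀ t, u t ∈ ew ev w (wv t) := fun t =>
    ⟨_, X_mem_wp (v := Sum.inr (Sum.inr t)) le_rfl, evw_w _ _ t⟩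
  refine ⟨ew ev w Ω, (wp_fg hwpos Ω).map _, fun q hq => hpoly q Ω
    (((mem_restrictTotalDegree _ _ _).mp hq).trans hΩ1), ?_, ?_⟩
  · intro v
    set src : Fin n → MvPolynomial ι L := fun t =>
      φ (pderiv v (qa t)) * φ (b t) + φ (a t) * φ (pderiv v (qb t)) with hsrc
    set D : Fin n → MvPolynomial ι L := fun t => φ (pderiv v (a t * b t)) with hDdef
    have hDa : ∀ t, φ (pderiv v (a t)) = φ (pderiv v (qa t)) +
        ∑ j ∈ Finset.Iio t, ca t j • D j := by
      intro t
      conv_lhs => rw [ha t]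
      rw [map_add, map_sum, map_add, map_sum]
      congr 1
      apply Finset.sum_congr rfl
      intro j _
      rw [Derivation.map_smul, map_smul]
    have hDb : ∀ t, φ (pderiv v (b t)) = φ (pderiv v (qb t)) +
        ∑ j ∈ Finset.Iio t, cb t j • D j := by
      intro t
      conv_lhs => rw [hb t]
      rw [map_add, map_sum, map_add, map_sum]
      congr 1
      apply Finset.sum_congr rfl
      intro j _
      rw [Derivation.map_smul, map_smul]
    have hD : ∀ t, D t = src t + ∑ j ∈ Finset.Iio t, cc t j * D j := by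
      intro t
      have e0 : D t = φ (a t) * φ (pderiv v (b t)) + φ (b t) * φ (pderiv v (a t)) := by
        rw [hDdef]
        simp only
        rw [Derivation.leibniz, smul_eq_mul, smul_eq_mul, map_add, map_mul, map_mul]
      have e1 : ∑ j ∈ Finset.Iio t, cc t j * D j =
          φ (b t) * (∑ j ∈ Finset.Iio t, ca t j • D j) +
          φ (a t) * (∑ j ∈ Finset.Iio t, cb t j • D j) := by
        rw [Finset.mul_sum, Finset.mul_sum, ← Finset.sum_add_distrib]
        apply Finset.sum_congr rfl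
        intro j _
        rw [hcc]
        simp only
        rw [add_mul, smul_mul_assoc, smul_mul_assoc, mul_smul_comm, mul_smul_comm]
      rw [e0, e1, hDb, hDa, hsrc]
      ring
    have hsum := adj_sum (fun t => C (gm t)) D src u cc hD hueq
    have hfd : φ (pderiv v f) = φ (pderiv v qf) + ∑ t, u t * src t := by
      rw [← hsum, hf, map_add, map_sum, map_add, map_sum]
      congr 1
      apply Finset.sum_congr rfl
      intro j _
      rw [Derivation.map_smul, map_smul, smul_eq_C_mul]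
    rw [hfd]
    apply Submodule.add_mem
    · exact hpoly _ _ (hdeg _ _ ((totalDegree_pderiv_leD Ω qf hqf v).trans (Nat.sub_le _ _)))
    · apply Submodule.sum_mem
      intro t _
      have e : u t * src t = φ (pderiv v (qa t)) * φ (b t) * u t +
          φ (a t) * φ (pderiv v (qb t)) * u t := by
        rw [hsrc]
        ring
      rw [e]
      have hqa' : φ (pderiv v (qa t)) ∈ ew ev w (A t) := hpoly _ _ (hdeg _ _
        ((totalDegree_pderiv_leD (A t) (qa t) (hqa t) v).trans (Nat.sub_le _ _)))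
      have hqb' : φ (pderiv v (qb t)) ∈ ew ev w (B t) := hpoly _ _ (hdeg _ _
        ((totalDegree_pderiv_leD (B t) (qb t) (hqb t) v).trans (Nat.sub_le _ _)))
      apply Submodule.add_mem
      · exact ew_mono ev (hΩ t) (ew_mul ev (ew_mul ev hqa' (hEb t)) (hEu t))
      · exact ew_mono ev (hΩ t) (ew_mul ev (ew_mul ev (hEa t) hqb') (hEu t))
  · intro T T₁
    have hevs : ∀ i : Fin n ⊕ Fin n, ev (X (Sum.inr i)) =
        ev (ps (fun t => φ (qa t)) (fun t => φ (qb t)) ca cb gm (Sum.inr i)) := by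
      rintro (t | t)
      · change ev (X (Sum.inr (Sum.inl t))) = ev (pa (fun t => φ (qa t)) ca t *
          pa (fun t => φ (qb t)) cb t)
        rw [map_mul, hev, evw_z, evw_pa, evw_pa, ← hφa, ← hφb]
      · change ev (X (Sum.inr (Sum.inr t))) = ev (C (gm t) + ∑ j ∈ Finset.Ioi t,
          (ca j t • (pa (fun t => φ (qb t)) cb j * X (Sum.inr (Sum.inr j))) +
          cb j t • (pa (fun t => φ (qa t)) ca j * X (Sum.inr (Sum.inr j)))))
        rw [map_add, map_sum, hev, evw_w, hueq t]
        congr 1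
        · exact (AlgHom.commutes (evw g u) (gm t)).symm
        · apply Finset.sum_congr rfl
          intro j _
          rw [map_add, map_smul, map_smul, map_mul, map_mul, evw_pa, evw_pa, evw_w, ← hφa,
            ← hφb, hcc]
          simp only
          rw [add_mul, smul_mul_assoc, smul_mul_assoc]
    set I : Finset (Vs ι n) := Finset.univ.image Sum.inr with hI
    have hImem : ∀ i ∈ I, ∃ k : Fin n ⊕ Fin n, Sum.inr k = i := by
      intro i hi
      obtain ⟨k, _, hk⟩ := Finset.mem_image.mp hi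
      exact ⟨k, hk⟩
    have h := welim_bound (w := w) hwpos (rks ι n)
      (ps (fun t => φ (qa t)) (fun t => φ (qb t)) ca cb gm) ev (wt ι dz dv) I
      (rks_inj.mono (by
        intro i hi
        obtain ⟨k, hk⟩ := hImem i hi
        exact ⟨k, hk⟩))
      (by
        intro i hi
        obtain ⟨k, rfl⟩ := hImem i hi
        rcases k with t | t
        · exact lt_of_lt_of_le (hwz t) (hz1 t)
        · exact lt_of_lt_of_le (hwv t) (hv1 t))
      (by
        intro i hi
        obtain ⟨k, rfl⟩ := hImem i hi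
        exact ps_supported _ _ _ _ _ k)
      (by
        intro i hi
        obtain ⟨k, rfl⟩ := hImem i hi
        exact ps_mem _ _ ca cb gm (fun t => hdeg _ _ (hqa t)) (fun t => hdeg _ _ (hqb t))
          hca hcb hz1 hz2 hv1 hv2 hv3 k)
      (by
        intro i hi
        obtain ⟨k, rfl⟩ := hImem i hi
        exact hevs k) T (Ω * T₁)
    have hcardI : I.card = 2 * n := by
      rw [hI, Finset.card_image_of_injective _ Sum.inr_injective, Finset.card_univ,
        Fintype.card_sum, Fintype.card_fin]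
      ring
    have hprodI : ∏ i ∈ I, (wt ι dz dv i : ℝ) = (∏ t, (dz t : ℝ)) * ∏ t, (dv t : ℝ) := by
      rw [hI, Finset.prod_image (fun x _ y _ h => Sum.inr_injective h), Fintype.prod_sum_type]
      rfl
    have hprodw : ∏ v : Vs ι n, (w v : ℝ) = (∏ t, (wz t : ℝ)) * ∏ t, (wv t : ℝ) := by
      rw [Fintype.prod_sum_type, Fintype.prod_sum_type]
      have : ∏ i : ι, (w (Sum.inl i) : ℝ) = 1 := by
        apply Finset.prod_eq_one
        intro i _
        change ((1 : ℕ) : ℝ) = 1
        exact Nat.cast_one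
      rw [this, one_mul]
      rfl
    have hsumw : ∑ v : Vs ι n, (w v : ℝ) =
        Fintype.card ι + (∑ t, (wz t : ℝ) + ∑ t, (wv t : ℝ)) := by
      rw [Fintype.sum_sum_type, Fintype.sum_sum_type]
      have : ∑ i : ι, (w (Sum.inl i) : ℝ) = Fintype.card ι := by
        have h1 : ∀ i : ι, (w (Sum.inl i) : ℝ) = 1 := fun i => by
          change ((1 : ℕ) : ℝ) = 1
          exact Nat.cast_one
        rw [Finset.sum_congr rfl (fun i _ => h1 i), Finset.sum_const, Finset.card_univ,
          nsmul_eq_mul, mul_one]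
      rw [this]
      rfl
    have hcardV : Fintype.card (Vs ι n) = Fintype.card ι + 2 * n := by
      rw [Fintype.card_sum, Fintype.card_sum, Fintype.card_fin]
      ring
    rw [hcardI, hprodI, hprodw, hsumw, hcardV] at h
    push_cast at h
    refine le_trans ?_ h
    apply mul_le_mul_of_nonneg_left _ (by positivity)
    have h5 : finrank L ↥((ew ev w Ω) ^ T₁) ≤ dw w ev (Ω * T₁) := by
      have : FiniteDimensional L ↥((wp L w (Ω * T₁)).map ev.toLinearMap) :=
        Module.Finite.iff_fg.mpr ((wp_fg hwpos _).map _)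
      exact Submodule.finrank_mono (ew_pow_le ev Ω T₁)
    exact_mod_cast h5

end Pool.Agent.W944.Wt
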