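import Pool.Agent.W944.V2Prog
import Pool.Agent.W944.WtDim

/-! # Computations with arbitrary polynomials as gates: the dimension inequality -/

set_option autoImplicit false
set_option linter.unusedSectionVars false

open Module MvPolynomial

namespace Pool.Agent.W944.V2

open Pool.Agent.W944.Wt
open Pool.Agent.W944.Cx (wsol wsol_eq adj_sum)

/-- the chain rule -/
lemma chain_rule {L : Type*} [Field L] {τ σ : Type*} [Fintype τ] (g : τ → MvPolynomial σ L)
    (v : σ) (P : MvPolynomial τ L) :
    pderiv v (aeval g P) = ∑ u, aeval g (pderiv u P) * pderiv v (g u) := by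
  classical
  induction P using MvPolynomial.induction_on with
  | C a =>
    simp
  | add p q hp hq =>
    rw [map_add, map_add, hp, hq, ← Finset.sum_add_distrib]
    apply Finset.sum_congr rfl
    intro u _
    rw [map_add, map_add, add_mul]
  | mul_X p u hp =>
    rw [map_mul, aeval_X, Derivation.leibniz, smul_eq_mul, smul_eq_mul, hp, Finset.mul_sum]
    have h1 : ∀ w : τ, aeval g (pderiv w (p * X u)) * pderiv v (g w) =
        g u * (aeval g (pderiv w p) * pderiv v (g w)) +
          (if w = u then aeval g p * pderiv v (g u) else 0) := by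
      intro w
      rw [Derivation.leibniz, smul_eq_mul, smul_eq_mul, map_add, map_mul, map_mul, aeval_X,
        pderiv_X]
      by_cases h : w = u
      · subst h
        rw [Pi.single_eq_same, if_pos rfl, map_one]
        ring
      · rw [if_neg h, Pi.single_eq_of_ne (Ne.symm h), map_zero]
        ring
    rw [Finset.sum_congr rfl (fun w _ => h1 w), Finset.sum_add_distrib, Finset.sum_ite_eq']
    simp only [Finset.mem_univ, if_true]
    ring

variable {L : Type*} [Field L] {σ ι : Type*} [Fintype σ] [Fintype ι] {n R : ℕ}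

theorem gprog_dim [DecidableEq ι] (S : σ → MvPolynomial ι L) (hS : ∀ v, (S v).totalDegree ≤ 1)
    (Q : ℕ) (hQ : 0 < Q) (C₀ W : Fin n → ℕ) (A E : Fin R → ℕ) (Ω : ℕ)
    (z : Fin n → MvPolynomial σ L) (y q : Fin R → MvPolynomial σ L)
    (c : Fin R → Fin n → L) (gm : Fin n → L) (H : Fin n → MvPolynomial (σ ⊕ Fin R) L)
    (κ : Fin R → ℕ) (hκ : ∀ j, κ j ≤ n) (hcκ : ∀ j (s : Fin n), c j s ≠ 0 → s.1 < κ j)
    (hHκ : ∀ s : Fin n, H s ∈ supported L (ua σ κ s.1))
    (hz : ∀ s, z s = aeval (Sum.elim X y) (H s)) (hy : ∀ j, y j = q j + ∑ s, c j s • z s)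
    (q0 f : MvPolynomial σ L) (hf : f = q0 + ∑ s, gm s • z s)
    (hq : ∀ j, Q * (q j).totalDegree ≤ A j) (hc : ∀ j s, c j s ≠ 0 → C₀ s ≤ A j)
    (hC0 : ∀ s, 0 < C₀ s) (hA : ∀ j, A j ≤ Ω) (hC : ∀ s, C₀ s ≤ Ω) (hΩ : Q ≤ Ω)
    (hH : ∀ s, H s ∈ wp L (wh σ Q A) (W s))
    (hE : ∀ s j, pderiv (Sum.inr j) (H s) ≠ 0 → W s ≤ C₀ s + E j)
    (hX : ∀ s v, pderiv (Sum.inl v) (H s) ≠ 0 → W s ≤ C₀ s + Ω)
    (hq0 : Q * q0.totalDegree ≤ 3 * Ω) :
    ∃ V : Submodule L (MvPolynomial ι L), V.FG ∧ restrictTotalDegree ι L 1 ≤ V ∧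
      (∀ v, aeval S (pderiv v f) ∈ V) ∧
      ∀ T T₁ : ℕ, (T : ℝ) ^ (n + R) / ((n + R).factorial *
        ((∏ s, ((max (C₀ s) (W s) : ℕ) : ℝ)) * ∏ j, ((2 * Ω - A j + E j : ℕ) : ℝ))) *
          finrank L ↥(V ^ T₁) ≤
      ((T : ℝ) + (3 * Ω : ℕ) * T₁ + (∑ v : Vg ι n R, (wg ι Q C₀ (fun j => 2 * Ω - A j) v : ℝ))) ^
        (Fintype.card ι + (n + R)) / ((Fintype.card ι + (n + R)).factorial *
        ((Q : ℝ) ^ (Fintype.card ι) * ((∏ s, (C₀ s : ℝ)) * ∏ j, ((2 * Ω - A j : ℕ) : ℝ)))) := by
  classical
  have hΩ1 : 1 ≤ Ω := hQ.trans_le hΩ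
  set φ : MvPolynomial σ L →ₐ[L] MvPolynomial ι L := aeval S with hφ
  have hdeg : ∀ (d : ℕ) (p : MvPolynomial σ L), p.totalDegree ≤ d → (φ p).totalDegree ≤ d :=
    fun d p hp => totalDegree_aeval_leD S hS d p hp
  have hdegQ : ∀ (p : MvPolynomial σ L) (k : ℕ), Q * p.totalDegree ≤ k →
      Q * (φ p).totalDegree ≤ k := fun p k hp =>
    (Nat.mul_le_mul_left _ (hdeg _ p le_rfl)).trans hp
  have hdegP : ∀ (p : MvPolynomial σ L) (k : ℕ) (v : σ), Q * p.totalDegree ≤ k →
      Q * (φ (pderiv v p)).totalDegree ≤ k := fun p k v hp =>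
    (Nat.mul_le_mul_left _ ((hdeg _ _ ((totalDegree_pderiv_leD _ p le_rfl v).trans
      (Nat.sub_le _ _))))).trans hp
  -- the values
  set g : Fin n → MvPolynomial ι L := fun s => φ (z s) with hg
  have hφy : ∀ j, φ (y j) = φ (q j) + ∑ s, c j s • g s := by
    intro j
    conv_lhs => rw [hy j]
    rw [map_add, map_sum]
    congr 1
    apply Finset.sum_congr rfl
    intro s _
    rw [map_smul]
  -- the partial derivatives of the gates at the values
  set Dj : Fin n → Fin R → MvPolynomial ι L := fun s j =>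
    φ (aeval (Sum.elim X y) (pderiv (Sum.inr j) (H s))) with hDj
  have hDj0 : ∀ s : Fin n, ∀ j, ¬ κ j ≤ s.1 → Dj s j = 0 := by
    intro s j h
    have h2 : pderiv (Sum.inr j) (H s) = 0 := by
      apply pderiv_eq_zero_of_supported _ _ _ (hHκ s)
      intro h3
      exact h (h3 j rfl)
    rw [hDj]
    simp only
    rw [h2, map_zero, map_zero]
  set cc : Fin n → Fin n → MvPolynomial ι L := fun s t => ∑ j, c j t • Dj s j with hcc
  have hcc0 : ∀ s t : Fin n, ¬ t < s → cc s t = 0 := by
    intro s t h
    rw [hcc]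
    apply Finset.sum_eq_zero
    intro j _
    by_cases h0 : c j t = 0
    · rw [h0, zero_smul]
    · have h1 := hcκ j t h0
      rw [hDj0 s j, smul_zero]
      intro h2
      exact h (Fin.lt_def.mpr (lt_of_lt_of_le h1 h2))
  set u : Fin n → MvPolynomial ι L := wsol (fun s => C (gm s)) cc with hu
  have hueq : ∀ t, u t = C (gm t) + ∑ s ∈ Finset.Ioi t, cc s t * u s := fun t => wsol_eq _ _ t
  set α : Fin R → MvPolynomial ι L := fun j => ∑ s, Dj s j * u s with hα
  have hua : ∀ t, u t = C (gm t) + ∑ j, c j t • α j := by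
    intro t
    rw [hueq t]
    congr 1
    have h1 : ∑ s ∈ Finset.Ioi t, cc s t * u s = ∑ s, cc s t * u s := by
      apply Finset.sum_subset (Finset.subset_univ _)
      intro s _ hs
      rw [hcc0 s t (fun h => hs (Finset.mem_Ioi.mpr h)), zero_mul]
    rw [h1]
    have h2 : ∀ s, cc s t * u s = ∑ j, c j t • (Dj s j * u s) := by
      intro s
      rw [hcc]
      simp only
      rw [Finset.sum_mul]
      apply Finset.sum_congr rfl
      intro j _
      rw [smul_mul_assoc]
    rw [Finset.sum_congr rfl (fun s _ => h2 s), Finset.sum_comm]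
    apply Finset.sum_congr rfl
    intro j _
    rw [hα, Finset.smul_sum]
  set wa : Fin R → ℕ := fun j => 2 * Ω - A j with hwa
  set ev := evg g α with hev
  set w : Vg ι n R → ℕ := wg ι Q C₀ wa with hw
  have hwpos : ∀ v, 0 < w v := by
    rintro (i | s | j)
    · exact hQ
    · exact hC0 s
    · change 0 < 2 * Ω - A j
      have := hA j
      omega
  -- evaluation of the gates
  have hevP : ∀ P : MvPolynomial (σ ⊕ Fin R) L,
      ev (aeval (sb S (fun j => φ (q j)) c) P) = φ (aeval (Sum.elim X y) P) := by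
    intro P
    rw [hev, evg_sb]
    have h : (φ.comp (aeval (Sum.elim X y))) =
        aeval (Sum.elim S fun j => φ (q j) + ∑ s, c j s • g s) := by
      apply algHom_ext
      rintro (v | j)
      · rw [AlgHom.comp_apply, aeval_X, aeval_X]
        change φ (X v) = S v
        rw [hφ, aeval_X]
      · rw [AlgHom.comp_apply, aeval_X, aeval_X]
        exact hφy j
    exact (DFunLike.congr_fun h P).symm
  -- membership in the spaces
  have hpoly : ∀ (p : MvPolynomial ι L) (k : ℕ), Q * p.totalDegree ≤ k → p ∈ ew ev w k :=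
    fun p k hp => ⟨_, rename_memQ C₀ wa p k hp, evg_rename _ _ p⟩
  have hEa : ∀ j, α j ∈ ew ev w (wa j) := fun j =>
    ⟨_, X_mem_wp (v := Sum.inr (Sum.inr j)) le_rfl, evg_a _ _ j⟩
  have hEu : ∀ s, u s ∈ ew ev w (2 * Ω - C₀ s) := fun s =>
    ⟨_, av_mem (ι := ι) (Q := Q) (wa := wa) C₀ c gm s (2 * Ω - C₀ s)
      (fun j' hj' => by have := hc j' s hj'; change 2 * Ω - A j' ≤ _; omega), by
        change ev (av c gm s) = _
        rw [hev, evg_av, ← hua]⟩
  have hEH : ∀ (P : MvPolynomial (σ ⊕ Fin R) L) (k : ℕ), P ∈ wp L (wh σ Q A) k →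
      φ (aeval (Sum.elim X y) P) ∈ ew ev w k := by
    intro P k hP
    refine ⟨_, aeval_mem_wp (w := w) _ _ (sb_mem (wa := wa) S hS C₀ (fun j => φ (q j)) c
      (fun j => hdegQ _ _ (hq j)) hc) _ _ hP, hevP P⟩
  refine ⟨ew ev w (3 * Ω), (wp_fg hwpos _).map _, fun p hp => hpoly p _ ?_, ?_, ?_⟩
  · have h1 := (mem_restrictTotalDegree _ _ _).mp hp
    have h2 := Nat.mul_le_mul_left Q h1
    omega
  · intro v
    set D : Fin n → MvPolynomial ι L := fun s => φ (pderiv v (z s)) with hDdef
    set src : Fin n → MvPolynomial ι L := fun s =>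
      φ (aeval (Sum.elim X y) (pderiv (Sum.inl v) (H s))) +
        ∑ j, Dj s j * φ (pderiv v (q j)) with hsrc
    have hDy : ∀ j, φ (pderiv v (y j)) = φ (pderiv v (q j)) + ∑ t, c j t • D t := by
      intro j
      conv_lhs => rw [hy j]
      rw [map_add, map_sum, map_add, map_sum]
      congr 1
      apply Finset.sum_congr rfl
      intro t _
      rw [Derivation.map_smul, map_smul]
    have hD : ∀ s, D s = src s + ∑ t ∈ Finset.Iio s, cc s t * D t := by
      intro s
      have e0 : D s = ∑ x : σ ⊕ Fin R, φ (aeval (Sum.elim X y) (pderiv x (H s))) *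
          φ (pderiv v ((Sum.elim X y : σ ⊕ Fin R → MvPolynomial σ L) x)) := by
        rw [hDdef]
        simp only
        rw [hz s, chain_rule, map_sum]
        apply Finset.sum_congr rfl
        intro x _
        rw [map_mul]
      rw [e0, Fintype.sum_sum_type]
      have e1 : ∑ x : σ, φ (aeval (Sum.elim X y) (pderiv (Sum.inl x) (H s))) *
          φ (pderiv v ((Sum.elim X y : σ ⊕ Fin R → MvPolynomial σ L) (Sum.inl x))) =
          φ (aeval (Sum.elim X y) (pderiv (Sum.inl v) (H s))) := by
        rw [Finset.sum_eq_single v]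
        · rw [Sum.elim_inl, pderiv_X_self, map_one, mul_one]
        · intro b _ hb
          rw [Sum.elim_inl, pderiv_X_of_ne hb, map_zero, mul_zero]
        · intro h
          exact absurd (Finset.mem_univ v) h
      have e2 : ∑ t ∈ Finset.Iio s, cc s t * D t = ∑ t, cc s t * D t := by
        apply Finset.sum_subset (Finset.subset_univ _)
        intro t _ ht
        rw [hcc0 s t (fun h => ht (Finset.mem_Iio.mpr h)), zero_mul]
      have e3 : ∑ t, cc s t * D t = ∑ j, Dj s j * ∑ t, c j t • D t := by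
        have h2 : ∀ t, cc s t * D t = ∑ j, Dj s j * (c j t • D t) := by
          intro t
          rw [hcc]
          simp only
          rw [Finset.sum_mul]
          apply Finset.sum_congr rfl
          intro j _
          rw [smul_mul_assoc, mul_smul_comm]
        rw [Finset.sum_congr rfl (fun t _ => h2 t), Finset.sum_comm]
        apply Finset.sum_congr rfl
        intro j _
        rw [Finset.mul_sum]
      rw [e1, e2, e3, hsrc]
      simp only
      rw [add_assoc, ← Finset.sum_add_distrib]
      congr 1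
      apply Finset.sum_congr rfl
      intro j _
      rw [← mul_add, ← hDy j]
      rfl
    have hsum := adj_sum (fun t => C (gm t)) D src u cc hD hueq
    have hfd : φ (pderiv v f) = φ (pderiv v q0) + ∑ s, u s * src s := by
      rw [← hsum, hf, map_add, map_sum, map_add, map_sum]
      congr 1
      apply Finset.sum_congr rfl
      intro s _
      rw [Derivation.map_smul, map_smul, smul_eq_C_mul]
    have hfd2 : ∑ s, u s * src s = ∑ s, φ (aeval (Sum.elim X y) (pderiv (Sum.inl v) (H s))) * u s +
        ∑ j, α j * φ (pderiv v (q j)) := by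
      have h2 : ∀ j, α j * φ (pderiv v (q j)) = ∑ s, Dj s j * u s * φ (pderiv v (q j)) := by
        intro j
        rw [hα]
        simp only
        rw [Finset.sum_mul]
      rw [Finset.sum_congr rfl (fun j _ => h2 j), Finset.sum_comm, ← Finset.sum_add_distrib]
      apply Finset.sum_congr rfl
      intro s _
      rw [hsrc]
      simp only
      rw [mul_add, Finset.mul_sum]
      congr 1
      · ring
      · apply Finset.sum_congr rfl
        intro j _
        ring
    rw [hfd, hfd2]
    apply Submodule.add_mem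
    · exact hpoly _ _ (hdegP _ _ v hq0)
    · apply Submodule.add_mem
      · apply Submodule.sum_mem
        intro s _
        by_cases h0 : pderiv (Sum.inl v) (H s) = 0
        · rw [h0, map_zero, map_zero, zero_mul]
          exact Submodule.zero_mem _
        · refine ew_mono ev ?_ (ew_mul ev (hEH _ _ (pderiv_mem_wp (Sum.inl v) (H s) _ (hH s)))
            (hEu s))
          have h3 := hX s v h0
          have h4 := hC s
          omega
      · apply Submodule.sum_mem
        intro j _
        refine ew_mono ev ?_ (ew_mul ev (hEa j) (hpoly _ _ (hdegP _ _ v (hq j))))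
        have := hA j
        rw [hwa]
        simp only
        omega
  · intro T T₁
    have hevs : ∀ i : Fin n ⊕ Fin R, ev (X (Sum.inr i)) =
        ev (pg S (fun j => φ (q j)) c gm H (Sum.inr i)) := by
      rintro (s | j)
      · change ev (X (Sum.inr (Sum.inl s))) = ev (aeval (sb S (fun j => φ (q j)) c) (H s))
        rw [hevP, ← hz s, hev, evg_z]
      · change ev (X (Sum.inr (Sum.inr j))) = ev (∑ s,
          aeval (sb S (fun j => φ (q j)) c) (pderiv (Sum.inr j) (H s)) * av c gm s)
        rw [map_sum]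
        have h1 : ∀ s, ev (aeval (sb S (fun j => φ (q j)) c) (pderiv (Sum.inr j) (H s)) *
            av c gm s) = Dj s j * u s := by
          intro s
          rw [map_mul, hevP]
          congr 1
          rw [hev, evg_av, ← hua]
        rw [Finset.sum_congr rfl (fun s _ => h1 s), hev, evg_a]
    set I : Finset (Vg ι n R) := Finset.univ.image Sum.inr with hI
    have hImem : ∀ i ∈ I, ∃ k : Fin n ⊕ Fin R, Sum.inr k = i := by
      intro i hi
      obtain ⟨k, _, hk⟩ := Finset.mem_image.mp hi
      exact ⟨k, hk⟩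
    set dd : Vg ι n R → ℕ := Sum.elim (fun _ => 1)
      (Sum.elim (fun s => max (C₀ s) (W s)) (fun j => 2 * Ω - A j + E j)) with hdd
    have h := welim_bound (w := w) hwpos (rg ι n R κ)
      (pg S (fun j => φ (q j)) c gm H) ev dd I
      ((rg_inj hκ).mono (by
        intro i hi
        obtain ⟨k, hk⟩ := hImem i hi
        exact ⟨k, hk⟩))
      (by
        intro i hi
        obtain ⟨k, rfl⟩ := hImem i hi
        rcases k with s | j
        · exact lt_of_lt_of_le (hC0 s) (le_max_left _ _)
        · change 0 < 2 * Ω - A j + E j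
          have := hA j
          omega)
      (by
        intro i hi
        obtain ⟨k, rfl⟩ := hImem i hi
        exact pg_supported S _ c gm H κ hκ hcκ hHκ k)
      (by
        intro i hi
        obtain ⟨k, rfl⟩ := hImem i hi
        have h := pg_mem S hS (fun j => φ (q j)) c gm H Ω (fun j => hdegQ _ _ (hq j)) hc hA hC hH
          hE k
        rcases k with s | j
        · exact h
        · exact h)
      (by
        intro i hi
        obtain ⟨k, rfl⟩ := hImem i hi
        exact hevs k) T (3 * Ω * T₁)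
    have hcardI : I.card = n + R := by
      rw [hI, Finset.card_image_of_injective _ Sum.inr_injective, Finset.card_univ,
        Fintype.card_sum, Fintype.card_fin, Fintype.card_fin]
    have hprodI : ∏ i ∈ I, (dd i : ℝ) = (∏ s, ((max (C₀ s) (W s) : ℕ) : ℝ)) *
        ∏ j, ((2 * Ω - A j + E j : ℕ) : ℝ) := by
      rw [hI, Finset.prod_image (fun x _ y _ h => Sum.inr_injective h), Fintype.prod_sum_type]
      rfl
    have hprodw : ∏ v : Vg ι n R, (w v : ℝ) = (Q : ℝ) ^ (Fintype.card ι) *
        ((∏ s, (C₀ s : ℝ)) * ∏ j, ((2 * Ω - A j : ℕ) : ℝ)) := by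
      rw [Fintype.prod_sum_type, Fintype.prod_sum_type]
      have : ∏ i : ι, (w (Sum.inl i) : ℝ) = (Q : ℝ) ^ (Fintype.card ι) := by
        rw [Finset.prod_congr rfl (fun i _ => show (w (Sum.inl i) : ℝ) = (Q : ℝ) from rfl),
          Finset.prod_const, Finset.card_univ]
      rw [this]
      rfl
    have hcardV : Fintype.card (Vg ι n R) = Fintype.card ι + (n + R) := by
      rw [Fintype.card_sum, Fintype.card_sum, Fintype.card_fin, Fintype.card_fin]
    rw [hcardI, hprodI, hprodw, hcardV, Nat.cast_mul (3 * Ω) T₁] at h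
    refine le_trans ?_ h
    apply mul_le_mul_of_nonneg_left _ (by positivity)
    have h5 : finrank L ↥((ew ev w (3 * Ω)) ^ T₁) ≤ dw w ev (3 * Ω * T₁) := by
      have : FiniteDimensional L ↥((wp L w (3 * Ω * T₁)).map ev.toLinearMap) :=
        Module.Finite.iff_fg.mpr ((wp_fg hwpos _).map _)
      exact Submodule.finrank_mono (ew_pow_le ev (3 * Ω) T₁)
    exact_mod_cast h5

end Pool.Agent.W944.V2
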