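import Pool.Agent.W944.V2Prod

/-! # The entropy of the products -/

set_option autoImplicit false
set_option linter.unusedSectionVars false
set_option linter.unusedVariables false

open Module MvPolynomial

namespace Pool.Agent.W944.V2

open Pool.Agent.H546R2.SL (perN)
open Pool.Agent.W944.Wt (Avail mem_Avail)

/-- the chord of the exponential function -/
lemma exp_chord {u l : ℝ} (hl : 0 < l) (hu0 : 0 ≤ u) (hul : u ≤ l) :
    Real.exp u ≤ 1 + u * ((Real.exp l - 1) / l) := by
  have h := convexOn_exp.2 (Set.mem_univ (0 : ℝ)) (Set.mem_univ l)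
    (show (0 : ℝ) ≤ 1 - u / l by
      rw [sub_nonneg, div_le_one hl]
      exact hul) (show (0 : ℝ) ≤ u / l by positivity) (by ring)
  simp only [smul_eq_mul, mul_zero, zero_add, Real.exp_zero, mul_one] at h
  rw [div_mul_cancel₀ _ hl.ne'] at h
  have e : 1 - u / l + u / l * Real.exp l = 1 + u * ((Real.exp l - 1) / l) := by
    field_simp
    ring
  rw [e] at h
  exact h

lemma rpow_le_ent {x M l ε : ℝ} (hx : 0 < x) (hx1 : x ≤ 1) (hM : 1 < M) (hxM : 1 / M ≤ x)
    (hl : 0 < l) (hε : ε = l / Real.log M) :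
    x ^ (1 - ε) ≤ x + ε * ((Real.exp l - 1) / l) * Real.negMulLog x := by
  have hlM : 0 < Real.log M := Real.log_pos hM
  have hε0 : 0 < ε := by rw [hε]; positivity
  have hlog : Real.log x ≤ 0 := Real.log_nonpos hx.le hx1
  have hlog2 : - Real.log M ≤ Real.log x := by
    have h1 := Real.log_le_log (by positivity) hxM
    rw [Real.log_div one_ne_zero (by positivity), Real.log_one, zero_sub] at h1
    exact h1
  have hu := exp_chord (u := -(ε * Real.log x)) hl (by
      rw [neg_nonneg]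
      exact mul_nonpos_of_nonneg_of_nonpos hε0.le hlog) (by
      have h1 : -(ε * Real.log x) ≤ ε * Real.log M := by nlinarith
      have h2 : ε * Real.log M = l := by
        rw [hε]
        exact div_mul_cancel₀ _ hlM.ne'
      linarith)
  have e1 : x ^ (1 - ε) = x * Real.exp (-(ε * Real.log x)) := by
    rw [Real.rpow_def_of_pos hx]
    conv_rhs => rw [← Real.exp_log hx]
    rw [← Real.exp_add, Real.exp_log hx]
    congr 1
    ring
  rw [e1]
  calc x * Real.exp (-(ε * Real.log x)) ≤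
        x * (1 + -(ε * Real.log x) * ((Real.exp l - 1) / l)) := by gcongr
    _ = x + ε * ((Real.exp l - 1) / l) * Real.negMulLog x := by
      unfold Real.negMulLog
      ring

/-- the cost of a product -/
lemma cost_le_ent (p q : ℕ) (hp : 1 ≤ p) (hq : 1 ≤ q) (M l ε : ℝ) (hM : 1 < M)
    (hpM : ((p + q : ℕ) : ℝ) ≤ M) (hl : 0 < l) (hε : ε = l / Real.log M) :
    Real.log (max 1 (((p : ℝ) ^ (1 - ε) + (q : ℝ) ^ (1 - ε)) / ((p + q : ℕ) : ℝ) ^ (1 - ε))) ≤
      ε * ((Real.exp l - 1) / l) * Real.binEntropy ((p : ℝ) / (p + q)) := by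
  have hpr : (1 : ℝ) ≤ p := by exact_mod_cast hp
  have hqr : (1 : ℝ) ≤ q := by exact_mod_cast hq
  have hs : (0 : ℝ) < (p : ℝ) + q := by linarith
  have hM0 : 0 < M := by linarith
  have hlM : 0 < Real.log M := Real.log_pos hM
  have hε0 : 0 < ε := by rw [hε]; positivity
  push_cast at hpM ⊢
  set x : ℝ := (p : ℝ) / (p + q) with hx
  have hx' : 1 - x = (q : ℝ) / (p + q) := by
    rw [hx]
    field_simp
    ring
  have hx0 : 0 < x := by rw [hx]; positivity
  have hx1 : x ≤ 1 := by rw [hx, div_le_one hs]; linarith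
  have hy0 : 0 < 1 - x := by rw [hx']; positivity
  have hxM : 1 / M ≤ x := by
    rw [hx]
    exact div_le_div₀ (by positivity) hpr hs hpM
  have hyM : 1 / M ≤ 1 - x := by
    rw [hx']
    exact div_le_div₀ (by positivity) hqr hs hpM
  have h1 := rpow_le_ent hx0 hx1 hM hxM hl hε
  have h2 := rpow_le_ent hy0 (by linarith) hM hyM hl hε
  have e1 : ((p : ℝ) ^ (1 - ε) + (q : ℝ) ^ (1 - ε)) / ((p : ℝ) + q) ^ (1 - ε) =
      x ^ (1 - ε) + (1 - x) ^ (1 - ε) := by
    rw [hx', hx, Real.div_rpow (by positivity) hs.le, Real.div_rpow (by positivity) hs.le]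
    ring
  rw [e1, Real.binEntropy_eq_negMulLog_add_negMulLog_one_sub]
  set K := ε * ((Real.exp l - 1) / l) with hK
  have hK0 : 0 ≤ K := by
    have h3 : 0 ≤ Real.exp l - 1 := by
      have := Real.add_one_le_exp l
      linarith
    rw [hK]
    positivity
  have h4 : 0 ≤ Real.negMulLog x := Real.negMulLog_nonneg hx0.le hx1
  have h5 : 0 ≤ Real.negMulLog (1 - x) := Real.negMulLog_nonneg hy0.le (by linarith)
  have h6 : max 1 (x ^ (1 - ε) + (1 - x) ^ (1 - ε)) ≤
      1 + K * (Real.negMulLog x + Real.negMulLog (1 - x)) := by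
    apply max_le
    · have : 0 ≤ K * (Real.negMulLog x + Real.negMulLog (1 - x)) := by positivity
      linarith
    · linarith
  have h7 := Real.log_le_sub_one_of_pos
    (show 0 < max 1 (x ^ (1 - ε) + (1 - x) ^ (1 - ε)) from
      lt_of_lt_of_le one_pos (le_max_left _ _))
  linarith

/-- **The entropy bound for the permanent.** -/
theorem ent_perm (k₀ : Type*) [Field k₀] [CharZero k₀] (m : ℕ) (hm : 55000 ≤ m) {n : ℕ}
    (δ M : ℕ) (hδ : 1 ≤ δ) (hδm : 17000 * δ ≤ m) (hmM : m ≤ δ * M) (p q : Fin n → ℕ)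
    (hp : ∀ s, 1 ≤ p s) (hq : ∀ s, 1 ≤ q s) (hM : ∀ s, p s + q s ≤ M)
    (a b : Fin n → MvPolynomial (Fin m × Fin m) (RatFunc k₀))
    (ha : ∀ s, a s ∈ Avail δ (fun j => a j * b j) {j | j < s ∧ p j + q j ≤ p s})
    (hb : ∀ s, b s ∈ Avail δ (fun j => a j * b j) {j | j < s ∧ p j + q j ≤ q s})
    (F : MvPolynomial (Fin m × Fin m) (RatFunc k₀))
    (hF : F ∈ Avail δ (fun j => a j * b j) Set.univ)
    (hlim : ∀ μ, (coeff μ F).denom.eval 0 ≠ 0 ∧
      RatFunc.eval (RingHom.id k₀) 0 (coeff μ F) = coeff μ (perN k₀ m)) :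
    (m : ℝ) ^ 3 * Real.log M ≤
      13400000 * δ * M * ∑ s, Real.binEntropy ((p s : ℝ) / (p s + q s)) := by
  classical
  have hmr : (55000 : ℝ) ≤ m := by exact_mod_cast hm
  have hm0 : (0 : ℝ) < m := by linarith
  have hδr : (1 : ℝ) ≤ δ := by exact_mod_cast hδ
  have hδ0 : (0 : ℝ) < δ := by linarith
  have hMr : (m : ℝ) ≤ δ * M := by exact_mod_cast hmM
  have hδmr : (17000 : ℝ) * δ ≤ m := by exact_mod_cast hδm
  have hM17 : (17000 : ℝ) ≤ M := by
    have h1 : δ * (17000 : ℝ) ≤ δ * M := by linarith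
    exact le_of_mul_le_mul_left h1 hδ0
  have hM0 : (0 : ℝ) < M := by linarith
  have hM1 : (1 : ℝ) < M := by linarith
  have hlM : 0 < Real.log M := Real.log_pos hM1
  set l : ℝ := 1 + Real.log (6000 * (δ * M) / m) with hl
  have hl0 : 0 < l := by
    have h1 : 0 ≤ Real.log (6000 * (δ * M) / m) := by
      apply Real.log_nonneg
      rw [one_le_div hm0]
      linarith
    linarith
  set ε : ℝ := l / Real.log M with hε
  have hεl : ε * Real.log M = l := div_mul_cancel₀ _ hlM.ne'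
  have hε0 : 0 < ε := by positivity
  have hexp : Real.exp l = Real.exp 1 * (6000 * (δ * M) / m) := by
    rw [hl, Real.exp_add, Real.exp_log (by positivity)]
  have hε1 : ε ≤ 1 := by
    rw [hε, div_le_one hlM, Real.le_log_iff_exp_le hM0, hexp]
    have h1 := Real.exp_one_lt_d9
    rw [mul_div_assoc', div_le_iff₀ hm0]
    calc Real.exp 1 * (6000 * (δ * M)) ≤ 2.7182818286 * (6000 * (δ * M)) := by gcongr
      _ ≤ M * (17000 * δ) := by nlinarith [mul_pos hδ0 hM0]
      _ ≤ M * m := by gcongr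
  have hα0 : 0 ≤ 1 - ε := by linarith
  choose la ca hla hca hae using fun s => mem_Avail (ha s) (Finset.Iio s)
    (fun j hj => Finset.mem_Iio.mpr hj.1)
  choose lb cb hlb hcb hbe using fun s => mem_Avail (hb s) (Finset.Iio s)
    (fun j hj => Finset.mem_Iio.mpr hj.1)
  obtain ⟨lf, gm, hlf, -, hfe⟩ := mem_Avail hF Finset.univ (fun j _ => Finset.mem_univ j)
  have hone : ∀ t : ℕ, 1 ≤ t → (δ : ℝ) ≤ δ * (t : ℝ) ^ (1 - ε) := fun t ht =>
    le_mul_of_one_le_right hδ0.le (Real.one_le_rpow (by exact_mod_cast ht) hα0)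
  have hmono : ∀ s t : ℕ, s ≤ t → δ * (s : ℝ) ^ (1 - ε) ≤ δ * (t : ℝ) ^ (1 - ε) := fun s t h =>
    mul_le_mul_of_nonneg_left (Real.rpow_le_rpow (by positivity) (by exact_mod_cast h) hα0) hδ0.le
  have hΩ1 : (1 : ℝ) ≤ (M : ℝ) ^ (1 - ε) := Real.one_le_rpow hM1.le hα0
  have hΩ2 : (δ : ℝ) ≤ δ * (M : ℝ) ^ (1 - ε) := le_mul_of_one_le_right hδ0.le hΩ1
  have h := pperm k₀ m hm (fun s => δ * (p s : ℝ) ^ (1 - ε)) (fun s => δ * (q s : ℝ) ^ (1 - ε))
    (fun s => δ * ((p s + q s : ℕ) : ℝ) ^ (1 - ε)) (δ * (M : ℝ) ^ (1 - ε)) a b la lb ca cb gm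
    hae hbe
    (fun s => le_trans (by exact_mod_cast hla s) (hone _ (hp s)))
    (fun s => le_trans (by exact_mod_cast hlb s) (hone _ (hq s)))
    (fun s j _ h0 => hmono _ _ (hca s j h0).2)
    (fun s j _ h0 => hmono _ _ (hcb s j h0).2)
    (fun s => by
      have := hone (p s + q s) (by have := hp s; omega)
      linarith)
    (fun s => hmono _ _ (by have := hM s; omega))
    (fun s => hmono _ _ (by have := hM s; omega))
    (fun s => hmono _ _ (hM s))
    (by linarith) lf (by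
      have h1 : (lf.totalDegree : ℝ) ≤ δ := by exact_mod_cast hlf
      linarith) F hfe hlim
  -- the left-hand side
  have hleft : Real.log ((m : ℝ) / (6000 * (δ * (M : ℝ) ^ (1 - ε)))) = 1 := by
    have hMp : (0 : ℝ) < (M : ℝ) ^ (1 - ε) := by positivity
    rw [Real.log_div hm0.ne' (by positivity), Real.log_mul (by norm_num) (by positivity),
      Real.log_mul hδ0.ne' hMp.ne', Real.log_rpow hM0]
    have h2 : l = 1 + (Real.log 6000 + (Real.log δ + Real.log M) - Real.log m) := by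
      rw [hl, Real.log_div (by positivity) hm0.ne', Real.log_mul (by norm_num) (by positivity),
        Real.log_mul hδ0.ne' hM0.ne']
    have h3 : (1 - ε) * Real.log M = Real.log M - l := by
      rw [sub_mul, one_mul, hεl]
    rw [h3, h2]
    ring
  rw [hleft, mul_one] at h
  -- the right-hand side
  have hsum : ∑ s, Real.log (max 1 ((δ * (p s : ℝ) ^ (1 - ε) + δ * (q s : ℝ) ^ (1 - ε)) /
      (δ * ((p s + q s : ℕ) : ℝ) ^ (1 - ε)))) ≤
      ε * ((Real.exp l - 1) / l) * ∑ s, Real.binEntropy ((p s : ℝ) / (p s + q s)) := by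
    rw [Finset.mul_sum]
    apply Finset.sum_le_sum
    intro s _
    rw [← mul_add, mul_div_mul_left _ _ hδ0.ne']
    exact cost_le_ent (p s) (q s) (hp s) (hq s) M l ε hM1 (by exact_mod_cast hM s) hl0 hε
  set Hs := ∑ s, Real.binEntropy ((p s : ℝ) / (p s + q s)) with hHs
  have hHs0 : 0 ≤ Hs := by
    apply Finset.sum_nonneg
    intro s _
    have hpr : (0 : ℝ) ≤ p s := by positivity
    have hqr : (0 : ℝ) ≤ q s := by positivity
    apply Real.binEntropy_nonneg
    · positivity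
    · apply div_le_one_of_le₀ <;> linarith
  have hK : ε * ((Real.exp l - 1) / l) ≤ Real.exp 1 * (6000 * (δ * M) / m) / Real.log M := by
    have e1 : ε * ((Real.exp l - 1) / l) = (Real.exp l - 1) / Real.log M := by
      rw [hε]
      field_simp
    rw [e1, ← hexp]
    apply div_le_div_of_nonneg_right _ hlM.le
    linarith
  have h8 : (m : ℝ) ^ 2 ≤ 816 * (Real.exp 1 * (6000 * (δ * M) / m) / Real.log M * Hs) := by
    refine h.trans ?_
    apply mul_le_mul_of_nonneg_left _ (by norm_num)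
    exact hsum.trans (mul_le_mul_of_nonneg_right hK hHs0)
  have h9 : (m : ℝ) ^ 3 * Real.log M ≤ 816 * 6000 * Real.exp 1 * (δ * M * Hs) := by
    have h10 := mul_le_mul_of_nonneg_right h8 (show 0 ≤ (m : ℝ) * Real.log M by positivity)
    have e1 : 816 * (Real.exp 1 * (6000 * (δ * M) / m) / Real.log M * Hs) *
        ((m : ℝ) * Real.log M) = 816 * 6000 * Real.exp 1 * (δ * M * Hs) := by
      field_simp
    rw [e1] at h10
    calc (m : ℝ) ^ 3 * Real.log M = m ^ 2 * (m * Real.log M) := by ring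
      _ ≤ _ := h10
  have h11 := Real.exp_one_lt_d9
  have h12 : 0 ≤ δ * (M : ℝ) * Hs := by positivity
  calc (m : ℝ) ^ 3 * Real.log M ≤ 816 * 6000 * Real.exp 1 * (δ * M * Hs) := h9
    _ ≤ 13400000 * (δ * M * Hs) := by nlinarith
    _ = _ := by ring

end Pool.Agent.W944.V2
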