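import Pool.Agent.W944.V2Smooth

/-! # The law at every scale -/

set_option autoImplicit false
set_option linter.unusedSectionVars false
set_option linter.unusedVariables false

open Module MvPolynomial

namespace Pool.Agent.W944.V2

open Pool.Agent.W944.Wt (Avail mem_Avail)

/-- the lower order terms -/
lemma low_order (N : ℕ) (hN : 0 < N) :
    1 + Real.log ((N : ℝ) + 1) ≤ N * Real.log (11 / 2) := by
  have h2 : (1 : ℝ) + Real.log 2 ≤ Real.log (11 / 2) := by
    have h1 : Real.exp 1 * 2 ≤ 11 / 2 := by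
      have := Real.exp_one_lt_d9
      linarith
    have h3 := Real.log_le_log (by positivity) h1
    rw [Real.log_mul (Real.exp_pos 1).ne' (by norm_num), Real.log_exp] at h3
    exact h3
  have hl2 : 0 < Real.log 2 := Real.log_pos (by norm_num)
  have hNr : (1 : ℝ) ≤ N := by exact_mod_cast hN
  have h3 : Real.log ((N : ℝ) + 1) ≤ Real.log 2 + (N - 1) := by
    have h4 := Real.log_le_sub_one_of_pos (show (0 : ℝ) < ((N : ℝ) + 1) / 2 by positivity)
    rw [Real.log_div (by positivity) (by norm_num)] at h4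
    linarith
  nlinarith

/-- **The law at the scale `T`**: the products of formal degree larger than `T`. -/
theorem law_smooth (k₀ : Type*) [Field k₀] (N d : ℕ)
    (f : MvPolynomial (Fin N) k₀) (hf : f.IsHomogeneous d)
    (hsm : ∀ x : Fin N → AlgebraicClosure k₀, (∀ i, aeval x (pderiv i f) = 0) → x = 0)
    {n : ℕ} (δ : ℕ) (hδ : 1 ≤ δ) (p q : Fin n → ℕ) (hp : ∀ s, δ ≤ p s) (hq : ∀ s, δ ≤ q s)
    (a b : Fin n → MvPolynomial (Fin N) (RatFunc k₀))
    (ha : ∀ s, a s ∈ Avail δ (fun j => a j * b j) {j | j < s ∧ p j + q j ≤ p s})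
    (hb : ∀ s, b s ∈ Avail δ (fun j => a j * b j) {j | j < s ∧ p j + q j ≤ q s})
    (F : MvPolynomial (Fin N) (RatFunc k₀))
    (hF : F ∈ Avail δ (fun j => a j * b j) Set.univ)
    (hlim : ∀ μ, (coeff μ F).denom.eval 0 ≠ 0 ∧
      RatFunc.eval (RingHom.id k₀) 0 (coeff μ F) = coeff μ f)
    (T : ℝ) (hT : (δ : ℝ) ≤ T) :
    (N : ℝ) * Real.log (d / (33 * T)) ≤
      3 * ∑ s, (if T < (p s + q s : ℕ) then min 1 ((min (p s) (q s) : ℕ) / T) else 0) := by
  classical
  have hδr : (1 : ℝ) ≤ δ := by exact_mod_cast hδ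
  have hT1 : (1 : ℝ) ≤ T := by linarith
  have hT0 : (0 : ℝ) < T := by linarith
  have hR0 : ∀ s, 0 ≤ (if T < (p s + q s : ℕ) then min 1 (((min (p s) (q s) : ℕ) : ℝ) / T)
      else 0) := by
    intro s
    split_ifs
    · positivity
    · exact le_rfl
  have hS0 : 0 ≤ ∑ s, (if T < (p s + q s : ℕ) then min 1 (((min (p s) (q s) : ℕ) : ℝ) / T)
      else 0) := Finset.sum_nonneg fun s _ => hR0 s
  rcases Nat.eq_zero_or_pos N with hN0 | hN
  · subst hN0
    simp only [Nat.cast_zero, zero_mul]
    linarith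
  rcases Nat.lt_or_ge d 2 with hd1 | hd
  · have h1 : Real.log ((d : ℝ) / (33 * T)) ≤ 0 := by
      apply Real.log_nonpos (by positivity)
      rw [div_le_one (by positivity)]
      have : (d : ℝ) ≤ 1 := by exact_mod_cast (by omega : d ≤ 1)
      linarith
    have h2 : (N : ℝ) * Real.log (d / (33 * T)) ≤ 0 :=
      mul_nonpos_of_nonneg_of_nonpos (by positivity) h1
    linarith
  choose la ca hla hca hae using fun s => mem_Avail (ha s) (Finset.Iio s)
    (fun j hj => Finset.mem_Iio.mpr hj.1)
  choose lb cb hlb hcb hbe using fun s => mem_Avail (hb s) (Finset.Iio s)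
    (fun j hj => Finset.mem_Iio.mpr hj.1)
  obtain ⟨lf, gm, hlf, -, hfe⟩ := mem_Avail hF Finset.univ (fun j _ => Finset.mem_univ j)
  have hmono : ∀ s t : ℕ, s ≤ t → min (s : ℝ) T ≤ min (t : ℝ) T := fun s t h =>
    min_le_min_right _ (by exact_mod_cast h)
  have hge : ∀ t : ℕ, δ ≤ t → (δ : ℝ) ≤ min (t : ℝ) T := fun t h =>
    le_min (by exact_mod_cast h) hT
  have h := psmooth k₀ N d hN hd f hf hsm (fun s => min (p s : ℝ) T) (fun s => min (q s : ℝ) T)
    (fun s => min ((p s + q s : ℕ) : ℝ) T) T a b la lb ca cb gm hae hbe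
    (fun s => le_trans (by exact_mod_cast hla s) (hge _ (hp s)))
    (fun s => le_trans (by exact_mod_cast hlb s) (hge _ (hq s)))
    (fun s j _ h0 => hmono _ _ (hca s j h0).2)
    (fun s j _ h0 => hmono _ _ (hcb s j h0).2)
    (fun s => by
      have := hge (p s + q s) (by have := hp s; omega)
      linarith)
    (fun s => min_le_right _ _) (fun s => min_le_right _ _) (fun s => min_le_right _ _)
    hT1 lf (by
      have h1 : (lf.totalDegree : ℝ) ≤ δ := by exact_mod_cast hlf
      linarith) F hfe hlim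
  have hcost : ∀ s, Real.log (max 1 ((min (p s : ℝ) T + min (q s : ℝ) T) /
      min ((p s + q s : ℕ) : ℝ) T)) ≤
      (if T < (p s + q s : ℕ) then min 1 (((min (p s) (q s) : ℕ) : ℝ) / T) else 0) := by
    intro s
    split_ifs with h1
    · rw [min_eq_right h1.le]
      have h2 : min (p s : ℝ) T + min (q s : ℝ) T ≤ T + min (((min (p s) (q s) : ℕ) : ℝ)) T := by
        rw [Nat.cast_min]
        rcases le_total (p s : ℝ) (q s : ℝ) with h3 | h3
        · rw [min_eq_left h3]
          have := min_le_right (q s : ℝ) T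
          linarith
        · rw [min_eq_right h3]
          have := min_le_right (p s : ℝ) T
          linarith
      have h3 : (min (p s : ℝ) T + min (q s : ℝ) T) / T ≤
          1 + min 1 (((min (p s) (q s) : ℕ) : ℝ) / T) := by
        rw [div_le_iff₀ hT0]
        refine h2.trans ?_
        rw [add_mul, one_mul, min_mul_of_nonneg _ _ hT0.le, one_mul, div_mul_cancel₀ _ hT0.ne',
          min_comm]
      have h4 : (0 : ℝ) ≤ min 1 (((min (p s) (q s) : ℕ) : ℝ) / T) := by positivity
      have h5 : max 1 ((min (p s : ℝ) T + min (q s : ℝ) T) / T) ≤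
          1 + min 1 (((min (p s) (q s) : ℕ) : ℝ) / T) := max_le (by linarith) h3
      have h6 := Real.log_le_sub_one_of_pos
        (show 0 < max 1 ((min (p s : ℝ) T + min (q s : ℝ) T) / T) from
          lt_of_lt_of_le one_pos (le_max_left _ _))
      linarith
    · push Not at h1
      rw [min_eq_left h1]
      have hpos : (0 : ℝ) < ((p s + q s : ℕ) : ℝ) := by
        have := hp s
        exact_mod_cast (by omega : 0 < p s + q s)
      have h2 : (min (p s : ℝ) T + min (q s : ℝ) T) / ((p s + q s : ℕ) : ℝ) ≤ 1 := by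
        rw [div_le_one hpos]
        push_cast
        have := min_le_left (p s : ℝ) T
        have := min_le_left (q s : ℝ) T
        linarith
      rw [max_eq_left h2, Real.log_one]
  have hsum := Finset.sum_le_sum (s := Finset.univ) fun s _ => hcost s
  have hleft : (N : ℝ) * Real.log (d / (33 * T)) ≤
      N * Real.log (((d - 1 : ℕ) : ℝ) / (3 * T)) - (1 + Real.log (N + 1)) := by
    have h1 := low_order N hN
    have hd1 : (0 : ℝ) < ((d - 1 : ℕ) : ℝ) := by
      exact_mod_cast (by omega : 0 < d - 1)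
    have hdr : (0 : ℝ) < d := by exact_mod_cast (by omega : 0 < d)
    have h2 : Real.log (d / (33 * T)) + Real.log (11 / 2) ≤
        Real.log (((d - 1 : ℕ) : ℝ) / (3 * T)) := by
      rw [← Real.log_mul (by positivity) (by norm_num)]
      apply Real.log_le_log (by positivity)
      rw [div_mul_div_comm, div_le_div_iff₀ (by positivity) (by positivity)]
      have h3 : (d : ℝ) ≤ 2 * ((d - 1 : ℕ) : ℝ) := by
        exact_mod_cast (by omega : d ≤ 2 * (d - 1))
      nlinarith
    have h3 : (N : ℝ) * (Real.log (d / (33 * T)) + Real.log (11 / 2)) ≤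
        N * Real.log (((d - 1 : ℕ) : ℝ) / (3 * T)) :=
      mul_le_mul_of_nonneg_left h2 (by positivity)
    linarith
  linarith

end Pool.Agent.W944.V2
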