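import Pool.Agent.W944.WtLevel
import Pool.Agent.W944.CircFinal

/-! # Computations with levels of the permanent -/

set_option autoImplicit false
set_option linter.unusedSectionVars false
set_option linter.unusedVariables false

open Module MvPolynomial

namespace Pool.Agent.W944.Wt

open Pool.Agent.W940.G
open Pool.Agent.W944.Cx (exists_params lift_poly)
open Pool.Agent.H546R2.SL (perN)
open Pool.Agent.H632R2.Border (O0 φ0 ψ0 φψ rmap rmap_mem rmap_eval totalDegree_map_le)

/-- The polynomials available from the free polynomials (all polynomials of degree at most `δ`)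
and the products `g j` with `j ∈ J`: their linear combinations. -/
noncomputable def Avail {K σ : Type*} [Field K] (δ : ℕ) {n : ℕ} (g : Fin n → MvPolynomial σ K)
    (J : Set (Fin n)) : Submodule K (MvPolynomial σ K) :=
  restrictTotalDegree σ K δ ⊔ Submodule.span K (g '' J)

lemma mem_Avail {K σ : Type*} [Field K] {δ n : ℕ} {g : Fin n → MvPolynomial σ K}
    {J : Set (Fin n)} {f : MvPolynomial σ K} (hf : f ∈ Avail δ g J) (T : Finset (Fin n))
    (hJ : ∀ j ∈ J, j ∈ T) :
    ∃ (l : MvPolynomial σ K) (c : Fin n → K), l.totalDegree ≤ δ ∧ (∀ j, c j ≠ 0 → j ∈ J) ∧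
      f = l + ∑ j ∈ T, c j • g j := by
  classical
  unfold Avail at hf
  rw [Submodule.mem_sup] at hf
  obtain ⟨l, hl, x, hx, rfl⟩ := hf
  rw [mem_restrictTotalDegree] at hl
  have hJf : J = ((Finset.univ.filter (· ∈ J) : Finset (Fin n)) : Set (Fin n)) := by
    ext j; simp
  rw [hJf, Submodule.mem_span_image_finset_iff_exists_fun] at hx
  obtain ⟨c, hc⟩ := hx
  refine ⟨l, fun j => if h : j ∈ Finset.univ.filter (· ∈ J) then c ⟨j, h⟩ else 0, hl, ?_, ?_⟩
  · intro j hj
    by_contra hcon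
    apply hj
    simp [hcon]
  · rw [← hc]
    congr 1
    rw [← Finset.sum_subset (s₁ := Finset.univ.filter (· ∈ J)) (s₂ := T)]
    · rw [← Finset.sum_coe_sort (Finset.univ.filter (· ∈ J))]
      apply Finset.sum_congr rfl
      intro j _
      simp only
      rw [dif_pos j.2]
    · intro j hj
      rw [Finset.mem_filter] at hj
      exact hJ j hj.2
    · intro j _ hj
      simp only
      rw [dif_neg hj, zero_smul]

/-- **The inequality for the permanent.** -/
theorem level_perm (k₀ : Type*) [Field k₀] [CharZero k₀] {q ℓ k p : ℕ} (hk : 2 ≤ k)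
    (hm' : mm (2 ^ ℓ) = 2 * k) (hq : 0 < q) (m : ℕ) (hm : m = NN q ℓ + p) (δ t : ℕ)
    (hδ : 1 ≤ δ) (w : ℕ → ℕ) (hw0 : δ ≤ w 0) (hw : ∀ i, 2 * w i ≤ w (i + 1)) {n : ℕ}
    (lev : Fin n → ℕ) (R : Finset (Fin n))
    (hlev : ∀ s, lev s ≤ t) (hlev1 : ∀ s ∉ R, 1 ≤ lev s)
    (a b : Fin n → MvPolynomial (Fin m × Fin m) (RatFunc k₀))
    (ha : ∀ s, a s ∈ Avail δ (fun j => a j * b j) {j | j < s ∧ lev j ≤ lev s})
    (hb : ∀ s, b s ∈ Avail δ (fun j => a j * b j) {j | j < s ∧ lev j ≤ lev s})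
    (hR : ∀ s ∉ R, a s ∈ Avail δ (fun j => a j * b j) {j | j < s ∧ lev j < lev s})
    (F : MvPolynomial (Fin m × Fin m) (RatFunc k₀))
    (hF : F ∈ Avail δ (fun j => a j * b j) Set.univ)
    (hlim : ∀ μ, (coeff μ F).denom.eval 0 ≠ 0 ∧
      RatFunc.eval (RingHom.id k₀) 0 (coeff μ F) = coeff μ (perN k₀ m)) (D : ℕ)
    (hD : D = q * (q * ((2 ^ ℓ * 2 ^ ℓ) * k))) :
    ((k - 1 : ℕ) : ℝ) ^ D ≤ ((4 * w t : ℕ) : ℝ) ^ D *
      (∏ s, (if s ∈ R then 6 else Real.exp (3 / 2 * (w (lev s - 1) / w (lev s))))) *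
        (Real.exp 2 * ((2 * n : ℕ) + 1) * (D + 1)) := by
  classical
  have ha' : ∀ s, a s ∈ Avail δ (fun j => a j * b j)
      {j | j < s ∧ lev j ≤ lev s ∧ (s ∈ R ∨ lev j < lev s)} := by
    intro s
    by_cases hs : s ∈ R
    · refine (?_ : Avail δ (fun j => a j * b j) {j | j < s ∧ lev j ≤ lev s} ≤ _) (ha s)
      unfold Avail
      refine sup_le_sup le_rfl (Submodule.span_mono (Set.image_mono ?_))
      rintro j ⟨h1, h2⟩
      exact ⟨h1, h2, Or.inl hs⟩
    · refine (?_ : Avail δ (fun j => a j * b j) {j | j < s ∧ lev j < lev s} ≤ _) (hR s hs)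
      unfold Avail
      refine sup_le_sup le_rfl (Submodule.span_mono (Set.image_mono ?_))
      rintro j ⟨h1, h2⟩
      exact ⟨h1, h2.le, Or.inr h2⟩
  choose la ca hla hca hae using fun s => mem_Avail (ha' s) (Finset.Iio s)
    (fun j hj => Finset.mem_Iio.mpr hj.1)
  choose lb cb hlb hcb hbe using fun s => mem_Avail (hb s) (Finset.Iio s)
    (fun j hj => Finset.mem_Iio.mpr hj.1)
  obtain ⟨lf, gm, hlf, -, hfe⟩ := mem_Avail hF Finset.univ (fun j _ => Finset.mem_univ j)
  obtain ⟨G, hG1, hG2⟩ := lift_poly F (perN k₀ m) hlim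
  rw [Pool.Agent.H546R2.SL.map_perN] at hG2
  obtain ⟨S, y, hS, hy, hz, hyS, hS0, hS1⟩ :=
    exists_subst2 (AlgebraicClosure k₀) hk hm' hq m hm
  have hcard : Fintype.card (Id2 q (2 ^ ℓ) k) = D := by
    rw [hD]
    simp [Id2, Fintype.card_prod]
  have hcard0 : 0 < Fintype.card (Id2 q (2 ^ ℓ) k) := by
    rw [hcard, hD]
    have h1 : 0 < 2 ^ ℓ * 2 ^ ℓ := by positivity
    have h2 : 0 < k := by omega
    positivity
  set r := rmap (algebraMap k₀ (AlgebraicClosure k₀)) with hr
  have hmapsum : ∀ (J : Finset (Fin n)) (c : Fin n → RatFunc k₀),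
      map r (∑ j ∈ J, c j • (a j * b j)) =
        ∑ j ∈ J, r (c j) • (map r (a j) * map r (b j)) := by
    intro J c
    rw [map_sum]
    apply Finset.sum_congr rfl
    intro j _
    rw [smul_eq_C_mul, map_mul, map_C, map_mul, smul_eq_C_mul]
  have hne : ∀ c : RatFunc k₀, r c ≠ 0 → c ≠ 0 := by
    intro c hc h0
    exact hc (by rw [h0, map_zero])
  have h := level_border (φψ (AlgebraicClosure k₀)) S hS
    (perN (AlgebraicClosure k₀) m) y (k - 1) (by omega) hy hz hyS hcard0 δ t hδ w hw0 hw lev R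
    hlev hlev1
    (fun t => map r (a t)) (fun t => map r (b t)) (fun t => map r (la t))
    (fun t => map r (lb t)) (fun t j => r (ca t j)) (fun t j => r (cb t j)) (fun j => r (gm j))
    (fun t => by
      conv_lhs => rw [hae t]
      rw [map_add, hmapsum])
    (fun t => by
      conv_lhs => rw [hbe t]
      rw [map_add, hmapsum]) (map r lf)
    (fun t => (totalDegree_map_le _ _).trans (hla t))
    (fun t => (totalDegree_map_le _ _).trans (hlb t))
    ((totalDegree_map_le _ _).trans hlf)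
    (fun s i _ h => (hca s i (hne _ h)).2)
    (fun s i _ h => (hcb s i (hne _ h)).2) G (by
      rw [hG1]
      conv_lhs => rw [hfe]
      rw [map_add, hmapsum]) hG2
  rw [hcard] at h
  exact h

lemma log_six_le : Real.log 6 ≤ 9 / 5 := by
  have h1 : 5 * Real.log 6 = Real.log (6 ^ 5) := by rw [Real.log_pow]; norm_num
  have h2 : Real.log (6 ^ 5) ≤ 9 := by
    rw [Real.log_le_iff_le_exp (by norm_num)]
    have h3 : Real.exp 9 = Real.exp 1 ^ 9 := by
      rw [← Real.exp_nat_mul]; norm_num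
    rw [h3]
    have h4 := Real.exp_one_gt_d9
    calc (6 : ℝ) ^ 5 ≤ (2.7182818283 : ℝ) ^ 9 := by norm_num
      _ ≤ Real.exp 1 ^ 9 := by gcongr
  linarith

/-- the number of the products of level `i` outside `R` -/
def cnt {n : ℕ} (lev : Fin n → ℕ) (R : Finset (Fin n)) (i : ℕ) : ℕ :=
  (Finset.univ.filter fun s => s ∉ R ∧ lev s = i).card

lemma sum_cnt {n t : ℕ} (lev : Fin n → ℕ) (R : Finset (Fin n)) (hlev : ∀ s, lev s ≤ t)
    (hlev1 : ∀ s ∉ R, 1 ≤ lev s) (f : ℕ → ℝ) :
    ∑ s ∈ Finset.univ.filter (· ∉ R), f (lev s - 1) =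
      ∑ i ∈ Finset.range t, (cnt lev R (i + 1) : ℝ) * f i := by
  classical
  rw [← Finset.sum_fiberwise_of_maps_to (s := Finset.univ.filter (· ∉ R))
    (t := Finset.range t) (g := fun s => lev s - 1)]
  · apply Finset.sum_congr rfl
    intro i _
    have h1 : ∀ s ∈ Finset.filter (fun s => lev s - 1 = i) (Finset.univ.filter (· ∉ R)),
        f (lev s - 1) = f i := by
      intro s hs
      rw [Finset.mem_filter] at hs
      rw [hs.2]
    rw [Finset.sum_congr rfl h1, Finset.sum_const, nsmul_eq_mul]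
    congr 2
    unfold cnt
    congr 1
    ext s
    simp only [Finset.mem_filter, Finset.mem_univ, true_and]
    constructor
    · rintro ⟨h2, h3⟩
      have := hlev1 s h2
      exact ⟨h2, by omega⟩
    · rintro ⟨h2, h3⟩
      exact ⟨h2, by omega⟩
  · intro s hs
    rw [Finset.mem_filter] at hs
    have := hlev1 s hs.2
    have := hlev s
    rw [Finset.mem_range]
    omega

lemma one_add_sum_le (s : Finset ℕ) (x : ℕ → ℝ) (hx : ∀ i, 0 ≤ x i) :
    1 + ∑ i ∈ s, x i ≤ ∏ i ∈ s, (6 + x i) := by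
  classical
  induction s using Finset.induction_on with
  | empty => simp
  | insert i s hi ih =>
    rw [Finset.sum_insert hi, Finset.prod_insert hi]
    have h1 := hx i
    have h2 : 0 ≤ ∑ i ∈ s, x i := Finset.sum_nonneg fun i _ => hx i
    nlinarith

/-- the products of bounded level -/
theorem level_final (k₀ : Type*) [Field k₀] [CharZero k₀] (m : ℕ) (hm : 55000 ≤ m) (δ t : ℕ)
    (hδ : 1 ≤ δ) {n : ℕ}
    (lev : Fin n → ℕ) (R : Finset (Fin n))
    (hlev : ∀ s, lev s ≤ t) (hlev1 : ∀ s ∉ R, 1 ≤ lev s)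
    (a b : Fin n → MvPolynomial (Fin m × Fin m) (RatFunc k₀))
    (ha : ∀ s, a s ∈ Avail δ (fun j => a j * b j) {j | j < s ∧ lev j ≤ lev s})
    (hb : ∀ s, b s ∈ Avail δ (fun j => a j * b j) {j | j < s ∧ lev j ≤ lev s})
    (hR : ∀ s ∉ R, a s ∈ Avail δ (fun j => a j * b j) {j | j < s ∧ lev j < lev s})
    (F : MvPolynomial (Fin m × Fin m) (RatFunc k₀))
    (hF : F ∈ Avail δ (fun j => a j * b j) Set.univ)
    (hlim : ∀ μ, (coeff μ F).denom.eval 0 ≠ 0 ∧
      RatFunc.eval (RingHom.id k₀) 0 (coeff μ F) = coeff μ (perN k₀ m)) :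
    (m : ℝ) ≤ 10 ^ 4 * δ * (2 : ℝ) ^ (710 * R.card / m ^ 2 : ℝ) *
      ∏ i ∈ Finset.range t, (6 + 1110 * (cnt lev R (i + 1) : ℝ) / m ^ 2) := by
  classical
  have hmr : (55000 : ℝ) ≤ m := by exact_mod_cast hm
  have hm0 : (0 : ℝ) < m := by linarith
  have hm2 : (0 : ℝ) < (m : ℝ) ^ 2 := by positivity
  have hδr : (1 : ℝ) ≤ δ := by exact_mod_cast hδ
  have hlog2 := Real.log_two_gt_d9
  have hlog2' : (0 : ℝ) < Real.log 2 := by linarith
  have hrr : (0 : ℝ) ≤ R.card := by positivity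
  set P := ∏ i ∈ Finset.range t, (6 + 1110 * (cnt lev R (i + 1) : ℝ) / m ^ 2) with hP
  have hP1 : 1 + ∑ i ∈ Finset.range t, 1110 * (cnt lev R (i + 1) : ℝ) / m ^ 2 ≤ P :=
    one_add_sum_le _ _ (fun i => by positivity)
  have hPone : 1 ≤ P := by
    have : 0 ≤ ∑ i ∈ Finset.range t, 1110 * (cnt lev R (i + 1) : ℝ) / m ^ 2 :=
      Finset.sum_nonneg fun i _ => by positivity
    linarith
  have htwo : Real.exp (490 * R.card / m ^ 2) ≤ (2 : ℝ) ^ (710 * R.card / m ^ 2 : ℝ) := by
    rw [Real.rpow_def_of_pos (by norm_num)]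
    apply Real.exp_le_exp.mpr
    rw [mul_div_assoc', div_le_div_iff_of_pos_right hm2]
    nlinarith
  have h2one : 1 ≤ Real.exp (490 * R.card / m ^ 2) := by
    rw [← Real.exp_zero]
    exact Real.exp_le_exp.mpr (by positivity)
  have hcount : (n : ℝ) = R.card + ∑ i ∈ Finset.range t, (cnt lev R (i + 1) : ℝ) := by
    have h1 := sum_cnt lev R hlev hlev1 (fun _ => 1)
    simp only [mul_one] at h1
    rw [← h1]
    simp only [Finset.sum_const, nsmul_eq_mul, mul_one]
    have h2 : R.card + (Finset.univ.filter (· ∉ R)).card = n := by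
      have := Finset.card_filter_add_card_filter_not (s := (Finset.univ : Finset (Fin n)))
        (fun s => s ∈ R)
      rw [Finset.card_univ, Fintype.card_fin] at this
      rw [Finset.filter_mem_eq_inter, Finset.univ_inter] at this
      exact this
    exact_mod_cast h2.symm
  rcases Nat.lt_or_ge (m ^ 3) n with hbig | hnm
  · -- many products
    have hbr : (m : ℝ) ^ 3 ≤ n := by exact_mod_cast hbig.le
    rcases le_or_gt ((m : ℝ) ^ 3 / 2) (R.card : ℝ) with hc | hc
    · have h1 : (m : ℝ) ≤ Real.exp (490 * R.card / m ^ 2) := by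
        have h2 := Real.add_one_le_exp (490 * (R.card : ℝ) / m ^ 2)
        have h3 : (m : ℝ) ≤ 490 * (R.card : ℝ) / m ^ 2 := by
          rw [le_div_iff₀ hm2]
          have e : (m : ℝ) * m ^ 2 = m ^ 3 := by ring
          rw [e]
          have : (0 : ℝ) ≤ (m : ℝ) ^ 3 := by positivity
          linarith
        linarith
      have h4 : (m : ℝ) ≤ (2 : ℝ) ^ (710 * R.card / m ^ 2 : ℝ) := h1.trans htwo
      calc (m : ℝ) = 1 * m * 1 := by ring
        _ ≤ (10 ^ 4 * δ) * (2 : ℝ) ^ (710 * R.card / m ^ 2 : ℝ) * P := by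
            gcongr
            linarith
        _ = _ := by ring
    · have h1 : (m : ℝ) ≤ P := by
        refine le_trans ?_ hP1
        have h2 : ∑ i ∈ Finset.range t, 1110 * (cnt lev R (i + 1) : ℝ) / m ^ 2 =
            1110 / m ^ 2 * ∑ i ∈ Finset.range t, (cnt lev R (i + 1) : ℝ) := by
          rw [Finset.mul_sum]
          apply Finset.sum_congr rfl
          intro i _
          ring
        rw [h2]
        have h3 : (m : ℝ) ^ 3 / 2 ≤ ∑ i ∈ Finset.range t, (cnt lev R (i + 1) : ℝ) := by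
          linarith
        have h4 : (m : ℝ) ≤ 1110 / m ^ 2 * ∑ i ∈ Finset.range t, (cnt lev R (i + 1) : ℝ) := by
          calc (m : ℝ) ≤ 1110 / m ^ 2 * (m ^ 3 / 2) := by
                have e : 1110 / (m : ℝ) ^ 2 * (m ^ 3 / 2) = 555 * m := by
                  field_simp
                  ring
                rw [e]
                linarith
            _ ≤ _ := by gcongr
        linarith
      have h4 : (1 : ℝ) ≤ (2 : ℝ) ^ (710 * R.card / m ^ 2 : ℝ) := h2one.trans htwo
      calc (m : ℝ) = 1 * 1 * m := by ring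
        _ ≤ (10 ^ 4 * δ) * (2 : ℝ) ^ (710 * R.card / m ^ 2 : ℝ) * P := by
            gcongr
            linarith
        _ = _ := by ring
  -- the weights
  set ρ : ℕ → ℕ := fun i => 2 + ⌊408 * (cnt lev R (i + 1) : ℝ) / m ^ 2⌋₊ with hρ
  set w : ℕ → ℕ := fun i => δ * ∏ l ∈ Finset.range i, ρ l with hw
  have hwsucc : ∀ i, w (i + 1) = w i * ρ i := by
    intro i
    rw [hw]
    simp only
    rw [Finset.prod_range_succ]
    ring
  have hρ2 : ∀ i, 2 ≤ ρ i := fun i => Nat.le_add_right _ _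
  have hwpos : ∀ i, 1 ≤ w i := by
    intro i
    apply Nat.mul_pos hδ
    exact Finset.prod_pos fun l _ => by have := hρ2 l; omega
  have hw2 : ∀ i, 2 * w i ≤ w (i + 1) := by
    intro i
    rw [hwsucc, mul_comm]
    exact Nat.mul_le_mul_left _ (hρ2 i)
  obtain ⟨q, ℓ, k, p, D, hk2, hmm, hq, hmN, hD, hD1, hD2, hk⟩ := exists_params m hm
  have hD0 : 0 < D := by nlinarith
  have hDr : (0 : ℝ) < D := by exact_mod_cast hD0
  have h0 := level_perm k₀ hk2 hmm hq m hmN δ t hδ w (by rw [hw]; simp) hw2 lev R hlev hlev1 a b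
    ha hb hR F hF hlim D hD
  have hk0 : (0 : ℝ) < ((k - 1 : ℕ) : ℝ) := by
    have : 0 < k - 1 := by omega
    exact_mod_cast this
  have hw0 : (0 : ℝ) < ((4 * w t : ℕ) : ℝ) := by
    have : 0 < 4 * w t := by have := hwpos t; omega
    exact_mod_cast this
  -- the logarithmic form
  have hprodpos : ∀ s : Fin n, (0 : ℝ) <
      (if s ∈ R then 6 else Real.exp (3 / 2 * (w (lev s - 1) / w (lev s)))) := by
    intro s
    split_ifs <;> positivity
  have hppos : (0 : ℝ) < ∏ s : Fin n,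
      (if s ∈ R then 6 else Real.exp (3 / 2 * (w (lev s - 1) / w (lev s)))) :=
    Finset.prod_pos fun s _ => hprodpos s
  have hlogprod : Real.log (∏ s : Fin n,
      (if s ∈ R then 6 else Real.exp (3 / 2 * (w (lev s - 1) / w (lev s))))) ≤
      9 / 5 * R.card + 3 / 2 * ∑ i ∈ Finset.range t, (cnt lev R (i + 1) : ℝ) / ρ i := by
    rw [Real.log_prod (fun s _ => (hprodpos s).ne')]
    have h1 : ∀ s : Fin n, Real.log
        (if s ∈ R then 6 else Real.exp (3 / 2 * (w (lev s - 1) / w (lev s)))) =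
        (if s ∈ R then Real.log 6 else 0) + (if s ∉ R then
          3 / 2 * (1 / (ρ (lev s - 1) : ℝ)) else 0) := by
      intro s
      by_cases hs : s ∈ R
      · rw [if_pos hs, if_pos hs, if_neg (not_not.mpr hs), add_zero]
      · rw [if_neg hs, if_neg hs, if_pos hs, zero_add, Real.log_exp]
        congr 1
        have h2 := hlev1 s hs
        have h3 : w (lev s) = w (lev s - 1) * ρ (lev s - 1) := by
          rw [← hwsucc]
          congr 1
          omega
        rw [h3]
        have h4 : (0 : ℝ) < w (lev s - 1) := by exact_mod_cast hwpos _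
        have h5 : (0 : ℝ) < ρ (lev s - 1) := by
          have := hρ2 (lev s - 1)
          exact_mod_cast (by omega : 0 < ρ (lev s - 1))
        push_cast
        field_simp
    rw [Finset.sum_congr rfl (fun s _ => h1 s), Finset.sum_add_distrib, ← Finset.sum_filter,
      ← Finset.sum_filter, sum_cnt lev R hlev hlev1 (fun i => 3 / 2 * (1 / (ρ i : ℝ))),
      Finset.sum_const, nsmul_eq_mul, Finset.mul_sum, Finset.filter_mem_eq_inter,
      Finset.univ_inter]
    have h2 : (R.card : ℝ) * Real.log 6 ≤ 9 / 5 * R.card := by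
      have := log_six_le
      nlinarith
    have h3 : ∑ i ∈ Finset.range t, (cnt lev R (i + 1) : ℝ) * (3 / 2 * (1 / (ρ i : ℝ))) =
        ∑ i ∈ Finset.range t, 3 / 2 * ((cnt lev R (i + 1) : ℝ) / ρ i) := by
      apply Finset.sum_congr rfl
      intro i _
      ring
    rw [h3]
    linarith
  have h1 : (D : ℝ) * (Real.log ((k - 1 : ℕ) : ℝ) - Real.log ((4 * w t : ℕ) : ℝ)) ≤
      9 / 5 * R.card + 3 / 2 * ∑ i ∈ Finset.range t, (cnt lev R (i + 1) : ℝ) / ρ i +
        (2 + Real.log (2 * n + 1) + Real.log (D + 1)) := by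
    have h2 := Real.log_le_log (by positivity) h0
    rw [Real.log_pow, Real.log_mul (by positivity) (by positivity),
      Real.log_mul (by positivity) (by positivity), Real.log_pow,
      Real.log_mul (by positivity) (by positivity), Real.log_mul (by positivity) (by positivity),
      Real.log_exp] at h2
    push_cast at h2 ⊢
    linarith
  -- the lower order terms
  have hm4 : Real.log m ≤ m := by
    have := Real.log_le_sub_one_of_pos hm0
    linarith
  have e4 : Real.log (2 * (n : ℝ) + 1) ≤ 4 * m := by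
    have h2 : 2 * (n : ℝ) + 1 ≤ (m : ℝ) ^ 4 := by
      have : 2 * n + 1 ≤ m ^ 4 := by
        have a0 : 1 ≤ m ^ 3 := Nat.one_le_pow _ _ (by omega)
        calc 2 * n + 1 ≤ 3 * m ^ 3 := by omega
          _ ≤ m * m ^ 3 := Nat.mul_le_mul_right _ (by omega)
          _ = m ^ 4 := by ring
      exact_mod_cast this
    have h3 := Real.log_le_log (by positivity) h2
    rw [Real.log_pow] at h3
    push_cast at h3
    linarith
  have e5 : Real.log ((D : ℝ) + 1) ≤ 3 * m := by
    have h2 : (D : ℝ) + 1 ≤ (m : ℝ) ^ 3 := by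
      have : D + 1 ≤ m ^ 3 := by
        have a0 : 1 ≤ m ^ 2 := Nat.one_le_pow _ _ (by omega)
        calc D + 1 ≤ 2 * m ^ 2 := by omega
          _ ≤ m * m ^ 2 := Nat.mul_le_mul_right _ (by omega)
          _ = m ^ 3 := by ring
      exact_mod_cast this
    have h3 := Real.log_le_log (by positivity) h2
    rw [Real.log_pow] at h3
    push_cast at h3
    linarith
  have e6 : (2 : ℝ) + 4 * m + 3 * m ≤ 3 / 10 * D := by
    have h2 : 10 * 272 * (2 + 7 * m) ≤ 3 * (272 * D) := by
      refine le_trans ?_ (Nat.mul_le_mul_left 3 hD1)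
      nlinarith
    have h3 : (10 * 272 : ℝ) * (2 + 7 * m) ≤ 3 * (272 * D) := by exact_mod_cast h2
    linarith
  have hDm : (m : ℝ) ^ 2 ≤ 272 * D := by exact_mod_cast hD1
  have hkm : (m : ℝ) ≤ 1749 * ((k - 1 : ℕ) : ℝ) := by
    have : m ≤ 1749 * (k - 1) := by omega
    exact_mod_cast this
  set Λ := Real.log ((m : ℝ) / (10 ^ 4 * w t)) with hΛ
  have hwt : (0 : ℝ) < w t := by exact_mod_cast hwpos t
  have f1 : Λ + 3 / 10 ≤ Real.log ((k - 1 : ℕ) : ℝ) - Real.log ((4 * w t : ℕ) : ℝ) := by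
    have g1 : (3 : ℝ) / 10 ≤ Real.log (10 ^ 4 / 6996) := by
      have := Real.one_sub_inv_le_log_of_pos (show (0 : ℝ) < 10 ^ 4 / 6996 by norm_num)
      have h2 : (3 : ℝ) / 10 ≤ 1 - (10 ^ 4 / 6996 : ℝ)⁻¹ := by norm_num
      linarith
    have g2 : Λ + Real.log (10 ^ 4 / 6996) ≤
        Real.log ((k - 1 : ℕ) : ℝ) - Real.log ((4 * w t : ℕ) : ℝ) := by
      rw [hΛ, ← Real.log_mul (by positivity) (by norm_num),
        ← Real.log_div (by positivity) (by positivity)]
      apply Real.log_le_log (by positivity)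
      rw [div_mul_div_comm, div_le_div_iff₀ (by positivity) hw0]
      push_cast
      have : (0 : ℝ) ≤ 4 * w t * 10 ^ 4 := by positivity
      calc (m : ℝ) * 10 ^ 4 * (4 * w t) = m * (4 * w t * 10 ^ 4) := by ring
        _ ≤ 1749 * ((k - 1 : ℕ) : ℝ) * (4 * w t * 10 ^ 4) := by gcongr
        _ = _ := by ring
    linarith
  have g3 : (D : ℝ) * (Λ + 3 / 10) ≤ D * (Real.log ((k - 1 : ℕ) : ℝ) -
        Real.log ((4 * w t : ℕ) : ℝ)) := mul_le_mul_of_nonneg_left f1 hDr.le
  set SS := ∑ i ∈ Finset.range t, (cnt lev R (i + 1) : ℝ) / ρ i with hSS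
  have g4 : (D : ℝ) * Λ ≤ 9 / 5 * R.card + 3 / 2 * SS := by linarith
  have g5 : 0 ≤ SS := Finset.sum_nonneg fun i _ => by positivity
  have g6 : 408 * SS ≤ t * (m : ℝ) ^ 2 := by
    rw [hSS, Finset.mul_sum]
    calc ∑ i ∈ Finset.range t, 408 * ((cnt lev R (i + 1) : ℝ) / ρ i)
        ≤ ∑ i ∈ Finset.range t, (m : ℝ) ^ 2 := by
          apply Finset.sum_le_sum
          intro i _
          have h5 : (0 : ℝ) < ρ i := by
            have := hρ2 i
            exact_mod_cast (by omega : 0 < ρ i)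
          have h6 : 408 * (cnt lev R (i + 1) : ℝ) / m ^ 2 ≤ ρ i := by
            have := (Nat.lt_floor_add_one (408 * (cnt lev R (i + 1) : ℝ) / m ^ 2)).le
            rw [hρ]
            push_cast
            linarith
          rw [div_le_iff₀ hm2] at h6
          rw [mul_div_assoc', div_le_iff₀ h5]
          linarith
      _ = t * (m : ℝ) ^ 2 := by rw [Finset.sum_const, Finset.card_range, nsmul_eq_mul]
  have g7 : Λ ≤ 490 * R.card / m ^ 2 + t := by
    rcases le_or_gt Λ 0 with hΛ0 | hΛ0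
    · have : (0 : ℝ) ≤ 490 * R.card / m ^ 2 + t := by positivity
      linarith
    · have h2 : (m : ℝ) ^ 2 * Λ ≤ 490 * R.card + t * m ^ 2 := by
        calc (m : ℝ) ^ 2 * Λ ≤ 272 * D * Λ := mul_le_mul_of_nonneg_right hDm hΛ0.le
          _ ≤ _ := by linarith
      have h3 : 490 * (R.card : ℝ) / m ^ 2 + t = (490 * R.card + t * m ^ 2) / m ^ 2 := by
        field_simp
      rw [h3, le_div_iff₀ hm2]
      linarith
  -- the end of the proof
  have g8 : (m : ℝ) ≤ 10 ^ 4 * w t * (Real.exp (490 * R.card / m ^ 2) * Real.exp t) := by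
    rw [← Real.exp_add]
    have h2 := Real.exp_le_exp.mpr g7
    rw [hΛ, Real.exp_log (by positivity), div_le_iff₀ (by positivity)] at h2
    linarith
  have g9 : (w t : ℝ) * Real.exp t ≤ δ * P := by
    have h2 : (w t : ℝ) = δ * ∏ i ∈ Finset.range t, (ρ i : ℝ) := by
      rw [hw]
      push_cast
      rfl
    have h3 : Real.exp t = ∏ i ∈ Finset.range t, Real.exp 1 := by
      rw [Finset.prod_const, Finset.card_range, ← Real.exp_nat_mul, mul_one]
    rw [h2, h3, mul_assoc, ← Finset.prod_mul_distrib, hP]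
    apply mul_le_mul_of_nonneg_left _ (by positivity)
    apply Finset.prod_le_prod
    · intro i _
      positivity
    · intro i _
      have h4 := Nat.floor_le (show (0 : ℝ) ≤ 408 * (cnt lev R (i + 1) : ℝ) / m ^ 2 by positivity)
      have h5 := Real.exp_one_lt_d9
      have h6 : (ρ i : ℝ) ≤ 2 + 408 * (cnt lev R (i + 1) : ℝ) / m ^ 2 := by
        rw [hρ]
        push_cast
        linarith
      have h7 : (0 : ℝ) ≤ (cnt lev R (i + 1) : ℝ) / m ^ 2 := by positivity
      calc (ρ i : ℝ) * Real.exp 1 ≤ (2 + 408 * (cnt lev R (i + 1) : ℝ) / m ^ 2) * 2.7182818286 := by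
            gcongr
        _ ≤ 6 + 1110 * (cnt lev R (i + 1) : ℝ) / m ^ 2 := by
            have e : 408 * (cnt lev R (i + 1) : ℝ) / m ^ 2 =
              408 * ((cnt lev R (i + 1) : ℝ) / m ^ 2) := by ring
            have e' : 1110 * (cnt lev R (i + 1) : ℝ) / m ^ 2 =
              1110 * ((cnt lev R (i + 1) : ℝ) / m ^ 2) := by ring
            rw [e, e']
            nlinarith
  calc (m : ℝ) ≤ 10 ^ 4 * w t * (Real.exp (490 * R.card / m ^ 2) * Real.exp t) := g8
    _ = 10 ^ 4 * Real.exp (490 * R.card / m ^ 2) * (w t * Real.exp t) := by ring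
    _ ≤ 10 ^ 4 * (2 : ℝ) ^ (710 * R.card / m ^ 2 : ℝ) * (δ * P) := by gcongr
    _ = _ := by ring

end Pool.Agent.W944.Wt
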