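import Pool.Agent.W944.V2Real
import Pool.Agent.W944.WtPerm

/-! # Computations with arbitrary polynomials as gates: the permanent -/

set_option autoImplicit false
set_option linter.unusedSectionVars false
set_option linter.unusedVariables false

open Module MvPolynomial

namespace Pool.Agent.W944.V2

open Pool.Agent.W944.Wt
open Pool.Agent.W940.G
open Pool.Agent.W944.Cx (exists_params lift_poly)
open Pool.Agent.H546R2.SL (perN)
open Pool.Agent.H632R2.Border (O0 φ0 ψ0 φψ rmap rmap_mem rmap_eval totalDegree_map_le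
  map_aeval_comm)

/-- the sum of the logarithms -/
noncomputable def cost {n R : ℕ} (C₀ W : Fin n → ℝ) (E : Fin R → ℝ) (Ω : ℝ) : ℝ :=
  ∑ s, Real.log (max 1 (W s / C₀ s)) + ∑ j, Real.log (1 + E j / Ω)

lemma cost_nonneg {n R : ℕ} {C₀ W : Fin n → ℝ} {E : Fin R → ℝ} {Ω : ℝ} (hΩ : 0 ≤ Ω)
    (hE0 : ∀ j, 0 ≤ E j) : 0 ≤ cost C₀ W E Ω := by
  unfold cost
  apply add_nonneg
  · exact Finset.sum_nonneg fun s _ => Real.log_nonneg (le_max_left _ _)
  · apply Finset.sum_nonneg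
    intro j _
    apply Real.log_nonneg
    have := div_nonneg (hE0 j) hΩ
    linarith

/-- the logarithmic form of the explicit inequality -/
lemma log_form {n R : ℕ} (C₀ W : Fin n → ℝ) (A E : Fin R → ℝ) (Ω : ℝ) (e D : ℕ) (he : 0 < e)
    (hC0 : ∀ s, 0 < C₀ s) (hA : ∀ j, A j ≤ Ω) (hΩ : 1 ≤ Ω)
    (hE0 : ∀ j, 0 ≤ E j)
    (h : (e : ℝ) ^ D * ((∏ s, C₀ s) * ∏ j, (2 * Ω - A j)) ≤
      (3 * Ω) ^ D * ((∏ s, max (C₀ s) (W s)) * ∏ j, (2 * Ω - A j + E j)) *
        (Real.exp 1 * (D + 1))) :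
    D * Real.log (e / (3 * Ω)) ≤ cost C₀ W E Ω + (1 + Real.log (D + 1)) := by
  have hΩ0 : 0 < Ω := by linarith
  have her : (0 : ℝ) < e := by exact_mod_cast he
  have hw : ∀ j, 0 < 2 * Ω - A j := fun j => by have := hA j; linarith
  have hd : ∀ j, 0 < 2 * Ω - A j + E j := fun j => by
    have := hw j
    have := hE0 j
    linarith
  have hm : ∀ s, 0 < max (C₀ s) (W s) := fun s => lt_of_lt_of_le (hC0 s) (le_max_left _ _)
  have p1 : 0 < ∏ s, C₀ s := Finset.prod_pos fun s _ => hC0 s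
  have p2 : 0 < ∏ j, (2 * Ω - A j) := Finset.prod_pos fun j _ => hw j
  have p3 : 0 < ∏ s, max (C₀ s) (W s) := Finset.prod_pos fun s _ => hm s
  have p4 : 0 < ∏ j, (2 * Ω - A j + E j) := Finset.prod_pos fun j _ => hd j
  obtain ⟨B, hB⟩ : ∃ B : ℝ, B = 3 * Ω := ⟨_, rfl⟩
  have hB0 : 0 < B := by rw [hB]; positivity
  rw [← hB] at h ⊢
  have h2 := Real.log_le_log (by positivity) h
  rw [Real.log_mul (by positivity) (by positivity), Real.log_pow,
    Real.log_mul p1.ne' p2.ne', Real.log_mul (by positivity) (by positivity),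
    Real.log_mul (by positivity) (by positivity), Real.log_pow, Real.log_mul p3.ne' p4.ne',
    Real.log_mul (by positivity) (by positivity), Real.log_exp,
    Real.log_prod (fun s _ => (hC0 s).ne'), Real.log_prod (fun j _ => (hw j).ne'),
    Real.log_prod (fun s _ => (hm s).ne'), Real.log_prod (fun j _ => (hd j).ne')] at h2
  have h3 : ∑ s, Real.log (max (C₀ s) (W s)) - ∑ s, Real.log (C₀ s) =
      ∑ s, Real.log (max 1 (W s / C₀ s)) := by
    rw [← Finset.sum_sub_distrib]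
    apply Finset.sum_congr rfl
    intro s _
    rw [← Real.log_div (hm s).ne' (hC0 s).ne']
    congr 1
    rw [← max_div_div_right (hC0 s).le, div_self (hC0 s).ne']
  have h4 : ∑ j, Real.log (2 * Ω - A j + E j) - ∑ j, Real.log (2 * Ω - A j) ≤
      ∑ j, Real.log (1 + E j / Ω) := by
    rw [← Finset.sum_sub_distrib]
    apply Finset.sum_le_sum
    intro j _
    rw [← Real.log_div (hd j).ne' (hw j).ne']
    apply Real.log_le_log (div_pos (hd j) (hw j))
    rw [add_div, div_self (hw j).ne']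
    have h5 : E j / (2 * Ω - A j) ≤ E j / Ω := by
      apply div_le_div_of_nonneg_left (hE0 j) hΩ0
      have := hA j
      linarith
    linarith
  rw [Real.log_div her.ne' (by positivity)]
  unfold cost
  linarith

/-- **The inequality for the permanent.** -/
theorem gperm (k₀ : Type*) [Field k₀] [CharZero k₀] (m : ℕ) (hm : 55000 ≤ m) {n R : ℕ}
    (C₀ W : Fin n → ℝ) (A E : Fin R → ℝ) (Ω : ℝ)
    (z : Fin n → MvPolynomial (Fin m × Fin m) (RatFunc k₀))
    (y q : Fin R → MvPolynomial (Fin m × Fin m) (RatFunc k₀))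
    (c : Fin R → Fin n → RatFunc k₀) (gm : Fin n → RatFunc k₀)
    (H : Fin n → MvPolynomial ((Fin m × Fin m) ⊕ Fin R) (RatFunc k₀))
    (κ : Fin R → ℕ) (hκ : ∀ j, κ j ≤ n) (hcκ : ∀ j (s : Fin n), c j s ≠ 0 → s.1 < κ j)
    (hHκ : ∀ (s : Fin n) (j : Fin R), Sum.inr j ∈ (H s).vars → κ j ≤ s.1)
    (hz : ∀ s, z s = aeval (Sum.elim X y) (H s)) (hy : ∀ j, y j = q j + ∑ s, c j s • z s)
    (q0 : MvPolynomial (Fin m × Fin m) (RatFunc k₀))
    (hq : ∀ j, ((q j).totalDegree : ℝ) ≤ A j) (hc : ∀ j s, c j s ≠ 0 → C₀ s ≤ A j)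
    (hC0 : ∀ s, 0 < C₀ s) (hA : ∀ j, A j ≤ Ω) (hC : ∀ s, C₀ s ≤ Ω) (hΩ : 1 ≤ Ω)
    (hW0 : ∀ s, 0 ≤ W s) (hE0 : ∀ j, 0 ≤ E j)
    (hH : ∀ s, ∀ μ ∈ (H s).support,
      ∑ v, (μ (Sum.inl v) : ℝ) + ∑ j, A j * μ (Sum.inr j) ≤ W s)
    (hE : ∀ s j, Sum.inr j ∈ (H s).vars → W s ≤ C₀ s + E j)
    (hX : ∀ s v, Sum.inl v ∈ (H s).vars → W s ≤ C₀ s + Ω)
    (hq0 : (q0.totalDegree : ℝ) ≤ 3 * Ω)
    (F : MvPolynomial (Fin m × Fin m) (RatFunc k₀)) (hF : F = q0 + ∑ s, gm s • z s)
    (hlim : ∀ μ, (coeff μ F).denom.eval 0 ≠ 0 ∧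
      RatFunc.eval (RingHom.id k₀) 0 (coeff μ F) = coeff μ (perN k₀ m)) :
    (m : ℝ) ^ 2 * Real.log (m / (6000 * Ω)) ≤ 272 * cost C₀ W E Ω := by
  classical
  obtain ⟨q', ℓ, k, p, D, hk2, hmm, hq', hmN, hD, hD1, hD2, hk⟩ := exists_params m hm
  have hD0 : 0 < D := by nlinarith
  have hDr : (0 : ℝ) < D := by exact_mod_cast hD0
  have hΩ0 : 0 < Ω := by linarith
  obtain ⟨G, hG1, hG2⟩ := lift_poly F (perN k₀ m) hlim
  rw [Pool.Agent.H546R2.SL.map_perN] at hG2
  obtain ⟨S, y₀, hS, hy₀, hz₀, hyS, hS0, hS1⟩ :=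
    exists_subst2 (AlgebraicClosure k₀) hk2 hmm hq' m hmN
  have hcard : Fintype.card (Id2 q' (2 ^ ℓ) k) = D := by
    rw [hD]
    simp [Id2, Fintype.card_prod]
  have hcard0 : 0 < Fintype.card (Id2 q' (2 ^ ℓ) k) := by rw [hcard]; exact hD0
  set r := rmap (algebraMap k₀ (AlgebraicClosure k₀)) with hr
  have hrinj : Function.Injective r := r.injective
  have hne : ∀ c : RatFunc k₀, r c ≠ 0 → c ≠ 0 := by
    intro c hc h0
    exact hc (by rw [h0, map_zero])
  have hvars : ∀ s v, pderiv v (map r (H s)) ≠ 0 → v ∈ (H s).vars := by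
    intro s v h
    by_contra hcon
    apply h
    rw [pderiv_map, pderiv_eq_zero_of_notMem_vars hcon, map_zero]
  have h := rborder (φψ (AlgebraicClosure k₀)) S hS
    (perN (AlgebraicClosure k₀) m) y₀ (k - 1) (by omega) hy₀ hz₀ hyS hcard0 C₀ W A E Ω
    (fun s => map r (z s)) (fun j => map r (y j)) (fun j => map r (q j))
    (fun j s => r (c j s)) (fun s => r (gm s)) (fun s => map r (H s)) κ hκ
    (fun j s h0 => hcκ j s (hne _ h0))
    (fun s => by
      rw [mem_supported]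
      intro v hv
      have hv' : v ∈ (H s).vars := by
        rw [Finset.mem_coe, vars_map_of_injective _ hrinj] at hv
        exact hv
      rintro j rfl
      exact hHκ s j hv')
    (fun s => by
      conv_lhs => rw [hz s]
      rw [map_aeval_comm]
      congr 2
      funext v
      rcases v with v | j
      · exact map_X _ _
      · rfl)
    (fun j => by
      conv_lhs => rw [hy j]
      rw [map_add, map_sum]
      congr 1
      apply Finset.sum_congr rfl
      intro s _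
      rw [smul_eq_C_mul, map_mul, map_C, smul_eq_C_mul])
    (map r q0)
    (fun j => le_trans (by exact_mod_cast totalDegree_map_le _ _) (hq j))
    (fun j s h0 => hc j s (hne _ h0)) hC0 hA hC hΩ hW0 hE0
    (fun s μ hμ => hH s μ (by
      rw [support_map_of_injective _ hrinj] at hμ
      exact hμ))
    (fun s j h0 => hE s j (hvars s _ h0))
    (fun s v h0 => hX s v (hvars s _ h0))
    (le_trans (by exact_mod_cast totalDegree_map_le _ _) hq0) G (by
      rw [hG1, hF, map_add, map_sum]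
      congr 1
      apply Finset.sum_congr rfl
      intro s _
      rw [smul_eq_C_mul, map_mul, map_C, smul_eq_C_mul]) hG2
  rw [hcard] at h
  have h1 := log_form C₀ W A E Ω (k - 1) D (by omega) hC0 hA hΩ hE0 h
  -- the lower order terms
  have hm0 : (0 : ℝ) < m := by
    have : 0 < m := by omega
    exact_mod_cast this
  have hDm : (m : ℝ) ^ 2 ≤ 272 * D := by exact_mod_cast hD1
  have hkm : (m : ℝ) ≤ 1749 * ((k - 1 : ℕ) : ℝ) := by
    have : m ≤ 1749 * (k - 1) := by omega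
    exact_mod_cast this
  have hkpos : (0 : ℝ) < ((k - 1 : ℕ) : ℝ) := by
    have : 0 < k - 1 := by omega
    exact_mod_cast this
  set Λ := Real.log ((m : ℝ) / (6000 * Ω)) with hΛ
  have f1 : Λ + 1 / 10 ≤ Real.log (((k - 1 : ℕ) : ℝ) / (3 * Ω)) := by
    have g1 : (1 : ℝ) / 10 ≤ Real.log (6000 / 5247) := by
      have := Real.one_sub_inv_le_log_of_pos (show (0 : ℝ) < 6000 / 5247 by norm_num)
      have h2 : (1 : ℝ) / 10 ≤ 1 - (6000 / 5247 : ℝ)⁻¹ := by norm_num
      linarith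
    have g2 : Λ + Real.log (6000 / 5247) ≤ Real.log (((k - 1 : ℕ) : ℝ) / (3 * Ω)) := by
      rw [hΛ, ← Real.log_mul (by positivity) (by norm_num)]
      apply Real.log_le_log (by positivity)
      rw [div_mul_div_comm, div_le_div_iff₀ (by positivity) (by positivity)]
      calc (m : ℝ) * 6000 * (3 * Ω) = m * (18000 * Ω) := by ring
        _ ≤ 1749 * ((k - 1 : ℕ) : ℝ) * (18000 * Ω) := by gcongr
        _ = _ := by ring
    linarith
  have f2 : 1 + Real.log ((D : ℝ) + 1) ≤ D / 10 := by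
    have g1 := Real.log_le_sub_one_of_pos (show (0 : ℝ) < ((D : ℝ) + 1) / 20 by positivity)
    rw [Real.log_div (by positivity) (by norm_num)] at g1
    have g2 : Real.log 20 ≤ 19 := by
      have := Real.log_le_sub_one_of_pos (show (0 : ℝ) < 20 by norm_num)
      linarith
    have g3 : (1000 : ℝ) ≤ D := by
      have : 1000 ≤ D := by nlinarith
      exact_mod_cast this
    linarith
  have f3 : (D : ℝ) * (Λ + 1 / 10) ≤ D * Real.log (((k - 1 : ℕ) : ℝ) / (3 * Ω)) :=
    mul_le_mul_of_nonneg_left f1 hDr.le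
  have f4 : (D : ℝ) * Λ ≤ cost C₀ W E Ω := by linarith
  have f5 := cost_nonneg (C₀ := C₀) (W := W) hΩ0.le hE0
  rcases le_or_gt Λ 0 with hΛ0 | hΛ0
  · have : (m : ℝ) ^ 2 * Λ ≤ 0 := mul_nonpos_of_nonneg_of_nonpos (by positivity) hΛ0
    linarith
  · calc (m : ℝ) ^ 2 * Λ ≤ 272 * D * Λ := mul_le_mul_of_nonneg_right hDm hΛ0.le
      _ = 272 * (D * Λ) := by ring
      _ ≤ 272 * cost C₀ W E Ω := by linarith

end Pool.Agent.W944.V2
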