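import Pool.Agent.W944.V2Perm

/-! # Computations with products and real weights: the permanent -/

set_option autoImplicit false
set_option linter.unusedSectionVars false
set_option linter.unusedVariables false

open Module MvPolynomial

namespace Pool.Agent.W944.V2

open Pool.Agent.H546R2.SL (perN)

/-- the index of an argument -/
abbrev ix {n : ℕ} (s : Fin n) (i : Fin 2) : Fin (n * 2) := finProdFinEquiv (s, i)

lemma sum_ix {n : ℕ} (g : Fin (n * 2) → ℝ) : ∑ j, g j = ∑ s : Fin n, (g (ix s 0) + g (ix s 1)) := by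
  rw [← Equiv.sum_comp finProdFinEquiv, Fintype.sum_prod_type]
  apply Finset.sum_congr rfl
  intro s _
  rw [Fin.sum_univ_two]

/-- a choice between two -/
def ch {n : ℕ} {α : Type*} (a b : Fin n → α) (j : Fin (n * 2)) : α :=
  if (finProdFinEquiv.symm j).2 = 0 then a (finProdFinEquiv.symm j).1
  else b (finProdFinEquiv.symm j).1

lemma ch_zero {n : ℕ} {α : Type*} (a b : Fin n → α) (s : Fin n) : ch a b (ix s 0) = a s := by
  unfold ch ix
  rw [Equiv.symm_apply_apply]
  rfl

lemma ch_one {n : ℕ} {α : Type*} (a b : Fin n → α) (s : Fin n) : ch a b (ix s 1) = b s := by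
  unfold ch ix
  rw [Equiv.symm_apply_apply]
  rfl

lemma ix_cases {n : ℕ} {P : Fin (n * 2) → Prop} (h0 : ∀ s, P (ix s 0)) (h1 : ∀ s, P (ix s 1))
    (j : Fin (n * 2)) : P j := by
  obtain ⟨⟨s, i⟩, rfl⟩ := finProdFinEquiv.surjective j
  rcases Fin.exists_fin_two.mp ⟨i, rfl⟩ with h | h
  · rw [h]; exact h0 s
  · rw [h]; exact h1 s

/-- **The inequality for the permanent**, for products. -/
theorem pperm (k₀ : Type*) [Field k₀] [CharZero k₀] (m : ℕ) (hm : 55000 ≤ m) {n : ℕ}
    (A B C₀ : Fin n → ℝ) (Ω : ℝ)
    (a b la lb : Fin n → MvPolynomial (Fin m × Fin m) (RatFunc k₀))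
    (ca cb : Fin n → Fin n → RatFunc k₀) (gm : Fin n → RatFunc k₀)
    (ha : ∀ t, a t = la t + ∑ j ∈ Finset.Iio t, ca t j • (a j * b j))
    (hb : ∀ t, b t = lb t + ∑ j ∈ Finset.Iio t, cb t j • (a j * b j))
    (hla : ∀ t, ((la t).totalDegree : ℝ) ≤ A t) (hlb : ∀ t, ((lb t).totalDegree : ℝ) ≤ B t)
    (hca : ∀ t, ∀ j < t, ca t j ≠ 0 → C₀ j ≤ A t) (hcb : ∀ t, ∀ j < t, cb t j ≠ 0 → C₀ j ≤ B t)
    (hC0 : ∀ s, 0 < C₀ s) (hA : ∀ s, A s ≤ Ω) (hB : ∀ s, B s ≤ Ω) (hC : ∀ s, C₀ s ≤ Ω)
    (hΩ : 1 ≤ Ω)
    (q0 : MvPolynomial (Fin m × Fin m) (RatFunc k₀)) (hq0 : (q0.totalDegree : ℝ) ≤ 3 * Ω)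
    (F : MvPolynomial (Fin m × Fin m) (RatFunc k₀)) (hF : F = q0 + ∑ s, gm s • (a s * b s))
    (hlim : ∀ μ, (coeff μ F).denom.eval 0 ≠ 0 ∧
      RatFunc.eval (RingHom.id k₀) 0 (coeff μ F) = coeff μ (perN k₀ m)) :
    (m : ℝ) ^ 2 * Real.log (m / (6000 * Ω)) ≤
      816 * ∑ s, Real.log (max 1 ((A s + B s) / C₀ s)) := by
  classical
  have hA0 : ∀ s, 0 ≤ A s := fun s => le_trans (by positivity) (hla s)
  have hB0 : ∀ s, 0 ≤ B s := fun s => le_trans (by positivity) (hlb s)
  have hΩ0 : 0 < Ω := by linarith
  set y : Fin (n * 2) → MvPolynomial (Fin m × Fin m) (RatFunc k₀) := ch a b with hy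
  set H : Fin n → MvPolynomial ((Fin m × Fin m) ⊕ Fin (n * 2)) (RatFunc k₀) :=
    fun s => X (Sum.inr (ix s 0)) * X (Sum.inr (ix s 1)) with hHdef
  set c : Fin (n * 2) → Fin n → RatFunc k₀ := ch (fun t j => if j < t then ca t j else 0)
    (fun t j => if j < t then cb t j else 0) with hcdef
  set κ : Fin (n * 2) → ℕ := ch (fun t : Fin n => t.1) (fun t : Fin n => t.1) with hκdef
  set E : Fin n → ℝ := fun s => max 0 (A s + B s - C₀ s) with hEdef
  have hE0 : ∀ s, 0 ≤ E s := fun s => le_max_left _ _
  have hsupp : ∀ s, ∀ μ ∈ (H s).support,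
      μ = Finsupp.single (Sum.inr (ix s 0)) 1 + Finsupp.single (Sum.inr (ix s 1)) 1 := by
    intro s μ hμ
    have h1 : H s = monomial (Finsupp.single (Sum.inr (ix s 0)) 1 +
        Finsupp.single (Sum.inr (ix s 1)) 1) 1 := by
      rw [hHdef]
      simp only [X]
      rw [monomial_mul, one_mul]
    rw [h1] at hμ
    exact Finset.mem_singleton.mp (support_monomial_subset hμ)
  have hvars : ∀ s v, v ∈ (H s).vars → v = Sum.inr (ix s 0) ∨ v = Sum.inr (ix s 1) := by
    intro s v hv
    have h1 := vars_mul _ _ hv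
    rw [vars_X, vars_X, Finset.mem_union, Finset.mem_singleton, Finset.mem_singleton] at h1
    exact h1
  have hne : (ix : Fin n → Fin 2 → Fin (n * 2)) = ix := rfl
  have hne01 : ∀ s : Fin n, ix s 0 ≠ ix s 1 := by
    intro s h
    have := finProdFinEquiv.injective h
    have h2 : (0 : Fin 2) = 1 := congrArg Prod.snd this
    exact absurd h2 (by decide)
  have h := gperm k₀ m hm C₀ (fun s => A s + B s) (ch A B) (ch E E) Ω (fun s => a s * b s) y
    (ch la lb) c gm H κ
    (ix_cases (fun s => by rw [hκdef, ch_zero]; exact s.2.le)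
      (fun s => by rw [hκdef, ch_one]; exact s.2.le))
    (ix_cases (fun t j h0 => by
        rw [hcdef, ch_zero] at h0
        rw [hκdef, ch_zero]
        by_contra hcon
        exact h0 (if_neg (fun h1 => hcon (Fin.lt_def.mp h1))))
      (fun t j h0 => by
        rw [hcdef, ch_one] at h0
        rw [hκdef, ch_one]
        by_contra hcon
        exact h0 (if_neg (fun h1 => hcon (Fin.lt_def.mp h1)))))
    (fun s j hj => by
      rcases hvars s _ hj with h1 | h1
      · rw [Sum.inr.inj h1, hκdef, ch_zero]
      · rw [Sum.inr.inj h1, hκdef, ch_one])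
    (fun s => by
      rw [hHdef]
      simp only
      rw [map_mul, aeval_X, aeval_X, Sum.elim_inr, Sum.elim_inr, hy, ch_zero, ch_one])
    (ix_cases (fun t => by
        rw [hy, hcdef]
        simp only [ch_zero]
        conv_lhs => rw [ha t]
        congr 1
        rw [← Finset.sum_subset (Finset.subset_univ (Finset.Iio t))]
        · apply Finset.sum_congr rfl
          intro j hj
          rw [if_pos (Finset.mem_Iio.mp hj)]
        · intro j _ hj
          rw [if_neg (fun h1 => hj (Finset.mem_Iio.mpr h1)), zero_smul])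
      (fun t => by
        rw [hy, hcdef]
        simp only [ch_one]
        conv_lhs => rw [hb t]
        congr 1
        rw [← Finset.sum_subset (Finset.subset_univ (Finset.Iio t))]
        · apply Finset.sum_congr rfl
          intro j hj
          rw [if_pos (Finset.mem_Iio.mp hj)]
        · intro j _ hj
          rw [if_neg (fun h1 => hj (Finset.mem_Iio.mpr h1)), zero_smul]))
    q0
    (ix_cases (fun t => by rw [ch_zero, ch_zero]; exact hla t)
      (fun t => by rw [ch_one, ch_one]; exact hlb t))
    (ix_cases (fun t j h0 => by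
        rw [hcdef, ch_zero] at h0
        rw [ch_zero]
        by_cases h1 : j < t
        · rw [if_pos h1] at h0
          exact hca t j h1 h0
        · exact absurd (if_neg h1) h0)
      (fun t j h0 => by
        rw [hcdef, ch_one] at h0
        rw [ch_one]
        by_cases h1 : j < t
        · rw [if_pos h1] at h0
          exact hcb t j h1 h0
        · exact absurd (if_neg h1) h0))
    hC0
    (ix_cases (fun t => by rw [ch_zero]; exact hA t) (fun t => by rw [ch_one]; exact hB t))
    hC hΩ (fun s => add_nonneg (hA0 s) (hB0 s))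
    (ix_cases (fun t => by rw [ch_zero]; exact hE0 t) (fun t => by rw [ch_one]; exact hE0 t))
    (fun s μ hμ => by
      rw [hsupp s μ hμ, sum_ix]
      have e1 : ∑ v : Fin m × Fin m, (((Finsupp.single (Sum.inr (ix s 0)) 1 +
          Finsupp.single (Sum.inr (ix s 1)) 1 : ((Fin m × Fin m) ⊕ Fin (n * 2)) →₀ ℕ)
          (Sum.inl v) : ℕ) : ℝ) = 0 := by
        apply Finset.sum_eq_zero
        intro v _
        rw [Finsupp.add_apply, Finsupp.single_eq_of_ne (by simp), Finsupp.single_eq_of_ne (by simp)]
        simp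
      rw [e1, zero_add, Finset.sum_eq_single s]
      · rw [ch_zero, ch_one, Finsupp.add_apply, Finsupp.add_apply, Finsupp.single_eq_same,
          Finsupp.single_eq_same, Finsupp.single_eq_of_ne, Finsupp.single_eq_of_ne]
        · simp
        · intro h1
          exact hne01 s (Sum.inr.inj h1).symm
        · intro h1
          exact hne01 s (Sum.inr.inj h1)
      · intro t _ hts
        have h2 : ∀ i i', (Sum.inr (ix t i) : (Fin m × Fin m) ⊕ Fin (n * 2)) ≠
            Sum.inr (ix s i') := by
          intro i i' h1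
          have h3 := finProdFinEquiv.injective (Sum.inr.inj h1)
          exact hts (congrArg Prod.fst h3)
        rw [Finsupp.add_apply, Finsupp.add_apply, Finsupp.single_eq_of_ne (h2 _ _),
          Finsupp.single_eq_of_ne (h2 _ _), Finsupp.single_eq_of_ne (h2 _ _),
          Finsupp.single_eq_of_ne (h2 _ _)]
        simp
      · intro h1
        exact absurd (Finset.mem_univ s) h1)
    (fun s j hj => by
      have h2 : A s + B s ≤ C₀ s + E s := by
        have := le_max_right 0 (A s + B s - C₀ s)
        rw [hEdef]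
        simp only
        linarith
      rcases hvars s _ hj with h1 | h1
      · rw [Sum.inr.inj h1, ch_zero]
        exact h2
      · rw [Sum.inr.inj h1, ch_one]
        exact h2)
    (fun s v hv => by
      rcases hvars s _ hv with h1 | h1
      · cases h1
      · cases h1)
    hq0 F hF hlim
  refine h.trans ?_
  have hcost : cost C₀ (fun s => A s + B s) (ch E E) Ω ≤
      3 * ∑ s, Real.log (max 1 ((A s + B s) / C₀ s)) := by
    unfold cost
    rw [sum_ix]
    have h1 : ∀ s, Real.log (1 + ch E E (ix s 0) / Ω) + Real.log (1 + ch E E (ix s 1) / Ω) ≤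
        2 * Real.log (max 1 ((A s + B s) / C₀ s)) := by
      intro s
      rw [ch_zero, ch_one]
      have h2 : Real.log (1 + E s / Ω) ≤ Real.log (max 1 ((A s + B s) / C₀ s)) := by
        have h3 : (0 : ℝ) ≤ E s / Ω := div_nonneg (hE0 s) hΩ0.le
        apply Real.log_le_log (by linarith)
        have h4 : E s / Ω ≤ E s / C₀ s := div_le_div_of_nonneg_left (hE0 s) (hC0 s) (hC s)
        have h5 : 1 + E s / C₀ s = max 1 ((A s + B s) / C₀ s) := by
          rw [hEdef]
          simp only
          rcases le_total (A s + B s - C₀ s) 0 with h6 | h6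
          · rw [max_eq_left h6, zero_div, add_zero, max_eq_left]
            rw [div_le_one (hC0 s)]
            linarith
          · rw [max_eq_right h6, max_eq_right]
            · have := (hC0 s).ne'
              field_simp
              ring
            · rw [le_div_iff₀ (hC0 s)]
              linarith
        linarith
      linarith
    have h3 := Finset.sum_le_sum (s := Finset.univ) fun s _ => h1 s
    rw [← Finset.mul_sum] at h3
    linarith
  linarith

end Pool.Agent.W944.V2
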