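import Pool.Agent.W944.V2Space

/-! # Computations with arbitrary polynomials as gates: the triangular system -/

set_option autoImplicit false
set_option linter.unusedSectionVars false

open Module MvPolynomial

namespace Pool.Agent.W944.V2

open Pool.Agent.W944.Wt

variable {L : Type*} [Field L] {σ ι : Type*} [Fintype ι] {n R : ℕ}

/-- the variables: the original ones, the values and the adjoint variables of the arguments -/
abbrev Vg (ι : Type*) (n R : ℕ) : Type _ := ι ⊕ (Fin n ⊕ Fin R)

/-- the weights -/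
def wg (ι : Type*) (Q : ℕ) (wz : Fin n → ℕ) (wa : Fin R → ℕ) : Vg ι n R → ℕ :=
  Sum.elim (fun _ => Q) (Sum.elim wz wa)

lemma rename_memQ {Q : ℕ} (wz : Fin n → ℕ) (wa : Fin R → ℕ) (q : MvPolynomial ι L) (k : ℕ)
    (hq : Q * q.totalDegree ≤ k) : rename Sum.inl q ∈ wp L (wg ι Q wz wa) k := by
  classical
  rw [mem_wp]
  intro m hm
  rw [support_rename_of_injective Sum.inl_injective, Finset.mem_image] at hm
  obtain ⟨m', hm', rfl⟩ := hm
  have h1 : wd (wg ι Q wz wa) (Finsupp.mapDomain (Sum.inl : ι → Vg ι n R) m') = Q * m'.degree := by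
    unfold wd
    rw [Fintype.sum_sum_type]
    have e1 : ∀ i : ι, wg ι Q wz wa (Sum.inl i) *
        (Finsupp.mapDomain (Sum.inl : ι → Vg ι n R) m') (Sum.inl i) = Q * m' i := by
      intro i
      rw [Finsupp.mapDomain_apply Sum.inl_injective]
      rfl
    have e2 : ∀ k : Fin n ⊕ Fin R, wg ι Q wz wa (Sum.inr k) *
        (Finsupp.mapDomain (Sum.inl : ι → Vg ι n R) m') (Sum.inr k) = 0 := by
      intro k
      rw [Finsupp.mapDomain_of_notMem_range, mul_zero]
      rintro ⟨i, hi⟩
      cases hi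
    rw [Finset.sum_congr rfl (fun i _ => e1 i), Finset.sum_congr rfl (fun k _ => e2 k),
      Finset.sum_const_zero, add_zero, ← Finset.mul_sum, Finsupp.degree_eq_sum]
  rw [h1]
  exact (Nat.mul_le_mul_left _ (le_totalDegree hm')).trans hq

/-- an argument: a polynomial and a linear combination of values -/
noncomputable def ag (q : Fin R → MvPolynomial ι L) (c : Fin R → Fin n → L) (j : Fin R) :
    MvPolynomial (Vg ι n R) L :=
  rename Sum.inl (q j) + ∑ s, c j s • X (Sum.inr (Sum.inl s))

/-- the substitution of the arguments -/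
noncomputable def sb (S : σ → MvPolynomial ι L) (q : Fin R → MvPolynomial ι L)
    (c : Fin R → Fin n → L) : σ ⊕ Fin R → MvPolynomial (Vg ι n R) L :=
  Sum.elim (fun v => rename Sum.inl (S v)) (ag q c)

/-- the adjoint value of the value `s`, as a linear polynomial -/
noncomputable def av (c : Fin R → Fin n → L) (gm : Fin n → L) (s : Fin n) :
    MvPolynomial (Vg ι n R) L :=
  C (gm s) + ∑ j, c j s • X (Sum.inr (Sum.inr j))

/-- the right-hand sides -/
noncomputable def pg (S : σ → MvPolynomial ι L) (q : Fin R → MvPolynomial ι L)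
    (c : Fin R → Fin n → L) (gm : Fin n → L) (H : Fin n → MvPolynomial (σ ⊕ Fin R) L) :
    Vg ι n R → MvPolynomial (Vg ι n R) L
  | Sum.inl _ => 0
  | Sum.inr (Sum.inl s) => aeval (sb S q c) (H s)
  | Sum.inr (Sum.inr j) => ∑ s, aeval (sb S q c) (pderiv (Sum.inr j) (H s)) * av c gm s

/-- the order of the eliminations -/
def rg (ι : Type*) (n R : ℕ) (κ : Fin R → ℕ) : Vg ι n R → ℕ
  | Sum.inl _ => (n + 1) * R + n + 5
  | Sum.inr (Sum.inl s) => (n + 1) * R + (n - 1 - s.1)
  | Sum.inr (Sum.inr j) => κ j * R + j.1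

lemma rg_lt {κ : Fin R → ℕ} (hκ : ∀ j, κ j ≤ n) (j : Fin R) : κ j * R + j.1 < (n + 1) * R := by
  have h1 : κ j * R ≤ n * R := Nat.mul_le_mul_right _ (hκ j)
  have h2 := j.2
  rw [Nat.succ_mul]
  omega

lemma rg_inj {κ : Fin R → ℕ} (hκ : ∀ j, κ j ≤ n) :
    Set.InjOn (rg ι n R κ) (Set.range (Sum.inr : Fin n ⊕ Fin R → Vg ι n R)) := by
  rintro _ ⟨a, rfl⟩ _ ⟨b, rfl⟩ h
  rcases a with a | a <;> rcases b with b | b <;> simp only [rg] at h
  · congr 2; apply Fin.ext; omega
  · exfalso
    have := rg_lt hκ b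
    omega
  · exfalso
    have := rg_lt hκ a
    omega
  · congr 2
    apply Fin.ext
    have h1 := congrArg (· % R) h
    simp only [Nat.mul_comm _ R, Nat.mul_add_mod, Nat.mod_eq_of_lt a.2,
      Nat.mod_eq_of_lt b.2] at h1
    exact h1

lemma rg_arg {κ : Fin R → ℕ} {j j' : Fin R} (h : κ j < κ j') :
    κ j * R + j.1 < κ j' * R + j'.1 := by
  have h1 : (κ j + 1) * R ≤ κ j' * R := Nat.mul_le_mul_right _ h
  rw [Nat.succ_mul] at h1
  have := j.2
  omega

lemma rename_supported (q : MvPolynomial ι L) (s : Set (Vg ι n R)) (hx : ∀ i, Sum.inl i ∈ s) :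
    rename Sum.inl q ∈ supported L s := by
  have h1 : ((rename Sum.inl : MvPolynomial ι L →ₐ[L] MvPolynomial (Vg ι n R) L)).range ≤
      supported L s := by
    rw [← Algebra.map_top, ← adjoin_range_X, AlgHom.map_adjoin, Algebra.adjoin_le_iff]
    rintro _ ⟨_, ⟨i, rfl⟩, rfl⟩
    have : (rename Sum.inl : MvPolynomial ι L →ₐ[L] MvPolynomial (Vg ι n R) L) (X i) =
        X (Sum.inl i) := rename_X _ _
    rw [this]
    exact X_supp' (hx i)
  exact h1 ⟨_, rfl⟩

lemma ag_supported (q : Fin R → MvPolynomial ι L) (c : Fin R → Fin n → L) (j : Fin R)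
    (s : Set (Vg ι n R)) (hx : ∀ i, Sum.inl i ∈ s) (hs : ∀ t, c j t ≠ 0 → Sum.inr (Sum.inl t) ∈ s) :
    ag q c j ∈ supported L s := by
  unfold ag
  apply Subalgebra.add_mem
  · exact rename_supported _ _ hx
  · apply Subalgebra.sum_mem
    intro t _
    by_cases h0 : c j t = 0
    · rw [h0, zero_smul]
      exact Subalgebra.zero_mem _
    · exact Subalgebra.smul_mem _ (X_supp' (hs t h0)) _

/-- the arguments that can be used by the gate `s` -/
def ua (σ : Type*) {R : ℕ} (κ : Fin R → ℕ) (s : ℕ) : Set (σ ⊕ Fin R) :=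
  {v | ∀ j, v = Sum.inr j → κ j ≤ s}

lemma pg_supported (S : σ → MvPolynomial ι L) (q : Fin R → MvPolynomial ι L)
    (c : Fin R → Fin n → L) (gm : Fin n → L) (H : Fin n → MvPolynomial (σ ⊕ Fin R) L)
    (κ : Fin R → ℕ) (hκ : ∀ j, κ j ≤ n) (hc : ∀ j (s : Fin n), c j s ≠ 0 → s.1 < κ j)
    (hH : ∀ s : Fin n, H s ∈ supported L (ua σ κ s.1)) (i : Fin n ⊕ Fin R) :
    pg S q c gm H (Sum.inr i) ∈
      supported L {v | rg ι n R κ (Sum.inr i) < rg ι n R κ v} := by
  rcases i with s | j
  · change aeval (sb S q c) (H s) ∈ _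
    apply aeval_supported _ _ _ _ (hH s)
    rintro (v | j) hv
    · apply rename_supported
      intro i
      change (n + 1) * R + (n - 1 - s.1) < (n + 1) * R + n + 5
      omega
    · have h1 : κ j ≤ s := hv j rfl
      apply ag_supported
      · intro i
        change (n + 1) * R + (n - 1 - s.1) < (n + 1) * R + n + 5
        omega
      · intro t ht
        have h2 := hc j t ht
        change (n + 1) * R + (n - 1 - s.1) < (n + 1) * R + (n - 1 - t.1)
        have := s.2
        omega
  · change ∑ s, aeval (sb S q c) (pderiv (Sum.inr j) (H s)) * av c gm s ∈ _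
    apply Subalgebra.sum_mem
    intro s _
    by_cases h1 : κ j ≤ s
    · have hlt := rg_lt hκ j
      apply Subalgebra.mul_mem
      · apply aeval_supported _ _ _ _ (pderiv_supported _ _ _ (hH s))
        have hx : ∀ i, (Sum.inl i : Vg ι n R) ∈
            {v | rg ι n R κ (Sum.inr (Sum.inr j)) < rg ι n R κ v} := by
          intro i
          change κ j * R + j.1 < (n + 1) * R + n + 5
          omega
        rintro (v | j') hv
        · exact rename_supported _ _ hx
        · apply ag_supported _ _ _ _ hx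
          intro t _
          change κ j * R + j.1 < (n + 1) * R + (n - 1 - t.1)
          omega
      · unfold av
        apply Subalgebra.add_mem
        · exact Subalgebra.algebraMap_mem _ _
        · apply Subalgebra.sum_mem
          intro j' _
          by_cases h0 : c j' s = 0
          · rw [h0, zero_smul]
            exact Subalgebra.zero_mem _
          · apply Subalgebra.smul_mem
            apply X_supp'
            exact rg_arg (lt_of_le_of_lt h1 (hc j' s h0))
    · have h2 : pderiv (Sum.inr j) (H s) = 0 := by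
        apply pderiv_eq_zero_of_supported _ _ _ (hH s)
        intro h3
        exact h1 (h3 j rfl)
      rw [h2, map_zero, zero_mul]
      exact Subalgebra.zero_mem _

variable {Q : ℕ} {C₀ W : Fin n → ℕ} {A wa E : Fin R → ℕ}

lemma ag_mem (wz : Fin n → ℕ) (q : Fin R → MvPolynomial ι L) (c : Fin R → Fin n → L) (j : Fin R)
    (k : ℕ) (hq : Q * (q j).totalDegree ≤ k) (hc : ∀ s, c j s ≠ 0 → wz s ≤ k) :
    ag q c j ∈ wp L (wg ι Q wz wa) k := by
  unfold ag
  apply Submodule.add_mem
  · exact rename_memQ wz wa (q j) k hq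
  · apply Submodule.sum_mem
    intro s _
    by_cases h0 : c j s = 0
    · rw [h0, zero_smul]
      exact Submodule.zero_mem _
    · exact Submodule.smul_mem _ _ (X_mem_wp (hc s h0))

/-- the weights of the variables and arguments of the gates -/
def wh (σ : Type*) (Q : ℕ) (A : Fin R → ℕ) : σ ⊕ Fin R → ℕ := Sum.elim (fun _ => Q) A

lemma sb_mem (S : σ → MvPolynomial ι L) (hS : ∀ v, (S v).totalDegree ≤ 1) (wz : Fin n → ℕ)
    (q : Fin R → MvPolynomial ι L) (c : Fin R → Fin n → L)
    (hq : ∀ j, Q * (q j).totalDegree ≤ A j) (hc : ∀ j s, c j s ≠ 0 → wz s ≤ A j)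
    (v : σ ⊕ Fin R) : sb S q c v ∈ wp L (wg ι Q wz wa) (wh σ Q A v) := by
  rcases v with v | j
  · apply rename_memQ
    have h := Nat.mul_le_mul_left Q (hS v)
    rw [mul_one] at h
    exact h
  · exact ag_mem wz q c j _ (hq j) (hc j)

lemma av_mem (wz : Fin n → ℕ) (c : Fin R → Fin n → L) (gm : Fin n → L) (s : Fin n) (k : ℕ)
    (hc : ∀ j, c j s ≠ 0 → wa j ≤ k) : av c gm s ∈ wp L (wg ι Q wz wa) k := by
  unfold av
  apply Submodule.add_mem
  · exact C_mem_wp _ _
  · apply Submodule.sum_mem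
    intro j _
    by_cases h0 : c j s = 0
    · rw [h0, zero_smul]
      exact Submodule.zero_mem _
    · exact Submodule.smul_mem _ _ (X_mem_wp (hc j h0))

lemma pg_mem [Fintype σ] (S : σ → MvPolynomial ι L) (hS : ∀ v, (S v).totalDegree ≤ 1)
    (q : Fin R → MvPolynomial ι L)
    (c : Fin R → Fin n → L) (gm : Fin n → L) (H : Fin n → MvPolynomial (σ ⊕ Fin R) L)
    (Ω : ℕ) (hq : ∀ j, Q * (q j).totalDegree ≤ A j) (hc : ∀ j s, c j s ≠ 0 → C₀ s ≤ A j)
    (hA : ∀ j, A j ≤ Ω) (hC : ∀ s, C₀ s ≤ Ω)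
    (hH : ∀ s, H s ∈ wp L (wh σ Q A) (W s))
    (hE : ∀ s j, pderiv (Sum.inr j) (H s) ≠ 0 → W s ≤ C₀ s + E j) (i : Fin n ⊕ Fin R) :
    X (Sum.inr i) - pg S q c gm H (Sum.inr i) ∈
      wp L (wg ι Q C₀ (fun j => 2 * Ω - A j))
        (Sum.elim (fun s => max (C₀ s) (W s)) (fun j => 2 * Ω - A j + E j) i) := by
  rcases i with s | j
  · apply Submodule.sub_mem
    · exact X_mem_wp (le_max_left _ _)
    · exact wp_mono (le_max_right _ _) (aeval_mem_wp _ _ (sb_mem S hS _ q c hq hc) _ _ (hH s))
  · apply Submodule.sub_mem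
    · exact X_mem_wp (Nat.le_add_right _ _)
    · change ∑ s, aeval (sb S q c) (pderiv (Sum.inr j) (H s)) * av c gm s ∈ _
      apply Submodule.sum_mem
      intro s _
      by_cases h0 : pderiv (Sum.inr j) (H s) = 0
      · rw [h0, map_zero, zero_mul]
        exact Submodule.zero_mem _
      · have h1 := aeval_mem_wp (w := wg ι Q C₀ (fun j => 2 * Ω - A j)) _ _
          (sb_mem (wa := fun j => 2 * Ω - A j) S hS _ q c hq hc) _ _
          (pderiv_mem_wp (Sum.inr j) (H s) (W s) (hH s))
        have h2 := av_mem (ι := ι) (Q := Q) (wa := fun j => 2 * Ω - A j) C₀ c gm s (2 * Ω - C₀ s)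
          (fun j' hj' => by have := hc j' s hj'; change 2 * Ω - A j' ≤ _; omega)
        refine wp_mono ?_ (mul_mem_wp h1 h2)
        have h3 := hE s j h0
        have h4 := pderiv_mem_wp' (Sum.inr j) (H s) (W s) (hH s) h0
        have h5 : wh σ Q A (Sum.inr j) = A j := rfl
        rw [h5] at h4 ⊢
        change _ ≤ 2 * Ω - A j + E j
        have := hA j
        have := hC s
        omega

/-! ### The evaluation -/

/-- the evaluation -/
noncomputable def evg (g : Fin n → MvPolynomial ι L) (a : Fin R → MvPolynomial ι L) :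
    MvPolynomial (Vg ι n R) L →ₐ[L] MvPolynomial ι L :=
  aeval (Sum.elim X (Sum.elim g a))

lemma evg_rename (g : Fin n → MvPolynomial ι L) (a : Fin R → MvPolynomial ι L)
    (q : MvPolynomial ι L) : evg g a (rename Sum.inl q) = q := by
  unfold evg
  rw [aeval_rename]
  have : (Sum.elim X (Sum.elim g a) : Vg ι n R → MvPolynomial ι L) ∘ Sum.inl = X := rfl
  rw [this, aeval_X_left_apply]

lemma evg_z (g : Fin n → MvPolynomial ι L) (a : Fin R → MvPolynomial ι L) (s : Fin n) :
    evg g a (X (Sum.inr (Sum.inl s))) = g s := by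
  unfold evg; rw [aeval_X]; rfl

lemma evg_a (g : Fin n → MvPolynomial ι L) (a : Fin R → MvPolynomial ι L) (j : Fin R) :
    evg g a (X (Sum.inr (Sum.inr j))) = a j := by
  unfold evg; rw [aeval_X]; rfl

lemma evg_ag (g : Fin n → MvPolynomial ι L) (a : Fin R → MvPolynomial ι L)
    (q : Fin R → MvPolynomial ι L) (c : Fin R → Fin n → L) (j : Fin R) :
    evg g a (ag q c j) = q j + ∑ s, c j s • g s := by
  unfold ag
  rw [map_add, evg_rename, map_sum]
  congr 1
  apply Finset.sum_congr rfl
  intro s _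
  rw [map_smul, evg_z]

lemma evg_av (g : Fin n → MvPolynomial ι L) (a : Fin R → MvPolynomial ι L)
    (c : Fin R → Fin n → L) (gm : Fin n → L) (s : Fin n) :
    evg g a (av c gm s) = C (gm s) + ∑ j, c j s • a j := by
  unfold av
  rw [map_add, map_sum]
  congr 1
  · exact AlgHom.commutes (evg g a) (gm s)
  · apply Finset.sum_congr rfl
    intro j _
    rw [map_smul, evg_a]

lemma evg_sb (g : Fin n → MvPolynomial ι L) (a : Fin R → MvPolynomial ι L)
    (S : σ → MvPolynomial ι L) (q : Fin R → MvPolynomial ι L) (c : Fin R → Fin n → L)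
    (P : MvPolynomial (σ ⊕ Fin R) L) :
    evg g a (aeval (sb S q c) P) =
      aeval (Sum.elim S fun j => q j + ∑ s, c j s • g s) P := by
  have h : ((evg g a).comp (aeval (sb S q c))) =
      aeval (Sum.elim S fun j => q j + ∑ s, c j s • g s) := by
    apply algHom_ext
    rintro (v | j)
    · rw [AlgHom.comp_apply, aeval_X, aeval_X]
      exact evg_rename _ _ _
    · rw [AlgHom.comp_apply, aeval_X, aeval_X]
      exact evg_ag _ _ _ _ _
  exact DFunLike.congr_fun h P

end Pool.Agent.W944.V2
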