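import Pool.Agent.W944.V2Border

/-! # Computations with arbitrary polynomials as gates: real weights -/

set_option autoImplicit false
set_option linter.unusedSectionVars false

open Module MvPolynomial Topology Filter

namespace Pool.Agent.W944.V2

open Pool.Agent.W944.Wt
open Pool.Agent.H632R2.Border

/-- the floor of a multiple -/
lemma tend_floor {a : ℝ} (ha : 0 ≤ a) :
    Tendsto (fun Q : ℕ => ((⌊a * Q⌋₊ : ℕ) : ℝ) / Q) atTop (𝓝 a) :=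
  (tendsto_nat_floor_mul_div_atTop ha).comp tendsto_natCast_atTop_atTop

lemma tend_ceil {a : ℝ} (ha : 0 ≤ a) :
    Tendsto (fun Q : ℕ => ((⌈a * Q⌉₊ + 1 : ℕ) : ℝ) / Q) atTop (𝓝 a) := by
  have h1 : Tendsto (fun Q : ℕ => ((⌈a * Q⌉₊ : ℕ) : ℝ) / Q) atTop (𝓝 a) :=
    (tendsto_nat_ceil_mul_div_atTop ha).comp tendsto_natCast_atTop_atTop
  have h2 := h1.add (tendsto_one_div_atTop_nhds_zero_nat (𝕜 := ℝ))
  rw [add_zero] at h2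
  refine h2.congr ?_
  intro Q
  push_cast
  ring

variable {Ω₀ L : Type*} [Field Ω₀] [Field L] {σ ι : Type*} [Fintype σ]
  {O : ValuationSubring L} {φ : O →+* Ω₀} {j : Ω₀ →+* O}

/-- **The inequality for limits of computations with real weights.** -/
theorem rborder [IsAlgClosed Ω₀] [Fintype ι] (hj : ∀ c, φ (j c) = c)
    (S : σ → MvPolynomial ι Ω₀) (hS : ∀ v, (S v).totalDegree ≤ 1) (f : MvPolynomial σ Ω₀)
    {V : Type*} (y₀ : V → MvPolynomial ι Ω₀) (e : ℕ) (he : 0 < e)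
    (hy₀ : ∀ v, (y₀ v).IsHomogeneous e)
    (hz₀ : ∀ x : ι → Ω₀, (∀ v, eval x (y₀ v) = 0) → x = 0)
    (hyS : ∀ v, ∃ (c : Ω₀) (u : σ), y₀ v = C c * aeval S (pderiv u f))
    (hι : 0 < Fintype.card ι) {n R : ℕ}
    (C₀ W : Fin n → ℝ) (A E : Fin R → ℝ) (Ω : ℝ)
    (z : Fin n → MvPolynomial σ L) (y q : Fin R → MvPolynomial σ L)
    (c : Fin R → Fin n → L) (gm : Fin n → L) (H : Fin n → MvPolynomial (σ ⊕ Fin R) L)
    (κ : Fin R → ℕ) (hκ : ∀ j, κ j ≤ n) (hcκ : ∀ j (s : Fin n), c j s ≠ 0 → s.1 < κ j)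
    (hHκ : ∀ s : Fin n, H s ∈ supported L (ua σ κ s.1))
    (hz : ∀ s, z s = aeval (Sum.elim X y) (H s)) (hy : ∀ j, y j = q j + ∑ s, c j s • z s)
    (q0 : MvPolynomial σ L)
    (hq : ∀ j, ((q j).totalDegree : ℝ) ≤ A j) (hc : ∀ j s, c j s ≠ 0 → C₀ s ≤ A j)
    (hC0 : ∀ s, 0 < C₀ s) (hA : ∀ j, A j ≤ Ω) (hC : ∀ s, C₀ s ≤ Ω) (hΩ : 1 ≤ Ω)
    (hW0 : ∀ s, 0 ≤ W s) (hE0 : ∀ j, 0 ≤ E j)
    (hH : ∀ s, ∀ μ ∈ (H s).support,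
      ∑ v, (μ (Sum.inl v) : ℝ) + ∑ j, A j * μ (Sum.inr j) ≤ W s)
    (hE : ∀ s j, pderiv (Sum.inr j) (H s) ≠ 0 → W s ≤ C₀ s + E j)
    (hX : ∀ s v, pderiv (Sum.inl v) (H s) ≠ 0 → W s ≤ C₀ s + Ω)
    (hq0 : (q0.totalDegree : ℝ) ≤ 3 * Ω)
    (F : MvPolynomial σ O) (hF : map O.subtype F = q0 + ∑ s, gm s • z s)
    (hf : map φ F = f) :
    (e : ℝ) ^ (Fintype.card ι) * ((∏ s, C₀ s) * ∏ j, (2 * Ω - A j)) ≤
      (3 * Ω) ^ (Fintype.card ι) *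
        ((∏ s, max (C₀ s) (W s)) * ∏ j, (2 * Ω - A j + E j)) *
        (Real.exp 1 * (Fintype.card ι + 1)) := by
  classical
  have hA0 : ∀ j, 0 ≤ A j := fun i => le_trans (by positivity) (hq i)
  have hΩ0 : 0 ≤ Ω := by linarith
  set D := Fintype.card ι with hD
  -- the scaled inequality
  have key : ∀ᶠ Q : ℕ in atTop,
      (e : ℝ) ^ D * ((∏ s, ((⌊C₀ s * Q⌋₊ : ℕ) : ℝ) / Q) *
        ∏ i, (2 * (((⌈Ω * Q⌉₊ + 1 : ℕ) : ℝ) / Q) - ((⌊A i * Q⌋₊ : ℕ) : ℝ) / Q)) ≤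
      (3 * (((⌈Ω * Q⌉₊ + 1 : ℕ) : ℝ) / Q)) ^ D *
        ((∏ s, max (((⌊C₀ s * Q⌋₊ : ℕ) : ℝ) / Q) (((⌊W s * Q⌋₊ : ℕ) : ℝ) / Q)) *
        ∏ i, (2 * (((⌈Ω * Q⌉₊ + 1 : ℕ) : ℝ) / Q) - ((⌊A i * Q⌋₊ : ℕ) : ℝ) / Q +
          ((⌈E i * Q⌉₊ + 1 : ℕ) : ℝ) / Q)) * (Real.exp 1 * (D + 1)) := by
    have h1 : ∀ s, ∀ᶠ Q : ℕ in atTop, 1 ≤ C₀ s * Q := by
      intro s
      have h2 : Tendsto (fun Q : ℕ => C₀ s * (Q : ℝ)) atTop atTop :=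
        Tendsto.const_mul_atTop (hC0 s) tendsto_natCast_atTop_atTop
      exact h2.eventually_ge_atTop 1
    have h3 : ∀ᶠ Q : ℕ in atTop, ∀ s, 1 ≤ C₀ s * Q := Filter.eventually_all.mpr h1
    filter_upwards [h3, Filter.eventually_ge_atTop 1] with Q hQC hQ1
    have hQ0 : (0 : ℝ) < Q := by exact_mod_cast hQ1
    have hAf : ∀ i, ⌊A i * Q⌋₊ ≤ ⌈Ω * Q⌉₊ + 1 := by
      intro i
      have h4 : A i * Q ≤ Ω * Q := mul_le_mul_of_nonneg_right (hA i) hQ0.le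
      have h5 : ⌊A i * Q⌋₊ ≤ ⌊Ω * Q⌋₊ := Nat.floor_le_floor h4
      have h6 : ⌊Ω * Q⌋₊ ≤ ⌈Ω * Q⌉₊ := Nat.floor_le_ceil _
      omega
    have hlt : ∀ a b d : ℝ, 0 ≤ a → 0 ≤ d → a ≤ b + d → ⌊a * Q⌋₊ ≤ ⌊b * Q⌋₊ + (⌈d * Q⌉₊ + 1) := by
      intro a b d ha hd h
      have h4 : a * Q ≤ b * Q + d * Q := by nlinarith
      have h5 := Nat.lt_floor_add_one (b * Q)
      have h6 := Nat.le_ceil (d * Q)
      have h7 : (⌊a * Q⌋₊ : ℝ) ≤ a * Q := Nat.floor_le (by positivity)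
      have h8 : (⌊a * Q⌋₊ : ℝ) < ((⌊b * Q⌋₊ + (⌈d * Q⌉₊ + 1) : ℕ) : ℝ) := by
        push_cast
        linarith
      exact le_of_lt (by exact_mod_cast h8)
    have h := gborder (O := O) (φ := φ) (j := j) hj S hS f y₀ e he hy₀ hz₀ hyS hι Q
      (by omega) (fun s => ⌊C₀ s * Q⌋₊) (fun s => ⌊W s * Q⌋₊) (fun i => ⌊A i * Q⌋₊)
      (fun i => ⌈E i * Q⌉₊ + 1) (⌈Ω * Q⌉₊ + 1) z y q c gm H κ hκ hcκ hHκ hz hy q0
      (by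
        intro i
        apply Nat.le_floor
        push_cast
        rw [mul_comm]
        exact mul_le_mul_of_nonneg_right (hq i) hQ0.le)
      (by
        intro i s h0
        exact Nat.floor_le_floor (mul_le_mul_of_nonneg_right (hc i s h0) hQ0.le))
      (by
        intro s
        exact Nat.floor_pos.mpr (hQC s))
      hAf
      (by
        intro s
        have h4 : C₀ s * Q ≤ Ω * Q := mul_le_mul_of_nonneg_right (hC s) hQ0.le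
        have h5 : ⌊C₀ s * Q⌋₊ ≤ ⌊Ω * Q⌋₊ := Nat.floor_le_floor h4
        have h6 : ⌊Ω * Q⌋₊ ≤ ⌈Ω * Q⌉₊ := Nat.floor_le_ceil _
        omega)
      (by
        have h4 : (Q : ℝ) ≤ Ω * Q := by nlinarith
        have h5 : (Q : ℝ) ≤ ((⌈Ω * Q⌉₊ + 1 : ℕ) : ℝ) := by
          push_cast
          have := Nat.le_ceil (Ω * Q)
          linarith
        exact_mod_cast h5)
      (by
        intro s
        rw [mem_wp]
        intro μ hμ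
        apply Nat.le_floor
        have h4 := mul_le_mul_of_nonneg_right (hH s μ hμ) hQ0.le
        refine le_trans ?_ h4
        unfold wd
        rw [Fintype.sum_sum_type]
        push_cast
        rw [add_mul, Finset.sum_mul, Finset.sum_mul]
        apply add_le_add
        · apply Finset.sum_le_sum
          intro v _
          change (Q : ℝ) * μ (Sum.inl v) ≤ _
          rw [mul_comm]
        · apply Finset.sum_le_sum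
          intro i _
          change ((⌊A i * Q⌋₊ : ℕ) : ℝ) * μ (Sum.inr i) ≤ _
          have h5 : (⌊A i * Q⌋₊ : ℝ) ≤ A i * Q := Nat.floor_le (mul_nonneg (hA0 i) hQ0.le)
          calc ((⌊A i * Q⌋₊ : ℕ) : ℝ) * μ (Sum.inr i) ≤ A i * Q * μ (Sum.inr i) := by gcongr
            _ = _ := by ring)
      (by
        intro s i h0
        exact hlt _ _ _ (hW0 s) (hE0 i) (hE s i h0))
      (by
        intro s v h0
        exact hlt _ _ _ (hW0 s) hΩ0 (hX s v h0))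
      (by
        have h4 : (q0.totalDegree : ℝ) * Q ≤ 3 * Ω * Q := mul_le_mul_of_nonneg_right hq0 hQ0.le
        have h5 : ((Q * q0.totalDegree : ℕ) : ℝ) ≤ ((3 * (⌈Ω * Q⌉₊ + 1) : ℕ) : ℝ) := by
          push_cast
          have := Nat.le_ceil (Ω * Q)
          linarith
        exact_mod_cast h5)
      F hF hf
    -- division
    have hcast : ∀ i, ((2 * (⌈Ω * Q⌉₊ + 1) - ⌊A i * Q⌋₊ : ℕ) : ℝ) =
        2 * ((⌈Ω * Q⌉₊ + 1 : ℕ) : ℝ) - ((⌊A i * Q⌋₊ : ℕ) : ℝ) := by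
      intro i
      have h4 := hAf i
      rw [Nat.cast_sub (by omega)]
      push_cast
      ring
    have hl : (e : ℝ) ^ D * ((Q : ℝ) ^ D * ((∏ s, ((⌊C₀ s * Q⌋₊ : ℕ) : ℝ)) *
        ∏ i, ((2 * (⌈Ω * Q⌉₊ + 1) - ⌊A i * Q⌋₊ : ℕ) : ℝ))) = (Q : ℝ) ^ (D + n + R) *
        ((e : ℝ) ^ D * ((∏ s, ((⌊C₀ s * Q⌋₊ : ℕ) : ℝ) / Q) *
        ∏ i, (2 * (((⌈Ω * Q⌉₊ + 1 : ℕ) : ℝ) / Q) - ((⌊A i * Q⌋₊ : ℕ) : ℝ) / Q))) := by
      have e1 : ∏ s, ((⌊C₀ s * Q⌋₊ : ℕ) : ℝ) / Q = (∏ s, ((⌊C₀ s * Q⌋₊ : ℕ) : ℝ)) / Q ^ n := by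
        rw [Finset.prod_div_distrib, Finset.prod_const, Finset.card_univ, Fintype.card_fin]
      have e2 : ∏ i, (2 * (((⌈Ω * Q⌉₊ + 1 : ℕ) : ℝ) / Q) - ((⌊A i * Q⌋₊ : ℕ) : ℝ) / Q) =
          (∏ i, ((2 * (⌈Ω * Q⌉₊ + 1) - ⌊A i * Q⌋₊ : ℕ) : ℝ)) / Q ^ R := by
        have e3 : ∀ i, 2 * (((⌈Ω * Q⌉₊ + 1 : ℕ) : ℝ) / Q) - ((⌊A i * Q⌋₊ : ℕ) : ℝ) / Q =
            ((2 * (⌈Ω * Q⌉₊ + 1) - ⌊A i * Q⌋₊ : ℕ) : ℝ) / Q := by
          intro i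
          rw [hcast i]
          ring
        rw [Finset.prod_congr rfl (fun i _ => e3 i), Finset.prod_div_distrib, Finset.prod_const,
          Finset.card_univ, Fintype.card_fin]
      rw [e1, e2, pow_add, pow_add]
      generalize ∏ s, ((⌊C₀ s * Q⌋₊ : ℕ) : ℝ) = P1
      generalize ∏ i, ((2 * (⌈Ω * Q⌉₊ + 1) - ⌊A i * Q⌋₊ : ℕ) : ℝ) = P2
      field_simp
    have hr : ((3 * (⌈Ω * Q⌉₊ + 1) : ℕ) : ℝ) ^ D *
        ((∏ s, ((max ⌊C₀ s * Q⌋₊ ⌊W s * Q⌋₊ : ℕ) : ℝ)) *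
        ∏ i, ((2 * (⌈Ω * Q⌉₊ + 1) - ⌊A i * Q⌋₊ + (⌈E i * Q⌉₊ + 1) : ℕ) : ℝ)) *
        (Real.exp 1 * (D + 1)) = (Q : ℝ) ^ (D + n + R) *
      ((3 * (((⌈Ω * Q⌉₊ + 1 : ℕ) : ℝ) / Q)) ^ D *
        ((∏ s, max (((⌊C₀ s * Q⌋₊ : ℕ) : ℝ) / Q) (((⌊W s * Q⌋₊ : ℕ) : ℝ) / Q)) *
        ∏ i, (2 * (((⌈Ω * Q⌉₊ + 1 : ℕ) : ℝ) / Q) - ((⌊A i * Q⌋₊ : ℕ) : ℝ) / Q +
          ((⌈E i * Q⌉₊ + 1 : ℕ) : ℝ) / Q)) * (Real.exp 1 * (D + 1))) := by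
      have e1 : ∏ s, max (((⌊C₀ s * Q⌋₊ : ℕ) : ℝ) / Q) (((⌊W s * Q⌋₊ : ℕ) : ℝ) / Q) =
          (∏ s, ((max ⌊C₀ s * Q⌋₊ ⌊W s * Q⌋₊ : ℕ) : ℝ)) / Q ^ n := by
        have e3 : ∀ s, max (((⌊C₀ s * Q⌋₊ : ℕ) : ℝ) / Q) (((⌊W s * Q⌋₊ : ℕ) : ℝ) / Q) =
            ((max ⌊C₀ s * Q⌋₊ ⌊W s * Q⌋₊ : ℕ) : ℝ) / Q := by
          intro s
          rw [Nat.cast_max, max_div_div_right hQ0.le]
        rw [Finset.prod_congr rfl (fun s _ => e3 s), Finset.prod_div_distrib, Finset.prod_const,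
          Finset.card_univ, Fintype.card_fin]
      have e2 : ∏ i, (2 * (((⌈Ω * Q⌉₊ + 1 : ℕ) : ℝ) / Q) - ((⌊A i * Q⌋₊ : ℕ) : ℝ) / Q +
          ((⌈E i * Q⌉₊ + 1 : ℕ) : ℝ) / Q) =
          (∏ i, ((2 * (⌈Ω * Q⌉₊ + 1) - ⌊A i * Q⌋₊ + (⌈E i * Q⌉₊ + 1) : ℕ) : ℝ)) / Q ^ R := by
        have e3 : ∀ i, 2 * (((⌈Ω * Q⌉₊ + 1 : ℕ) : ℝ) / Q) - ((⌊A i * Q⌋₊ : ℕ) : ℝ) / Q +
            ((⌈E i * Q⌉₊ + 1 : ℕ) : ℝ) / Q =
            ((2 * (⌈Ω * Q⌉₊ + 1) - ⌊A i * Q⌋₊ + (⌈E i * Q⌉₊ + 1) : ℕ) : ℝ) / Q := by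
          intro i
          rw [Nat.cast_add (2 * (⌈Ω * Q⌉₊ + 1) - ⌊A i * Q⌋₊), hcast i]
          ring
        rw [Finset.prod_congr rfl (fun i _ => e3 i), Finset.prod_div_distrib, Finset.prod_const,
          Finset.card_univ, Fintype.card_fin]
      have e4 : ((3 * (⌈Ω * Q⌉₊ + 1) : ℕ) : ℝ) = Q * (3 * (((⌈Ω * Q⌉₊ + 1 : ℕ) : ℝ) / Q)) := by
        push_cast
        generalize ((⌈Ω * Q⌉₊ : ℕ) : ℝ) = P1
        field_simp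
      rw [e1, e2, e4, mul_pow, pow_add, pow_add]
      generalize ∏ s, ((max ⌊C₀ s * Q⌋₊ ⌊W s * Q⌋₊ : ℕ) : ℝ) = P1
      generalize ∏ i, ((2 * (⌈Ω * Q⌉₊ + 1) - ⌊A i * Q⌋₊ + (⌈E i * Q⌉₊ + 1) : ℕ) : ℝ) = P2
      generalize (3 * (((⌈Ω * Q⌉₊ + 1 : ℕ) : ℝ) / Q)) ^ D = P3
      field_simp
    have h' := h
    rw [hl, hr] at h'
    exact le_of_mul_le_mul_left h' (by positivity)
  refine le_of_tendsto_of_tendsto ?_ ?_ key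
  · apply Tendsto.const_mul
    apply Tendsto.mul
    · exact tendsto_finsetProd _ fun s _ => tend_floor (hC0 s).le
    · exact tendsto_finsetProd _ fun i _ =>
        ((tend_ceil hΩ0).const_mul 2).sub (tend_floor (hA0 i))
  · apply Tendsto.mul_const
    apply Tendsto.mul
    · exact ((tend_ceil hΩ0).const_mul 3).pow _
    · apply Tendsto.mul
      · exact tendsto_finsetProd _ fun s _ => (tend_floor (hC0 s).le).max (tend_floor (hW0 s))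
      · exact tendsto_finsetProd _ fun i _ =>
          (((tend_ceil hΩ0).const_mul 2).sub (tend_floor (hA0 i))).add (tend_ceil (hE0 i))

end Pool.Agent.W944.V2
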