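import Pool.Agent.W944.WtPerm
import Pool.Agent.W944.SmoothFinal

/-! # Computations with levels of forms without singularities -/

set_option autoImplicit false
set_option linter.unusedSectionVars false
set_option linter.unusedVariables false

open Module MvPolynomial

namespace Pool.Agent.W944.Wt

open Pool.Agent.W944.Cx (lift_poly)
open Pool.Agent.H632R2.Border (O0 φ0 ψ0 φψ rmap rmap_mem rmap_eval totalDegree_map_le)

/-- **The inequality for forms whose partial derivatives have no common zero.** -/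
theorem level_smooth (k₀ : Type*) [Field k₀] (N d : ℕ) (hN : 0 < N) (hd : 2 ≤ d)
    (f : MvPolynomial (Fin N) k₀) (hf : f.IsHomogeneous d)
    (hsm : ∀ x : Fin N → AlgebraicClosure k₀, (∀ i, aeval x (pderiv i f) = 0) → x = 0)
    (δ t : ℕ)
    (hδ : 1 ≤ δ) (w : ℕ → ℕ) (hw0 : δ ≤ w 0) (hw : ∀ i, 2 * w i ≤ w (i + 1)) {n : ℕ}
    (lev : Fin n → ℕ) (R : Finset (Fin n))
    (hlev : ∀ s, lev s ≤ t) (hlev1 : ∀ s ∉ R, 1 ≤ lev s)
    (a b : Fin n → MvPolynomial (Fin N) (RatFunc k₀))
    (ha : ∀ s, a s ∈ Avail δ (fun j => a j * b j) {j | j < s ∧ lev j ≤ lev s})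
    (hb : ∀ s, b s ∈ Avail δ (fun j => a j * b j) {j | j < s ∧ lev j ≤ lev s})
    (hR : ∀ s ∉ R, a s ∈ Avail δ (fun j => a j * b j) {j | j < s ∧ lev j < lev s})
    (F : MvPolynomial (Fin N) (RatFunc k₀))
    (hF : F ∈ Avail δ (fun j => a j * b j) Set.univ)
    (hlim : ∀ μ, (coeff μ F).denom.eval 0 ≠ 0 ∧
      RatFunc.eval (RingHom.id k₀) 0 (coeff μ F) = coeff μ f) :
    ((d - 1 : ℕ) : ℝ) ^ N ≤ ((4 * w t : ℕ) : ℝ) ^ N *
      (∏ s, (if s ∈ R then 6 else Real.exp (3 / 2 * (w (lev s - 1) / w (lev s))))) *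
        (Real.exp 2 * ((2 * n : ℕ) + 1) * (N + 1)) := by
  classical
  have ha' : ∀ s, a s ∈ Avail δ (fun j => a j * b j)
      {j | j < s ∧ lev j ≤ lev s ∧ (s ∈ R ∨ lev j < lev s)} := by
    intro s
    by_cases hs : s ∈ R
    · refine (?_ : Avail δ (fun j => a j * b j) {j | j < s ∧ lev j ≤ lev s} ≤ _) (ha s)
      unfold Avail
      refine sup_le_sup le_rfl (Submodule.span_mono (Set.image_mono ?_))
      rintro j ⟨h1, h2⟩
      exact ⟨h1, h2, Or.inl hs⟩
    · refine (?_ : Avail δ (fun j => a j * b j) {j | j < s ∧ lev j < lev s} ≤ _) (hR s hs)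
      unfold Avail
      refine sup_le_sup le_rfl (Submodule.span_mono (Set.image_mono ?_))
      rintro j ⟨h1, h2⟩
      exact ⟨h1, h2.le, Or.inr h2⟩
  choose la ca hla hca hae using fun s => mem_Avail (ha' s) (Finset.Iio s)
    (fun j hj => Finset.mem_Iio.mpr hj.1)
  choose lb cb hlb hcb hbe using fun s => mem_Avail (hb s) (Finset.Iio s)
    (fun j hj => Finset.mem_Iio.mpr hj.1)
  obtain ⟨lf, gm, hlf, -, hfe⟩ := mem_Avail hF Finset.univ (fun j _ => Finset.mem_univ j)
  obtain ⟨G, hG1, hG2⟩ := lift_poly F f hlim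
  set f' : MvPolynomial (Fin N) (AlgebraicClosure k₀) :=
    map (algebraMap k₀ (AlgebraicClosure k₀)) f with hf'
  have hf'h : f'.IsHomogeneous d := hf.map _
  set r := rmap (algebraMap k₀ (AlgebraicClosure k₀)) with hr
  have hmapsum : ∀ (J : Finset (Fin n)) (c : Fin n → RatFunc k₀),
      map r (∑ j ∈ J, c j • (a j * b j)) =
        ∑ j ∈ J, r (c j) • (map r (a j) * map r (b j)) := by
    intro J c
    rw [map_sum]
    apply Finset.sum_congr rfl
    intro j _
    rw [smul_eq_C_mul, map_mul, map_C, map_mul, smul_eq_C_mul]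
  have hne : ∀ c : RatFunc k₀, r c ≠ 0 → c ≠ 0 := by
    intro c hc h0
    exact hc (by rw [h0, map_zero])
  have hyh : ∀ v, (pderiv v f').IsHomogeneous (d - 1) := by
    intro v
    have := hf'h.pderiv (i := v)
    exact this
  have h := level_border (φψ (AlgebraicClosure k₀)) (fun v : Fin N => X v)
    (fun v => by rw [totalDegree_X]) f' (fun v => pderiv v f') (d - 1) (by omega)
    hyh
    (fun x hx => by
      apply hsm x
      intro i
      have h1 := hx i
      rw [hf', pderiv_map, eval_map] at h1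
      rw [aeval_def]
      exact h1)
    (fun v => ⟨1, v, by rw [C_1, one_mul, aeval_X_left, AlgHom.id_apply]⟩)
    (by rw [Fintype.card_fin]; exact hN) δ t hδ w hw0 hw lev R
    hlev hlev1
    (fun t => map r (a t)) (fun t => map r (b t)) (fun t => map r (la t))
    (fun t => map r (lb t)) (fun t j => r (ca t j)) (fun t j => r (cb t j)) (fun j => r (gm j))
    (fun t => by
      conv_lhs => rw [hae t]
      rw [map_add, hmapsum])
    (fun t => by
      conv_lhs => rw [hbe t]
      rw [map_add, hmapsum]) (map r lf)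
    (fun t => (totalDegree_map_le _ _).trans (hla t))
    (fun t => (totalDegree_map_le _ _).trans (hlb t))
    ((totalDegree_map_le _ _).trans hlf)
    (fun s i _ h => (hca s i (hne _ h)).2)
    (fun s i _ h => (hcb s i (hne _ h)).2) G (by
      rw [hG1]
      conv_lhs => rw [hfe]
      rw [map_add, hmapsum]) hG2
  rw [Fintype.card_fin] at h
  exact h

lemma three_pow_ge (N : ℕ) (hN : 16 ≤ N) :
    8 * (2 * 2 ^ N + 1) * ((N : ℝ) + 1) ≤ 3 ^ N := by
  induction N, hN using Nat.le_induction with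
  | base => norm_num
  | succ N hN ih =>
    have hNr : (16 : ℝ) ≤ N := by exact_mod_cast hN
    have h2 : (1 : ℝ) ≤ 2 ^ N := one_le_pow₀ (by norm_num)
    rw [pow_succ, pow_succ]
    push_cast
    nlinarith

theorem level_smooth_final (k₀ : Type*) [Field k₀] (N d : ℕ) (hN : 16 ≤ N)
    (hNd : N * d ≤ 2 ^ N)
    (f : MvPolynomial (Fin N) k₀) (hf : f.IsHomogeneous d)
    (hsm : ∀ x : Fin N → AlgebraicClosure k₀, (∀ i, aeval x (pderiv i f) = 0) → x = 0)
    (δ t : ℕ)
    (hδ : 1 ≤ δ) {n : ℕ}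
    (lev : Fin n → ℕ) (R : Finset (Fin n))
    (hlev : ∀ s, lev s ≤ t) (hlev1 : ∀ s ∉ R, 1 ≤ lev s)
    (a b : Fin n → MvPolynomial (Fin N) (RatFunc k₀))
    (ha : ∀ s, a s ∈ Avail δ (fun j => a j * b j) {j | j < s ∧ lev j ≤ lev s})
    (hb : ∀ s, b s ∈ Avail δ (fun j => a j * b j) {j | j < s ∧ lev j ≤ lev s})
    (hR : ∀ s ∉ R, a s ∈ Avail δ (fun j => a j * b j) {j | j < s ∧ lev j < lev s})
    (F : MvPolynomial (Fin N) (RatFunc k₀))
    (hF : F ∈ Avail δ (fun j => a j * b j) Set.univ)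
    (hlim : ∀ μ, (coeff μ F).denom.eval 0 ≠ 0 ∧
      RatFunc.eval (RingHom.id k₀) 0 (coeff μ F) = coeff μ f) :
    (d : ℝ) ≤ 1 + 12 * δ * (6 : ℝ) ^ (R.card / N : ℝ) *
      ∏ i ∈ Finset.range t, (6 + 5 * (cnt lev R (i + 1) : ℝ) / N) := by
  classical
  have hNr : (16 : ℝ) ≤ N := by exact_mod_cast hN
  have hN0 : (0 : ℝ) < N := by linarith
  have hδr : (1 : ℝ) ≤ δ := by exact_mod_cast hδ
  have hrr : (0 : ℝ) ≤ R.card := by positivity
  set P := ∏ i ∈ Finset.range t, (6 + 5 * (cnt lev R (i + 1) : ℝ) / N) with hP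
  have hP1 : 1 + ∑ i ∈ Finset.range t, 5 * (cnt lev R (i + 1) : ℝ) / N ≤ P :=
    one_add_sum_le _ _ (fun i => by positivity)
  have hPone : 1 ≤ P := by
    have : 0 ≤ ∑ i ∈ Finset.range t, 5 * (cnt lev R (i + 1) : ℝ) / N :=
      Finset.sum_nonneg fun i _ => by positivity
    linarith
  have hsix : (1 : ℝ) + R.card / N ≤ (6 : ℝ) ^ (R.card / N : ℝ) := by
    have h1 : (0 : ℝ) ≤ R.card / N := by positivity
    have h2 : (1 : ℝ) ≤ Real.log 6 := by
      rw [Real.le_log_iff_exp_le (by norm_num)]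
      have := Real.exp_one_lt_d9
      linarith
    rw [Real.rpow_def_of_pos (by norm_num)]
    have h3 := Real.add_one_le_exp (Real.log 6 * (R.card / N : ℝ))
    nlinarith
  have hsix1 : (1 : ℝ) ≤ (6 : ℝ) ^ (R.card / N : ℝ) := by
    have h1 : (0 : ℝ) ≤ R.card / N := by positivity
    linarith
  rcases Nat.lt_or_ge d 2 with hd1 | hd
  · have : (d : ℝ) ≤ 1 := by exact_mod_cast (by omega : d ≤ 1)
    have : 0 ≤ 12 * δ * (6 : ℝ) ^ (R.card / N : ℝ) * P := by positivity
    linarith
  have hdN : (N : ℝ) * d ≤ 2 ^ N := by exact_mod_cast hNd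
  have hcount : (n : ℝ) = R.card + ∑ i ∈ Finset.range t, (cnt lev R (i + 1) : ℝ) := by
    have h1 := sum_cnt lev R hlev hlev1 (fun _ => 1)
    simp only [mul_one] at h1
    rw [← h1]
    simp only [Finset.sum_const, nsmul_eq_mul, mul_one]
    have h2 : R.card + (Finset.univ.filter (· ∉ R)).card = n := by
      have := Finset.card_filter_add_card_filter_not (s := (Finset.univ : Finset (Fin n)))
        (fun s => s ∈ R)
      rw [Finset.card_univ, Fintype.card_fin] at this
      rw [Finset.filter_mem_eq_inter, Finset.univ_inter] at this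
      exact this
    exact_mod_cast h2.symm
  rcases Nat.lt_or_ge (2 ^ N) n with hbig | hnm
  · -- many products
    have hbr : (2 : ℝ) ^ N ≤ n := by exact_mod_cast hbig.le
    rcases le_or_gt ((2 : ℝ) ^ N / 2) (R.card : ℝ) with hc | hc
    · have h1 : (d : ℝ) / 2 ≤ (R.card : ℝ) / N := by
        rw [div_le_div_iff₀ (by norm_num) hN0]
        linarith
      have h2 : (d : ℝ) / 2 ≤ (6 : ℝ) ^ (R.card / N : ℝ) := by linarith
      calc (d : ℝ) = 2 * 1 * (d / 2) * 1 := by ring
        _ ≤ 12 * δ * (6 : ℝ) ^ (R.card / N : ℝ) * P := by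
            gcongr
            norm_num
        _ ≤ _ := by linarith
    · have h1 : (d : ℝ) / 2 ≤ P := by
        refine le_trans ?_ hP1
        have h2 : ∑ i ∈ Finset.range t, 5 * (cnt lev R (i + 1) : ℝ) / N =
            5 / N * ∑ i ∈ Finset.range t, (cnt lev R (i + 1) : ℝ) := by
          rw [Finset.mul_sum]
          apply Finset.sum_congr rfl
          intro i _
          ring
        rw [h2]
        have h3 : (2 : ℝ) ^ N / 2 ≤ ∑ i ∈ Finset.range t, (cnt lev R (i + 1) : ℝ) := by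
          linarith
        have h4 : (d : ℝ) / 2 ≤ 5 / N * ∑ i ∈ Finset.range t, (cnt lev R (i + 1) : ℝ) := by
          calc (d : ℝ) / 2 ≤ 5 / N * (2 ^ N / 2) := by
                rw [div_mul_eq_mul_div, div_le_div_iff₀ (by norm_num) hN0]
                have : (0 : ℝ) ≤ 2 ^ N := by positivity
                linarith
            _ ≤ _ := by gcongr
        linarith
      calc (d : ℝ) = 2 * 1 * 1 * (d / 2) := by ring
        _ ≤ 12 * δ * (6 : ℝ) ^ (R.card / N : ℝ) * P := by
            gcongr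
            norm_num
        _ ≤ _ := by linarith
  -- the weights
  set ρ : ℕ → ℕ := fun i => 2 + ⌊3 / 2 * (cnt lev R (i + 1) : ℝ) / N⌋₊ with hρ
  set w : ℕ → ℕ := fun i => δ * ∏ l ∈ Finset.range i, ρ l with hw
  have hwsucc : ∀ i, w (i + 1) = w i * ρ i := by
    intro i
    rw [hw]
    simp only
    rw [Finset.prod_range_succ]
    ring
  have hρ2 : ∀ i, 2 ≤ ρ i := fun i => Nat.le_add_right _ _
  have hwpos : ∀ i, 1 ≤ w i := by
    intro i
    apply Nat.mul_pos hδ
    exact Finset.prod_pos fun l _ => by have := hρ2 l; omega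
  have hw2 : ∀ i, 2 * w i ≤ w (i + 1) := by
    intro i
    rw [hwsucc, mul_comm]
    exact Nat.mul_le_mul_left _ (hρ2 i)
  have h0 := level_smooth k₀ N d (by omega) hd f hf hsm δ t hδ w (by rw [hw]; simp) hw2 lev R
    hlev hlev1 a b ha hb hR F hF hlim
  have hk0 : (0 : ℝ) < ((d - 1 : ℕ) : ℝ) := by
    have : 0 < d - 1 := by omega
    exact_mod_cast this
  have hw0 : (0 : ℝ) < ((4 * w t : ℕ) : ℝ) := by
    have : 0 < 4 * w t := by have := hwpos t; omega
    exact_mod_cast this
  -- the logarithmic form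
  have hprodpos : ∀ s : Fin n, (0 : ℝ) <
      (if s ∈ R then 6 else Real.exp (3 / 2 * (w (lev s - 1) / w (lev s)))) := by
    intro s
    split_ifs <;> positivity
  have hppos : (0 : ℝ) < ∏ s : Fin n,
      (if s ∈ R then 6 else Real.exp (3 / 2 * (w (lev s - 1) / w (lev s)))) :=
    Finset.prod_pos fun s _ => hprodpos s
  have hlogprod : Real.log (∏ s : Fin n,
      (if s ∈ R then 6 else Real.exp (3 / 2 * (w (lev s - 1) / w (lev s))))) =
      Real.log 6 * R.card + 3 / 2 * ∑ i ∈ Finset.range t, (cnt lev R (i + 1) : ℝ) / ρ i := by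
    rw [Real.log_prod (fun s _ => (hprodpos s).ne')]
    have h1 : ∀ s : Fin n, Real.log
        (if s ∈ R then 6 else Real.exp (3 / 2 * (w (lev s - 1) / w (lev s)))) =
        (if s ∈ R then Real.log 6 else 0) + (if s ∉ R then
          3 / 2 * (1 / (ρ (lev s - 1) : ℝ)) else 0) := by
      intro s
      by_cases hs : s ∈ R
      · rw [if_pos hs, if_pos hs, if_neg (not_not.mpr hs), add_zero]
      · rw [if_neg hs, if_neg hs, if_pos hs, zero_add, Real.log_exp]
        congr 1
        have h2 := hlev1 s hs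
        have h3 : w (lev s) = w (lev s - 1) * ρ (lev s - 1) := by
          rw [← hwsucc]
          congr 1
          omega
        rw [h3]
        have h4 : (0 : ℝ) < w (lev s - 1) := by exact_mod_cast hwpos _
        have h5 : (0 : ℝ) < ρ (lev s - 1) := by
          have := hρ2 (lev s - 1)
          exact_mod_cast (by omega : 0 < ρ (lev s - 1))
        push_cast
        field_simp
    rw [Finset.sum_congr rfl (fun s _ => h1 s), Finset.sum_add_distrib, ← Finset.sum_filter,
      ← Finset.sum_filter, sum_cnt lev R hlev hlev1 (fun i => 3 / 2 * (1 / (ρ i : ℝ))),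
      Finset.sum_const, nsmul_eq_mul, Finset.mul_sum, Finset.filter_mem_eq_inter,
      Finset.univ_inter]
    have h3 : ∑ i ∈ Finset.range t, (cnt lev R (i + 1) : ℝ) * (3 / 2 * (1 / (ρ i : ℝ))) =
        ∑ i ∈ Finset.range t, 3 / 2 * ((cnt lev R (i + 1) : ℝ) / ρ i) := by
      apply Finset.sum_congr rfl
      intro i _
      ring
    rw [h3]
    ring
  set SS := ∑ i ∈ Finset.range t, (cnt lev R (i + 1) : ℝ) / ρ i with hSS
  have g6 : 3 / 2 * SS ≤ t * (N : ℝ) := by
    rw [hSS, Finset.mul_sum]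
    calc ∑ i ∈ Finset.range t, 3 / 2 * ((cnt lev R (i + 1) : ℝ) / ρ i)
        ≤ ∑ i ∈ Finset.range t, (N : ℝ) := by
          apply Finset.sum_le_sum
          intro i _
          have h5 : (0 : ℝ) < ρ i := by
            have := hρ2 i
            exact_mod_cast (by omega : 0 < ρ i)
          have h6 : 3 / 2 * (cnt lev R (i + 1) : ℝ) / N ≤ ρ i := by
            have := (Nat.lt_floor_add_one (3 / 2 * (cnt lev R (i + 1) : ℝ) / N)).le
            rw [hρ]
            push_cast
            linarith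
          rw [div_le_iff₀ hN0] at h6
          rw [mul_div_assoc', div_le_iff₀ h5]
          linarith
      _ = t * (N : ℝ) := by rw [Finset.sum_const, Finset.card_range, nsmul_eq_mul]
  have hsmall : Real.exp 2 * ((2 * n : ℕ) + 1) * ((N : ℝ) + 1) ≤ 3 ^ N := by
    have h1 : Real.exp 2 ≤ 8 := by
      have h2 : Real.exp 2 = Real.exp 1 * Real.exp 1 := by
        rw [← Real.exp_add]; norm_num
      have h3 := Real.exp_one_lt_d9
      have h4 := Real.exp_pos 1
      rw [h2]
      nlinarith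
    have h2 : ((2 * n : ℕ) : ℝ) ≤ 2 * 2 ^ N := by
      have : 2 * n ≤ 2 * 2 ^ N := by omega
      exact_mod_cast this
    calc Real.exp 2 * ((2 * n : ℕ) + 1) * ((N : ℝ) + 1)
        ≤ 8 * (2 * 2 ^ N + 1) * ((N : ℝ) + 1) := by gcongr
      _ ≤ 3 ^ N := three_pow_ge N hN
  -- take the `N`-th root
  have h1 : ((d - 1 : ℕ) : ℝ) ^ N ≤ (12 * w t * (6 : ℝ) ^ (R.card / N : ℝ) * Real.exp t) ^ N := by
    have h2 : (∏ s : Fin n,
        (if s ∈ R then 6 else Real.exp (3 / 2 * ((w (lev s - 1) : ℝ) / w (lev s))))) ≤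
        ((6 : ℝ) ^ (R.card / N : ℝ) * Real.exp t) ^ N := by
      rw [← Real.exp_log hppos, hlogprod, mul_pow, ← Real.rpow_natCast ((6 : ℝ) ^ _),
        ← Real.rpow_mul (by norm_num), div_mul_cancel₀ _ hN0.ne', ← Real.exp_nat_mul,
        Real.exp_add, Real.rpow_def_of_pos (by norm_num)]
      apply mul_le_mul_of_nonneg_left _ (Real.exp_pos _).le
      apply Real.exp_le_exp.mpr
      linarith
    calc ((d - 1 : ℕ) : ℝ) ^ N ≤ _ := h0
      _ ≤ ((4 * w t : ℕ) : ℝ) ^ N * ((6 : ℝ) ^ (R.card / N : ℝ) * Real.exp t) ^ N * 3 ^ N := by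
          gcongr
      _ = _ := by
          push_cast
          rw [← mul_pow, ← mul_pow]
          congr 1
          ring
  have h2 : ((d - 1 : ℕ) : ℝ) ≤ 12 * w t * (6 : ℝ) ^ (R.card / N : ℝ) * Real.exp t :=
    le_of_pow_le_pow_left₀ (by omega) (by positivity) h1
  have g9 : (w t : ℝ) * Real.exp t ≤ δ * P := by
    have h2 : (w t : ℝ) = δ * ∏ i ∈ Finset.range t, (ρ i : ℝ) := by
      rw [hw]
      push_cast
      rfl
    have h3 : Real.exp t = ∏ i ∈ Finset.range t, Real.exp 1 := by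
      rw [Finset.prod_const, Finset.card_range, ← Real.exp_nat_mul, mul_one]
    rw [h2, h3, mul_assoc, ← Finset.prod_mul_distrib, hP]
    apply mul_le_mul_of_nonneg_left _ (by positivity)
    apply Finset.prod_le_prod
    · intro i _
      positivity
    · intro i _
      have h4 := Nat.floor_le (show (0 : ℝ) ≤ 3 / 2 * (cnt lev R (i + 1) : ℝ) / N by positivity)
      have h5 := Real.exp_one_lt_d9
      have h6 : (ρ i : ℝ) ≤ 2 + 3 / 2 * (cnt lev R (i + 1) : ℝ) / N := by
        rw [hρ]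
        push_cast
        linarith
      have h7 : (0 : ℝ) ≤ (cnt lev R (i + 1) : ℝ) / N := by positivity
      calc (ρ i : ℝ) * Real.exp 1 ≤ (2 + 3 / 2 * (cnt lev R (i + 1) : ℝ) / N) * 2.7182818286 := by
            gcongr
        _ ≤ 6 + 5 * (cnt lev R (i + 1) : ℝ) / N := by
            have e : 3 / 2 * (cnt lev R (i + 1) : ℝ) / N =
              3 / 2 * ((cnt lev R (i + 1) : ℝ) / N) := by ring
            have e' : 5 * (cnt lev R (i + 1) : ℝ) / N =
              5 * ((cnt lev R (i + 1) : ℝ) / N) := by ring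
            rw [e, e']
            nlinarith
  have hcast : ((d - 1 : ℕ) : ℝ) = (d : ℝ) - 1 := by
    rw [Nat.cast_sub (by omega)]
    norm_num
  rw [hcast] at h2
  have h3 : 12 * w t * (6 : ℝ) ^ (R.card / N : ℝ) * Real.exp t ≤
      12 * δ * (6 : ℝ) ^ (R.card / N : ℝ) * P := by
    calc 12 * w t * (6 : ℝ) ^ (R.card / N : ℝ) * Real.exp t =
        12 * (6 : ℝ) ^ (R.card / N : ℝ) * (w t * Real.exp t) := by ring
      _ ≤ 12 * (6 : ℝ) ^ (R.card / N : ℝ) * (δ * P) := by gcongr
      _ = _ := by ring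
  linarith

end Pool.Agent.W944.Wt
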