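import Pool.Agent.W944.V2Prod
import Pool.Agent.W944.WtSmooth

/-! # Computations with real weights: forms without singularities -/

set_option autoImplicit false
set_option linter.unusedSectionVars false
set_option linter.unusedVariables false

open Module MvPolynomial

namespace Pool.Agent.W944.V2

open Pool.Agent.W944.Wt
open Pool.Agent.W944.Cx (lift_poly)
open Pool.Agent.H632R2.Border (O0 φ0 ψ0 φψ rmap rmap_mem rmap_eval totalDegree_map_le
  map_aeval_comm)

/-- **The inequality for forms whose partial derivatives have no common zero.** -/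
theorem gsmooth (k₀ : Type*) [Field k₀] (N d : ℕ) (hN : 0 < N) (hd : 2 ≤ d)
    (f : MvPolynomial (Fin N) k₀) (hf : f.IsHomogeneous d)
    (hsm : ∀ x : Fin N → AlgebraicClosure k₀, (∀ i, aeval x (pderiv i f) = 0) → x = 0)
    {n R : ℕ}
    (C₀ W : Fin n → ℝ) (A E : Fin R → ℝ) (Ω : ℝ)
    (z : Fin n → MvPolynomial (Fin N) (RatFunc k₀))
    (y q : Fin R → MvPolynomial (Fin N) (RatFunc k₀))
    (c : Fin R → Fin n → RatFunc k₀) (gm : Fin n → RatFunc k₀)
    (H : Fin n → MvPolynomial ((Fin N) ⊕ Fin R) (RatFunc k₀))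
    (κ : Fin R → ℕ) (hκ : ∀ j, κ j ≤ n) (hcκ : ∀ j (s : Fin n), c j s ≠ 0 → s.1 < κ j)
    (hHκ : ∀ (s : Fin n) (j : Fin R), Sum.inr j ∈ (H s).vars → κ j ≤ s.1)
    (hz : ∀ s, z s = aeval (Sum.elim X y) (H s)) (hy : ∀ j, y j = q j + ∑ s, c j s • z s)
    (q0 : MvPolynomial (Fin N) (RatFunc k₀))
    (hq : ∀ j, ((q j).totalDegree : ℝ) ≤ A j) (hc : ∀ j s, c j s ≠ 0 → C₀ s ≤ A j)
    (hC0 : ∀ s, 0 < C₀ s) (hA : ∀ j, A j ≤ Ω) (hC : ∀ s, C₀ s ≤ Ω) (hΩ : 1 ≤ Ω)
    (hW0 : ∀ s, 0 ≤ W s) (hE0 : ∀ j, 0 ≤ E j)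
    (hH : ∀ s, ∀ μ ∈ (H s).support,
      ∑ v, (μ (Sum.inl v) : ℝ) + ∑ j, A j * μ (Sum.inr j) ≤ W s)
    (hE : ∀ s j, Sum.inr j ∈ (H s).vars → W s ≤ C₀ s + E j)
    (hX : ∀ s v, Sum.inl v ∈ (H s).vars → W s ≤ C₀ s + Ω)
    (hq0 : (q0.totalDegree : ℝ) ≤ 3 * Ω)
    (F : MvPolynomial (Fin N) (RatFunc k₀)) (hF : F = q0 + ∑ s, gm s • z s)
    (hlim : ∀ μ, (coeff μ F).denom.eval 0 ≠ 0 ∧
      RatFunc.eval (RingHom.id k₀) 0 (coeff μ F) = coeff μ f) :
    (N : ℝ) * Real.log (((d - 1 : ℕ) : ℝ) / (3 * Ω)) ≤
      cost C₀ W E Ω + (1 + Real.log (N + 1)) := by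
  classical
  obtain ⟨G, hG1, hG2⟩ := lift_poly F f hlim
  set f' : MvPolynomial (Fin N) (AlgebraicClosure k₀) :=
    map (algebraMap k₀ (AlgebraicClosure k₀)) f with hf'
  have hf'h : f'.IsHomogeneous d := hf.map _
  have hyh : ∀ v, (pderiv v f').IsHomogeneous (d - 1) := by
    intro v
    have := hf'h.pderiv (i := v)
    exact this
  set r := rmap (algebraMap k₀ (AlgebraicClosure k₀)) with hr
  have hrinj : Function.Injective r := r.injective
  have hne : ∀ c : RatFunc k₀, r c ≠ 0 → c ≠ 0 := by
    intro c hc h0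
    exact hc (by rw [h0, map_zero])
  have hvars : ∀ s v, pderiv v (map r (H s)) ≠ 0 → v ∈ (H s).vars := by
    intro s v h
    by_contra hcon
    apply h
    rw [pderiv_map, pderiv_eq_zero_of_notMem_vars hcon, map_zero]
  have h := rborder (φψ (AlgebraicClosure k₀)) (fun v : Fin N => X v)
    (fun v => by rw [totalDegree_X])
    f' (fun v => pderiv v f') (d - 1) (by omega) hyh
    (fun x hx => by
      apply hsm x
      intro i
      have h1 := hx i
      rw [hf', pderiv_map, eval_map] at h1
      rw [aeval_def]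
      exact h1)
    (fun v => ⟨1, v, by rw [C_1, one_mul, aeval_X_left, AlgHom.id_apply]⟩)
    (by rw [Fintype.card_fin]; exact hN) C₀ W A E Ω
    (fun s => map r (z s)) (fun j => map r (y j)) (fun j => map r (q j))
    (fun j s => r (c j s)) (fun s => r (gm s)) (fun s => map r (H s)) κ hκ
    (fun j s h0 => hcκ j s (hne _ h0))
    (fun s => by
      rw [mem_supported]
      intro v hv
      have hv' : v ∈ (H s).vars := by
        rw [Finset.mem_coe, vars_map_of_injective _ hrinj] at hv
        exact hv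
      rintro j rfl
      exact hHκ s j hv')
    (fun s => by
      conv_lhs => rw [hz s]
      rw [map_aeval_comm]
      congr 2
      funext v
      rcases v with v | j
      · exact map_X _ _
      · rfl)
    (fun j => by
      conv_lhs => rw [hy j]
      rw [map_add, map_sum]
      congr 1
      apply Finset.sum_congr rfl
      intro s _
      rw [smul_eq_C_mul, map_mul, map_C, smul_eq_C_mul])
    (map r q0)
    (fun j => le_trans (by exact_mod_cast totalDegree_map_le _ _) (hq j))
    (fun j s h0 => hc j s (hne _ h0)) hC0 hA hC hΩ hW0 hE0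
    (fun s μ hμ => hH s μ (by
      rw [support_map_of_injective _ hrinj] at hμ
      exact hμ))
    (fun s j h0 => hE s j (hvars s _ h0))
    (fun s v h0 => hX s v (hvars s _ h0))
    (le_trans (by exact_mod_cast totalDegree_map_le _ _) hq0) G (by
      rw [hG1, hF, map_add, map_sum]
      congr 1
      apply Finset.sum_congr rfl
      intro s _
      rw [smul_eq_C_mul, map_mul, map_C, smul_eq_C_mul]) hG2
  rw [Fintype.card_fin] at h
  exact log_form C₀ W A E Ω (d - 1) N (by omega) hC0 hA hΩ hE0 h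

/-- **The inequality for forms without singularities**, for products. -/
theorem psmooth (k₀ : Type*) [Field k₀] (N d : ℕ) (hN : 0 < N) (hd : 2 ≤ d)
    (f : MvPolynomial (Fin N) k₀) (hf : f.IsHomogeneous d)
    (hsm : ∀ x : Fin N → AlgebraicClosure k₀, (∀ i, aeval x (pderiv i f) = 0) → x = 0)
    {n : ℕ}
    (A B C₀ : Fin n → ℝ) (Ω : ℝ)
    (a b la lb : Fin n → MvPolynomial (Fin N) (RatFunc k₀))
    (ca cb : Fin n → Fin n → RatFunc k₀) (gm : Fin n → RatFunc k₀)
    (ha : ∀ t, a t = la t + ∑ j ∈ Finset.Iio t, ca t j • (a j * b j))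
    (hb : ∀ t, b t = lb t + ∑ j ∈ Finset.Iio t, cb t j • (a j * b j))
    (hla : ∀ t, ((la t).totalDegree : ℝ) ≤ A t) (hlb : ∀ t, ((lb t).totalDegree : ℝ) ≤ B t)
    (hca : ∀ t, ∀ j < t, ca t j ≠ 0 → C₀ j ≤ A t) (hcb : ∀ t, ∀ j < t, cb t j ≠ 0 → C₀ j ≤ B t)
    (hC0 : ∀ s, 0 < C₀ s) (hA : ∀ s, A s ≤ Ω) (hB : ∀ s, B s ≤ Ω) (hC : ∀ s, C₀ s ≤ Ω)
    (hΩ : 1 ≤ Ω)
    (q0 : MvPolynomial (Fin N) (RatFunc k₀)) (hq0 : (q0.totalDegree : ℝ) ≤ 3 * Ω)
    (F : MvPolynomial (Fin N) (RatFunc k₀)) (hF : F = q0 + ∑ s, gm s • (a s * b s))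
    (hlim : ∀ μ, (coeff μ F).denom.eval 0 ≠ 0 ∧
      RatFunc.eval (RingHom.id k₀) 0 (coeff μ F) = coeff μ f) :
    (N : ℝ) * Real.log (((d - 1 : ℕ) : ℝ) / (3 * Ω)) ≤
      3 * ∑ s, Real.log (max 1 ((A s + B s) / C₀ s)) + (1 + Real.log (N + 1)) := by
  classical
  have hA0 : ∀ s, 0 ≤ A s := fun s => le_trans (by positivity) (hla s)
  have hB0 : ∀ s, 0 ≤ B s := fun s => le_trans (by positivity) (hlb s)
  have hΩ0 : 0 < Ω := by linarith
  set y : Fin (n * 2) → MvPolynomial (Fin N) (RatFunc k₀) := ch a b with hy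
  set H : Fin n → MvPolynomial ((Fin N) ⊕ Fin (n * 2)) (RatFunc k₀) :=
    fun s => X (Sum.inr (ix s 0)) * X (Sum.inr (ix s 1)) with hHdef
  set c : Fin (n * 2) → Fin n → RatFunc k₀ := ch (fun t j => if j < t then ca t j else 0)
    (fun t j => if j < t then cb t j else 0) with hcdef
  set κ : Fin (n * 2) → ℕ := ch (fun t : Fin n => t.1) (fun t : Fin n => t.1) with hκdef
  set E : Fin n → ℝ := fun s => max 0 (A s + B s - C₀ s) with hEdef
  have hE0 : ∀ s, 0 ≤ E s := fun s => le_max_left _ _
  have hsupp : ∀ s, ∀ μ ∈ (H s).support,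
      μ = Finsupp.single (Sum.inr (ix s 0)) 1 + Finsupp.single (Sum.inr (ix s 1)) 1 := by
    intro s μ hμ
    have h1 : H s = monomial (Finsupp.single (Sum.inr (ix s 0)) 1 +
        Finsupp.single (Sum.inr (ix s 1)) 1) 1 := by
      rw [hHdef]
      simp only [X]
      rw [monomial_mul, one_mul]
    rw [h1] at hμ
    exact Finset.mem_singleton.mp (support_monomial_subset hμ)
  have hvars : ∀ s v, v ∈ (H s).vars → v = Sum.inr (ix s 0) ∨ v = Sum.inr (ix s 1) := by
    intro s v hv
    have h1 := vars_mul _ _ hv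
    rw [vars_X, vars_X, Finset.mem_union, Finset.mem_singleton, Finset.mem_singleton] at h1
    exact h1
  have hne01 : ∀ s : Fin n, ix s 0 ≠ ix s 1 := by
    intro s h
    have := finProdFinEquiv.injective h
    have h2 : (0 : Fin 2) = 1 := congrArg Prod.snd this
    exact absurd h2 (by decide)
  have h := gsmooth k₀ N d hN hd f hf hsm C₀ (fun s => A s + B s) (ch A B) (ch E E) Ω
    (fun s => a s * b s) y
    (ch la lb) c gm H κ
    (ix_cases (fun s => by rw [hκdef, ch_zero]; exact s.2.le)
      (fun s => by rw [hκdef, ch_one]; exact s.2.le))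
    (ix_cases (fun t j h0 => by
        rw [hcdef, ch_zero] at h0
        rw [hκdef, ch_zero]
        by_contra hcon
        exact h0 (if_neg (fun h1 => hcon (Fin.lt_def.mp h1))))
      (fun t j h0 => by
        rw [hcdef, ch_one] at h0
        rw [hκdef, ch_one]
        by_contra hcon
        exact h0 (if_neg (fun h1 => hcon (Fin.lt_def.mp h1)))))
    (fun s j hj => by
      rcases hvars s _ hj with h1 | h1
      · rw [Sum.inr.inj h1, hκdef, ch_zero]
      · rw [Sum.inr.inj h1, hκdef, ch_one])
    (fun s => by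
      rw [hHdef]
      simp only
      rw [map_mul, aeval_X, aeval_X, Sum.elim_inr, Sum.elim_inr, hy, ch_zero, ch_one])
    (ix_cases (fun t => by
        rw [hy, hcdef]
        simp only [ch_zero]
        conv_lhs => rw [ha t]
        congr 1
        rw [← Finset.sum_subset (Finset.subset_univ (Finset.Iio t))]
        · apply Finset.sum_congr rfl
          intro j hj
          rw [if_pos (Finset.mem_Iio.mp hj)]
        · intro j _ hj
          rw [if_neg (fun h1 => hj (Finset.mem_Iio.mpr h1)), zero_smul])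
      (fun t => by
        rw [hy, hcdef]
        simp only [ch_one]
        conv_lhs => rw [hb t]
        congr 1
        rw [← Finset.sum_subset (Finset.subset_univ (Finset.Iio t))]
        · apply Finset.sum_congr rfl
          intro j hj
          rw [if_pos (Finset.mem_Iio.mp hj)]
        · intro j _ hj
          rw [if_neg (fun h1 => hj (Finset.mem_Iio.mpr h1)), zero_smul]))
    q0
    (ix_cases (fun t => by rw [ch_zero, ch_zero]; exact hla t)
      (fun t => by rw [ch_one, ch_one]; exact hlb t))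
    (ix_cases (fun t j h0 => by
        rw [hcdef, ch_zero] at h0
        rw [ch_zero]
        by_cases h1 : j < t
        · rw [if_pos h1] at h0
          exact hca t j h1 h0
        · exact absurd (if_neg h1) h0)
      (fun t j h0 => by
        rw [hcdef, ch_one] at h0
        rw [ch_one]
        by_cases h1 : j < t
        · rw [if_pos h1] at h0
          exact hcb t j h1 h0
        · exact absurd (if_neg h1) h0))
    hC0
    (ix_cases (fun t => by rw [ch_zero]; exact hA t) (fun t => by rw [ch_one]; exact hB t))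
    hC hΩ (fun s => add_nonneg (hA0 s) (hB0 s))
    (ix_cases (fun t => by rw [ch_zero]; exact hE0 t) (fun t => by rw [ch_one]; exact hE0 t))
    (fun s μ hμ => by
      rw [hsupp s μ hμ, sum_ix]
      have e1 : ∑ v : Fin N, (((Finsupp.single (Sum.inr (ix s 0)) 1 +
          Finsupp.single (Sum.inr (ix s 1)) 1 : ((Fin N) ⊕ Fin (n * 2)) →₀ ℕ)
          (Sum.inl v) : ℕ) : ℝ) = 0 := by
        apply Finset.sum_eq_zero
        intro v _
        rw [Finsupp.add_apply, Finsupp.single_eq_of_ne (by simp), Finsupp.single_eq_of_ne (by simp)]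
        simp
      rw [e1, zero_add, Finset.sum_eq_single s]
      · rw [ch_zero, ch_one, Finsupp.add_apply, Finsupp.add_apply, Finsupp.single_eq_same,
          Finsupp.single_eq_same, Finsupp.single_eq_of_ne, Finsupp.single_eq_of_ne]
        · simp
        · intro h1
          exact hne01 s (Sum.inr.inj h1).symm
        · intro h1
          exact hne01 s (Sum.inr.inj h1)
      · intro t _ hts
        have h2 : ∀ i i', (Sum.inr (ix t i) : (Fin N) ⊕ Fin (n * 2)) ≠
            Sum.inr (ix s i') := by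
          intro i i' h1
          have h3 := finProdFinEquiv.injective (Sum.inr.inj h1)
          exact hts (congrArg Prod.fst h3)
        rw [Finsupp.add_apply, Finsupp.add_apply, Finsupp.single_eq_of_ne (h2 _ _),
          Finsupp.single_eq_of_ne (h2 _ _), Finsupp.single_eq_of_ne (h2 _ _),
          Finsupp.single_eq_of_ne (h2 _ _)]
        simp
      · intro h1
        exact absurd (Finset.mem_univ s) h1)
    (fun s j hj => by
      have h2 : A s + B s ≤ C₀ s + E s := by
        have := le_max_right 0 (A s + B s - C₀ s)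
        rw [hEdef]
        simp only
        linarith
      rcases hvars s _ hj with h1 | h1
      · rw [Sum.inr.inj h1, ch_zero]
        exact h2
      · rw [Sum.inr.inj h1, ch_one]
        exact h2)
    (fun s v hv => by
      rcases hvars s _ hv with h1 | h1
      · cases h1
      · cases h1)
    hq0 F hF hlim
  refine h.trans ?_
  have hcost : cost C₀ (fun s => A s + B s) (ch E E) Ω ≤
      3 * ∑ s, Real.log (max 1 ((A s + B s) / C₀ s)) := by
    unfold cost
    rw [sum_ix]
    have h1 : ∀ s, Real.log (1 + ch E E (ix s 0) / Ω) + Real.log (1 + ch E E (ix s 1) / Ω) ≤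
        2 * Real.log (max 1 ((A s + B s) / C₀ s)) := by
      intro s
      rw [ch_zero, ch_one]
      have h2 : Real.log (1 + E s / Ω) ≤ Real.log (max 1 ((A s + B s) / C₀ s)) := by
        have h3 : (0 : ℝ) ≤ E s / Ω := div_nonneg (hE0 s) hΩ0.le
        apply Real.log_le_log (by linarith)
        have h4 : E s / Ω ≤ E s / C₀ s := div_le_div_of_nonneg_left (hE0 s) (hC0 s) (hC s)
        have h5 : 1 + E s / C₀ s = max 1 ((A s + B s) / C₀ s) := by
          rw [hEdef]
          simp only
          rcases le_total (A s + B s - C₀ s) 0 with h6 | h6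
          · rw [max_eq_left h6, zero_div, add_zero, max_eq_left]
            rw [div_le_one (hC0 s)]
            linarith
          · rw [max_eq_right h6, max_eq_right]
            · have := (hC0 s).ne'
              field_simp
              ring
            · rw [le_div_iff₀ (hC0 s)]
              linarith
        linarith
      linarith
    have h3 := Finset.sum_le_sum (s := Finset.univ) fun s _ => h1 s
    rw [← Finset.mul_sum] at h3
    linarith
  linarith

end Pool.Agent.W944.V2
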