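import Pool.Agent.W944.WtProg

/-! # Weighted degrees of compositions and derivatives -/

set_option autoImplicit false
set_option linter.unusedSectionVars false

open Module MvPolynomial

namespace Pool.Agent.W944.V2

open Pool.Agent.W944.Wt

variable {L : Type*} [Field L] {V : Type*} [Fintype V] {w : V → ℕ}

lemma pow_mem_wp {S : ℕ} {p : MvPolynomial V L} (hp : p ∈ wp L w S) (k : ℕ) :
    p ^ k ∈ wp L w (S * k) := by
  induction k with
  | zero =>
    rw [pow_zero]
    exact one_mem_wp _
  | succ k ih =>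
    rw [pow_succ, Nat.mul_succ]
    exact mul_mem_wp ih hp

lemma prod_mem_wp {τ : Type*} (s : Finset τ) (g : τ → MvPolynomial V L) (e : τ → ℕ)
    (hg : ∀ v ∈ s, g v ∈ wp L w (e v)) : ∏ v ∈ s, g v ∈ wp L w (∑ v ∈ s, e v) := by
  classical
  induction s using Finset.induction_on with
  | empty =>
    rw [Finset.prod_empty]
    exact one_mem_wp _
  | insert v s hv ih =>
    rw [Finset.prod_insert hv, Finset.sum_insert hv]
    exact mul_mem_wp (hg v (Finset.mem_insert_self _ _))
      (ih fun u hu => hg u (Finset.mem_insert_of_mem hu))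

/-- a composition -/
lemma aeval_mem_wp {τ : Type*} [Fintype τ] (ω : τ → ℕ) (g : τ → MvPolynomial V L)
    (hg : ∀ v, g v ∈ wp L w (ω v)) (H : MvPolynomial τ L) (W : ℕ) (hH : H ∈ wp L ω W) :
    aeval g H ∈ wp L w W := by
  rw [mem_wp] at hH
  rw [aeval_def, eval₂_eq']
  apply Submodule.sum_mem
  intro μ hμ
  rw [← Algebra.smul_def]
  apply Submodule.smul_mem
  refine wp_mono (hH μ hμ) ?_
  unfold wd
  exact prod_mem_wp _ _ _ fun v _ => pow_mem_wp (hg v) _

/-- a derivative -/
lemma pderiv_mem_wp {τ : Type*} [Fintype τ] {ω : τ → ℕ} (i : τ) (H : MvPolynomial τ L) (W : ℕ)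
    (hH : H ∈ wp L ω W) : pderiv i H ∈ wp L ω (W - ω i) := by
  classical
  rw [mem_wp] at hH
  rw [H.as_sum, map_sum]
  apply Submodule.sum_mem
  intro μ hμ
  rw [pderiv_monomial]
  by_cases h : μ i = 0
  · rw [h]
    simp
  · rw [mem_wp]
    intro m hm
    have h1 : m = μ - Finsupp.single i 1 := by
      have := support_monomial_subset hm
      exact Finset.mem_singleton.mp this
    rw [h1]
    have h3 : (μ - Finsupp.single i 1) + Finsupp.single i 1 = μ := by
      ext l
      by_cases hl : i = l
      · subst hl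
        simp only [Finsupp.coe_add, Pi.add_apply, Finsupp.coe_tsub, Pi.sub_apply,
          Finsupp.single_eq_same]
        omega
      · rw [Finsupp.coe_add, Pi.add_apply, Finsupp.coe_tsub, Pi.sub_apply,
          Finsupp.single_apply, if_neg hl]
        omega
    have h4 := congrArg (wd ω) h3
    rw [wd_add, wd_single, mul_one] at h4
    have h5 := hH μ hμ
    omega

/-- a derivative, with the case of a vanishing derivative -/
lemma pderiv_mem_wp' {τ : Type*} [Fintype τ] {ω : τ → ℕ} (i : τ) (H : MvPolynomial τ L) (W : ℕ)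
    (hH : H ∈ wp L ω W) (h0 : pderiv i H ≠ 0) : ω i ≤ W := by
  classical
  rw [mem_wp] at hH
  by_contra hlt
  push Not at hlt
  apply h0
  rw [H.as_sum, map_sum]
  apply Finset.sum_eq_zero
  intro μ hμ
  rw [pderiv_monomial]
  by_cases h : μ i = 0
  · rw [h]
    simp
  · exfalso
    have h3 : ω i * μ i ≤ wd ω μ := Finset.single_le_sum (f := fun v => ω v * μ v)
      (fun _ _ => Nat.zero_le _) (Finset.mem_univ i)
    have h4 : ω i * 1 ≤ ω i * μ i := Nat.mul_le_mul_left _ (by omega)
    have h5 := hH μ hμ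
    omega

lemma aeval_supported {τ V' : Type*} (g : τ → MvPolynomial V' L) (H : MvPolynomial τ L)
    (s : Set V') (t : Set τ) (hH : H ∈ supported L t) (hg : ∀ v ∈ t, g v ∈ supported L s) :
    aeval g H ∈ supported L s := by
  have h1 : (supported L t).map (aeval g) ≤ supported L s := by
    rw [supported, AlgHom.map_adjoin, Algebra.adjoin_le_iff]
    rintro _ ⟨_, ⟨v, hv, rfl⟩, rfl⟩
    change aeval g (X v) ∈ supported L s
    rw [aeval_X]
    exact hg v hv
  exact h1 ⟨H, hH, rfl⟩

lemma pderiv_supported {τ : Type*} (i : τ) (H : MvPolynomial τ L) (t : Set τ)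
    (hH : H ∈ supported L t) : pderiv i H ∈ supported L t := by
  classical
  rw [supported] at hH ⊢
  induction hH using Algebra.adjoin_induction with
  | mem x hx =>
    obtain ⟨v, hv, rfl⟩ := hx
    rw [pderiv_X]
    by_cases h : v = i
    · subst h
      rw [Pi.single_eq_same]
      exact Subalgebra.one_mem _
    · rw [Pi.single_eq_of_ne h]
      exact Subalgebra.zero_mem _
  | algebraMap r =>
    rw [MvPolynomial.algebraMap_eq, pderiv_C]
    exact Subalgebra.zero_mem _
  | add x y hx hy h1 h2 =>
    rw [map_add]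
    exact Subalgebra.add_mem _ h1 h2
  | mul x y hx hy h1 h2 =>
    rw [Derivation.leibniz, smul_eq_mul, smul_eq_mul]
    exact Subalgebra.add_mem _ (Subalgebra.mul_mem _ hx h2) (Subalgebra.mul_mem _ hy h1)

lemma pderiv_eq_zero_of_supported {τ : Type*} (i : τ) (H : MvPolynomial τ L) (t : Set τ)
    (hH : H ∈ supported L t) (hi : i ∉ t) : pderiv i H = 0 := by
  classical
  rw [supported] at hH
  induction hH using Algebra.adjoin_induction with
  | mem x hx =>
    obtain ⟨v, hv, rfl⟩ := hx
    rw [pderiv_X, Pi.single_eq_of_ne]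
    rintro rfl
    exact hi hv
  | algebraMap r =>
    rw [MvPolynomial.algebraMap_eq, pderiv_C]
  | add x y hx hy h1 h2 =>
    rw [map_add, h1, h2, add_zero]
  | mul x y hx hy h1 h2 =>
    rw [Derivation.leibniz, h1, h2, smul_zero, smul_zero, add_zero]

end Pool.Agent.W944.V2
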