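import Pool.Agent.W944.WtElim

/-! # Weighted elimination: the theorem -/

set_option autoImplicit false

open Module MvPolynomial

namespace Pool.Agent.W944.Wt

open Pool.Agent.W944.Cx (el el_X_self el_X_ne fix_supported X_ne_of_supported)

variable {L : Type*} [Field L] {V : Type*} [Fintype V] {w : V → ℕ}

lemma bern2 (y ω : ℝ) (hy : 0 ≤ y) (hω : 0 ≤ ω) (M : ℕ) :
    (y + ω) ^ (M + 1) ≤ y ^ (M + 1) + (M + 1) * ω * (y + ω) ^ M := by
  induction M with
  | zero => simp
  | succ M ih =>
    have h1 : y ^ (M + 1) ≤ (y + ω) ^ (M + 1) := pow_le_pow_left₀ hy (by linarith) _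
    calc (y + ω) ^ (M + 1 + 1) = (y + ω) ^ (M + 1) * (y + ω) := by ring
      _ ≤ (y ^ (M + 1) + (M + 1) * ω * (y + ω) ^ M) * (y + ω) := by gcongr
      _ = y ^ (M + 1 + 1) + ω * y ^ (M + 1) + (M + 1) * ω * (y + ω) ^ (M + 1) := by ring
      _ ≤ y ^ (M + 1 + 1) + ω * (y + ω) ^ (M + 1) + (M + 1) * ω * (y + ω) ^ (M + 1) := by gcongr
      _ = _ := by push_cast; ring

/-- the dimension after a partial elimination -/
noncomputable def dw {B : Type*} [CommRing B] [Algebra L B] (w : V → ℕ)
    (Φ : MvPolynomial V L →ₐ[L] B) (T : ℕ) : ℕ :=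
  finrank L ↥((wp L w T).map Φ.toLinearMap)

lemma dw_comp_le {B B' : Type*} [CommRing B] [Algebra L B] [CommRing B'] [Algebra L B']
    (hw : ∀ v, 0 < w v) (ψ : B →ₐ[L] B') (Φ : MvPolynomial V L →ₐ[L] B) (T : ℕ) :
    dw w (ψ.comp Φ) T ≤ dw w Φ T := by
  unfold dw
  have h1 : (wp L w T).map (ψ.comp Φ).toLinearMap =
      ((wp L w T).map Φ.toLinearMap).map ψ.toLinearMap := by
    rw [← Submodule.map_comp]
    rfl
  rw [h1]
  have : FiniteDimensional L ↥((wp L w T).map Φ.toLinearMap) :=
    Module.Finite.iff_fg.mpr ((wp_fg hw T).map _)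
  exact Submodule.finrank_map_le _ _

lemma dw_mono {B : Type*} [CommRing B] [Algebra L B] (hw : ∀ v, 0 < w v)
    (Φ : MvPolynomial V L →ₐ[L] B) {S T : ℕ} (h : S ≤ T) : dw w Φ S ≤ dw w Φ T := by
  unfold dw
  have : FiniteDimensional L ↥((wp L w T).map Φ.toLinearMap) :=
    Module.Finite.iff_fg.mpr ((wp_fg hw T).map _)
  exact Submodule.finrank_mono (Submodule.map_mono (wp_mono h))

lemma dw_step [DecidableEq V] (hw : ∀ v, 0 < w v) (ρ : V → ℕ) (p : V → MvPolynomial V L) (i : V)
    (Φ : MvPolynomial V L →ₐ[L] MvPolynomial V L) (hp : p i ∈ supported L {j | ρ i < ρ j})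
    (hΦ : ∀ j, ρ i ≤ ρ j → Φ (X j) = X j) (d : ℕ) (hmem : X i - p i ∈ wp L w d) (T : ℕ) :
    dw w ((el p i).comp Φ) (d + T) + dw w Φ T ≤ dw w Φ (d + T) := by
  have hfixp : Φ (p i) = p i := fix_supported Φ _ (fun j hj => hΦ j (le_of_lt hj)) hp
  have help : el p i (p i) = p i := by
    apply fix_supported _ _ _ hp
    intro j hj
    apply el_X_ne
    intro h
    rw [h] at hj
    exact lt_irrefl (ρ i) hj
  have hne : X i - p i ≠ 0 := X_ne_of_supported (s := {j | ρ i < ρ j}) (by simp) hp
  have hzero : el p i (X i - p i) = 0 := by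
    rw [map_sub, el_X_self, help, sub_self]
  have h6 : Φ (X i - p i) = X i - p i := by
    rw [map_sub, hΦ i le_rfl, hfixp]
  unfold dw
  have h1 : (wp L w (d + T)).map ((el p i).comp Φ).toLinearMap =
      ((wp L w (d + T)).map Φ.toLinearMap).map (el p i).toLinearMap := by
    rw [← Submodule.map_comp]
    rfl
  rw [h1]
  apply elim_step (el p i) _ _ ((wp_fg hw _).map _) (X i - p i) hne hzero
  rw [Submodule.mul_le]
  intro x hx y hy
  rw [Submodule.mem_span_singleton] at hx
  obtain ⟨c, rfl⟩ := hx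
  obtain ⟨z, hz, rfl⟩ := hy
  rw [smul_mul_assoc]
  apply Submodule.smul_mem
  refine ⟨(X i - p i) * z, mul_mem_wp hmem hz, ?_⟩
  change Φ ((X i - p i) * z) = (X i - p i) * Φ z
  rw [map_mul, h6]

/-- **Weighted elimination theorem.** -/
theorem welim [DecidableEq V] (hw : ∀ v, 0 < w v) (ρ : V → ℕ) (p : V → MvPolynomial V L)
    {B : Type*} [CommRing B] [Algebra L B] (ev : MvPolynomial V L →ₐ[L] B) (d : V → ℕ) (T₀ : ℕ)
    (S : Finset V) (hinj : Set.InjOn ρ S) (hd : ∀ i ∈ S, 0 < d i)
    (hp : ∀ i ∈ S, p i ∈ supported L {j | ρ i < ρ j})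
    (hmem : ∀ i ∈ S, X i - p i ∈ wp L w (d i))
    (hev : ∀ i ∈ S, ev (X i) = ev (p i)) :
    ∀ (T : ℕ) (Φ : MvPolynomial V L →ₐ[L] MvPolynomial V L),
      (∀ i ∈ S, ∀ j, ρ i ≤ ρ j → Φ (X j) = X j) → ev.comp Φ = ev →
      (T : ℝ) ^ S.card / (S.card.factorial * ∏ i ∈ S, (d i : ℝ)) * dw w ev T₀ ≤
        dw w Φ (T + T₀) := by
  classical
  induction S using Finset.induction_on_min_value ρ with
  | empty =>
    intro T Φ _ hΦ
    simp only [Finset.card_empty, pow_zero, Nat.factorial_zero, Nat.cast_one,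
      Finset.prod_empty, mul_one, div_one, one_mul]
    have h1 : dw w ev T₀ ≤ dw w Φ (T + T₀) := by
      calc dw w ev T₀ = dw w (ev.comp Φ) T₀ := by rw [hΦ]
        _ ≤ dw w Φ T₀ := dw_comp_le hw _ _ _
        _ ≤ _ := dw_mono hw _ (Nat.le_add_left _ _)
    exact_mod_cast h1
  | insert i S hi hmin ih =>
    have hii : i ∈ insert i S := Finset.mem_insert_self _ _
    have hmin' : ∀ j ∈ S, ρ i < ρ j := by
      intro j hj
      refine lt_of_le_of_ne (hmin j hj) ?_
      intro h
      exact hi (hinj hii (Finset.mem_insert_of_mem hj) h ▸ hj)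
    have ih' := ih (hinj.mono (by
        intro x hx
        exact Finset.mem_insert_of_mem hx)) (fun j hj => hd j (Finset.mem_insert_of_mem hj))
      (fun j hj => hp j (Finset.mem_insert_of_mem hj))
      (fun j hj => hmem j (Finset.mem_insert_of_mem hj))
      (fun j hj => hev j (Finset.mem_insert_of_mem hj))
    clear ih
    intro T
    induction T using Nat.strong_induction_on with
    | _ T ihT =>
      intro Φ hΦ hevΦ
      -- the next homomorphism
      have hnext1 : ∀ l ∈ S, ∀ j, ρ l ≤ ρ j → ((el p i).comp Φ) (X j) = X j := by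
        intro l hl j hj
        rw [AlgHom.comp_apply, hΦ l (Finset.mem_insert_of_mem hl) j hj]
        apply el_X_ne
        rintro rfl
        exact absurd (hmin' l hl) (not_lt.mpr hj)
      have hnext2 : ev.comp ((el p i).comp Φ) = ev := by
        have h2 : ev.comp (el p i) = ev := by
          apply algHom_ext
          intro j
          rw [AlgHom.comp_apply]
          by_cases hj : j = i
          · subst hj
            rw [el_X_self, hev j hii]
          · rw [el_X_ne p hj]
        rw [← AlgHom.comp_assoc, h2, hevΦ]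
      have h3 := ih' T _ hnext1 hnext2
      rw [Finset.card_insert_of_notMem hi, Finset.prod_insert hi]
      set M := S.card
      set P := ∏ x ∈ S, (d x : ℝ) with hP
      have hP0 : 0 < P := Finset.prod_pos fun x hx => by
        exact_mod_cast hd x (Finset.mem_insert_of_mem hx)
      have hdr : (0 : ℝ) < d i := by exact_mod_cast hd i hii
      have hfac : ((M + 1).factorial : ℝ) = (M + 1) * M.factorial := by
        rw [Nat.factorial_succ]; push_cast; ring
      have hfp : (0 : ℝ) < M.factorial := by positivity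
      have hE : (0 : ℝ) ≤ dw w ev T₀ := by positivity
      rcases lt_or_ge T (d i) with hT | hT
      · have h4 : (dw w ((el p i).comp Φ) (T + T₀) : ℝ) ≤ dw w Φ (T + T₀) := by
          exact_mod_cast dw_comp_le hw (el p i) Φ (T + T₀)
        refine le_trans ?_ (h3.trans h4)
        apply mul_le_mul_of_nonneg_right _ hE
        rw [div_le_div_iff₀ (by positivity) (by positivity), hfac]
        have hTd : (T : ℝ) ≤ (M + 1) * d i := by
          have a1 : (T : ℝ) ≤ d i := by exact_mod_cast hT.le
          have a2 : (0 : ℝ) ≤ M * d i := by positivity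
          linarith
        calc (T : ℝ) ^ (M + 1) * (M.factorial * P) = (T : ℝ) ^ M * (M.factorial * P) * T := by ring
          _ ≤ (T : ℝ) ^ M * (M.factorial * P) * ((M + 1) * d i) := by gcongr
          _ = _ := by ring
      · have hstep := dw_step hw ρ p i Φ (hp i hii) (hΦ i hii) (d i) (hmem i hii) (T - d i + T₀)
        have e0 : d i + (T - d i + T₀) = T + T₀ := by omega
        rw [e0] at hstep
        have hstep' : (dw w ((el p i).comp Φ) (T + T₀) : ℝ) + dw w Φ (T - d i + T₀) ≤
            dw w Φ (T + T₀) := by exact_mod_cast hstep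
        have h5 := ihT (T - d i) (by have := hd i hii; omega) Φ hΦ hevΦ
        rw [Finset.card_insert_of_notMem hi, Finset.prod_insert hi, Nat.cast_sub hT] at h5
        refine le_trans ?_ ((add_le_add h3 h5).trans hstep')
        rw [← add_mul]
        apply mul_le_mul_of_nonneg_right _ hE
        have hb := bern2 ((T : ℝ) - d i) (d i) (by
          have : (d i : ℝ) ≤ T := by exact_mod_cast hT
          linarith) hdr.le M
        have e1 : (T : ℝ) - d i + d i = T := by ring
        rw [e1] at hb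
        rw [hfac, ← hP, div_add_div _ _ (by positivity) (by positivity),
          div_le_div_iff₀ (by positivity) (by positivity)]
        calc (T : ℝ) ^ (M + 1) * (M.factorial * P * ((M + 1) * M.factorial * (d i * P)))
            ≤ (((T : ℝ) - d i) ^ (M + 1) + (M + 1) * d i * (T : ℝ) ^ M) *
              (M.factorial * P * ((M + 1) * M.factorial * (d i * P))) := by gcongr
          _ = _ := by ring

/-- the weighted elimination theorem with the upper bound for the dimension -/
theorem welim_bound [DecidableEq V] (hw : ∀ v, 0 < w v) (ρ : V → ℕ)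
    (p : V → MvPolynomial V L)
    {B : Type*} [CommRing B] [Algebra L B] (ev : MvPolynomial V L →ₐ[L] B) (d : V → ℕ)
    (S : Finset V) (hinj : Set.InjOn ρ S) (hd : ∀ i ∈ S, 0 < d i)
    (hp : ∀ i ∈ S, p i ∈ supported L {j | ρ i < ρ j})
    (hmem : ∀ i ∈ S, X i - p i ∈ wp L w (d i))
    (hev : ∀ i ∈ S, ev (X i) = ev (p i)) (T T₀ : ℕ) :
    (T : ℝ) ^ S.card / (S.card.factorial * ∏ i ∈ S, (d i : ℝ)) * dw w ev T₀ ≤
      ((T : ℝ) + T₀ + ∑ v, (w v : ℝ)) ^ (Fintype.card V) /
      ((Fintype.card V).factorial * ∏ v, (w v : ℝ)) := by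
  have h := welim hw ρ p ev d T₀ S hinj hd hp hmem hev T (AlgHom.id L _) (fun _ _ _ _ => rfl)
    (AlgHom.comp_id _)
  have h2 : dw w (AlgHom.id L (MvPolynomial V L)) (T + T₀) = finrank L ↥(wp L w (T + T₀)) := by
    unfold dw
    have : (wp L w (T + T₀)).map (AlgHom.id L (MvPolynomial V L)).toLinearMap =
        wp L w (T + T₀) := Submodule.map_id _
    rw [this]
  rw [h2] at h
  have h3 := finrank_wp (L := L) hw (T + T₀)
  push_cast at h3
  exact h.trans h3

end Pool.Agent.W944.Wt
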