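import Pool.Agent.W944.Elim

/-! # Weighted elimination of the variables of a triangular system -/

set_option autoImplicit false

open Module MvPolynomial

namespace Pool.Agent.W944.Wt

variable {L : Type*} [Field L] {V : Type*} [Fintype V]

/-- the weighted degree of an exponent -/
def wd (w : V → ℕ) (m : V →₀ ℕ) : ℕ := ∑ v, w v * m v

lemma wd_add (w : V → ℕ) (m m' : V →₀ ℕ) : wd w (m + m') = wd w m + wd w m' := by
  unfold wd
  rw [← Finset.sum_add_distrib]
  apply Finset.sum_congr rfl
  intro v _
  rw [Finsupp.add_apply, mul_add]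

lemma wd_zero (w : V → ℕ) : wd w 0 = 0 := by
  unfold wd
  simp

lemma wd_single [DecidableEq V] (w : V → ℕ) (v : V) (k : ℕ) :
    wd w (Finsupp.single v k) = w v * k := by
  unfold wd
  rw [Finset.sum_eq_single v]
  · rw [Finsupp.single_eq_same]
  · intro b _ hb
    rw [Finsupp.single_eq_of_ne hb, mul_zero]
  · intro h
    exact absurd (Finset.mem_univ v) h

variable (L) in
/-- the polynomials of weighted degree at most `T` -/
noncomputable def wp (w : V → ℕ) (T : ℕ) : Submodule L (MvPolynomial V L) :=
  restrictSupport L {m | wd w m ≤ T}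

variable {w : V → ℕ}

lemma mem_wp {T : ℕ} {p : MvPolynomial V L} : p ∈ wp L w T ↔ ∀ m ∈ p.support, wd w m ≤ T := by
  unfold wp
  rw [mem_restrictSupport_iff]
  rfl

lemma wp_mono {S T : ℕ} (h : S ≤ T) : wp L w S ≤ wp L w T := by
  intro p hp
  rw [mem_wp] at hp ⊢
  exact fun m hm => (hp m hm).trans h

lemma mul_mem_wp {S T : ℕ} {p q : MvPolynomial V L} (hp : p ∈ wp L w S) (hq : q ∈ wp L w T) :
    p * q ∈ wp L w (S + T) := by
  classical
  rw [mem_wp] at hp hq ⊢
  intro m hm
  obtain ⟨a, ha, b, hb, rfl⟩ := Finset.mem_add.mp (support_mul p q hm)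
  rw [wd_add]
  exact Nat.add_le_add (hp a ha) (hq b hb)

lemma C_mem_wp (c : L) (T : ℕ) : (C c : MvPolynomial V L) ∈ wp L w T := by
  classical
  rw [mem_wp]
  intro m hm
  rw [MvPolynomial.mem_support_iff, coeff_C] at hm
  have : 0 = m := by
    by_contra h
    rw [if_neg h] at hm
    exact hm rfl
  rw [← this, wd_zero]
  exact Nat.zero_le _

lemma one_mem_wp (T : ℕ) : (1 : MvPolynomial V L) ∈ wp L w T := by
  rw [← C_1]
  exact C_mem_wp 1 T

lemma X_mem_wp {v : V} {T : ℕ} (h : w v ≤ T) : (X v : MvPolynomial V L) ∈ wp L w T := by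
  classical
  rw [mem_wp]
  intro m hm
  rw [support_X, Finset.mem_singleton] at hm
  rw [hm, wd_single, mul_one]
  exact h

/-! ### The dimension of the space of polynomials of weighted degree at most `T` -/

lemma bern (y ω : ℝ) (hy : 0 ≤ y) (hω : 0 ≤ ω) (M : ℕ) :
    y ^ M * ((M + 1) * ω) + y ^ (M + 1) ≤ (y + ω) ^ (M + 1) := by
  induction M with
  | zero => simp; linarith
  | succ M ih =>
    have h1 : y ^ (M + 1) ≤ (y + ω) ^ (M + 1) := pow_le_pow_left₀ hy (by linarith) _
    calc y ^ (M + 1) * (((M + 1 : ℕ) + 1) * ω) + y ^ (M + 1 + 1)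
        = (y ^ M * ((M + 1) * ω) + y ^ (M + 1)) * y + ω * y ^ (M + 1) := by push_cast; ring
      _ ≤ (y + ω) ^ (M + 1) * y + ω * (y + ω) ^ (M + 1) := by gcongr
      _ = (y + ω) ^ (M + 1 + 1) := by ring

lemma wd_finite (hw : ∀ v, 0 < w v) (T : ℕ) : {m : V →₀ ℕ | wd w m ≤ T}.Finite := by
  have h1 : (Set.Finite {f : V → ℕ | ∀ i, f i ≤ T}) :=
    Set.Finite.pi' fun _ ↦ Set.finite_le_nat _
  have h2 := h1.preimage (f := fun m : V →₀ ℕ => (m : V → ℕ)) DFunLike.coe_injective.injOn
  apply h2.subset
  intro m hm i
  have h3 : w i * m i ≤ wd w m :=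
    Finset.single_le_sum (f := fun v => w v * m v) (fun _ _ => Nat.zero_le _) (Finset.mem_univ i)
  have h4 : 1 * m i ≤ w i * m i := Nat.mul_le_mul_right _ (hw i)
  have h5 : wd w m ≤ T := hm
  change m i ≤ T
  omega

/-- the exponents in the variables of `s` -/
def cs (w : V → ℕ) (s : Finset V) (T : ℕ) : Set (V →₀ ℕ) :=
  {m | (∀ v, v ∉ s → m v = 0) ∧ wd w m ≤ T}

lemma card_cs [DecidableEq V] (hw : ∀ v, 0 < w v) (s : Finset V) : ∀ T : ℕ,
    ((cs w s T).ncard : ℝ) ≤ ((T : ℝ) + ∑ v ∈ s, (w v : ℝ)) ^ s.card /
      (s.card.factorial * ∏ v ∈ s, (w v : ℝ)) := by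
  have hfin : ∀ (s : Finset V) (T : ℕ), (cs w s T).Finite := fun s T =>
    (wd_finite hw T).subset (fun m hm => hm.2)
  induction s using Finset.induction_on with
  | empty =>
    intro T
    have h1 : cs w ∅ T ⊆ {0} := by
      intro m hm
      rw [Set.mem_singleton_iff]
      ext v
      exact hm.1 v (Finset.notMem_empty v)
    have h2 := Set.ncard_le_ncard h1 (Set.finite_singleton _)
    rw [Set.ncard_singleton] at h2
    simp
    exact_mod_cast h2
  | insert v s hv ih =>
    intro T
    induction T using Nat.strong_induction_on with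
    | _ T ihT =>
      rw [Finset.card_insert_of_notMem hv, Finset.sum_insert hv, Finset.prod_insert hv]
      set M := s.card
      set Ss := ∑ x ∈ s, (w x : ℝ) with hS
      set P := ∏ x ∈ s, (w x : ℝ) with hP
      have hP0 : 0 < P := Finset.prod_pos fun x _ => by exact_mod_cast hw x
      have hS0 : 0 ≤ Ss := Finset.sum_nonneg fun x _ => by positivity
      have hωr : (0 : ℝ) < w v := by exact_mod_cast hw v
      have h1 := ih T
      have hb := bern ((T : ℝ) + Ss) (w v) (by positivity) hωr.le M
      have hfac : ((M + 1).factorial : ℝ) = (M + 1) * M.factorial := by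
        rw [Nat.factorial_succ]; push_cast; ring
      rcases lt_or_ge T (w v) with hT | hT
      · have h2 : cs w (insert v s) T ⊆ cs w s T := by
          intro m hm
          refine ⟨fun u hu => ?_, hm.2⟩
          by_cases huv : u = v
          · subst huv
            by_contra h0
            have h3 : w u * m u ≤ wd w m := Finset.single_le_sum (f := fun v => w v * m v)
              (fun _ _ => Nat.zero_le _) (Finset.mem_univ u)
            have h4 : w u * 1 ≤ w u * m u := Nat.mul_le_mul_left _ (by omega)
            have h5 : wd w m ≤ T := hm.2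
            omega
          · exact hm.1 u (by
              rw [Finset.mem_insert, not_or]
              exact ⟨huv, hu⟩)
        have h3 : ((cs w (insert v s) T).ncard : ℝ) ≤ (cs w s T).ncard := by
          exact_mod_cast Set.ncard_le_ncard h2 (hfin s T)
        refine h3.trans (h1.trans ?_)
        rw [div_le_div_iff₀ (by positivity) (by positivity), hfac]
        have h4 : 0 ≤ ((T : ℝ) + Ss) ^ (M + 1) := by positivity
        have e1 : (T : ℝ) + (w v + Ss) = (T : ℝ) + Ss + w v := by ring
        rw [e1]
        calc ((T : ℝ) + Ss) ^ M * ((M + 1) * M.factorial * (w v * P))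
            = (((T : ℝ) + Ss) ^ M * ((M + 1) * w v)) * (M.factorial * P) := by ring
          _ ≤ ((T : ℝ) + Ss + w v) ^ (M + 1) * (M.factorial * P) := by
              apply mul_le_mul_of_nonneg_right _ (by positivity)
              linarith
      · have h2 : cs w (insert v s) T ⊆ cs w s T ∪
            (fun m => m + Finsupp.single v 1) '' cs w (insert v s) (T - w v) := by
          intro m hm
          by_cases h0 : m v = 0
          · left
            refine ⟨fun u hu => ?_, hm.2⟩
            by_cases huv : u = v
            · rw [huv]; exact h0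
            · exact hm.1 u (by
                rw [Finset.mem_insert, not_or]
                exact ⟨huv, hu⟩)
          · right
            have h3 : (m - Finsupp.single v 1) + Finsupp.single v 1 = m := by
              ext l
              by_cases hl : v = l
              · subst hl
                simp only [Finsupp.coe_add, Pi.add_apply, Finsupp.coe_tsub, Pi.sub_apply,
                  Finsupp.single_eq_same]
                omega
              · rw [Finsupp.coe_add, Pi.add_apply, Finsupp.coe_tsub, Pi.sub_apply,
                  Finsupp.single_apply, if_neg hl]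
                omega
            refine ⟨m - Finsupp.single v 1, ⟨fun u hu => ?_, ?_⟩, h3⟩
            · rw [Finsupp.coe_tsub, Pi.sub_apply, hm.1 u hu]
              exact Nat.zero_sub _
            · have h4 := congrArg (wd w) h3
              rw [wd_add, wd_single] at h4
              have h5 : wd w m ≤ T := hm.2
              omega
        have h3 : (cs w (insert v s) T).ncard ≤ (cs w s T).ncard +
            (cs w (insert v s) (T - w v)).ncard := by
          refine (Set.ncard_le_ncard h2 ((hfin _ _).union ((hfin _ _).image _))).trans ?_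
          refine (Set.ncard_union_le _ _).trans ?_
          exact Nat.add_le_add_left (Set.ncard_image_le (hfin _ _)) _
        have h4 : ((cs w (insert v s) T).ncard : ℝ) ≤ (cs w s T).ncard +
            (cs w (insert v s) (T - w v)).ncard := by exact_mod_cast h3
        have h5 := ihT (T - w v) (by have := hw v; omega)
        rw [Finset.card_insert_of_notMem hv, Finset.sum_insert hv, Finset.prod_insert hv,
          Nat.cast_sub hT] at h5
        have e1 : (T : ℝ) - w v + (w v + Ss) = (T : ℝ) + Ss := by ring
        rw [← hS, ← hP, e1] at h5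
        refine (h4.trans (add_le_add h1 h5)).trans ?_
        have e2 : (T : ℝ) + (w v + Ss) = (T : ℝ) + Ss + w v := by ring
        rw [e2, hfac, div_add_div _ _ (by positivity) (by positivity),
          div_le_div_iff₀ (by positivity) (by positivity)]
        have hfp : (0 : ℝ) < M.factorial := by positivity
        calc (((T : ℝ) + Ss) ^ M * ((M + 1) * M.factorial * (w v * P)) +
            M.factorial * P * ((T : ℝ) + Ss) ^ (M + 1)) * ((M + 1) * M.factorial * (w v * P))
            = (((T : ℝ) + Ss) ^ M * ((M + 1) * w v) + ((T : ℝ) + Ss) ^ (M + 1)) *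
              (M.factorial * P * ((M + 1) * M.factorial * (w v * P))) := by ring
          _ ≤ ((T : ℝ) + Ss + w v) ^ (M + 1) *
              (M.factorial * P * ((M + 1) * M.factorial * (w v * P))) := by gcongr
          _ = _ := by ring

lemma wp_fg (hw : ∀ v, 0 < w v) (T : ℕ) : (wp L w T).FG := by
  have : Finite {m : V →₀ ℕ | wd w m ≤ T} := (wd_finite hw T).to_subtype
  have := Module.Finite.of_basis (basisRestrictSupport L {m : V →₀ ℕ | wd w m ≤ T})
  exact Module.Finite.iff_fg.mp this

lemma finrank_wp [DecidableEq V] (hw : ∀ v, 0 < w v) (T : ℕ) :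
    (finrank L ↥(wp L w T) : ℝ) ≤ ((T : ℝ) + ∑ v, (w v : ℝ)) ^ (Fintype.card V) /
      ((Fintype.card V).factorial * ∏ v, (w v : ℝ)) := by
  have : Finite {m : V →₀ ℕ | wd w m ≤ T} := (wd_finite hw T).to_subtype
  have h1 : finrank L ↥(wp L w T) = (cs w Finset.univ T).ncard := by
    have h := finrank_eq_nat_card_basis (basisRestrictSupport L {m : V →₀ ℕ | wd w m ≤ T})
    have h2 : cs w Finset.univ T = {m : V →₀ ℕ | wd w m ≤ T} := by
      ext m
      constructor
      · intro hm; exact hm.2
      · intro hm
        exact ⟨fun v hv => absurd (Finset.mem_univ v) hv, hm⟩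
    rw [h2]
    exact h
  rw [h1]
  exact card_cs hw Finset.univ T

end Pool.Agent.W944.Wt
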