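import Pool.Agent.W944.WtBorder

/-! # Computations with levels -/

set_option autoImplicit false
set_option linter.unusedSectionVars false
set_option linter.unusedVariables false

open Module MvPolynomial Topology

namespace Pool.Agent.W944.Wt

open Pool.Agent.H632R2.Border

section weights

variable {n : ℕ} (t : ℕ) (w : ℕ → ℕ) (lev : Fin n → ℕ) (R : Finset (Fin n))

/-- weight of the product `s` -/
def lwz (s : Fin n) : ℕ := w (lev s)

/-- weight bound for the first factor -/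
def lA (s : Fin n) : ℕ := if s ∈ R then w (lev s) else w (lev s - 1)

/-- weight of the adjoint variable -/
def lwv (s : Fin n) : ℕ := 4 * w t - (if s ∈ R then 3 * w (lev s) else 2 * w (lev s))

/-- weighted degree of the adjoint equation -/
def ldv (s : Fin n) : ℕ := lwv t w lev R s + (if s ∈ R then w (lev s) + w (lev s) / 2 else
  w (lev s - 1))

variable {t w lev R}

lemma w_lt (hw : ∀ i, 2 * w i ≤ w (i + 1)) (hw0 : 1 ≤ w 0) (i : ℕ) : 1 ≤ w i := by
  induction i with
  | zero => exact hw0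
  | succ i ih => have := hw i; omega

lemma w_two (hw : ∀ i, 2 * w i ≤ w (i + 1)) (hw0 : 1 ≤ w 0) {i j : ℕ} (h : i < j) :
    2 * w i ≤ w j := by
  obtain ⟨d, rfl⟩ : ∃ d, j = i + 1 + d := ⟨j - (i + 1), by omega⟩
  induction d with
  | zero => exact hw i
  | succ d ih =>
    have h1 := hw (i + 1 + d)
    have h2 := ih (by omega)
    have e : i + 1 + (d + 1) = i + 1 + d + 1 := by omega
    rw [e]
    omega

lemma w_mono (hw : ∀ i, 2 * w i ≤ w (i + 1)) (hw0 : 1 ≤ w 0) {i j : ℕ} (h : i ≤ j) :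
    w i ≤ w j := by
  rcases Nat.lt_or_ge i j with h1 | h1
  · have := w_two hw hw0 h1; omega
  · have : i = j := le_antisymm h h1
    rw [this]

lemma l_hv2 (hw : ∀ i, 2 * w i ≤ w (i + 1)) (hw0 : 1 ≤ w 0) (hlev : ∀ s, lev s ≤ t)
    (hlev1 : ∀ s ∉ R, 1 ≤ lev s) (s j : Fin n) (hle : lev s ≤ lev j)
    (h : j ∈ R ∨ lev s < lev j) :
    lwz w lev j + lwv t w lev R j ≤ ldv t w lev R s := by
  unfold ldv lwz lwv
  have a1 := w_mono hw hw0 (hlev j)
  have a2 := w_mono hw hw0 (hlev s)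
  by_cases hj : j ∈ R
  · simp only [if_pos hj]
    rcases Nat.lt_or_ge (lev s) (lev j) with h5 | h5
    · have h6 := w_two hw hw0 h5
      split_ifs with hs <;> omega
    · have h6 : lev s = lev j := le_antisymm hle h5
      rw [h6]
      split_ifs with hs <;> omega
  · simp only [if_neg hj]
    have h6 := w_two hw hw0 (h.resolve_left hj)
    split_ifs with hs <;> omega

lemma l_hv3 (hw : ∀ i, 2 * w i ≤ w (i + 1)) (hw0 : 1 ≤ w 0) (hlev : ∀ s, lev s ≤ t)
    (hlev1 : ∀ s ∉ R, 1 ≤ lev s) (s j : Fin n) (hle : lev s ≤ lev j) :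
    lA w lev R j + lwv t w lev R j ≤ ldv t w lev R s := by
  unfold ldv lA lwv
  have a1 := w_mono hw hw0 (hlev j)
  have a2 := w_mono hw hw0 (hlev s)
  by_cases hj : j ∈ R
  · simp only [if_pos hj]
    rcases Nat.lt_or_ge (lev s) (lev j) with h5 | h5
    · have h6 := w_two hw hw0 h5
      split_ifs with hs <;> omega
    · have h6 : lev s = lev j := le_antisymm hle h5
      rw [h6]
      split_ifs with hs <;> omega
  · simp only [if_neg hj]
    have hj1 := hlev1 j hj
    have h7 := w_two hw hw0 (show lev j - 1 < lev j by omega)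
    rcases Nat.lt_or_ge (lev s) (lev j) with h5 | h5
    · have h6 := w_two hw hw0 h5
      split_ifs with hs <;> omega
    · have h6 : lev s = lev j := le_antisymm hle h5
      rw [h6]
      split_ifs with hs <;> omega

lemma l_hΩ (hw : ∀ i, 2 * w i ≤ w (i + 1)) (hw0 : 1 ≤ w 0) (hlev : ∀ s, lev s ≤ t)
    (hlev1 : ∀ s ∉ R, 1 ≤ lev s) (s : Fin n) :
    lA w lev R s + lwz w lev s + lwv t w lev R s ≤ 4 * w t := by
  unfold lA lwz lwv
  have a2 := w_mono hw hw0 (hlev s)
  split_ifs with hs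
  · omega
  · have hj1 := hlev1 s hs
    have h3 := w_two hw hw0 (show lev s - 1 < lev s by omega)
    omega

lemma lwv_pos (hw : ∀ i, 2 * w i ≤ w (i + 1)) (hw0 : 1 ≤ w 0) (hlev : ∀ s, lev s ≤ t)
    (s : Fin n) : 0 < lwv t w lev R s := by
  unfold lwv
  have a2 := w_mono hw hw0 (hlev s)
  have := w_lt hw hw0 t
  split_ifs with hs <;> omega

/-- the ratio of the degrees and the weights -/
lemma l_ratio (hw : ∀ i, 2 * w i ≤ w (i + 1)) (hw0 : 1 ≤ w 0) (hlev : ∀ s, lev s ≤ t)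
    (hlev1 : ∀ s ∉ R, 1 ≤ lev s) (s : Fin n) :
    ((lA w lev R s + lwz w lev s : ℕ) : ℝ) * (ldv t w lev R s : ℝ) ≤
      ((lwz w lev s : ℕ) : ℝ) * (lwv t w lev R s : ℝ) *
        (if s ∈ R then 6 else Real.exp (3 / 2 * (w (lev s - 1) / w (lev s)))) := by
  have a2 := w_mono hw hw0 (hlev s)
  have a3 := w_lt hw hw0 (lev s)
  by_cases hs : s ∈ R
  · have h1 : lA w lev R s = w (lev s) := by unfold lA; rw [if_pos hs]
    have h2 : lwz w lev s = w (lev s) := rfl
    have h3 : ldv t w lev R s = 4 * w t - 3 * w (lev s) + (w (lev s) + w (lev s) / 2) := by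
      unfold ldv lwv; rw [if_pos hs, if_pos hs]
    have h4 : lwv t w lev R s = 4 * w t - 3 * w (lev s) := by
      unfold lwv; rw [if_pos hs]
    have h5 : ldv t w lev R s ≤ 3 * lwv t w lev R s := by
      rw [h3, h4]; omega
    have h5r : (ldv t w lev R s : ℝ) ≤ 3 * lwv t w lev R s := by exact_mod_cast h5
    rw [h1, h2, if_pos hs]
    push_cast
    have h6 : (0 : ℝ) ≤ (w (lev s) : ℝ) := by positivity
    nlinarith
  · have hi := hlev1 s hs
    set x := w (lev s - 1) with hx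
    set z := w (lev s) with hz
    have hzr : (0 : ℝ) < z := by exact_mod_cast a3
    have h1 : lA w lev R s = x := by unfold lA; rw [if_neg hs]
    have h2 : lwz w lev s = z := rfl
    have h3 : ldv t w lev R s = lwv t w lev R s + x := by
      unfold ldv; rw [if_neg hs]
    have h4 : 2 * z ≤ lwv t w lev R s := by
      unfold lwv
      rw [if_neg hs]
      omega
    rw [h1, h2, h3, if_neg hs]
    set v := lwv t w lev R s with hv
    have e1 : (1 : ℝ) + x / z ≤ Real.exp (x / z) := by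
      have := Real.add_one_le_exp ((x : ℝ) / z)
      linarith
    have e2 : (1 : ℝ) + x / (2 * z) ≤ Real.exp (x / (2 * z)) := by
      have := Real.add_one_le_exp ((x : ℝ) / (2 * z))
      linarith
    have e3 : Real.exp (3 / 2 * (x / z)) = Real.exp (x / z) * Real.exp (x / (2 * z)) := by
      rw [← Real.exp_add]
      congr 1
      field_simp
      ring
    have h4r : 2 * (z : ℝ) ≤ v := by exact_mod_cast h4
    have e4 : ((x + z : ℕ) : ℝ) = (z : ℝ) * (1 + x / z) := by
      push_cast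
      field_simp
      ring
    have e5 : ((v + x : ℕ) : ℝ) ≤ (v : ℝ) * (1 + x / (2 * z)) := by
      push_cast
      have h7 : (x : ℝ) ≤ v * (x / (2 * z)) := by
        rw [mul_div_assoc', le_div_iff₀ (by positivity)]
        have : (0 : ℝ) ≤ x := by positivity
        nlinarith
      linarith
    rw [e3]
    calc ((x + z : ℕ) : ℝ) * ((v + x : ℕ) : ℝ)
        ≤ ((z : ℝ) * (1 + x / z)) * ((v : ℝ) * (1 + x / (2 * z))) := by
          rw [e4]
          gcongr
      _ ≤ ((z : ℝ) * Real.exp (x / z)) * ((v : ℝ) * Real.exp (x / (2 * z))) := by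
          gcongr
      _ = _ := by ring

end weights

variable {Ω₀ L : Type*} [Field Ω₀] [Field L] {σ ι : Type*}
  {O : ValuationSubring L} {φ : O →+* Ω₀} {j : Ω₀ →+* O}

/-- **The inequality for limits of computations with levels.** -/
theorem level_border [IsAlgClosed Ω₀] [Fintype ι] (hj : ∀ c, φ (j c) = c)
    (S : σ → MvPolynomial ι Ω₀) (hS : ∀ v, (S v).totalDegree ≤ 1) (f : MvPolynomial σ Ω₀)
    {V : Type*} (y : V → MvPolynomial ι Ω₀) (e : ℕ) (he : 0 < e)
    (hy : ∀ v, (y v).IsHomogeneous e)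
    (hz : ∀ x : ι → Ω₀, (∀ v, eval x (y v) = 0) → x = 0)
    (hyS : ∀ v, ∃ (c : Ω₀) (u : σ), y v = C c * aeval S (pderiv u f))
    (hι : 0 < Fintype.card ι) {n : ℕ} (δ t : ℕ) (hδ : 1 ≤ δ) (w : ℕ → ℕ) (hw0 : δ ≤ w 0)
    (hw : ∀ i, 2 * w i ≤ w (i + 1))
    (lev : Fin n → ℕ) (R : Finset (Fin n))
    (hlev : ∀ s, lev s ≤ t) (hlev1 : ∀ s ∉ R, 1 ≤ lev s)
    (a b : Fin n → MvPolynomial σ L) (qa qb : Fin n → MvPolynomial σ L)
    (ca cb : Fin n → Fin n → L) (gm : Fin n → L)
    (ha : ∀ t, a t = qa t + ∑ j ∈ Finset.Iio t, ca t j • (a j * b j))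
    (hb : ∀ t, b t = qb t + ∑ j ∈ Finset.Iio t, cb t j • (a j * b j))
    (qf : MvPolynomial σ L)
    (hqa : ∀ t, (qa t).totalDegree ≤ δ) (hqb : ∀ t, (qb t).totalDegree ≤ δ)
    (hqf : qf.totalDegree ≤ δ)
    (hca : ∀ s, ∀ j < s, ca s j ≠ 0 → lev j ≤ lev s ∧ (s ∈ R ∨ lev j < lev s))
    (hcb : ∀ s, ∀ j < s, cb s j ≠ 0 → lev j ≤ lev s)
    (F : MvPolynomial σ O) (hF : map O.subtype F = qf + ∑ j, gm j • (a j * b j))
    (hf : map φ F = f) :
    (e : ℝ) ^ (Fintype.card ι) ≤ ((4 * w t : ℕ) : ℝ) ^ (Fintype.card ι) *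
      (∏ s, (if s ∈ R then 6 else Real.exp (3 / 2 * (w (lev s - 1) / w (lev s))))) *
        (Real.exp 2 * ((2 * n : ℕ) + 1) * (Fintype.card ι + 1)) := by
  classical
  have hw1 : 1 ≤ w 0 := hδ.trans hw0
  have hpos := w_lt hw hw1
  have hδw : ∀ i, δ ≤ w i := fun i => hw0.trans (w_mono hw hw1 (Nat.zero_le i))
  have h := wborder (O := O) (φ := φ) (j := j) hj S hS f y e he hy hz hyS hι
    (lwz w lev) (lwv t w lev R) (lA w lev R) (lwz w lev)
    (fun s => lA w lev R s + lwz w lev s) (ldv t w lev R) (4 * w t)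
    a b qa qb ca cb gm ha hb qf
    (fun s => (hqa s).trans (by unfold lA; split_ifs <;> exact hδw _))
    (fun s => (hqb s).trans (hδw _))
    (hqf.trans ((hδw t).trans (by omega)))
    (fun s i hi hne => by
      unfold lwz lA
      obtain ⟨h1, h2⟩ := hca s i hi hne
      split_ifs with hs
      · exact w_mono hw hw1 h1
      · have := h2.resolve_left hs
        exact w_mono hw hw1 (by omega))
    (fun s i hi hne => w_mono hw hw1 (hcb s i hi hne))
    (fun s => hpos _) (fun s => lwv_pos hw hw1 hlev s) (fun s => Nat.le_add_left _ _)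
    (fun s => le_rfl) (fun s => Nat.le_add_right _ _)
    (fun s i hi hne => l_hv2 hw hw1 hlev hlev1 s i (hca i s hi hne).1 (hca i s hi hne).2)
    (fun s i hi hne => l_hv3 hw hw1 hlev hlev1 s i (hcb i s hi hne))
    (fun s => l_hΩ hw hw1 hlev hlev1 s) (by have := hpos t; omega) F hF hf
  have hW : (0 : ℝ) < (∏ s, ((lwz w lev s : ℕ) : ℝ)) * ∏ s, ((lwv t w lev R s : ℕ) : ℝ) := by
    apply mul_pos
    · exact Finset.prod_pos fun s _ => by exact_mod_cast hpos _
    · exact Finset.prod_pos fun s _ => by exact_mod_cast lwv_pos hw hw1 hlev s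
  have hP : (∏ s, ((lA w lev R s + lwz w lev s : ℕ) : ℝ)) *
      ∏ s, ((ldv t w lev R s : ℕ) : ℝ) ≤
      ((∏ s, ((lwz w lev s : ℕ) : ℝ)) * ∏ s, ((lwv t w lev R s : ℕ) : ℝ)) *
        (∏ s, (if s ∈ R then 6 else Real.exp (3 / 2 * (w (lev s - 1) / w (lev s))))) := by
    rw [← Finset.prod_mul_distrib, ← Finset.prod_mul_distrib, ← Finset.prod_mul_distrib]
    apply Finset.prod_le_prod
    · intro s _
      positivity
    · intro s _
      exact l_ratio hw hw1 hlev hlev1 s
  set W := (∏ s, ((lwz w lev s : ℕ) : ℝ)) * ∏ s, ((lwv t w lev R s : ℕ) : ℝ) with hWdef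
  set E := (∏ s, (if s ∈ R then 6 else Real.exp (3 / 2 * ((w (lev s - 1) : ℝ) / w (lev s)))))
    with hE
  have h2 : W * (e : ℝ) ^ (Fintype.card ι) ≤ W * (((4 * w t : ℕ) : ℝ) ^ (Fintype.card ι) *
      E * (Real.exp 2 * ((2 * n : ℕ) + 1) * (Fintype.card ι + 1))) := by
    calc W * (e : ℝ) ^ (Fintype.card ι) = (e : ℝ) ^ (Fintype.card ι) * W := mul_comm _ _
      _ ≤ _ := h
      _ ≤ ((4 * w t : ℕ) : ℝ) ^ (Fintype.card ι) * (W * E) *
          (Real.exp 2 * ((2 * n : ℕ) + 1) * (Fintype.card ι + 1)) := by gcongr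
      _ = _ := by ring
  exact le_of_mul_le_mul_left h2 hW

end Pool.Agent.W944.Wt
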