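import Pool.Agent.W944.WtChain
import Pool.Agent.W944.Prog

/-! # Computations with weights -/

set_option autoImplicit false
set_option linter.unusedSectionVars false

open Module MvPolynomial

namespace Pool.Agent.W944.Wt

open Pool.Agent.W944.Cx (wsol wsol_eq adj_sum)

section Space

variable {L : Type*} [Field L] {V : Type*} [Fintype V] {w : V → ℕ}
  {B : Type*} [CommRing B] [Algebra L B] (ev : MvPolynomial V L →ₐ[L] B)

/-- the image of the polynomials of weighted degree at most `T` -/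
noncomputable def ew (w : V → ℕ) (T : ℕ) : Submodule L B := (wp L w T).map ev.toLinearMap

lemma ew_mul {S T : ℕ} {x y : B} (hx : x ∈ ew ev w S) (hy : y ∈ ew ev w T) :
    x * y ∈ ew ev w (S + T) := by
  obtain ⟨p, hp, rfl⟩ := hx
  obtain ⟨q, hq, rfl⟩ := hy
  exact ⟨p * q, mul_mem_wp hp hq, map_mul ev p q⟩

lemma ew_mono {S T : ℕ} (h : S ≤ T) : ew ev w S ≤ ew ev w T := Submodule.map_mono (wp_mono h)

lemma one_mem_ew (T : ℕ) : (1 : B) ∈ ew ev w T := ⟨1, one_mem_wp T, map_one ev⟩

lemma ew_pow_le (W : ℕ) (T : ℕ) : (ew ev w W) ^ T ≤ ew ev w (W * T) := by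
  induction T with
  | zero =>
    rw [pow_zero, mul_zero]
    intro x hx
    obtain ⟨c, rfl⟩ := Submodule.mem_one.mp hx
    rw [Algebra.algebraMap_eq_smul_one]
    exact Submodule.smul_mem _ _ (one_mem_ew ev 0)
  | succ T ih =>
    rw [pow_succ, Submodule.mul_le]
    intro x hx y hy
    rw [Nat.mul_succ]
    exact ew_mul ev (ih hx) hy

end Space

variable {L : Type*} [Field L] {σ ι : Type*} [Fintype ι] {n : ℕ}

/-- the variables: the original ones, the values of the products and the adjoint variables -/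
abbrev Vs (ι : Type*) (n : ℕ) : Type _ := ι ⊕ (Fin n ⊕ Fin n)

/-- the weights -/
def wt (ι : Type*) (wz wv : Fin n → ℕ) : Vs ι n → ℕ :=
  Sum.elim (fun _ => 1) (Sum.elim wz wv)

lemma rename_mem (wz wv : Fin n → ℕ) (q : MvPolynomial ι L) (k : ℕ) (hq : q.totalDegree ≤ k) :
    rename Sum.inl q ∈ wp L (wt ι wz wv) k := by
  classical
  rw [mem_wp]
  intro m hm
  rw [support_rename_of_injective Sum.inl_injective, Finset.mem_image] at hm
  obtain ⟨m', hm', rfl⟩ := hm
  have h1 : wd (wt ι wz wv) (Finsupp.mapDomain (Sum.inl : ι → Vs ι n) m') = m'.degree := by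
    unfold wd
    rw [Fintype.sum_sum_type]
    have e1 : ∀ i : ι, wt ι wz wv (Sum.inl i) * (Finsupp.mapDomain (Sum.inl : ι → Vs ι n) m') (Sum.inl i) =
        m' i := by
      intro i
      rw [Finsupp.mapDomain_apply Sum.inl_injective]
      change 1 * m' i = m' i
      exact one_mul _
    have e2 : ∀ k : Fin n ⊕ Fin n, wt ι wz wv (Sum.inr k) *
        (Finsupp.mapDomain (Sum.inl : ι → Vs ι n) m') (Sum.inr k) = 0 := by
      intro k
      rw [Finsupp.mapDomain_of_notMem_range, mul_zero]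
      rintro ⟨i, hi⟩
      cases hi
    rw [Finset.sum_congr rfl (fun i _ => e1 i), Finset.sum_congr rfl (fun k _ => e2 k),
      Finset.sum_const_zero, add_zero, Finsupp.degree_eq_sum]
  rw [h1]
  exact (le_totalDegree hm').trans hq

/-- an affine combination of products, with polynomial part `q t` -/
noncomputable def pa (q : Fin n → MvPolynomial ι L) (c : Fin n → Fin n → L) (t : Fin n) :
    MvPolynomial (Vs ι n) L :=
  rename Sum.inl (q t) + ∑ j ∈ Finset.Iio t, c t j • X (Sum.inr (Sum.inl j))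

/-- the right-hand sides -/
noncomputable def ps (qa qb : Fin n → MvPolynomial ι L) (ca cb : Fin n → Fin n → L)
    (gm : Fin n → L) : Vs ι n → MvPolynomial (Vs ι n) L
  | Sum.inl _ => 0
  | Sum.inr (Sum.inl t) => pa qa ca t * pa qb cb t
  | Sum.inr (Sum.inr t) => C (gm t) + ∑ j ∈ Finset.Ioi t,
      (ca j t • (pa qb cb j * X (Sum.inr (Sum.inr j))) +
        cb j t • (pa qa ca j * X (Sum.inr (Sum.inr j))))

/-- the order of the eliminations -/
def rks (ι : Type*) (n : ℕ) : Vs ι n → ℕ
  | Sum.inl _ => 2 * n + 5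
  | Sum.inr (Sum.inl t) => n + (n - 1 - t.1)
  | Sum.inr (Sum.inr t) => t.1

lemma rks_inj : Set.InjOn (rks ι n) (Set.range (Sum.inr : Fin n ⊕ Fin n → Vs ι n)) := by
  rintro _ ⟨a, rfl⟩ _ ⟨b, rfl⟩ h
  rcases a with a | a <;> rcases b with b | b <;> simp only [rks] at h
  · congr 2; apply Fin.ext; omega
  · exfalso; omega
  · exfalso; omega
  · congr 2; apply Fin.ext; omega

lemma X_supp' {V : Type*} {s : Set V} {i : V} (hi : i ∈ s) :
    (X i : MvPolynomial V L) ∈ supported L s := Algebra.subset_adjoin ⟨i, hi, rfl⟩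

lemma pa_supported (q : Fin n → MvPolynomial ι L) (c : Fin n → Fin n → L) (t : Fin n)
    (s : Set (Vs ι n)) (hx : ∀ i, Sum.inl i ∈ s) (hs : ∀ j < t, Sum.inr (Sum.inl j) ∈ s) :
    pa q c t ∈ supported L s := by
  unfold pa
  apply Subalgebra.add_mem
  · have h1 : ((rename Sum.inl : MvPolynomial ι L →ₐ[L] MvPolynomial (Vs ι n) L)).range ≤
        supported L s := by
      rw [← Algebra.map_top, ← adjoin_range_X, AlgHom.map_adjoin, Algebra.adjoin_le_iff]
      rintro _ ⟨_, ⟨i, rfl⟩, rfl⟩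
      have : (rename Sum.inl : MvPolynomial ι L →ₐ[L] MvPolynomial (Vs ι n) L) (X i) =
          X (Sum.inl i) := rename_X _ _
      rw [this]
      exact X_supp' (hx i)
    exact h1 ⟨_, rfl⟩
  · apply Subalgebra.sum_mem
    intro j hj
    exact Subalgebra.smul_mem _ (X_supp' (hs j (Finset.mem_Iio.mp hj))) _

lemma ps_supported (qa qb : Fin n → MvPolynomial ι L) (ca cb : Fin n → Fin n → L)
    (gm : Fin n → L) (i : Fin n ⊕ Fin n) : ps qa qb ca cb gm (Sum.inr i) ∈
      supported L {j | rks ι n (Sum.inr i) < rks ι n j} := by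
  rcases i with t | t
  · have h1 : ∀ i, (Sum.inl i : Vs ι n) ∈
        {j | rks ι n (Sum.inr (Sum.inl t)) < rks ι n j} := by
      intro i
      change n + (n - 1 - t.1) < 2 * n + 5
      omega
    have h2 : ∀ j < t, (Sum.inr (Sum.inl j) : Vs ι n) ∈
        {j | rks ι n (Sum.inr (Sum.inl t)) < rks ι n j} := by
      intro j hj
      change n + (n - 1 - t.1) < n + (n - 1 - j.1)
      have := Fin.lt_def.mp hj
      omega
    exact Subalgebra.mul_mem _ (pa_supported _ _ _ _ h1 h2) (pa_supported _ _ _ _ h1 h2)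
  · have h1 : ∀ i, (Sum.inl i : Vs ι n) ∈
        {j | rks ι n (Sum.inr (Sum.inr t)) < rks ι n j} := by
      intro i
      change t.1 < 2 * n + 5
      omega
    have h2 : ∀ j : Fin n, (Sum.inr (Sum.inl j) : Vs ι n) ∈
        {j | rks ι n (Sum.inr (Sum.inr t)) < rks ι n j} := by
      intro j
      change t.1 < n + (n - 1 - j.1)
      omega
    have h3 : ∀ j > t, (Sum.inr (Sum.inr j) : Vs ι n) ∈
        {j | rks ι n (Sum.inr (Sum.inr t)) < rks ι n j} := by
      intro j hj
      change t.1 < j.1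
      exact Fin.lt_def.mp hj
    change C (gm t) + _ ∈ _
    apply Subalgebra.add_mem
    · exact Subalgebra.algebraMap_mem _ _
    · apply Subalgebra.sum_mem
      intro j hj
      have hj' := Finset.mem_Ioi.mp hj
      apply Subalgebra.add_mem
      · exact Subalgebra.smul_mem _ (Subalgebra.mul_mem _
          (pa_supported _ _ _ _ h1 (fun l _ => h2 l)) (X_supp' (h3 j hj'))) _
      · exact Subalgebra.smul_mem _ (Subalgebra.mul_mem _
          (pa_supported _ _ _ _ h1 (fun l _ => h2 l)) (X_supp' (h3 j hj'))) _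

variable {wz wv A B dz dv : Fin n → ℕ}

lemma pa_mem (q : Fin n → MvPolynomial ι L) (c : Fin n → Fin n → L) (t : Fin n) (k : ℕ)
    (hq : (q t).totalDegree ≤ k) (hc : ∀ j < t, c t j ≠ 0 → wz j ≤ k) :
    pa q c t ∈ wp L (wt ι wz wv) k := by
  unfold pa
  apply Submodule.add_mem
  · exact rename_mem wz wv (q t) k hq
  · apply Submodule.sum_mem
    intro j hj
    by_cases h0 : c t j = 0
    · rw [h0, zero_smul]
      exact Submodule.zero_mem _
    · exact Submodule.smul_mem _ _ (X_mem_wp (hc j (Finset.mem_Iio.mp hj) h0))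

lemma ps_mem (qa qb : Fin n → MvPolynomial ι L) (ca cb : Fin n → Fin n → L)
    (gm : Fin n → L) (hqa : ∀ t, (qa t).totalDegree ≤ A t) (hqb : ∀ t, (qb t).totalDegree ≤ B t)
    (hca : ∀ t, ∀ j < t, ca t j ≠ 0 → wz j ≤ A t) (hcb : ∀ t, ∀ j < t, cb t j ≠ 0 → wz j ≤ B t)
    (hz1 : ∀ t, wz t ≤ dz t) (hz2 : ∀ t, A t + B t ≤ dz t) (hv1 : ∀ t, wv t ≤ dv t)
    (hv2 : ∀ t, ∀ j > t, ca j t ≠ 0 → B j + wv j ≤ dv t)
    (hv3 : ∀ t, ∀ j > t, cb j t ≠ 0 → A j + wv j ≤ dv t) (i : Fin n ⊕ Fin n) :
    X (Sum.inr i) - ps qa qb ca cb gm (Sum.inr i) ∈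
      wp L (wt ι wz wv) (wt ι dz dv (Sum.inr i)) := by
  rcases i with t | t
  · apply Submodule.sub_mem
    · exact X_mem_wp (hz1 t)
    · exact wp_mono (hz2 t) (mul_mem_wp (pa_mem qa ca t _ (hqa t) (hca t))
        (pa_mem qb cb t _ (hqb t) (hcb t)))
  · apply Submodule.sub_mem
    · exact X_mem_wp (hv1 t)
    · change C (gm t) + _ ∈ _
      apply Submodule.add_mem
      · exact C_mem_wp _ _
      · apply Submodule.sum_mem
        intro j hj
        have hj' := Finset.mem_Ioi.mp hj
        apply Submodule.add_mem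
        · by_cases h0 : ca j t = 0
          · rw [h0, zero_smul]
            exact Submodule.zero_mem _
          · apply Submodule.smul_mem
            exact wp_mono (hv2 t j hj' h0) (mul_mem_wp (pa_mem qb cb j _ (hqb j) (hcb j))
              (X_mem_wp le_rfl))
        · by_cases h0 : cb j t = 0
          · rw [h0, zero_smul]
            exact Submodule.zero_mem _
          · apply Submodule.smul_mem
            exact wp_mono (hv3 t j hj' h0) (mul_mem_wp (pa_mem qa ca j _ (hqa j) (hca j))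
              (X_mem_wp le_rfl))

end Pool.Agent.W944.Wt
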